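import Pool.Agent.H26.PD.Idem

/-!
The orientable part of a finitely generated kernel has a homomorphism onto the integers.
-/

set_option autoImplicit false

namespace Pool.Agent.H26.PD

open Pool.Agent.Helper386.PD3
open scoped Classical Matrix

noncomputable section

variable {G : Type} [Group G] {n : ℕ}

theorem hom_ext {X : Type} [AddCommGroup X] {F F' : (Fin n → RR G) →+ X}
    (h : ∀ (x : G) (j : Fin n), F (gof x • Pi.single j 1) = F' (gof x • Pi.single j 1))
    (v : Fin n → RR G) : F v = F' v := by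
  have h1 : v = ∑ i, v i • (Pi.single i (1 : RR G) : Fin n → RR G) := by
    funext k
    rw [Finset.sum_apply, Finset.sum_eq_single k]
    · simp
    · intro i _ hi
      rw [Pi.smul_apply, Pi.single_eq_of_ne (Ne.symm hi), smul_zero]
    · intro h
      exact absurd (Finset.mem_univ k) h
  rw [h1, map_sum, map_sum]
  refine Finset.sum_congr rfl fun j _ => ?_
  generalize v j = r
  induction r using rr_ind with
  | h1 g => exact h g j
  | h2 x y hx hy => rw [add_smul, map_add, map_add, hx, hy]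
  | h3 x hx => rw [neg_smul, map_neg, map_neg, hx]

/-- maps from a free module over `G` that are linear over the subgroup `H` -/
theorem lift_free {H : Subgroup G} {X : Type} [AddCommGroup X] {a : G → Module.End ℤ X}
    (ha : IsAct H a) (P : Fin n → G → X → Prop) (hP : ∀ j x, ∃ v, P j x v)
    (hP' : ∀ g ∈ H, ∀ j x v, P j x v → P j (g * x) (a g v)) :
    ∃ F : (Fin n → RR G) →+ X, (∀ g ∈ H, ∀ v, F (gof g • v) = a g (F v)) ∧
      ∀ j x, P j x (F (gof x • Pi.single j 1)) := by
  let R : Setoid G :=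
    { r := fun y y' => ∃ g ∈ H, y' = g * y
      iseqv :=
        { refl := fun y => ⟨1, H.one_mem, by simp⟩
          symm := by
            rintro y _ ⟨g, hg, rfl⟩
            exact ⟨g⁻¹, H.inv_mem hg, by group⟩
          trans := by
            rintro y _ _ ⟨g, hg, rfl⟩ ⟨g', hg', rfl⟩
            exact ⟨g' * g, H.mul_mem hg' hg, by rw [mul_assoc]⟩ } }
  let rep : G → G := fun y => (Quotient.mk R y).out
  have hrep : ∀ y, ∃ g ∈ H, y = g * rep y := fun y =>
    Quotient.exact (Quotient.out_eq (Quotient.mk R y))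
  choose γ hγ hγ' using hrep
  have hreq : ∀ g ∈ H, ∀ y, rep (g * y) = rep y := by
    intro g hg y
    change (Quotient.mk R (g * y)).out = (Quotient.mk R y).out
    congr 1
    exact (Quotient.sound (s := R) ⟨g, hg, rfl⟩).symm
  have hγmul : ∀ g ∈ H, ∀ y, γ (g * y) = g * γ y := by
    intro g hg y
    have h1 : γ (g * y) * rep y = (g * γ y) * rep y := by
      rw [← hreq g hg y, ← hγ' (g * y), hreq g hg y, mul_assoc, ← hγ' y]
    exact mul_right_cancel h1
  choose v hv using hP
  let f : Fin n → G → X := fun j x => a (γ x) (v j (rep x))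
  have hf : ∀ g ∈ H, ∀ j x, f j (g * x) = a g (f j x) := by
    intro g hg j x
    change a (γ (g * x)) (v j (rep (g * x))) = a g (a (γ x) (v j (rep x)))
    rw [hreq g hg, hγmul g hg, ha.2 g hg _ (hγ x)]
    rfl
  have hadd : ∀ g ∈ H, ∀ j (r : RR G), addR (f j) (gof g * r) = a g (addR (f j) r) := by
    intro g hg j r
    induction r using rr_ind with
    | h1 k => rw [← gof_mul, addR_of, addR_of, hf g hg]
    | h2 x y hx hy => rw [mul_add, map_add, map_add, map_add, hx, hy]
    | h3 x hx => rw [mul_neg, map_neg, map_neg, map_neg, hx]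
  let F : (Fin n → RR G) →+ X :=
    { toFun := fun u => ∑ j, addR (f j) (u j)
      map_zero' := by simp
      map_add' := fun u u' => by
        rw [← Finset.sum_add_distrib]
        exact Finset.sum_congr rfl fun j _ => by rw [Pi.add_apply, map_add] }
  have hF : ∀ u, F u = ∑ j, addR (f j) (u j) := fun _ => rfl
  refine ⟨F, fun g hg u => ?_, fun j x => ?_⟩
  · rw [hF, hF, map_sum]
    exact Finset.sum_congr rfl fun j _ => by
      rw [Pi.smul_apply, smul_eq_mul, hadd g hg]
  · have h1 : F (gof x • Pi.single j 1) = f j x := by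
      rw [hF, Finset.sum_eq_single j]
      · rw [Pi.smul_apply, Pi.single_eq_same, smul_eq_mul, mul_one, addR_of]
      · intro i _ hi
        rw [Pi.smul_apply, Pi.single_eq_of_ne hi, smul_zero, map_zero]
      · intro h
        exact absurd (Finset.mem_univ j) h
    rw [h1]
    have h2 := hP' (γ x) (hγ x) j (rep x) _ (hv j (rep x))
    rw [← hγ' x] at h2
    exact h2

/-- the inclusion of group rings -/
def inc (H : Subgroup G) : RR H →+* RR G := liftR ((MonoidAlgebra.of ℤ G).comp H.subtype)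

theorem inc_of (H : Subgroup G) (h : H) : inc H (gof h) = gof (h : G) := liftR_of _ _

theorem eps_inc (H : Subgroup G) (r : RR H) : eps (inc H r) = eps r := by
  induction r using rr_ind with
  | h1 g => rw [inc_of, eps_of, eps_of]
  | h2 x y hx hy => rw [map_add, map_add, map_add, hx, hy]
  | h3 x hx => rw [map_neg, map_neg, map_neg, hx]

/-- an additive equivariant map is linear -/
theorem lin_of_equiv {H : Subgroup G} {X : Type} [AddCommGroup X] [Module (RR H) X]
    {F : (Fin n → RR G) →+ X} (hF : ∀ g (hg : g ∈ H), ∀ v, F (gof g • v) =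
      gof (⟨g, hg⟩ : H) • F v) (r : RR H) (v : Fin n → RR G) : F (inc H r • v) = r • F v := by
  induction r using rr_ind with
  | h1 g => rw [inc_of, hF g g.2]
  | h2 x y hx hy => rw [map_add, add_smul, map_add, hx, hy, add_smul]
  | h3 x hx => rw [map_neg, neg_smul, map_neg, hx, neg_smul]

theorem smul_IM {H : Subgroup G} {X : Type} [AddCommGroup X] [Module (RR H) X] {r : RR H}
    (hr : eps r = 0) (m : X) :
    r • m ∈ AddSubgroup.closure {m | ∃ g ∈ H, ∃ m', m = aM H X g m' - m'} := by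
  have h1 : ∀ r : RR H, r • m - eps r • m ∈
      AddSubgroup.closure {m | ∃ g ∈ H, ∃ m', m = aM H X g m' - m'} := by
    intro r
    induction r using rr_ind with
    | h1 g =>
      rw [eps_of, one_smul]
      refine AddSubgroup.subset_closure ⟨g, g.2, m, ?_⟩
      rw [aM_apply H X g.2]
    | h2 x y hx hy =>
      have h2 : (x + y) • m - eps (x + y) • m = (x • m - eps x • m) + (y • m - eps y • m) := by
        rw [add_smul, map_add, add_smul]
        abel
      rw [h2]
      exact add_mem hx hy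
    | h3 x hx =>
      have h2 : (-x) • m - eps (-x) • m = -(x • m - eps x • m) := by
        rw [neg_smul, map_neg, neg_smul]
        abel
      rw [h2]
      exact neg_mem hx
  have h2 := h1 r
  rwa [hr, zero_smul, sub_zero] at h2

variable {w : G →* ℤˣ} {e0 e1 e2 e3 d0 d1 d2 : MR G n}

/-- The map from the duality resolution to the standard one. -/
theorem b1_data (hF : Full w e0 e1 e2 e3 d0 d1 d2)
    (hex2 : ∀ v, v ᵥ* e2 = v → v ᵥ* d1 = 0 → ∃ u, u ᵥ* d2 = v) {χ : G →* Multiplicative ℤ} {t : G}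
    (ht : lv χ t = 1) (hK : χ.ker.FG) {H : Subgroup G}
    (hH : ∀ g, g ∈ H ↔ lv χ g = 0 ∧ w g = 1) {d : ℕ} (h : Fin d → H)
    (hgen : Subgroup.closure (Set.range h) = ⊤) :
    ∃ (X : LinearMap.ker (bd h) →ₗ[RR H] RR H) (ω : LinearMap.ker (bd h))
      (ωk : Fin d → LinearMap.ker (bd h)),
      (∀ z : LinearMap.ker (bd h), z = ∑ k, (z : Fin d → RR H) k • ωk k + X z • ω) ∧
      eps (X ω) = 1 ∧ ∀ p : Fin d → ℤ, ∑ j, eps ((ω : Fin d → RR H) j) * p j = 0 := by
  obtain ⟨τ, x, hx, hxτ, hext, hnt⟩ := pd2 hF hex2 ht hK hH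
  obtain ⟨ε, hε, ⟨u0, hu0, hεu0⟩, hεd, hεex⟩ := hF.low.aug
  -- the map in degree zero
  obtain ⟨α0, hα0, hα0'⟩ := lift_free (n := n) (isAct_aM H (RR H))
    (fun j _ v => eps v = ε (Pi.single j 1))
    (fun j _ => ⟨(ε (Pi.single j 1) : RR H), map_intCast _ _⟩)
    (fun g hg j _ v hv => by
      change eps (aM H (RR H) g v) = _
      rw [aM_apply H (RR H) hg, smul_eq_mul, map_mul, eps_of, one_mul, hv])
  have hα0g : ∀ g (hg : g ∈ H), ∀ v, α0 (gof g • v) = gof (⟨g, hg⟩ : H) • α0 v :=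
    fun g hg v => by rw [hα0 g hg, aM_apply H (RR H) hg]
  have hα0ε : ∀ v, eps (α0 v) = ε v := by
    intro v
    have h1 := hom_ext (F := (eps (G := H)).toAddMonoidHom.comp α0) (F' := ε) (by
      intro x j
      change eps (α0 (gof x • Pi.single j 1)) = _
      rw [hα0' j x, hε]) v
    exact h1
  -- the map in degree one
  have hd0row : ∀ j, (Pi.single j (1 : RR G) : Fin n → RR G) ᵥ* d0 = d0 j := fun j =>
    Matrix.single_one_vecMul _ _
  obtain ⟨α1, hα1, hα1'⟩ := lift_free (n := n) (isAct_aM H (Fin d → RR H))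
    (fun j x v => bd h v = α0 (gof x • d0 j))
    (fun j x => bd_surj' h hgen (by rw [hα0ε, hε, ← hd0row, hεd]))
    (fun g hg j x v hv => by
      change bd h (aM H (Fin d → RR H) g v) = _
      rw [aM_apply H _ hg, map_smul, hv, gof_mul, mul_smul, hα0g g hg])
  have hα1g : ∀ g (hg : g ∈ H), ∀ v, α1 (gof g • v) = gof (⟨g, hg⟩ : H) • α1 v :=
    fun g hg v => by rw [hα1 g hg, aM_apply H _ hg]
  have hα1d : ∀ v, bd h (α1 v) = α0 (v ᵥ* d0) := by
    intro v
    have h1 := hom_ext (F := (bd h).toAddMonoidHom.comp α1)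
      (F' := α0.comp (AddMonoidHom.mk' (fun v : Fin n → RR G => v ᵥ* d0)
        (fun v v' => Matrix.add_vecMul _ _ _))) (by
      intro x j
      change bd h (α1 (gof x • Pi.single j 1)) = α0 ((gof x • Pi.single j 1) ᵥ* d0)
      rw [hα1' j x, Matrix.smul_vecMul, hd0row]) v
    exact h1
  -- the homotopy
  let aG : G → Module.End ℤ (Fin n → RR G) := fun g =>
    { toFun := fun v => gof g • v
      map_add' := fun _ _ => smul_add _ _ _
      map_smul' := fun _ _ => smul_comm _ _ _ }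
  have haG : IsAct H aG := by
    constructor
    · refine LinearMap.ext fun v => ?_
      change gof (1 : G) • v = v
      rw [gof_one, one_smul]
    · intro g _ g' _
      refine LinearMap.ext fun v => ?_
      change gof (g * g') • v = gof g • gof g' • v
      rw [gof_mul, mul_smul]
  have he0row : ∀ j, (Pi.single j (1 : RR G) : Fin n → RR G) ᵥ* e0 = e0 j := fun j =>
    Matrix.single_one_vecMul _ _
  have he0e0 : ∀ j, (e0 j) ᵥ* e0 = e0 j := by
    intro j
    rw [← he0row, Matrix.vecMul_vecMul, hF.low.ee0]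
  obtain ⟨s0, hs0, hs0'⟩ := lift_free (n := n) haG
    (fun j x v => v ᵥ* d0 = inc H (α0 (gof x • e0 j)) • u0 - gof x • e0 j ∧ v ᵥ* e1 = v)
    (fun j x => by
      obtain ⟨v, hv⟩ := hεex (inc H (α0 (gof x • e0 j)) • u0 - gof x • e0 j) (by
        rw [Matrix.sub_vecMul, Matrix.smul_vecMul, hu0, Matrix.smul_vecMul, he0e0]) (by
        rw [map_sub, eps_eq hε, eps_inc, hα0ε, hεu0, mul_one, sub_self])
      refine ⟨v ᵥ* e1, ?_, ?_⟩
      · rw [Matrix.vecMul_vecMul, hF.low.e1d0, hv]
      · rw [Matrix.vecMul_vecMul, hF.low.ee1])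
    (fun g hg j x v hv => by
      constructor
      · change (gof g • v) ᵥ* d0 = _
        rw [Matrix.smul_vecMul, hv.1, gof_mul, mul_smul, hα0g g hg, smul_eq_mul, map_mul, inc_of,
          smul_sub, mul_smul]
      · change (gof g • v) ᵥ* e1 = gof g • v
        rw [Matrix.smul_vecMul, hv.2])
  have hs0d : ∀ v, s0 v ᵥ* d0 = inc H (α0 (v ᵥ* e0)) • u0 - v ᵥ* e0 := by
    intro v
    have h1 := hom_ext (F := (AddMonoidHom.mk' (fun v : Fin n → RR G => v ᵥ* d0)
        (fun v v' => Matrix.add_vecMul _ _ _)).comp s0)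
      (F' := AddMonoidHom.mk' (fun v : Fin n → RR G => inc H (α0 (v ᵥ* e0)) • u0 - v ᵥ* e0)
        (fun v v' => by
          rw [Matrix.add_vecMul, map_add, map_add, add_smul]
          abel)) (by
      intro x j
      change s0 (gof x • Pi.single j 1) ᵥ* d0 =
        inc H (α0 ((gof x • Pi.single j 1) ᵥ* e0)) • u0 - (gof x • Pi.single j 1) ᵥ* e0
      rw [(hs0' j x).1, Matrix.smul_vecMul, he0row]) v
    exact h1
  have hs0e : ∀ v, s0 v ᵥ* e1 = s0 v := by
    intro v
    have h1 := hom_ext (F := (AddMonoidHom.mk' (fun v : Fin n → RR G => v ᵥ* e1)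
        (fun v v' => Matrix.add_vecMul _ _ _)).comp s0) (F' := s0) (by
      intro x j
      exact (hs0' j x).2) v
    exact h1
  -- the map back
  have hyk : ∀ k : Fin d, ∃ y, y ᵥ* d0 = gof ((h k : H) : G) • u0 - u0 ∧ y ᵥ* e1 = y := by
    intro k
    obtain ⟨v, hv⟩ := hεex (gof ((h k : H) : G) • u0 - u0)
      (by rw [Matrix.sub_vecMul, Matrix.smul_vecMul, hu0]) (by rw [map_sub, hε, sub_self])
    exact ⟨v ᵥ* e1, by rw [Matrix.vecMul_vecMul, hF.low.e1d0, hv],
      by rw [Matrix.vecMul_vecMul, hF.low.ee1]⟩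
  choose y hyd hye using hyk
  let β1 : (Fin d → RR H) →+ (Fin n → RR G) :=
    { toFun := fun z => ∑ k, inc H (z k) • y k
      map_zero' := by simp
      map_add' := fun z z' => by
        rw [← Finset.sum_add_distrib]
        exact Finset.sum_congr rfl fun k _ => by rw [Pi.add_apply, map_add, add_smul] }
  have hβ1 : ∀ z, β1 z = ∑ k, inc H (z k) • y k := fun _ => rfl
  have hβ1r : ∀ (r : RR H) z, β1 (r • z) = inc H r • β1 z := by
    intro r z
    rw [hβ1, hβ1, Finset.smul_sum]
    exact Finset.sum_congr rfl fun k _ => by rw [Pi.smul_apply, smul_eq_mul, map_mul, mul_smul]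
  have hβ1d : ∀ z, β1 z ᵥ* d0 = inc H (bd h z) • u0 := by
    intro z
    rw [hβ1, Matrix.sum_vecMul, bd_apply, map_sum, Finset.sum_smul]
    refine Finset.sum_congr rfl fun k _ => ?_
    rw [Matrix.smul_vecMul, hyd, map_mul, map_sub, inc_of, map_one, mul_smul, sub_smul, one_smul]
  have hβ1e : ∀ z, β1 z ᵥ* e1 = β1 z := by
    intro z
    rw [hβ1, Matrix.sum_vecMul]
    exact Finset.sum_congr rfl fun k _ => by rw [Matrix.smul_vecMul, hye]
  have hZ1 : ∀ v : Fin n → RR G, v ᵥ* e1 = v → v ᵥ* d0 = 0 → v ∈ Z1 d1 := fun v h1 h2 =>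
    hF.low.ex1 v h1 h2
  have hZd : ∀ v : Z1 d1, (v : Fin n → RR G) ᵥ* d0 = 0 := by
    rintro ⟨_, u, rfl⟩
    change (u ᵥ* d1) ᵥ* d0 = 0
    rw [Matrix.vecMul_vecMul, hF.low.dd, Matrix.vecMul_zero]
  have hZe : ∀ v : Z1 d1, (v : Fin n → RR G) ᵥ* e1 = v := by
    rintro ⟨_, u, rfl⟩
    change (u ᵥ* d1) ᵥ* e1 = u ᵥ* d1
    rw [Matrix.vecMul_vecMul, hF.low.d1e1]
  -- `β1` on the kernel
  let β : LinearMap.ker (bd h) →+ Z1 d1 :=
    { toFun := fun z => ⟨β1 z, hZ1 _ (hβ1e z) (by
        rw [hβ1d, LinearMap.mem_ker.1 z.2, map_zero, zero_smul])⟩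
      map_zero' := by
        apply Subtype.ext
        exact map_zero β1
      map_add' := fun z z' => by
        apply Subtype.ext
        exact map_add β1 _ _ }
  have hxlin : ∀ (r : RR H) (v : Z1 d1), x (inc H r • v) = r * x v := by
    intro r v
    induction r using rr_ind with
    | h1 g => rw [inc_of, hx g g.2]
    | h2 a b ha hb => rw [map_add, add_smul, map_add, ha, hb, add_mul]
    | h3 a ha =>
      have h1 : inc H (-a) • v = -(inc H a • v) := by
        apply Subtype.ext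
        change inc H (-a) • (v : Fin n → RR G) = -(inc H a • (v : Fin n → RR G))
        rw [map_neg, neg_smul]
      rw [h1, map_neg, ha, neg_mul]
  let X : LinearMap.ker (bd h) →ₗ[RR H] RR H :=
    { toFun := fun z => x (β z)
      map_add' := fun z z' => by rw [map_add, map_add]
      map_smul' := fun r z => by
        rw [RingHom.id_apply, smul_eq_mul, ← hxlin]
        congr 1
        apply Subtype.ext
        exact hβ1r r z }
  have hX : ∀ z, X z = x (β z) := fun _ => rfl
  -- the class of the identity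
  have hα1Z : ∀ v : Z1 d1, α1 v ∈ LinearMap.ker (bd h) := by
    intro v
    rw [LinearMap.mem_ker, hα1d, hZd, map_zero]
  let ω : LinearMap.ker (bd h) := ⟨α1 τ, hα1Z τ⟩
  let φ : Z1 d1 →+ LinearMap.ker (bd h) :=
    { toFun := fun v => ⟨α1 v, hα1Z v⟩ - x v • ω
      map_zero' := by
        apply Subtype.ext
        change α1 ((0 : Z1 d1) : Fin n → RR G) - x 0 • α1 τ = 0
        rw [map_zero, zero_smul, sub_zero]
        exact map_zero α1
      map_add' := fun v v' => by
        apply Subtype.ext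
        change α1 ((v : Fin n → RR G) + v') - x (v + v') • α1 τ =
          (α1 v - x v • α1 τ) + (α1 v' - x v' • α1 τ)
        rw [map_add, map_add, add_smul]
        abel }
  have hφ : ∀ g ∈ H, ∀ v, φ (gof g • v) = aM H (LinearMap.ker (bd h)) g (φ v) := by
    intro g hg v
    rw [aM_apply H _ hg]
    apply Subtype.ext
    change α1 (gof g • (v : Fin n → RR G)) - x (gof g • v) • α1 τ =
      gof (⟨g, hg⟩ : H) • (α1 v - x v • α1 τ)
    rw [hα1g g hg, hx g hg, smul_sub, mul_smul]
  have hφτ : φ τ = (1 - x τ) • ω := by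
    apply Subtype.ext
    change α1 τ - x τ • α1 τ = (1 - x τ) • α1 τ
    rw [sub_smul, one_smul]
  obtain ⟨ψ, hψ, hψφ⟩ := hext (LinearMap.ker (bd h)) _ (isAct_aM H _) φ hφ (by
    rw [hφτ]
    exact smul_IM (by rw [map_sub, map_one, hxτ, sub_self]) ω)
  have hψg : ∀ g (hg : g ∈ H), ∀ v, ψ (gof g • v) = gof (⟨g, hg⟩ : H) • ψ v :=
    fun g hg v => by rw [hψ g hg, aM_apply H _ hg]
  obtain ⟨s', hs'⟩ := bd_surj' h hgen (r := α0 u0 - 1)
    (by rw [map_sub, hα0ε, hεu0, map_one, sub_self])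
  have hωk : ∀ k, α1 (y k) - Pi.single k 1 - (gof (h k) - 1) • s' ∈ LinearMap.ker (bd h) := by
    intro k
    rw [LinearMap.mem_ker, map_sub, map_sub, hα1d, hyd, map_sub, hα0g _ (h k).2, bd_single,
      map_smul, hs', smul_eq_mul, smul_eq_mul, sub_mul, mul_sub, mul_one, one_mul]
    abel
  let ωk : Fin d → LinearMap.ker (bd h) := fun k =>
    ψ (y k) - ⟨α1 (y k) - Pi.single k 1 - (gof (h k) - 1) • s', hωk k⟩
  refine ⟨X, ω, ωk, ?_, ?_, ?_⟩
  · -- the identity of the kernel
    intro z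
    apply Subtype.ext
    have h1 : ψ (β1 z) = φ (β z) := hψφ (β z)
    have h2 : ψ (β1 z) = ∑ k, (z : Fin d → RR H) k • ψ (y k) := by
      rw [hβ1, map_sum]
      exact Finset.sum_congr rfl fun k _ => lin_of_equiv hψg _ _
    have h3 : α1 (β1 z) = ∑ k, (z : Fin d → RR H) k • α1 (y k) := by
      rw [hβ1, map_sum]
      exact Finset.sum_congr rfl fun k _ => lin_of_equiv hα1g _ _
    have h4 : ((φ (β z) : LinearMap.ker (bd h)) : Fin d → RR H) = α1 (β1 z) - X z • α1 τ := rfl
    have h5 : (z : Fin d → RR H) = ∑ k, (z : Fin d → RR H) k • Pi.single k (1 : RR H) := by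
      funext i
      rw [Finset.sum_apply, Finset.sum_eq_single i]
      · simp
      · intro j _ hj
        rw [Pi.smul_apply, Pi.single_eq_of_ne (Ne.symm hj), smul_zero]
      · intro h
        exact absurd (Finset.mem_univ i) h
    have h6 : ∑ k, (z : Fin d → RR H) k • (gof (h k) - 1) • s' = 0 := by
      simp only [smul_smul]
      rw [← Finset.sum_smul]
      have h7 : ∑ k, (z : Fin d → RR H) k * (gof (h k) - 1) = 0 := LinearMap.mem_ker.1 z.2
      rw [h7, zero_smul]
    have h8 : ((∑ k, (z : Fin d → RR H) k • ωk k + X z • ω : LinearMap.ker (bd h)) :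
        Fin d → RR H) = ((∑ k, (z : Fin d → RR H) k • ψ (y k) : LinearMap.ker (bd h)) :
          Fin d → RR H) -
        (∑ k, (z : Fin d → RR H) k • α1 (y k) - ∑ k, (z : Fin d → RR H) k • Pi.single k (1 : RR H) -
          ∑ k, (z : Fin d → RR H) k • (gof (h k) - 1) • s') + X z • α1 τ := by
      rw [Submodule.coe_add, Submodule.coe_sum, Submodule.coe_sum, ← Finset.sum_sub_distrib,
        ← Finset.sum_sub_distrib, ← Finset.sum_sub_distrib]
      congr 1
      refine Finset.sum_congr rfl fun k _ => ?_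
      rw [Submodule.coe_smul, Submodule.coe_smul, ← smul_sub, ← smul_sub, ← smul_sub]
      rfl
    rw [h8, ← h2, h1, h4, h3, h6, ← h5]
    abel
  · -- the augmentation of `X ω`
    let g1 : (Fin n → RR G) →+ (Fin n → RR G) :=
      AddMonoidHom.mk' (fun v => β1 (α1 v) - v ᵥ* e1 - s0 (v ᵥ* d0)) (fun v v' => by
        rw [map_add, map_add, Matrix.add_vecMul, Matrix.add_vecMul, map_add]
        abel)
    have hg1 : ∀ v, g1 v = β1 (α1 v) - v ᵥ* e1 - s0 (v ᵥ* d0) := fun _ => rfl
    have hg1Z : ∀ v, g1 v ∈ Z1 d1 := by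
      intro v
      refine hZ1 _ ?_ ?_
      · rw [hg1, Matrix.sub_vecMul, Matrix.sub_vecMul, hβ1e, hs0e, Matrix.vecMul_vecMul,
          hF.low.ee1]
      · rw [hg1, Matrix.sub_vecMul, Matrix.sub_vecMul, hβ1d, hs0d, Matrix.vecMul_vecMul,
          hF.low.e1d0, Matrix.vecMul_vecMul, hF.low.d0e0, hα1d]
        abel
    have hg1g : ∀ g ∈ H, ∀ v, g1 (gof g • v) = gof g • g1 v := by
      intro g hg v
      rw [hg1, hg1, hα1g g hg, hβ1r, inc_of, Matrix.smul_vecMul, Matrix.smul_vecMul, hs0 g hg,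
        smul_sub, smul_sub]
      rfl
    let gZ : (Fin n → RR G) →+ Z1 d1 := AddMonoidHom.mk' (fun v => ⟨g1 v, hg1Z v⟩)
      (fun v v' => Subtype.ext (map_add g1 v v'))
    have h1 := hnt ((eps (G := H)).toAddMonoidHom.comp (x.comp gZ)) (by
      intro g hg v
      change eps (x (gZ (gof g • v))) = eps (x (gZ v))
      have h2 : gZ (gof g • v) = gof g • gZ v := Subtype.ext (hg1g g hg v)
      rw [h2, hx g hg, map_mul, eps_of, one_mul])
    change eps (x (gZ τ)) = 0 at h1
    have h2 : gZ τ = β ω - τ := by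
      apply Subtype.ext
      change g1 τ = β1 (α1 τ) - τ
      rw [hg1, hZe, hZd, map_zero, sub_zero]
    rw [h2, map_sub, map_sub, hxτ] at h1
    rw [hX]
    linarith
  · -- the augmentation of `ω`
    intro p
    have h1 := hnt ((AddMonoidHom.mk' (fun z : Fin d → RR H => ∑ j, eps (z j) * p j)
      (fun z z' => by
        rw [← Finset.sum_add_distrib]
        exact Finset.sum_congr rfl fun j _ => by rw [Pi.add_apply, map_add, add_mul])).comp α1) (by
      intro g hg v
      change ∑ j, eps (α1 (gof g • v) j) * p j = ∑ j, eps (α1 v j) * p j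
      rw [hα1g g hg]
      exact Finset.sum_congr rfl fun j _ => by
        rw [Pi.smul_apply, smul_eq_mul, map_mul, eps_of, one_mul])
    exact h1

theorem b1_pos (hF : Full w e0 e1 e2 e3 d0 d1 d2)
    (hex2 : ∀ v, v ᵥ* e2 = v → v ᵥ* d1 = 0 → ∃ u, u ᵥ* d2 = v) {χ : G →* Multiplicative ℤ} {t : G}
    (ht : lv χ t = 1) (hK : χ.ker.FG) {H : Subgroup G}
    (hH : ∀ g, g ∈ H ↔ lv χ g = 0 ∧ w g = 1) {d : ℕ} (h : Fin d → H)
    (hgen : Subgroup.closure (Set.range h) = ⊤)
    (hconj : ∀ g : H, g ≠ 1 → ∀ j, 1 ≤ j → ¬ IsConj g (g ^ 2 ^ j))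
    (hab : ∀ f : H →* Multiplicative ℤ, f = 1) : False := by
  obtain ⟨X, ω, ωk, h1, h2, h3⟩ := b1_data hF hex2 ht hK hH h hgen
  exact no_summand h hgen hconj hab X ω ωk h1 h2 h3

/-- The group `H` is not trivial or infinite cyclic. -/
theorem not_bd_inj (hF : Full w e0 e1 e2 e3 d0 d1 d2)
    (hex2 : ∀ v, v ᵥ* e2 = v → v ᵥ* d1 = 0 → ∃ u, u ᵥ* d2 = v) {χ : G →* Multiplicative ℤ} {t : G}
    (ht : lv χ t = 1) (hK : χ.ker.FG) {H : Subgroup G}
    (hH : ∀ g, g ∈ H ↔ lv χ g = 0 ∧ w g = 1) {d : ℕ} (h : Fin d → H)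
    (hgen : Subgroup.closure (Set.range h) = ⊤) (hinj : ∀ z, bd h z = 0 → z = 0) : False := by
  obtain ⟨X, ω, ωk, h1, h2, h3⟩ := b1_data hF hex2 ht hK hH h hgen
  have h4 : ω = 0 := Subtype.ext (hinj _ (LinearMap.mem_ker.1 ω.2))
  rw [h4, map_zero, map_zero] at h2
  exact absurd h2 (by norm_num)

theorem not_cyclic (hF : Full w e0 e1 e2 e3 d0 d1 d2)
    (hex2 : ∀ v, v ᵥ* e2 = v → v ᵥ* d1 = 0 → ∃ u, u ᵥ* d2 = v) {χ : G →* Multiplicative ℤ} {t : G}
    (ht : lv χ t = 1) (hK : χ.ker.FG) {H : Subgroup G}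
    (hH : ∀ g, g ∈ H ↔ lv χ g = 0 ∧ w g = 1) (htf : ∀ g ∈ H, g ≠ 1 → ∀ k : ℤ, k ≠ 0 → g ^ k ≠ 1)
    {g : G} (hg : g ∈ H) (hgH : ∀ x ∈ H, ∃ k : ℤ, x = g ^ k) : False := by
  by_cases hg1 : g = 1
  · refine not_bd_inj hF hex2 ht hK hH (d := 0) (fun i => i.elim0) ?_ fun z _ =>
      Subsingleton.elim _ _
    rw [eq_top_iff]
    intro x _
    obtain ⟨k, hk⟩ := hgH x x.2
    rw [hg1, one_zpow] at hk
    have : x = 1 := Subtype.ext hk
    rw [this]
    exact Subgroup.one_mem _
  · refine not_bd_inj hF hex2 ht hK hH (d := 1) (fun _ => ⟨g, hg⟩) ?_ fun z hz => ?_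
    · rw [eq_top_iff]
      intro x _
      obtain ⟨k, hk⟩ := hgH x x.2
      have : x = (⟨g, hg⟩ : H) ^ k := Subtype.ext hk
      rw [this]
      have hm : (⟨g, hg⟩ : H) ∈ Subgroup.closure (Set.range fun _ : Fin 1 => (⟨g, hg⟩ : H)) :=
        Subgroup.subset_closure (Set.mem_range_self 0)
      exact Subgroup.zpow_mem _ hm k
    · funext i
      obtain rfl : i = 0 := Subsingleton.elim _ _
      rw [bd_apply, Fin.sum_univ_one, mul_sub, mul_one, sub_eq_zero] at hz
      have hcoef : ∀ (m : ℕ) (x : H), (z 0).coeff x = (z 0).coeff (x * (⟨g, hg⟩ : H) ^ m) := by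
        intro m
        induction m with
        | zero => intro x; rw [pow_zero, mul_one]
        | succ m ih =>
          intro x
          rw [ih x]
          have h1 := congrArg (fun y : RR H => y.coeff (x * (⟨g, hg⟩ : H) ^ m * (⟨g, hg⟩ : H))) hz
          change (z 0 * MonoidAlgebra.single (⟨g, hg⟩ : H) (1 : ℤ)).coeff (x * (⟨g, hg⟩ : H) ^ m * (⟨g, hg⟩ : H)) = (z 0).coeff (x * (⟨g, hg⟩ : H) ^ m * (⟨g, hg⟩ : H)) at h1
          rw [MonoidAlgebra.coeff_mul_single_apply, mul_inv_cancel_right, mul_one] at h1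
          rw [h1, pow_succ, mul_assoc]
      have hgo : ∀ m : ℕ, m ≠ 0 → (⟨g, hg⟩ : H) ^ m ≠ 1 := by
        intro m hm h1
        apply htf g hg hg1 m (by exact_mod_cast hm)
        rw [zpow_natCast]
        exact congrArg Subtype.val h1
      by_contra hne
      have hne' : (z 0).coeff ≠ 0 := fun h0 => hne (MonoidAlgebra.coeff_injective h0)
      obtain ⟨x, hx⟩ := Finsupp.ne_iff.1 hne'
      have hinj : Function.Injective fun m : ℕ => x * (⟨g, hg⟩ : H) ^ m := by
        intro m m' hm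
        have h1 : (⟨g, hg⟩ : H) ^ m = (⟨g, hg⟩ : H) ^ m' := mul_left_cancel hm
        by_contra hne
        rcases Nat.lt_or_gt_of_ne hne with h2 | h2
        · refine hgo (m' - m) (by omega) ?_
          have h3 : (⟨g, hg⟩ : H) ^ m * (⟨g, hg⟩ : H) ^ (m' - m) = (⟨g, hg⟩ : H) ^ m * 1 := by
            rw [← pow_add, mul_one, h1]
            congr 1
            omega
          exact mul_left_cancel h3
        · refine hgo (m - m') (by omega) ?_
          have h3 : (⟨g, hg⟩ : H) ^ m' * (⟨g, hg⟩ : H) ^ (m - m') = (⟨g, hg⟩ : H) ^ m' * 1 := by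
            rw [← pow_add, mul_one, ← h1]
            congr 1
            omega
          exact mul_left_cancel h3
      refine Set.infinite_range_of_injective hinj ((z 0).coeff.support.finite_toSet.subset ?_)
      rintro _ ⟨m, rfl⟩
      rw [Finset.mem_coe, Finsupp.mem_support_iff]
      change (z 0).coeff (x * (⟨g, hg⟩ : H) ^ m) ≠ 0
      rw [← hcoef]
      exact hx

end

end Pool.Agent.H26.PD
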