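import Mathlib

/-!
Free subgroups of HNN extensions which are not ascending.
-/

set_option autoImplicit false

namespace Pool.Agent.H26.PD

open HNNExtension

section

variable {B : Type} [Group B] {A₀ A₁ : Subgroup B} (φ : A₀ ≃* A₁) (x y : B)

/-- the four letters `p = t x t⁻¹ y⁻¹`, `q = t⁻¹ y t x⁻¹` and their inverses: the head -/
def hd : Fin 2 × Bool → B
  | (0, true) => 1
  | (0, false) => y
  | (1, true) => 1
  | (1, false) => x

/-- the first exponent of a letter -/
def u1 : Fin 2 × Bool → ℤˣ
  | (0, _) => 1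
  | (1, _) => -1

/-- the element of the base between the two stable letters -/
def g1 : Fin 2 × Bool → B
  | (0, true) => x
  | (0, false) => x⁻¹
  | (1, true) => y
  | (1, false) => y⁻¹

/-- the last element -/
def g2 : Fin 2 × Bool → B
  | (0, true) => y⁻¹
  | (0, false) => 1
  | (1, true) => x⁻¹
  | (1, false) => 1

/-- the element of the HNN extension given by a generator -/
noncomputable def gen : Fin 2 → HNNExtension B A₀ A₁ φ
  | 0 => t * of x * t⁻¹ * of y⁻¹
  | 1 => t⁻¹ * of y * t * of x⁻¹

theorem letter_eq (l : Fin 2 × Bool) :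
    (cond l.2 (gen φ x y l.1) (gen φ x y l.1)⁻¹ : HNNExtension B A₀ A₁ φ) =
      of (hd x y l) * (t ^ ((u1 l : ℤˣ) : ℤ) * of (g1 x y l)) *
        (t ^ ((-(u1 l) : ℤˣ) : ℤ) * of (g2 x y l)) := by
  obtain ⟨i, b⟩ := l
  fin_cases i <;> cases b <;> simp [gen, hd, u1, g1, g2, mul_assoc]

/-- the list of syllables of a word -/
def syl : List (Fin 2 × Bool) → List (ℤˣ × B)
  | [] => []
  | [l] => [(u1 l, g1 x y l), (-(u1 l), g2 x y l)]
  | l :: m :: r => (u1 l, g1 x y l) :: (-(u1 l), g2 x y l * hd x y m) :: syl (m :: r)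

/-- the head of a word -/
def hdw : List (Fin 2 × Bool) → B
  | [] => 1
  | l :: _ => hd x y l

theorem prod_syl (w : List (Fin 2 × Bool)) :
    (w.map fun l => (cond l.2 (gen φ x y l.1) (gen φ x y l.1)⁻¹ : HNNExtension B A₀ A₁ φ)).prod =
      of (hdw x y w) * ((syl x y w).map fun z => t ^ ((z.1 : ℤˣ) : ℤ) * of z.2).prod := by
  induction w with
  | nil => simp [hdw, syl]
  | cons l r ih =>
    cases r with
    | nil =>
      simp only [List.map_cons, List.map_nil, List.prod_cons, List.prod_nil, mul_one, hdw, syl]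
      rw [letter_eq, mul_assoc]
    | cons m r =>
      rw [List.map_cons, List.prod_cons, ih, letter_eq]
      simp only [hdw, syl, List.map_cons, List.prod_cons, map_mul, mul_assoc]

variable {x y}

theorem g1_not_mem (hx : x ∉ A₀) (hy : y ∉ A₁) (l : Fin 2 × Bool) :
    g1 x y l ∉ toSubgroup A₀ A₁ (u1 l) := by
  obtain ⟨i, b⟩ := l
  fin_cases i <;> cases b <;> simp [g1, u1, hx, hy]

theorem junction (hx : x ∉ A₀) (hy : y ∉ A₁) (l m : Fin 2 × Bool) (h : l.1 = m.1 → l.2 = m.2) :
    g2 x y l * hd x y m ∈ toSubgroup A₀ A₁ (-(u1 l)) → -(u1 l) = u1 m := by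
  obtain ⟨i, b⟩ := l
  obtain ⟨j, c⟩ := m
  fin_cases i <;> fin_cases j <;> cases b <;> cases c <;> simp_all [g2, u1, hd]

theorem syl_chain (hx : x ∉ A₀) (hy : y ∉ A₁) (w : List (Fin 2 × Bool))
    (hw : w.IsChain fun a b => a.1 = b.1 → a.2 = b.2) :
    (syl x y w).IsChain fun a b => a.2 ∈ toSubgroup A₀ A₁ a.1 → a.1 = b.1 := by
  induction w with
  | nil => simp [syl]
  | cons l r ih =>
    cases r with
    | nil =>
      simp only [syl, List.isChain_cons_cons, List.isChain_singleton, and_true]
      exact fun h => absurd h (g1_not_mem hx hy l)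
    | cons m r =>
      rw [List.isChain_cons_cons] at hw
      have h1 := ih hw.2
      have h2 : ∃ s, syl x y (m :: r) = (u1 m, g1 x y m) :: s := by
        cases r with
        | nil => exact ⟨_, rfl⟩
        | cons k r => exact ⟨_, rfl⟩
      obtain ⟨s, hs⟩ := h2
      rw [syl, hs, List.isChain_cons_cons, List.isChain_cons_cons]
      rw [hs] at h1
      exact ⟨fun h => absurd h (g1_not_mem hx hy l), junction hx hy l m hw.1, h1⟩

variable (x y)

/-- **A non-ascending HNN extension contains a free group of rank two** generated by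
`t x t⁻¹ y⁻¹` and `t⁻¹ y t x⁻¹`. -/
theorem free_of_hnn (hx : x ∉ A₀) (hy : y ∉ A₁) :
    Function.Injective (FreeGroup.lift (gen φ x y)) := by
  rw [injective_iff_map_eq_one]
  intro w hw
  by_contra hne
  have hlen : w.toWord ≠ [] := fun h => hne (FreeGroup.toWord_eq_nil_iff.1 h)
  have hred : w.toWord.IsChain fun a b => a.1 = b.1 → a.2 = b.2 := FreeGroup.isReduced_toWord
  let W : NormalWord.ReducedWord B A₀ A₁ :=
    { head := hdw x y w.toWord
      toList := syl x y w.toWord
      chain := syl_chain hx hy _ hred }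
  have hprod : W.prod φ = 1 := by
    have h1 := prod_syl φ x y w.toWord
    have h2 : FreeGroup.lift (gen φ x y) w = (w.toWord.map fun l =>
      (cond l.2 (gen φ x y l.1) (gen φ x y l.1)⁻¹ : HNNExtension B A₀ A₁ φ)).prod := by
      conv_lhs => rw [← FreeGroup.mk_toWord (x := w)]
      rw [FreeGroup.lift_mk]
    rw [NormalWord.ReducedWord.prod, ← h1, ← h2, hw]
  have h3 := ReducedWord.toList_eq_nil_of_mem_of_range φ W (by
    rw [hprod]
    exact one_mem _)
  apply hlen
  have h4 : syl x y w.toWord = [] := h3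
  cases hr : w.toWord with
  | nil => rfl
  | cons l r =>
    rw [hr] at h4
    cases r with
    | nil => simp [syl] at h4
    | cons m r => simp [syl] at h4

end

end Pool.Agent.H26.PD
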