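import Mathlib
import Pool.Agent.H26.PD.Brit

/-!
Finitely presented groups with a homomorphism onto `ℤ` are HNN extensions with finitely generated
base (Bieri and Strebel).
-/

set_option autoImplicit false

namespace Pool.Agent.H26.PD

open HNNExtension

section

variable {G : Type} [Group G] (t : G) (B : Subgroup G)

/-- the elements `b` of `B` with `t b t⁻¹ ∈ B` -/
def A0 : Subgroup B where
  carrier := {b | t * b * t⁻¹ ∈ B}
  one_mem' := by simp
  mul_mem' := by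
    intro a b ha hb
    have : t * ((a * b : B) : G) * t⁻¹ = (t * a * t⁻¹) * (t * b * t⁻¹) := by
      push_cast
      group
    rw [Set.mem_ofPred_eq, this]
    exact mul_mem ha hb
  inv_mem' := by
    intro a ha
    have : t * ((a⁻¹ : B) : G) * t⁻¹ = (t * a * t⁻¹)⁻¹ := by
      push_cast
      group
    rw [Set.mem_ofPred_eq, this]
    exact inv_mem ha

theorem mem_A0 (b : B) : b ∈ A0 t B ↔ t * b * t⁻¹ ∈ B := Iff.rfl

/-- conjugation by `t` -/
def cj : A0 t B ≃* A0 t⁻¹ B where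
  toFun b := ⟨⟨t * b * t⁻¹, b.2⟩, by
    rw [mem_A0]
    have : t⁻¹ * (t * ((b : B) : G) * t⁻¹) * t⁻¹⁻¹ = b := by group
    rw [this]
    exact b.1.2⟩
  invFun b := ⟨⟨t⁻¹ * b * t, by
    have h := b.2
    rw [mem_A0, inv_inv] at h
    exact h⟩, by
    rw [mem_A0]
    have : t * (t⁻¹ * ((b : B) : G) * t) * t⁻¹ = b := by group
    rw [this]
    exact b.1.2⟩
  left_inv := by
    intro b
    apply Subtype.ext
    apply Subtype.ext
    show t⁻¹ * (t * ((b : B) : G) * t⁻¹) * t = b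
    group
  right_inv := by
    intro b
    apply Subtype.ext
    apply Subtype.ext
    show t * (t⁻¹ * ((b : B) : G) * t) * t⁻¹ = b
    group
  map_mul' := by
    intro a b
    apply Subtype.ext
    apply Subtype.ext
    show t * (((a : B) : G) * ((b : B) : G)) * t⁻¹ = (t * a * t⁻¹) * (t * b * t⁻¹)
    group

theorem cj_apply (b : A0 t B) : (((cj t B b : A0 t⁻¹ B) : B) : G) = t * ((b : B) : G) * t⁻¹ := rfl

/-- the HNN extension -/
abbrev HN : Type := HNNExtension B (A0 t B) (A0 t⁻¹ B) (cj t B)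

/-- the homomorphism to `G` -/
noncomputable def pi : HN t B →* G := HNNExtension.lift B.subtype t (by
  intro a
  rw [Subgroup.subtype_apply, Subgroup.subtype_apply, cj_apply]
  group)

theorem pi_t : pi t B HNNExtension.t = t := HNNExtension.lift_t _ _ _

theorem pi_of (b : B) : pi t B (HNNExtension.of b) = b := HNNExtension.lift_of _ _ _ _

theorem conj_t (b : G) (hb : b ∈ B) (hb' : t * b * t⁻¹ ∈ B) :
    (HNNExtension.t : HN t B) * HNNExtension.of ⟨b, hb⟩ * HNNExtension.t⁻¹ =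
      HNNExtension.of ⟨t * b * t⁻¹, hb'⟩ := by
  have h := HNNExtension.t_mul_of (φ := cj t B) (⟨⟨b, hb⟩, hb'⟩ : A0 t B)
  rw [h, mul_inv_cancel_right]
  rfl

theorem conj_t' (b : G) (hb : b ∈ B) (hb' : t⁻¹ * b * t ∈ B) :
    (HNNExtension.t : HN t B)⁻¹ * HNNExtension.of ⟨b, hb⟩ * HNNExtension.t =
      HNNExtension.of ⟨t⁻¹ * b * t, hb'⟩ := by
  have h := conj_t t B (t⁻¹ * b * t) hb' (by
    have : t * (t⁻¹ * b * t) * t⁻¹ = b := by group
    rw [this]; exact hb)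
  have h2 : (⟨t * (t⁻¹ * b * t) * t⁻¹, by
    have : t * (t⁻¹ * b * t) * t⁻¹ = b := by group
    rw [this]; exact hb⟩ : B) = ⟨b, hb⟩ := by
    apply Subtype.ext
    show t * (t⁻¹ * b * t) * t⁻¹ = b
    group
  rw [h2] at h
  rw [← h]
  group

end

section

variable {G : Type} [Group G] (t : G) {n : ℕ} (a : Fin n → G)

/-- the subgroup generated by the conjugates `t ^ j * a i * t ^ (-j)`, `|j| ≤ M` -/
def Bs (M : ℕ) : Subgroup G :=
  Subgroup.closure {g | ∃ (i : Fin n) (j : ℤ), |j| ≤ M ∧ g = t ^ j * a i * t ^ (-j)}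

theorem Bs_fg (M : ℕ) : (Bs t a M).FG := by
  rw [Subgroup.fg_iff]
  refine ⟨_, rfl, ?_⟩
  have : {g | ∃ (i : Fin n) (j : ℤ), |j| ≤ M ∧ g = t ^ j * a i * t ^ (-j)} ⊆
      (fun p : Fin n × ℤ => t ^ p.2 * a p.1 * t ^ (-p.2)) '' (Set.univ ×ˢ Set.Icc (-M : ℤ) M) := by
    rintro g ⟨i, j, hj, rfl⟩
    exact ⟨(i, j), ⟨trivial, abs_le.1 hj⟩, rfl⟩
  exact Set.Finite.subset (Set.Finite.image _ (Set.Finite.prod Set.finite_univ
    (Set.finite_Icc _ _))) this

theorem Bs_mono {M N : ℕ} (h : M ≤ N) : Bs t a M ≤ Bs t a N := by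
  apply Subgroup.closure_mono
  rintro g ⟨i, j, hj, rfl⟩
  exact ⟨i, j, hj.trans (by exact_mod_cast h), rfl⟩

theorem mem_Bs_zero (i : Fin n) : a i ∈ Bs t a 0 :=
  Subgroup.subset_closure ⟨i, 0, by simp, by simp⟩

theorem conj_mem_Bs (m : ℤ) {M N : ℕ} (h : (M : ℤ) + |m| ≤ N) {g : G} (hg : g ∈ Bs t a M) :
    t ^ m * g * t ^ (-m) ∈ Bs t a N := by
  induction hg using Subgroup.closure_induction with
  | mem x hx =>
    obtain ⟨i, j, hj, rfl⟩ := hx
    refine Subgroup.subset_closure ⟨i, m + j, ?_, ?_⟩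
    · calc |m + j| ≤ |m| + |j| := abs_add_le _ _
        _ ≤ N := by linarith
    · have e : -(m + j) = -j + -m := by ring
      rw [e, zpow_add, zpow_add]
      group
  | one => simp
  | mul x y _ _ hx hy =>
    have : t ^ m * (x * y) * t ^ (-m) = (t ^ m * x * t ^ (-m)) * (t ^ m * y * t ^ (-m)) := by
      group
    rw [this]
    exact mul_mem hx hy
  | inv x _ hx =>
    have : t ^ m * x⁻¹ * t ^ (-m) = (t ^ m * x * t ^ (-m))⁻¹ := by group
    rw [this]
    exact inv_mem hx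

theorem Bs_conj_t {M : ℕ} {g : G} (hg : g ∈ Bs t a M) : t * g * t⁻¹ ∈ Bs t a (M + 1) := by
  have := conj_mem_Bs t a 1 (M := M) (N := M + 1) (by simp) hg
  simpa using this

theorem Bs_conj_t' {M : ℕ} {g : G} (hg : g ∈ Bs t a M) : t⁻¹ * g * t ∈ Bs t a (M + 1) := by
  have := conj_mem_Bs t a (-1) (M := M) (N := M + 1) (by simp) hg
  simpa using this

/-- conjugation by a power of the stable letter -/
theorem hn_conj_nat (k : ℕ) {M N : ℕ} (h : M + k ≤ N) {g : G} (hg : g ∈ Bs t a M) :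
    (∃ (h1 : g ∈ Bs t a N) (h2 : t ^ k * g * (t ^ k)⁻¹ ∈ Bs t a N),
      (HNNExtension.t : HN t (Bs t a N)) ^ k * HNNExtension.of ⟨g, h1⟩ *
        (HNNExtension.t ^ k)⁻¹ = HNNExtension.of ⟨_, h2⟩) ∧
    (∃ (h1 : g ∈ Bs t a N) (h2 : (t ^ k)⁻¹ * g * t ^ k ∈ Bs t a N),
      ((HNNExtension.t : HN t (Bs t a N)) ^ k)⁻¹ * HNNExtension.of ⟨g, h1⟩ *
        HNNExtension.t ^ k = HNNExtension.of ⟨_, h2⟩) := by
  induction k generalizing M g with
  | zero =>
    have h1 : g ∈ Bs t a N := Bs_mono t a (by omega) hg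
    exact ⟨⟨h1, by simpa using h1, by simp⟩, ⟨h1, by simpa using h1, by simp⟩⟩
  | succ k ih =>
    have h1 : g ∈ Bs t a N := Bs_mono t a (by omega) hg
    have h2 : t * g * t⁻¹ ∈ Bs t a (M + 1) := Bs_conj_t t a hg
    have h3 : t⁻¹ * g * t ∈ Bs t a (M + 1) := Bs_conj_t' t a hg
    obtain ⟨⟨h4, h5, h6⟩, -⟩ := ih (by omega) h2
    obtain ⟨-, ⟨h7, h8, h9⟩⟩ := ih (by omega) h3
    constructor
    · have e : t ^ k * (t * g * t⁻¹) * (t ^ k)⁻¹ = t ^ (k + 1) * g * (t ^ (k + 1))⁻¹ := by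
        rw [pow_succ]
        group
      refine ⟨h1, e ▸ h5, ?_⟩
      rw [pow_succ, mul_inv_rev]
      have h10 := conj_t t (Bs t a N) g h1 h4
      calc _ = (HNNExtension.t : HN t (Bs t a N)) ^ k * (HNNExtension.t *
            HNNExtension.of ⟨g, h1⟩ * HNNExtension.t⁻¹) * (HNNExtension.t ^ k)⁻¹ := by group
        _ = _ := by
          rw [h10, h6]
          congr 1
          exact Subtype.ext e
    · have e : (t ^ k)⁻¹ * (t⁻¹ * g * t) * t ^ k = (t ^ (k + 1))⁻¹ * g * t ^ (k + 1) := by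
        rw [pow_succ']
        group
      refine ⟨h1, e ▸ h8, ?_⟩
      have h10 := conj_t' t (Bs t a N) g h1 h7
      calc _ = ((HNNExtension.t : HN t (Bs t a N)) ^ k)⁻¹ * (HNNExtension.t⁻¹ *
            HNNExtension.of ⟨g, h1⟩ * HNNExtension.t) * HNNExtension.t ^ k := by
            rw [pow_succ']
            group
        _ = _ := by
          rw [h10, h9]
          congr 1
          exact Subtype.ext e

theorem hn_conj (m : ℤ) {M N : ℕ} (h : (M : ℤ) + |m| ≤ N) {g : G} (hg : g ∈ Bs t a M) :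
    ∃ (h1 : g ∈ Bs t a N) (h2 : t ^ m * g * t ^ (-m) ∈ Bs t a N),
      (HNNExtension.t : HN t (Bs t a N)) ^ m * HNNExtension.of ⟨g, h1⟩ *
        HNNExtension.t ^ (-m) = HNNExtension.of ⟨_, h2⟩ := by
  obtain ⟨k, rfl | rfl⟩ := m.eq_nat_or_neg
  · obtain ⟨⟨h1, h2, h3⟩, -⟩ := hn_conj_nat t a k (M := M) (N := N) (by
      rw [Nat.abs_cast] at h; exact_mod_cast h) hg
    have e : t ^ k * g * (t ^ k)⁻¹ = t ^ (k : ℤ) * g * t ^ (-(k : ℤ)) := by
      rw [zpow_neg, zpow_natCast]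
    refine ⟨h1, e ▸ h2, ?_⟩
    rw [zpow_neg, zpow_natCast, h3]
    congr 1
    exact Subtype.ext e
  · obtain ⟨-, ⟨h1, h2, h3⟩⟩ := hn_conj_nat t a k (M := M) (N := N) (by
      rw [abs_neg, Nat.abs_cast] at h; exact_mod_cast h) hg
    have e : (t ^ k)⁻¹ * g * t ^ k = t ^ (-(k : ℤ)) * g * t ^ (-(-(k : ℤ))) := by
      rw [neg_neg, zpow_neg, zpow_natCast]
    refine ⟨h1, e ▸ h2, ?_⟩
    have e2 : (HNNExtension.t : HN t (Bs t a N)) ^ (-(-(k : ℤ))) = HNNExtension.t ^ k := by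
      rw [neg_neg, zpow_natCast]
    have e3 : (HNNExtension.t : HN t (Bs t a N)) ^ (-(k : ℤ)) = (HNNExtension.t ^ k)⁻¹ := by
      rw [zpow_neg, zpow_natCast]
    rw [e2, e3, h3]
    congr 1
    exact Subtype.ext e

end

section

variable {G : Type} [Group G] {n : ℕ} (f : FreeGroup (Fin n) →* G) (χ : G →* Multiplicative ℤ)
  (t : G)

/-- the exponent of an element of the free group -/
def ex (w : FreeGroup (Fin n)) : ℤ := (χ (f w)).toAdd

theorem ex_mul (w v : FreeGroup (Fin n)) : ex f χ (w * v) = ex f χ w + ex f χ v := by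
  simp [ex]

theorem ex_inv (w : FreeGroup (Fin n)) : ex f χ w⁻¹ = -ex f χ w := by
  simp [ex]

/-- the part in the kernel -/
def bp (w : FreeGroup (Fin n)) : G := f w * t ^ (-ex f χ w)

/-- the generators of the base groups -/
def ag (i : Fin n) : G := bp f χ t (FreeGroup.of i)

/-- the homomorphism of the free group to the HNN extension -/
noncomputable def th (M : ℕ) : FreeGroup (Fin n) →* HN t (Bs t (ag f χ t) M) :=
  FreeGroup.lift fun i => HNNExtension.of ⟨ag f χ t i, Bs_mono t _ (Nat.zero_le M)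
    (mem_Bs_zero t _ i)⟩ * HNNExtension.t ^ ex f χ (FreeGroup.of i)

theorem pi_th (M : ℕ) (w : FreeGroup (Fin n)) : pi t _ (th f χ t M w) = f w := by
  have : (pi t _).comp (th f χ t M) = f := by
    ext i
    simp only [MonoidHom.comp_apply, th, FreeGroup.lift_apply_of, map_mul, map_zpow, pi_t, pi_of]
    simp [ag, bp]
  exact congrArg (fun F : FreeGroup (Fin n) →* G => F w) this

/-- the values of `th` -/
theorem th_eq (w : FreeGroup (Fin n)) : ∃ M₀ : ℕ, ∀ M, M₀ ≤ M →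
    ∃ h : bp f χ t w ∈ Bs t (ag f χ t) M,
      th f χ t M w = HNNExtension.of ⟨_, h⟩ * HNNExtension.t ^ ex f χ w := by
  have hinv : ∀ w : FreeGroup (Fin n), (∃ M₀ : ℕ, ∀ M, M₀ ≤ M →
      ∃ h : bp f χ t w ∈ Bs t (ag f χ t) M,
        th f χ t M w = HNNExtension.of ⟨_, h⟩ * HNNExtension.t ^ ex f χ w) →
      ∃ M₀ : ℕ, ∀ M, M₀ ≤ M → ∃ h : bp f χ t w⁻¹ ∈ Bs t (ag f χ t) M,
        th f χ t M w⁻¹ = HNNExtension.of ⟨_, h⟩ * HNNExtension.t ^ ex f χ w⁻¹ := by
    rintro w ⟨M₀, hM₀⟩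
    obtain ⟨h0, -⟩ := hM₀ M₀ le_rfl
    refine ⟨M₀ + (ex f χ w).natAbs, fun M hM => ?_⟩
    obtain ⟨h1, h2⟩ := hM₀ M (by omega)
    obtain ⟨h3, h4, h5⟩ := hn_conj t (ag f χ t) (-ex f χ w) (M := M₀) (N := M) (by
      rw [abs_neg, Int.abs_eq_natAbs]
      exact_mod_cast hM) (inv_mem h0)
    have e : t ^ (-ex f χ w) * (bp f χ t w)⁻¹ * t ^ (-(-ex f χ w)) = bp f χ t w⁻¹ := by
      rw [bp, bp, ex_inv, map_inv]
      group
    refine ⟨e ▸ h4, ?_⟩
    rw [map_inv, h2, mul_inv_rev, ex_inv, ← map_inv, ← zpow_neg]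
    have h6 : (⟨bp f χ t w, h1⟩ : Bs t (ag f χ t) M)⁻¹ = ⟨(bp f χ t w)⁻¹, h3⟩ := rfl
    rw [h6]
    have h7 : (HNNExtension.of ⟨bp f χ t w⁻¹, e ▸ h4⟩ : HN t (Bs t (ag f χ t) M)) =
        HNNExtension.of ⟨_, h4⟩ := by
      congr 1
      exact Subtype.ext e.symm
    rw [h7, ← h5, neg_neg]
    group
  induction w using FreeGroup.induction_on with
  | C1 =>
    have h0 : ex f χ 1 = 0 := by simp [ex]
    have h1 : bp f χ t 1 = 1 := by rw [bp, h0, map_one, neg_zero, zpow_zero, mul_one]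
    refine ⟨0, fun M _ => ⟨h1 ▸ one_mem _, ?_⟩⟩
    have h2 : (⟨bp f χ t 1, h1 ▸ one_mem _⟩ : Bs t (ag f χ t) M) = 1 := Subtype.ext h1
    have h3 : (HNNExtension.t : HN t (Bs t (ag f χ t) M)) ^ ex f χ 1 = 1 := by
      rw [h0, zpow_zero]
    rw [h2, h3, map_one, map_one, mul_one]
  | of i =>
    exact ⟨0, fun M _ => ⟨Bs_mono t _ (Nat.zero_le M) (mem_Bs_zero t _ i), by
      rw [th, FreeGroup.lift_apply_of]
      rfl⟩⟩
  | inv_of i h => exact hinv _ h
  | mul w v hw hv =>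
    obtain ⟨M₁, hM₁⟩ := hw
    obtain ⟨M₂, hM₂⟩ := hv
    obtain ⟨h0, -⟩ := hM₂ M₂ le_rfl
    refine ⟨M₁ + (M₂ + (ex f χ w).natAbs), fun M hM => ?_⟩
    obtain ⟨h1, h2⟩ := hM₁ M (by omega)
    obtain ⟨h3, h4⟩ := hM₂ M (by omega)
    obtain ⟨h5, h6, h7⟩ := hn_conj t (ag f χ t) (ex f χ w) (M := M₂) (N := M) (by
      rw [Int.abs_eq_natAbs]
      exact_mod_cast (by omega : M₂ + (ex f χ w).natAbs ≤ M)) h0
    have e : bp f χ t w * (t ^ ex f χ w * bp f χ t v * t ^ (-ex f χ w)) = bp f χ t (w * v) := by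
      rw [bp, bp, bp, ex_mul, map_mul, neg_add, zpow_add]
      have : t ^ (-ex f χ w) * t ^ (-ex f χ v) = t ^ (-ex f χ v) * t ^ (-ex f χ w) := by
        rw [← zpow_add, ← zpow_add, add_comm]
      rw [this]
      group
    refine ⟨e ▸ mul_mem h1 h6, ?_⟩
    rw [map_mul, h2, h4, ex_mul]
    have h8 : (HNNExtension.of ⟨bp f χ t (w * v), e ▸ mul_mem h1 h6⟩ :
        HN t (Bs t (ag f χ t) M)) = HNNExtension.of ⟨_, h1⟩ * HNNExtension.of ⟨_, h6⟩ := by
      rw [← map_mul]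
      congr 1
      exact Subtype.ext e.symm
    rw [h8, ← h7, zpow_add, zpow_neg]
    group

theorem mem_range_of (M : ℕ) (ht : (HNNExtension.t : HN t (Bs t (ag f χ t) M)) ∈
    (th f χ t M).range) : (th f χ t M).range = ⊤ := by
  have h1 : ∀ i, ∀ h : ag f χ t i ∈ Bs t (ag f χ t) M,
      (HNNExtension.of ⟨ag f χ t i, h⟩ : HN t (Bs t (ag f χ t) M)) ∈ (th f χ t M).range := by
    intro i h
    have h2 : (HNNExtension.of ⟨ag f χ t i, h⟩ : HN t (Bs t (ag f χ t) M)) =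
        th f χ t M (FreeGroup.of i) * (HNNExtension.t ^ ex f χ (FreeGroup.of i))⁻¹ := by
      rw [th, FreeGroup.lift_apply_of, mul_inv_cancel_right]
    rw [h2]
    exact mul_mem ⟨_, rfl⟩ (inv_mem (zpow_mem ht _))
  have h2 : ∀ g, ∀ h : g ∈ Bs t (ag f χ t) M,
      (HNNExtension.of ⟨g, h⟩ : HN t (Bs t (ag f χ t) M)) ∈ (th f χ t M).range := by
    intro g h
    induction h using Subgroup.closure_induction with
    | mem x hx =>
      obtain ⟨i, j, hj, rfl⟩ := hx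
      obtain ⟨h3, h4, h5⟩ := hn_conj t (ag f χ t) j (M := 0) (N := M) (by simpa using hj)
        (mem_Bs_zero t _ i)
      rw [← h5]
      exact mul_mem (mul_mem (zpow_mem ht _) (h1 i _)) (zpow_mem ht _)
    | one =>
      have : (⟨1, one_mem _⟩ : Bs t (ag f χ t) M) = 1 := rfl
      rw [this, map_one]
      exact one_mem _
    | mul x y hx hy ihx ihy =>
      have : (⟨x * y, mul_mem hx hy⟩ : Bs t (ag f χ t) M) = ⟨x, hx⟩ * ⟨y, hy⟩ := rfl
      rw [this, map_mul]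
      exact mul_mem ihx ihy
    | inv x hx ihx =>
      have : (⟨x⁻¹, inv_mem hx⟩ : Bs t (ag f χ t) M) = ⟨x, hx⟩⁻¹ := rfl
      rw [this, map_inv]
      exact inv_mem ihx
  rw [eq_top_iff]
  intro x _
  induction x using HNNExtension.induction_on with
  | of g => exact h2 g.1 g.2
  | t => exact ht
  | mul x y hx hy => exact mul_mem (hx trivial) (hy trivial)
  | inv x hx => exact inv_mem (hx trivial)

/-- **Bieri–Strebel** for finitely presented groups -/
theorem exists_injective (hf : Function.Surjective f) (R : Set (FreeGroup (Fin n)))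
    (hR : R.Finite) (hker : Subgroup.normalClosure R = f.ker) (ht : χ t = Multiplicative.ofAdd 1) :
    ∃ M : ℕ, Function.Injective (pi t (Bs t (ag f χ t) M)) := by
  classical
  obtain ⟨τ, hτ⟩ := hf t
  choose m hm using th_eq f χ t
  let S : Finset (FreeGroup (Fin n)) := insert τ hR.toFinset
  let M := S.sup m
  have hM : ∀ w ∈ S, m w ≤ M := fun w hw => Finset.le_sup hw
  refine ⟨M, ?_⟩
  have h1 : th f χ t M τ = HNNExtension.t := by
    obtain ⟨h2, h3⟩ := hm τ M (hM τ (Finset.mem_insert_self _ _))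
    have h4 : ex f χ τ = 1 := by
      rw [ex, hτ, ht]
      rfl
    have h5 : (⟨bp f χ t τ, h2⟩ : Bs t (ag f χ t) M) = 1 := by
      apply Subtype.ext
      show bp f χ t τ = 1
      rw [bp, h4, hτ]
      simp
    rw [h3, h5, h4, map_one, one_mul, zpow_one]
  have h2 : R ⊆ (th f χ t M).ker := by
    intro r hr
    obtain ⟨h2, h3⟩ := hm r M (hM r (Finset.mem_insert_of_mem (hR.mem_toFinset.2 hr)))
    have h6 : f r = 1 := by
      have : r ∈ f.ker := hker ▸ Subgroup.subset_normalClosure hr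
      exact this
    have h4 : ex f χ r = 0 := by
      rw [ex, h6, map_one]
      rfl
    have h5 : (⟨bp f χ t r, h2⟩ : Bs t (ag f χ t) M) = 1 := by
      apply Subtype.ext
      show bp f χ t r = 1
      rw [bp, h4, h6]
      simp
    show th f χ t M r = 1
    rw [h3, h5, h4, map_one, one_mul, zpow_zero]
  have h3 : f.ker ≤ (th f χ t M).ker := by
    rw [← hker]
    exact Subgroup.normalClosure_le_normal h2
  have h4 := mem_range_of f χ t M ⟨τ, h1⟩
  rw [injective_iff_map_eq_one]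
  intro x hx
  obtain ⟨w, rfl⟩ : x ∈ (th f χ t M).range := by rw [h4]; trivial
  rw [pi_th] at hx
  exact h3 hx

end

theorem push {G : Type} [Group G] {n : ℕ} (t : G) (a : Fin n → G) {M : ℕ}
    (hA : ∀ x ∈ Bs t a M, t * x * t⁻¹ ∈ Bs t a M) {N : ℕ} {g : G} (hg : g ∈ Bs t a N) :
    t ^ N * g * (t ^ N)⁻¹ ∈ Bs t a M := by
  have hA' : ∀ (k : ℕ) (x : G), x ∈ Bs t a M → t ^ k * x * (t ^ k)⁻¹ ∈ Bs t a M := by
    intro k
    induction k with
    | zero => intro x hx; simpa using hx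
    | succ k ih =>
      intro x hx
      have := ih _ (hA x hx)
      have e : t ^ k * (t * x * t⁻¹) * (t ^ k)⁻¹ = t ^ (k + 1) * x * (t ^ (k + 1))⁻¹ := by
        rw [pow_succ]
        group
      rwa [e] at this
  induction hg using Subgroup.closure_induction with
  | mem x hx =>
    obtain ⟨i, j, hj, rfl⟩ := hx
    obtain ⟨l, hl⟩ : ∃ l : ℕ, (N : ℤ) + j = l := ⟨((N : ℤ) + j).toNat, by
      rw [Int.toNat_of_nonneg]
      have := neg_abs_le j
      linarith⟩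
    have h1 := hA' l _ (Bs_mono t _ (Nat.zero_le M) (mem_Bs_zero t a i))
    have e : t ^ N * (t ^ j * a i * t ^ (-j)) * (t ^ N)⁻¹ = t ^ l * a i * (t ^ l)⁻¹ := by
      rw [← zpow_natCast t l, ← hl, zpow_add, zpow_natCast]
      group
    rwa [e]
  | one => simp
  | mul x y _ _ hx hy =>
    have : t ^ N * (x * y) * (t ^ N)⁻¹ = (t ^ N * x * (t ^ N)⁻¹) * (t ^ N * y * (t ^ N)⁻¹) := by
      group
    rw [this]
    exact mul_mem hx hy
  | inv x _ hx =>
    have : t ^ N * x⁻¹ * (t ^ N)⁻¹ = (t ^ N * x * (t ^ N)⁻¹)⁻¹ := by group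
    rw [this]
    exact inv_mem hx

theorem push' {G : Type} [Group G] {n : ℕ} (t : G) (a : Fin n → G) {M : ℕ}
    (hA : ∀ x ∈ Bs t a M, t⁻¹ * x * t ∈ Bs t a M) {N : ℕ} {g : G} (hg : g ∈ Bs t a N) :
    (t ^ N)⁻¹ * g * t ^ N ∈ Bs t a M := by
  have hBs : ∀ K, Bs t a K = Bs t⁻¹ a K := by
    intro K
    rw [Bs, Bs]
    congr 1
    ext g
    constructor
    · rintro ⟨i, j, hj, rfl⟩
      exact ⟨i, -j, by rwa [abs_neg], by rw [inv_zpow', inv_zpow', neg_neg]⟩
    · rintro ⟨i, j, hj, rfl⟩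
      exact ⟨i, -j, by rwa [abs_neg], by rw [inv_zpow', inv_zpow']⟩
  rw [hBs] at hg hA ⊢
  have := push t⁻¹ a (M := M) (by simpa using hA) hg
  rwa [inv_pow, inv_inv] at this

/-- A finitely presented group with a homomorphism `χ` onto `ℤ` has a finitely generated subgroup
`B` of the kernel of `χ` such that all the elements of the kernel are conjugate into `B` by powers
of `t`, and `t B t⁻¹ ≤ B` or `t⁻¹ B t ≤ B`; otherwise the kernel contains a free group of rank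
two. -/
theorem bs_cases {G : Type} [Group G] [hG : Group.IsFinitelyPresented G]
    (χ : G →* Multiplicative ℤ) (t : G) (ht : χ t = Multiplicative.ofAdd 1) :
    (∃ F : FreeGroup (Fin 2) →* χ.ker, Function.Injective F) ∨
    ∃ B : Subgroup G, B.FG ∧ B ≤ χ.ker ∧
      (((∀ x ∈ B, t * x * t⁻¹ ∈ B) ∧ ∀ g, χ g = 1 → ∃ k : ℕ, t ^ k * g * (t ^ k)⁻¹ ∈ B) ∨
      ((∀ x ∈ B, t⁻¹ * x * t ∈ B) ∧ ∀ g, χ g = 1 → ∃ k : ℕ, (t ^ k)⁻¹ * g * t ^ k ∈ B)) := by
  obtain ⟨n, f, hf, R, hR, hker⟩ := hG.out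
  obtain ⟨M, hM⟩ := exists_injective f χ t hf R hR hker ht
  have hle : Bs t (ag f χ t) M ≤ χ.ker := by
    rw [Bs, Subgroup.closure_le]
    rintro g ⟨i, j, -, rfl⟩
    show χ _ = 1
    have h1 : χ (ag f χ t i) = 1 := by
      rw [ag, bp, map_mul, map_zpow, ht, ex, ← ofAdd_zsmul]
      simp
    rw [map_mul, map_mul, h1, map_zpow, map_zpow, zpow_neg]
    simp
  have hmem : ∀ g, χ g = 1 → ∃ N, g ∈ Bs t (ag f χ t) N := by
    intro g hg
    obtain ⟨w, rfl⟩ := hf g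
    obtain ⟨N, hN⟩ := th_eq f χ t w
    obtain ⟨h1, -⟩ := hN N le_rfl
    refine ⟨N, ?_⟩
    have h2 : bp f χ t w = f w := by
      rw [bp, ex, hg]
      simp
    rwa [h2] at h1
  by_cases hA : ∀ x ∈ Bs t (ag f χ t) M, t * x * t⁻¹ ∈ Bs t (ag f χ t) M
  · right
    refine ⟨Bs t (ag f χ t) M, Bs_fg _ _ _, hle, Or.inl ⟨hA, fun g hg => ?_⟩⟩
    obtain ⟨N, hN⟩ := hmem g hg
    exact ⟨N, push t _ hA hN⟩
  by_cases hB : ∀ x ∈ Bs t (ag f χ t) M, t⁻¹ * x * t ∈ Bs t (ag f χ t) M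
  · right
    refine ⟨Bs t (ag f χ t) M, Bs_fg _ _ _, hle, Or.inr ⟨hB, fun g hg => ?_⟩⟩
    obtain ⟨N, hN⟩ := hmem g hg
    exact ⟨N, push' t _ hB hN⟩
  left
  push Not at hA hB
  obtain ⟨x, hx, hx'⟩ := hA
  obtain ⟨y, hy, hy'⟩ := hB
  have h1 := free_of_hnn (cj t (Bs t (ag f χ t) M)) ⟨x, hx⟩ ⟨y, hy⟩ (by
    rw [mem_A0]
    exact hx') (by
    rw [mem_A0, inv_inv]
    exact hy')
  have hxχ : χ x = 1 := hle hx
  have hyχ : χ y = 1 := hle hy
  let F : FreeGroup (Fin 2) →* G :=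
    (pi t _).comp (FreeGroup.lift (gen (cj t (Bs t (ag f χ t) M)) ⟨x, hx⟩ ⟨y, hy⟩))
  have hF : Function.Injective F := hM.comp h1
  have hFk : ∀ w, F w ∈ χ.ker := by
    intro w
    have : χ.comp F = 1 := by
      ext i
      simp only [F, MonoidHom.comp_apply, FreeGroup.lift_apply_of, MonoidHom.one_apply]
      fin_cases i
      · simp [gen, pi_t, pi_of, hxχ, hyχ]
      · simp [gen, pi_t, pi_of, hxχ, hyχ]
    exact congrArg (fun F : FreeGroup (Fin 2) →* Multiplicative ℤ => F w) this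
  exact ⟨F.codRestrict _ hFk, fun a b h => hF (congrArg Subtype.val h)⟩

end Pool.Agent.H26.PD
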