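import Pool.Agent.H26.PD.Shift

/-!
Centralisers in thin subgroups; elements conjugate to proper powers.
-/

set_option autoImplicit false

namespace Pool.Agent.H26.PD

open Pool.Agent.Helper386.PD3
open scoped Classical Matrix

noncomputable section

variable {G : Type} [Group G]

theorem addR_eq {K : Type*} [AddCommGroup K] (f : G → K) (r : RR G) :
    addR f r = ∑ g ∈ r.coeff.support, r.coeff g • f g := rfl

/-- Either `r` is divisible by `c - 1` or `N` is contained in finitely many cosets of `⟨c⟩`. -/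
theorem divisible_or {N : Subgroup G} {c : G} (hcen : ∀ g ∈ N, g * c = c * g)
    {r : RR G} (hr : ∀ m ∈ N, ∃ u, gof m * r - r = gof c * u - u) :
    (∃ v, r = gof c * v - v) ∨ ∃ T : Set G, T.Finite ∧ ∀ g ∈ N, ∃ k : ℤ, c ^ k * g ∈ T := by
  let R : Setoid G :=
    { r := fun y y' => ∃ i : ℤ, y' = c ^ i * y
      iseqv :=
        { refl := fun y => ⟨0, by simp⟩
          symm := by
            rintro y _ ⟨i, rfl⟩
            exact ⟨-i, by group⟩
          trans := by
            rintro y _ _ ⟨i, rfl⟩ ⟨i', rfl⟩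
            exact ⟨i' + i, by rw [zpow_add, mul_assoc]⟩ } }
  let rep : G → G := fun y => (Quotient.mk R y).out
  have hrep : ∀ y, ∃ i : ℤ, y = c ^ i * rep y := fun y =>
    Quotient.exact (Quotient.out_eq (Quotient.mk R y))
  have hreq : ∀ y, rep (c * y) = rep y := by
    intro y
    change (Quotient.mk R (c * y)).out = (Quotient.mk R y).out
    congr 1
    exact (Quotient.sound (s := R) ⟨1, by simp⟩).symm
  let hat : RR G →+ RR G := addR (fun g => gof (rep g))
  have hat_of : ∀ g, hat (gof g) = gof (rep g) := fun g => addR_of _ _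
  have hat_c : ∀ u, hat (gof c * u) = hat u := by
    intro u
    induction u using rr_ind with
    | h1 g => rw [← gof_mul, hat_of, hat_of, hreq]
    | h2 x y hx hy => rw [mul_add, map_add, hx, hy, map_add]
    | h3 x hx => rw [mul_neg, map_neg, hx, map_neg]
  have hpow : ∀ i : ℤ, ∃ v : RR G, gof (c ^ i) - 1 = gof c * v - v := by
    intro i
    induction i using Int.induction_on with
    | zero => exact ⟨0, by rw [zpow_zero, gof_one, mul_zero, sub_self, sub_self]⟩
    | succ k ih =>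
      obtain ⟨v, hv⟩ := ih
      refine ⟨gof c * v + 1, ?_⟩
      have h1 : gof (c ^ ((k : ℤ) + 1)) - 1 = gof c * (gof (c ^ (k : ℤ)) - 1) + (gof c - 1) := by
        rw [add_comm, zpow_add, zpow_one, gof_mul, mul_sub, mul_one]
        abel
      rw [h1, hv, mul_sub, mul_add, mul_one]
      abel
    | pred k ih =>
      obtain ⟨v, hv⟩ := ih
      refine ⟨gof c⁻¹ * v - gof c⁻¹, ?_⟩
      have h1 : gof (c ^ (-(k : ℤ) - 1)) - 1 =
          gof c⁻¹ * (gof (c ^ (-(k : ℤ))) - 1) + (gof c⁻¹ - 1) := by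
        have h0 : c ^ (-(k : ℤ) - 1) = c⁻¹ * c ^ (-(k : ℤ)) := by
          rw [sub_eq_neg_add, zpow_add, zpow_neg_one]
        rw [h0, gof_mul, mul_sub, mul_one]
        abel
      have h2 : gof c * gof c⁻¹ = 1 := by rw [← gof_mul, mul_inv_cancel, gof_one]
      have h3 : gof c⁻¹ * gof c = 1 := by rw [← gof_mul, inv_mul_cancel, gof_one]
      rw [h1, hv, mul_sub, mul_sub, ← mul_assoc, h3, one_mul, ← mul_assoc, h2, one_mul]
      abel
  have hsub : ∀ u : RR G, ∃ v, u - hat u = gof c * v - v := by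
    intro u
    induction u using rr_ind with
    | h1 g =>
      obtain ⟨i, hi⟩ := hrep g
      obtain ⟨v, hv⟩ := hpow i
      refine ⟨v * gof (rep g), ?_⟩
      rw [hat_of, ← mul_assoc, ← sub_mul, ← hv, sub_mul, one_mul, ← gof_mul, ← hi]
    | h2 x y hx hy =>
      obtain ⟨v, hv⟩ := hx
      obtain ⟨v', hv'⟩ := hy
      refine ⟨v + v', ?_⟩
      have h1 : x + y - hat (x + y) = (x - hat x) + (y - hat y) := by
        rw [map_add]
        abel
      rw [h1, hv, hv', mul_add]
      abel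
    | h3 x hx =>
      obtain ⟨v, hv⟩ := hx
      refine ⟨-v, ?_⟩
      have h1 : -x - hat (-x) = -(x - hat x) := by
        rw [map_neg]
        abel
      rw [h1, hv, mul_neg]
      abel
  by_cases hs : hat r = 0
  · left
    obtain ⟨v, hv⟩ := hsub r
    exact ⟨v, by rw [← hv, hs, sub_zero]⟩
  · right
    have hs' : (hat r).coeff ≠ 0 := fun h0 => hs (MonoidAlgebra.coeff_injective h0)
    obtain ⟨x, hx⟩ := Finsupp.ne_iff.1 hs'
    refine ⟨(fun y => x * y⁻¹) '' ((hat r).coeff.support : Set G),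
      (Finset.finite_toSet _).image _, fun m hm => ?_⟩
    have h1 : hat (gof m * hat r) = hat r := by
      obtain ⟨v, hv⟩ := hsub r
      obtain ⟨u, hu⟩ := hr m hm
      have h2 : hat r = r - (gof c * v - v) := by rw [← hv]; abel
      have h3 : gof m * (gof c * v - v) = gof c * (gof m * v) - gof m * v := by
        rw [mul_sub, ← mul_assoc, ← gof_mul, hcen m hm, gof_mul, mul_assoc]
      have h4 : gof m * r = r + (gof c * u - u) := by rw [← hu]; abel
      have h5 : hat (gof m * hat r) = hat (gof m * r) - hat (gof m * (gof c * v - v)) := by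
        conv_lhs => rw [h2]
        rw [mul_sub, map_sub]
      rw [h5, h3, map_sub, hat_c, sub_self, sub_zero, h4, map_add, map_sub, hat_c, sub_self,
        add_zero]
    have h2 : (hat (gof m * hat r)).coeff x ≠ 0 := by rw [h1]; exact hx
    have h3 : ∃ y, (gof m * hat r).coeff y ≠ 0 ∧ rep y = x := by
      by_contra hcon
      push Not at hcon
      apply h2
      change (addR (fun g => gof (rep g)) (gof m * hat r)).coeff x = 0
      rw [addR_eq, MonoidAlgebra.coeff_sum, Finsupp.finsetSum_apply]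
      refine Finset.sum_eq_zero fun y hy => ?_
      rw [MonoidAlgebra.coeff_smul, Finsupp.smul_apply]
      have h4 : (gof (rep y) : RR G).coeff x = 0 := by
        change (Finsupp.single (rep y) (1 : ℤ)) x = 0
        rw [Finsupp.single_apply, if_neg (hcon y (Finsupp.mem_support_iff.1 hy))]
      rw [h4, smul_zero]
    obtain ⟨y, hy, hyx⟩ := h3
    have h4 : (gof m * hat r).coeff y = (hat r).coeff (m⁻¹ * y) := by
      change (MonoidAlgebra.single m (1 : ℤ) * hat r).coeff y = _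
      rw [MonoidAlgebra.coeff_single_mul_apply, one_mul]
    rw [h4] at hy
    obtain ⟨i, hi⟩ := hrep y
    refine ⟨-i, m⁻¹ * y, by rw [Finset.mem_coe, Finsupp.mem_support_iff]; exact hy, ?_⟩
    change x * (m⁻¹ * y)⁻¹ = c ^ (-i) * m
    have h5 : y * (rep y)⁻¹ = c ^ i := by
      rw [mul_inv_eq_iff_eq_mul]
      exact hi
    rw [mul_inv_rev, inv_inv, ← mul_assoc, ← hyx, zpow_neg, ← h5, mul_inv_rev, inv_inv]

theorem Thin.central {N : Subgroup G} (h : Thin N) {c : G} (hc : c ∈ N)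
    (hcen : ∀ g ∈ N, g * c = c * g) (hinf : ∀ k : ℤ, k ≠ 0 → c ^ k ≠ 1) :
    ∃ T : Set G, T.Finite ∧ ∀ g ∈ N, ∃ k : ℤ, c ^ k * g ∈ T := by
  obtain ⟨n, δ, h1, h2⟩ := h
  by_contra hcon
  have h3 : ∀ i : Fin n, ∃ v, δ c i = gof c * v - v := by
    intro i
    refine (divisible_or (N := N) hcen (r := δ c i) fun m hm => ⟨δ m i, ?_⟩).resolve_right hcon
    have h4 := congrFun (h1 m hm c hc) i
    have h5 := congrFun (h1 c hc m hm) i
    rw [hcen m hm, h5] at h4
    change δ c i + gof c * δ m i = δ m i + gof m * δ c i at h4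
    rw [sub_eq_sub_iff_add_eq_add, add_comm, ← h4, add_comm]
  choose v hv using h3
  have hinfL : Infinite (Subgroup.zpowers c) := by
    refine Set.infinite_coe_iff.2 ?_
    have h4 : Function.Injective (fun k : ℤ => c ^ k) := by
      intro a b hab
      by_contra hne
      apply hinf (a - b) (sub_ne_zero.2 hne)
      change c ^ a = c ^ b at hab
      rw [zpow_sub, hab, mul_inv_cancel]
    refine (Set.infinite_range_of_injective h4).mono ?_
    rintro _ ⟨k, rfl⟩
    exact ⟨k, rfl⟩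
  refine h2 (Subgroup.zpowers c) (by rwa [Subgroup.zpowers_le]) hinfL v ?_
  have hone : δ 1 = 0 := by
    have := h1 1 N.one_mem 1 N.one_mem
    rw [mul_one, gof_one, one_smul] at this
    simpa using this
  let S : Subgroup G :=
    { carrier := {g | g ∈ N ∧ δ g = gof g • v - v}
      one_mem' := ⟨N.one_mem, by rw [hone, gof_one, one_smul, sub_self]⟩
      mul_mem' := by
        rintro g g' ⟨hg, h4⟩ ⟨hg', h5⟩
        refine ⟨N.mul_mem hg hg', ?_⟩
        rw [h1 g hg g' hg', h4, h5, gof_mul, mul_smul, smul_sub]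
        abel
      inv_mem' := by
        rintro g ⟨hg, h4⟩
        refine ⟨N.inv_mem hg, ?_⟩
        have h5 := h1 g⁻¹ (N.inv_mem hg) g hg
        rw [inv_mul_cancel, hone, h4, smul_sub, smul_smul, ← gof_mul, inv_mul_cancel, gof_one,
          one_smul] at h5
        have h6 : δ g⁻¹ = (δ g⁻¹ + (v - gof g⁻¹ • v)) - (v - gof g⁻¹ • v) := by abel
        rw [h6, ← h5]
        abel }
  have hcS : c ∈ S := by
    refine ⟨hc, ?_⟩
    funext i
    exact hv i
  intro g hg
  exact ((Subgroup.zpowers_le.2 hcS) hg).2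

section bs

variable {n : ℕ} {w : G →* ℤˣ} {e0 e1 e2 e3 d0 d1 d2 : MR G n} {χ : G →* Multiplicative ℤ}

/-- In the kernel of the character no element of infinite order is conjugate to a proper power. -/
theorem no_bs (hF : Full w e0 e1 e2 e3 d0 d1 d2) {t : G} (ht : lv χ t = 1) (hK : χ.ker.FG)
    {x g : G} (hx0 : lv χ x = 0) (hg0 : lv χ g = 0) (hg : ∀ k : ℤ, k ≠ 0 → g ^ k ≠ 1) {m : ℕ}
    (hm : 2 ≤ m) (hxg : x * g * x⁻¹ = g ^ m) : False := by
  have hinj : ∀ a b : ℤ, g ^ a = g ^ b → a = b := by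
    intro a b hab
    by_contra hne
    apply hg (a - b) (sub_ne_zero.2 hne)
    rw [zpow_sub, hab, mul_inv_cancel]
  have hc1 : ∀ j : ℤ, x * g ^ j * x⁻¹ = g ^ (j * m) := by
    intro j
    have h1 : x * g ^ j * x⁻¹ = (x * g * x⁻¹) ^ j := by
      rw [conj_zpow]
    rw [h1, hxg, ← zpow_natCast, ← zpow_mul, mul_comm]
  have hci : ∀ (i : ℕ) (j : ℤ), x ^ i * g ^ j * (x ^ i)⁻¹ = g ^ (j * m ^ i) := by
    intro i
    induction i with
    | zero => intro j; simp
    | succ i ih =>
      intro j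
      have h1 : x ^ (i + 1) * g ^ j * (x ^ (i + 1))⁻¹ = x * (x ^ i * g ^ j * (x ^ i)⁻¹) * x⁻¹ := by
        rw [pow_succ']
        group
      rw [h1, ih, hc1, pow_succ, mul_assoc]
  have hup : ∀ (i k : ℕ) (y : G), x ^ i * y * (x ^ i)⁻¹ ∈ Subgroup.zpowers g →
      x ^ (k + i) * y * (x ^ (k + i))⁻¹ ∈ Subgroup.zpowers g := by
    rintro i k y ⟨j, hj⟩
    refine ⟨j * m ^ k, ?_⟩
    change g ^ (j * m ^ k) = _
    rw [← hci k j]
    change g ^ j = _ at hj
    rw [hj, pow_add]
    group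
  have hup' : ∀ (i k : ℕ) (y : G), i ≤ k → x ^ i * y * (x ^ i)⁻¹ ∈ Subgroup.zpowers g →
      x ^ k * y * (x ^ k)⁻¹ ∈ Subgroup.zpowers g := by
    intro i k y hik h
    obtain ⟨l, rfl⟩ := Nat.exists_eq_add_of_le' hik
    exact hup i l y h
  let A : Subgroup G :=
    { carrier := {y | ∃ i : ℕ, x ^ i * y * (x ^ i)⁻¹ ∈ Subgroup.zpowers g}
      one_mem' := ⟨0, by simp⟩
      mul_mem' := by
        rintro y y' ⟨i, hi⟩ ⟨i', hi'⟩
        refine ⟨i + i', ?_⟩
        have h1 := hup' i (i + i') y (by omega) hi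
        have h2 := hup' i' (i + i') y' (by omega) hi'
        have h3 := mul_mem h1 h2
        have h4 : x ^ (i + i') * (y * y') * (x ^ (i + i'))⁻¹ =
          x ^ (i + i') * y * (x ^ (i + i'))⁻¹ * (x ^ (i + i') * y' * (x ^ (i + i'))⁻¹) := by group
        rw [h4]
        exact h3
      inv_mem' := by
        rintro y ⟨i, hi⟩
        refine ⟨i, ?_⟩
        have h4 : x ^ i * y⁻¹ * (x ^ i)⁻¹ = (x ^ i * y * (x ^ i)⁻¹)⁻¹ := by group
        rw [h4]
        exact inv_mem hi }
  have hmemA : ∀ y, y ∈ A ↔ ∃ i : ℕ, x ^ i * y * (x ^ i)⁻¹ ∈ Subgroup.zpowers g := fun _ => Iff.rfl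
  have hgA : g ∈ A := ⟨0, by simp⟩
  have hcomm : ∀ y ∈ A, ∀ y' ∈ A, y * y' = y' * y := by
    rintro y ⟨i, hi⟩ y' ⟨i', hi'⟩
    obtain ⟨j, hj⟩ := hup' i (i + i') y (by omega) hi
    obtain ⟨j', hj'⟩ := hup' i' (i + i') y' (by omega) hi'
    change g ^ j = _ at hj
    change g ^ j' = _ at hj'
    have h1 : (x ^ (i + i') * y * (x ^ (i + i'))⁻¹) * (x ^ (i + i') * y' * (x ^ (i + i'))⁻¹) =
        (x ^ (i + i') * y' * (x ^ (i + i'))⁻¹) * (x ^ (i + i') * y * (x ^ (i + i'))⁻¹) := by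
      rw [← hj, ← hj', ← zpow_add, ← zpow_add, add_comm]
    have h2 : x ^ (i + i') * (y * y') * (x ^ (i + i'))⁻¹ =
        x ^ (i + i') * (y' * y) * (x ^ (i + i'))⁻¹ := by
      have h3 : x ^ (i + i') * (y * y') * (x ^ (i + i'))⁻¹ =
        (x ^ (i + i') * y * (x ^ (i + i'))⁻¹) * (x ^ (i + i') * y' * (x ^ (i + i'))⁻¹) := by group
      have h4 : x ^ (i + i') * (y' * y) * (x ^ (i + i'))⁻¹ =
        (x ^ (i + i') * y' * (x ^ (i + i'))⁻¹) * (x ^ (i + i') * y * (x ^ (i + i'))⁻¹) := by group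
      rw [h3, h4, h1]
    exact mul_left_cancel (mul_right_cancel h2)
  have hxA : ∀ y, x * y * x⁻¹ ∈ A ↔ y ∈ A := by
    intro y
    constructor
    · rintro ⟨i, hi⟩
      refine ⟨i + 1, ?_⟩
      rw [pow_succ]
      convert hi using 1
      group
    · rintro ⟨i, hi⟩
      refine ⟨i, ?_⟩
      have h1 := hup' i (i + 1) y (by omega) hi
      rw [pow_succ] at h1
      convert h1 using 1
      group
  have hxiA : ∀ (i : ℤ) (y : G), x ^ i * y * (x ^ i)⁻¹ ∈ A ↔ y ∈ A := by
    intro i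
    induction i using Int.induction_on with
    | zero => intro y; simp
    | succ k ih =>
      intro y
      rw [← ih y, ← hxA (x ^ (k : ℤ) * y * (x ^ (k : ℤ))⁻¹)]
      have : x ^ ((k : ℤ) + 1) * y * (x ^ ((k : ℤ) + 1))⁻¹ =
        x * (x ^ (k : ℤ) * y * (x ^ (k : ℤ))⁻¹) * x⁻¹ := by group
      rw [this]
    | pred k ih =>
      intro y
      rw [← ih y, ← hxA (x ^ (-(k : ℤ) - 1) * y * (x ^ (-(k : ℤ) - 1))⁻¹)]
      have : x * (x ^ (-(k : ℤ) - 1) * y * (x ^ (-(k : ℤ) - 1))⁻¹) * x⁻¹ =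
        x ^ (-(k : ℤ)) * y * (x ^ (-(k : ℤ)))⁻¹ := by group
      rw [this]
  have hA0 : ∀ y ∈ A, lv χ y = 0 := by
    rintro y ⟨i, j, hj⟩
    change g ^ j = _ at hj
    have h1 := congrArg (lv χ) hj
    rw [lv_mul, lv_mul, lv_inv] at h1
    have h2 : lv χ (g ^ j) = 0 := by
      rw [lv, map_zpow, toAdd_zpow]
      change j • lv χ g = 0
      rw [hg0, smul_zero]
    rw [h2] at h1
    linarith
  let X : Set G := {h | ∀ i : ℤ, i ≠ 0 → ∀ a ∈ A, h * (a * x ^ i) * h⁻¹ ∉ A}
  have hthin : Thin A := by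
    refine thin_of_shift hF ht hK hA0 (X := X) (z1 := x) (z2 := g) hx0 hg0 ?_ ?_ ?_ ?_ ?_
    · intro b hb h hh i hi a ha hcon
      apply hh i hi a ha
      have h1 : h * (a * x ^ i) * h⁻¹ = b⁻¹ * (b * h * (a * x ^ i) * (b * h)⁻¹) * b := by group
      rw [h1]
      exact A.mul_mem (A.mul_mem (A.inv_mem hb) hcon) hb
    · intro h
      constructor
      · intro hh i hi a ha hcon
        apply hh i hi (x⁻¹ * a * x) (by
          have := (hxA (x⁻¹ * a * x)).1 (by convert ha using 1; group)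
          exact this)
        convert hcon using 1
        group
      · intro hh i hi a ha hcon
        apply hh i hi (x * a * x⁻¹) ((hxA a).2 ha)
        convert hcon using 1
        group
    · intro h
      constructor
      · intro hh i hi a ha hcon
        apply hh i hi (g⁻¹ * a * (x ^ i * g * (x ^ i)⁻¹))
          (A.mul_mem (A.mul_mem (A.inv_mem hgA) ha) ((hxiA i g).2 hgA))
        convert hcon using 1
        group
      · intro hh i hi a ha hcon
        apply hh i hi (g * a * (x ^ i * g⁻¹ * (x ^ i)⁻¹))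
          (A.mul_mem (A.mul_mem hgA ha) ((hxiA i _).2 (A.inv_mem hgA)))
        convert hcon using 1
        group
    · intro h hh _ i hi
      have := hh i hi 1 A.one_mem
      rwa [one_mul] at this
    · intro h hh _ j hj hcon
      have hh' : ∃ i : ℤ, i ≠ 0 ∧ ∃ a ∈ A, h * (a * x ^ i) * h⁻¹ ∈ A := by
        by_contra hc
        push Not at hc
        exact hh hc
      obtain ⟨i, hi, a, ha, hai⟩ := hh'
      have h1 := hcomm _ hai _ hcon
      have h2 : (a * x ^ i) * g ^ j = g ^ j * (a * x ^ i) := by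
        have h3 : h * ((a * x ^ i) * g ^ j) * h⁻¹ = h * (g ^ j * (a * x ^ i)) * h⁻¹ := by
          have h4 : h * ((a * x ^ i) * g ^ j) * h⁻¹ =
            h * (a * x ^ i) * h⁻¹ * (h * g ^ j * h⁻¹) := by group
          have h5 : h * (g ^ j * (a * x ^ i)) * h⁻¹ =
            h * g ^ j * h⁻¹ * (h * (a * x ^ i) * h⁻¹) := by group
          rw [h4, h5, h1]
        exact mul_left_cancel (mul_right_cancel h3)
      have h6 : x ^ i * g ^ j * (x ^ i)⁻¹ = g ^ j := by
        have h7 : a * (x ^ i * g ^ j * (x ^ i)⁻¹) = a * g ^ j := by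
          have h8 : a * (x ^ i * g ^ j * (x ^ i)⁻¹) = (a * x ^ i) * g ^ j * (x ^ i)⁻¹ := by group
          rw [h8, h2, hcomm a ha _ (A.zpow_mem hgA j)]
          group
        exact mul_left_cancel h7
      -- natural exponents
      have h9 : ∀ l : ℕ, l ≠ 0 → x ^ l * g ^ j * (x ^ l)⁻¹ = g ^ j → False := by
        intro l hl h10
        rw [hci] at h10
        have h11 := hinj _ _ h10
        have h12 : (m : ℤ) ^ l ≠ 1 := by
          have h13 : 1 < (m : ℤ) ^ l := one_lt_pow₀ (by exact_mod_cast hm) hl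
          omega
        apply h12
        have h14 : j * ((m : ℤ) ^ l - 1) = 0 := by rw [mul_sub, h11, mul_one, sub_self]
        rcases mul_eq_zero.1 h14 with h15 | h15
        · exact absurd h15 hj
        · linarith
      rcases lt_or_gt_of_ne hi with hneg | hpos
      · apply h9 (-i).toNat (by omega)
        have h10 : x ^ (-i).toNat = (x ^ i)⁻¹ := by
          rw [← zpow_natCast, Int.toNat_of_nonneg (by omega), zpow_neg]
        rw [h10]
        conv_lhs => rw [← h6]
        group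
      · apply h9 i.toNat (by omega)
        have h10 : x ^ i.toNat = x ^ i := by
          rw [← zpow_natCast, Int.toNat_of_nonneg (by omega)]
        rw [h10, h6]
  obtain ⟨T, hT, hT'⟩ := hthin.central hgA (fun y hy => hcomm y hy g hgA) hg
  have hyi : ∀ i : ℕ, (x ^ i)⁻¹ * g * x ^ i ∈ A := fun i => ⟨i, by
    have : x ^ i * ((x ^ i)⁻¹ * g * x ^ i) * (x ^ i)⁻¹ = g := by group
    rw [this]
    exact Subgroup.mem_zpowers g⟩
  choose k hk using fun i : ℕ => hT' _ (hyi i)
  obtain ⟨i, i', hne, heq⟩ : ∃ i i' : ℕ, i < i' ∧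
      g ^ k i * ((x ^ i)⁻¹ * g * x ^ i) = g ^ k i' * ((x ^ i')⁻¹ * g * x ^ i') := by
    have h1 := Set.infinite_univ (α := ℕ)
    obtain ⟨i, -, i', -, hne, heq⟩ := h1.exists_ne_map_eq_of_mapsTo
      (f := fun i => g ^ k i * ((x ^ i)⁻¹ * g * x ^ i)) (fun i _ => hk i) hT
    rcases lt_or_gt_of_ne hne with h | h
    · exact ⟨i, i', h, heq⟩
    · exact ⟨i', i, h, heq.symm⟩
  obtain ⟨l, rfl⟩ := Nat.exists_eq_add_of_lt hne
  have h1 := congrArg (fun y => x ^ (i + l + 1) * y * (x ^ (i + l + 1))⁻¹) heq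
  have h2 : x ^ (i + l + 1) * (g ^ k i * ((x ^ i)⁻¹ * g * x ^ i)) * (x ^ (i + l + 1))⁻¹ =
      (x ^ (i + l + 1) * g ^ k i * (x ^ (i + l + 1))⁻¹) *
        (x ^ (l + 1) * g ^ (1 : ℤ) * (x ^ (l + 1))⁻¹) := by
    have : x ^ (i + l + 1) = x ^ (l + 1) * x ^ i := by rw [← pow_add]; congr 1; ring
    rw [this]
    group
  have h3 : x ^ (i + l + 1) * (g ^ k (i + l + 1) * ((x ^ (i + l + 1))⁻¹ * g * x ^ (i + l + 1))) *
      (x ^ (i + l + 1))⁻¹ =
      (x ^ (i + l + 1) * g ^ k (i + l + 1) * (x ^ (i + l + 1))⁻¹) * g ^ (1 : ℤ) := by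
    group
  simp only [h2, h3, hci] at h1
  rw [← zpow_add, ← zpow_add] at h1
  have h4 := hinj _ _ h1
  have h5 : (m : ℤ) ∣ 1 := by
    have h6 : (1 : ℤ) = m * (k i * m ^ (i + l) + m ^ l - k (i + l + 1) * m ^ (i + l)) := by
      have h7 : (m : ℤ) ^ (i + l + 1) = m * m ^ (i + l) := pow_succ' _ _
      have h8 : (m : ℤ) ^ (l + 1) = m * m ^ l := pow_succ' _ _
      rw [h7, h8] at h4
      linarith
    exact ⟨_, h6⟩
  have h6 := Int.le_of_dvd one_pos h5
  omega

end bs

end

end Pool.Agent.H26.PD
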