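import Pool.Agent.H26.PD.ThinEnds
import Pool.Agent.H26.PD.LC

/-!
Torsion-free thin groups without free subgroups are cyclic.
-/

set_option autoImplicit false

namespace Pool.Agent.H26.PD

open Pool.Agent.Helper386.PD3
open scoped Classical

theorem zpowers_finiteIndex {L : Type} [Group L] {h : L} {T : Set L} (hT : T.Finite)
    (hc : ∀ g, ∃ k : ℤ, h ^ k * g ∈ T) : (Subgroup.zpowers h).FiniteIndex := by
  have : Finite T := hT
  have h1 : Finite (L ⧸ Subgroup.zpowers h) := by
    refine Finite.of_surjective (fun t : T => (((t : L)⁻¹ : L) : L ⧸ Subgroup.zpowers h)) ?_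
    intro q
    obtain ⟨g, rfl⟩ := QuotientGroup.mk_surjective q
    obtain ⟨k, hk⟩ := hc g⁻¹
    refine ⟨⟨_, hk⟩, ?_⟩
    change (((h ^ k * g⁻¹)⁻¹ : L) : L ⧸ Subgroup.zpowers h) = (g : L ⧸ Subgroup.zpowers h)
    rw [QuotientGroup.eq]
    rw [mul_inv_rev, inv_inv, mul_inv_rev, inv_inv, inv_mul_cancel_right]
    exact Subgroup.zpow_mem_zpowers h k
  exact Subgroup.finiteIndex_of_finite_quotient

/-- A torsion-free group with an infinite cyclic subgroup of finite index is commutative. -/
theorem comm_of_virt {L : Type} [Group L] (htf : ∀ g : L, g ≠ 1 → ∀ k : ℤ, k ≠ 0 → g ^ k ≠ 1)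
    {h : L} (hh : ∀ k : ℤ, k ≠ 0 → h ^ k ≠ 1) {T : Set L} (hT : T.Finite)
    (hc : ∀ g, ∃ k : ℤ, h ^ k * g ∈ T) (a b : L) : a * b = b * a := by
  have hfi := zpowers_finiteIndex hT hc
  -- every element commutes with a power of `h`
  have h1 : ∀ g : L, ∃ l : ℤ, l ≠ 0 ∧ Commute g (h ^ l) := by
    intro g
    by_cases hg : g = 1
    · exact ⟨1, one_ne_zero, by rw [hg]; exact Commute.one_left _⟩
    · obtain ⟨n, hn0, -, hn⟩ := Subgroup.exists_pow_mem_of_index_ne_zero hfi.index_ne_zero g
      obtain ⟨l, hl⟩ := Subgroup.mem_zpowers_iff.1 hn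
      refine ⟨l, ?_, ?_⟩
      · rintro rfl
        apply htf g hg n (by omega)
        rw [zpow_natCast, ← hl, zpow_zero]
      · rw [hl]
        exact Commute.self_pow g n
  choose l hl0 hl using h1
  let m : ℤ := ∏ t ∈ hT.toFinset, l t
  have hm0 : m ≠ 0 := Finset.prod_ne_zero_iff.2 fun t _ => hl0 t
  have hmT : ∀ t ∈ T, Commute t (h ^ m) := by
    intro t ht
    obtain ⟨q, hq⟩ : l t ∣ m := Finset.dvd_prod_of_mem _ (hT.mem_toFinset.2 ht)
    rw [hq, zpow_mul]
    exact (hl t).zpow_right q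
  have hmc : ∀ g, Commute g (h ^ m) := by
    intro g
    obtain ⟨k, hk⟩ := hc g
    have h2 : g = (h ^ k)⁻¹ * (h ^ k * g) := by rw [inv_mul_cancel_left]
    rw [h2]
    refine Commute.mul_left ?_ (hmT _ hk)
    rw [← zpow_neg]
    exact (Commute.refl h).zpow_zpow _ _
  -- the subgroup generated by this power has finite index
  let T' : Set L := ⋃ r ∈ Finset.Ico (0 : ℤ) |m|, (fun t => h ^ (-r) * t) '' T
  have hT' : T'.Finite := (Finset.finite_toSet _).biUnion fun r _ => hT.image _
  have hc' : ∀ g, ∃ k : ℤ, (h ^ m) ^ k * g ∈ T' := by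
    intro g
    obtain ⟨k, hk⟩ := hc g
    refine ⟨k / m, Set.mem_biUnion (x := k % m) ?_ ⟨_, hk, ?_⟩⟩
    · rw [Finset.mem_coe, Finset.mem_Ico]
      exact ⟨Int.emod_nonneg _ hm0, Int.emod_lt_abs _ hm0⟩
    · change h ^ (-(k % m)) * (h ^ k * g) = (h ^ m) ^ (k / m) * g
      rw [← mul_assoc, ← zpow_add, ← zpow_mul]
      congr 2
      have := Int.emod_add_mul_ediv k m
      linarith
  have hfi' := zpowers_finiteIndex hT' hc'
  have hle : Subgroup.zpowers (h ^ m) ≤ Subgroup.center L := by
    rw [Subgroup.zpowers_le, Subgroup.mem_center_iff]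
    exact fun g => hmc g
  have hfc : (Subgroup.center L).FiniteIndex := Subgroup.finiteIndex_of_le hle
  -- transfer
  have hinj : Function.Injective (MonoidHom.transferCenterPow L) := by
    rw [injective_iff_map_eq_one]
    intro g hg
    by_contra hg1
    apply htf g hg1 (Subgroup.center L).index (by exact_mod_cast hfc.index_ne_zero)
    rw [zpow_natCast]
    have := congrArg Subtype.val hg
    rwa [MonoidHom.transferCenterPow_apply] at this
  apply hinj
  rw [map_mul, map_mul]
  apply Subtype.ext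
  exact ((Subgroup.mem_center_iff.1 (MonoidHom.transferCenterPow L a).2)
    (MonoidHom.transferCenterPow L b)).symm

/-- A commutative torsion-free group with a cyclic subgroup of finite index is cyclic. -/
theorem cyclic_of_virt {L : Type} [Group L] (htf : ∀ g : L, g ≠ 1 → ∀ k : ℤ, k ≠ 0 → g ^ k ≠ 1)
    (hcomm : ∀ a b : L, a * b = b * a) {h : L} {T : Set L} (hT : T.Finite)
    (hc : ∀ g, ∃ k : ℤ, h ^ k * g ∈ T) : ∃ g : L, ∀ x, ∃ k : ℤ, x = g ^ k := by
  have hfi := zpowers_finiteIndex hT hc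
  let m := (Subgroup.zpowers h).index
  have hnorm : (Subgroup.zpowers h).Normal :=
    ⟨fun n hn g => by rw [hcomm g n, mul_inv_cancel_right]; exact hn⟩
  have hm : ∀ g : L, g ^ m ∈ Subgroup.zpowers h := fun g => Subgroup.pow_index_mem _ g
  let f : L →* Subgroup.zpowers h := MonoidHom.mk' (fun g => ⟨g ^ m, hm g⟩) (fun a b => by
    apply Subtype.ext
    change (a * b) ^ m = a ^ m * b ^ m
    exact (show Commute a b from hcomm a b).mul_pow m)
  have hf : Function.Injective f := by
    rw [injective_iff_map_eq_one]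
    intro g hg
    by_contra hg1
    apply htf g hg1 m (by exact_mod_cast hfi.index_ne_zero)
    rw [zpow_natCast]
    exact congrArg Subtype.val hg
  have := isCyclic_of_injective f hf
  obtain ⟨g, hg⟩ := IsCyclic.exists_generator (α := L)
  exact ⟨g, fun x => by
    obtain ⟨k, hk⟩ := Subgroup.mem_zpowers_iff.1 (hg x)
    exact ⟨k, hk.symm⟩⟩

variable {G : Type} [Group G]

theorem Thin.cyclic {N : Subgroup G} (h : Thin N)
    (htf : ∀ g ∈ N, g ≠ 1 → ∀ k : ℤ, k ≠ 0 → g ^ k ≠ 1)
    (hfree : ¬ ∃ F : FreeGroup (Fin 2) →* N, Function.Injective F) :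
    ∃ g ∈ N, ∀ x ∈ N, ∃ k : ℤ, x = g ^ k := by
  -- commutativity
  have hcomm : ∀ a ∈ N, ∀ b ∈ N, a * b = b * a := by
    intro a ha b hb
    let L : Subgroup G := Subgroup.closure {a, b}
    have hLN : L ≤ N := by
      rw [Subgroup.closure_le]
      rintro x (rfl | rfl)
      · exact ha
      · exact hb
    have haL : a ∈ L := Subgroup.subset_closure (Or.inl rfl)
    have hbL : b ∈ L := Subgroup.subset_closure (Or.inr rfl)
    by_cases hinf : Infinite L
    · have hfg : L.FG := ⟨{a, b}, by simp [L]⟩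
      rcases h.ends hLN hfg hinf with ⟨F, hF⟩ | ⟨h0, hh0, T, hT, hTc⟩
      · exfalso
        apply hfree
        exact ⟨(Subgroup.inclusion hLN).comp F, (Subgroup.inclusion_injective hLN).comp hF⟩
      · have := comm_of_virt (L := L) (fun g hg k hk hgk => by
          apply htf g (hLN g.2) (fun h1 => hg (Subtype.ext h1)) k hk
          have := congrArg Subtype.val hgk
          simpa using this) hh0 hT hTc ⟨a, haL⟩ ⟨b, hbL⟩
        exact congrArg Subtype.val this
    · have hfin : Finite L := not_infinite_iff_finite.1 hinf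
      have ha1 : a = 1 := by
        by_contra hne
        obtain ⟨n, hn, hn'⟩ := isOfFinOrder_iff_pow_eq_one.1 (isOfFinOrder_of_finite (⟨a, haL⟩ : L))
        apply htf a ha hne n (by omega)
        rw [zpow_natCast]
        exact congrArg Subtype.val hn'
      rw [ha1, one_mul, mul_one]
  by_cases hN : N = ⊥
  · refine ⟨1, N.one_mem, fun x hx => ⟨0, ?_⟩⟩
    rw [hN, Subgroup.mem_bot] at hx
    rw [hx, zpow_zero]
  · obtain ⟨c, hc1⟩ := Subgroup.ne_bot_iff_exists_ne_one.1 hN
    have hc : (c : G) ∈ N := c.2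
    have hc1' : (c : G) ≠ 1 := fun h1 => hc1 (Subtype.ext h1)
    obtain ⟨T, hT, hTc⟩ := h.central hc (fun g hg => hcomm g hg c hc) (htf c hc hc1')
    have hT' : ((fun x : N => (x : G)) ⁻¹' T).Finite :=
      Set.Finite.preimage Subtype.coe_injective.injOn hT
    obtain ⟨g, hg⟩ := cyclic_of_virt (L := N) (fun g hg k hk hgk => by
        apply htf g g.2 (fun h1 => hg (Subtype.ext h1)) k hk
        have := congrArg Subtype.val hgk
        simpa using this) (fun a b => Subtype.ext (hcomm a a.2 b b.2)) (h := c) hT' (fun g => by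
        obtain ⟨k, hk⟩ := hTc g g.2
        exact ⟨k, by simpa using hk⟩)
    refine ⟨g, g.2, fun x hx => ?_⟩
    obtain ⟨k, hk⟩ := hg ⟨x, hx⟩
    exact ⟨k, by simpa using congrArg Subtype.val hk⟩

end Pool.Agent.H26.PD
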