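import Pool.Agent.H26.PD.PD2

/-!
Duality for `H`: the interface.
-/

set_option autoImplicit false

namespace Pool.Agent.H26.PD

open Pool.Agent.Helper386.PD3
open scoped Classical Matrix

noncomputable section

variable {G : Type} [Group G] {M : Type} [AddCommGroup M] {n : ℕ}

/-- evaluation of a cochain -/
def evb (b : Fin n → (G → M)) : (Fin n → RR G) →+ M where
  toFun v := ∑ j, rho M (v j) (b j) 1
  map_zero' := by simp
  map_add' v v' := by
    rw [← Finset.sum_add_distrib]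
    exact Finset.sum_congr rfl fun j _ => by
      rw [Pi.add_apply, map_add, LinearMap.add_apply, Pi.add_apply]

theorem evb_apply (b : Fin n → (G → M)) (v : Fin n → RR G) :
    evb b v = ∑ j, rho M (v j) (b j) 1 := rfl

theorem evb_equiv {N : Subgroup G} {a : G → Module.End ℤ M} {b : Fin n → (G → M)}
    (hb : ∀ j, b j ∈ EqS N a) {g : G} (hg : g ∈ N) (v : Fin n → RR G) :
    evb b (gof g • v) = a g (evb b v) := by
  rw [evb_apply, evb_apply, map_sum]
  refine Finset.sum_congr rfl fun j _ => ?_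
  have h1 : rho M ((gof g • v) j) (b j) 1 = rho M (v j) (b j) (g * 1) := by
    rw [Pi.smul_apply, smul_eq_mul, map_mul]
    change rho M (gof g) (rho M (v j) (b j)) 1 = _
    rw [rho_of_apply, one_mul, mul_one]
  rw [h1, (stable_EqS N a).rho (v j) _ (hb j) g hg 1]

theorem evb_vecMul (A : MR G n) (b : Fin n → (G → M)) (u : Fin n → RR G) :
    evb b (u ᵥ* A) = evb (mv A b) u := by
  rw [evb_apply, evb_apply]
  have h2 : ∀ j, rho M ((u ᵥ* A) j) (b j) 1 = ∑ i, rho M (u i) (rho M (A i j) (b j)) 1 := by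
    intro j
    change rho M (∑ i, u i * A i j) (b j) 1 = _
    rw [map_sum, LinearMap.sum_apply, Finset.sum_apply]
    exact Finset.sum_congr rfl fun i _ => by rw [map_mul]; rfl
  simp only [h2]
  rw [Finset.sum_comm]
  refine Finset.sum_congr rfl fun i _ => ?_
  rw [← Finset.sum_apply, ← map_sum]
  rfl

theorem evb_nat {M' : Type} [AddCommGroup M'] (φ : M →+ M') (b : Fin n → (G → M))
    (u : Fin n → RR G) : evb (fun j x => φ (b j x)) u = φ (evb b u) := by
  rw [evb_apply, evb_apply, map_sum]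
  exact Finset.sum_congr rfl fun j _ => congrFun (rho_nat φ _ _) 1

theorem evb_single (b : Fin n → (G → M)) (x : G) (j : Fin n) :
    evb b (gof x • Pi.single j 1) = b j x := by
  rw [evb_apply, Finset.sum_eq_single j]
  · rw [Pi.smul_apply, Pi.single_eq_same, smul_eq_mul, mul_one, rho_of_apply, one_mul]
  · intro i _ hi
    rw [Pi.smul_apply, Pi.single_eq_of_ne hi, smul_zero, map_zero]
    rfl
  · intro h
    exact absurd (Finset.mem_univ j) h

theorem evb_tc (d1 : MR G n) (u : Fin n → RR G) :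
    ((evb (tc d1) u : Z1 d1) : Fin n → RR G) = u ᵥ* d1 := by
  rw [evb_apply, Submodule.coe_sum]
  have h3 : u ᵥ* d1 = ∑ i, u i • d1 i := Matrix.vecMul_eq_sum _ _
  rw [h3]
  exact Finset.sum_congr rfl fun i _ => by rw [rho_tc, gof_one, one_mul]

/-- the module action as an action of a subgroup -/
def aM (H : Subgroup G) (M : Type) [AddCommGroup M] [Module (RR H) M] (g : G) :
    Module.End ℤ M :=
  if hg : g ∈ H then
    { toFun := fun m => gof (⟨g, hg⟩ : H) • m
      map_add' := fun _ _ => smul_add _ _ _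
      map_smul' := fun _ _ => smul_comm _ _ _ }
  else 0

theorem aM_apply (H : Subgroup G) (M : Type) [AddCommGroup M] [Module (RR H) M] {g : G}
    (hg : g ∈ H) (m : M) : aM H M g m = gof (⟨g, hg⟩ : H) • m := by
  rw [aM, dif_pos hg]
  rfl

theorem isAct_aM (H : Subgroup G) (M : Type) [AddCommGroup M] [Module (RR H) M] :
    IsAct H (aM H M) := by
  constructor
  · refine LinearMap.ext fun m => ?_
    rw [aM_apply H M H.one_mem]
    change gof (1 : H) • m = m
    rw [gof_one, one_smul]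
  · intro g hg g' hg'
    refine LinearMap.ext fun m => ?_
    change _ = aM H M g (aM H M g' m)
    rw [aM_apply H M (H.mul_mem hg hg'), aM_apply H M hg, aM_apply H M hg', smul_smul, ← gof_mul]
    rfl

variable {w : G →* ℤˣ} {e0 e1 e2 e3 d0 d1 d2 : MR G n}

theorem tc_e2 (hF : Full w e0 e1 e2 e3 d0 d1 d2) : mv e2 (tc d1) = tc d1 := by
  funext i x
  apply Subtype.ext
  rw [mv_tc, hF.low.e2d1]
  rfl

theorem tc_d2 (hF : Full w e0 e1 e2 e3 d0 d1 d2) : mv d2 (tc d1) = 0 := by
  funext i x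
  apply Subtype.ext
  rw [mv_tc, full_dd2 hF]
  change gof x • (0 : Fin n → RR G) = 0
  rw [smul_zero]

theorem cls_mem {χ : G →* Multiplicative ℤ} {N : Subgroup G} {a : G → Module.End ℤ M}
    (hN : ∀ g ∈ N, lv χ g = 0) {cc : Fin n → ℤ} {c : Fin n → (G → M)} (hc : ∀ i, c i ∈ EqS N a)
    (hd : mv d2 c = 0) : cls χ cc d2 c ∈ V0 χ N a := by
  have hp : ∀ i, cut M χ (c i) ∈ Wp χ N a := fun i => cut_mem hN (hc i)
  have hm : ∀ i, c i - cut M χ (c i) ∈ Wp χ⁻¹ N a := fun i => sub_cut_mem hN (hc i)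
  have h1 : mv d2 (fun i => cut M χ (c i)) = -mv d2 (fun i => c i - cut M χ (c i)) := by
    rw [eq_neg_iff_add_eq_zero, ← mv_add, ← hd]
    congr 1
    funext i
    exact add_sub_cancel _ _
  rw [cls, bet]
  refine Submodule.sum_mem (V0 χ N a) fun j _ =>
    Submodule.smul_mem (V0 χ N a) _ (Submodule.mem_inf.2 ⟨?_, ?_⟩)
  · exact (stable_Wp _ _ _).mv _ hp j
  · rw [h1]
    exact Submodule.neg_mem _ ((stable_Wp _ _ _).mv _ hm j)

/-- cocycles are maps on the cycles -/
theorem exists_desc (hF : Full w e0 e1 e2 e3 d0 d1 d2)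
    (hex2 : ∀ v, v ᵥ* e2 = v → v ᵥ* d1 = 0 → ∃ u, u ᵥ* d2 = v) {N : Subgroup G}
    {a : G → Module.End ℤ M} {c : Fin n → (G → M)} (hc : ∀ i, c i ∈ EqS N a)
    (he : mv e2 c = c) (hd : mv d2 c = 0) :
    ∃ φ : Z1 d1 →+ M, (∀ g ∈ N, ∀ v, φ (gof g • v) = a g (φ v)) ∧
      c = fun j x => φ (tc d1 j x) := by
  have hz : ∀ u, u ᵥ* d1 = 0 → evb c u = 0 := by
    intro u hu
    obtain ⟨u', hu'⟩ := hex2 (u ᵥ* e2) (by rw [Matrix.vecMul_vecMul, hF.low.ee2])
      (by rw [Matrix.vecMul_vecMul, hF.low.e2d1, hu])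
    have h1 := evb_vecMul e2 c u
    rw [he, ← hu', evb_vecMul, hd] at h1
    rw [← h1, evb_apply]
    exact Finset.sum_eq_zero fun j _ => by
      change rho M (u' j) 0 1 = 0
      rw [map_zero]
      rfl
  have hpre : ∀ v : Z1 d1, ∃ u, u ᵥ* d1 = v := fun v => v.2
  choose pre hpre using hpre
  have hwd : ∀ (v : Z1 d1) (u : Fin n → RR G), u ᵥ* d1 = v → evb c (pre v) = evb c u := by
    intro v u hu
    rw [← sub_eq_zero, ← map_sub]
    apply hz
    rw [Matrix.sub_vecMul, hpre, hu, sub_self]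
  let φ : Z1 d1 →+ M :=
    { toFun := fun v => evb c (pre v)
      map_zero' := by
        rw [hwd 0 0 (Matrix.zero_vecMul _), map_zero]
      map_add' := fun v v' => by
        rw [hwd (v + v') (pre v + pre v') (by
          rw [Matrix.add_vecMul, hpre, hpre]
          rfl), map_add] }
  refine ⟨φ, fun g hg v => ?_, ?_⟩
  · change evb c (pre (gof g • v)) = a g (evb c (pre v))
    rw [hwd (gof g • v) (gof g • pre v) (by
      rw [Matrix.smul_vecMul, hpre]
      rfl), evb_equiv hc hg]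
  · funext j x
    change c j x = evb c (pre (tc d1 j x))
    rw [hwd (tc d1 j x) (gof x • Pi.single j 1) (by
      rw [Matrix.smul_vecMul, Matrix.single_one_vecMul]
      rfl), evb_single]

theorem comp_tc_mem {N : Subgroup G} {a : G → Module.End ℤ M} {φ : Z1 d1 →+ M}
    (hφ : ∀ g ∈ N, ∀ v, φ (gof g • v) = a g (φ v)) (j : Fin n) :
    (fun x => φ (tc d1 j x)) ∈ EqS N a := by
  intro g hg x
  rw [← hφ g hg]
  change φ (tc d1 j (g * x)) = φ (gof g • tc d1 j x)
  congr 1
  apply Subtype.ext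
  change gof (g * x) • d1 j = gof g • gof x • d1 j
  rw [gof_mul, mul_smul]

theorem del_IM {H : Subgroup G} {χ : G →* Multiplicative ℤ} {a : G → Module.End ℤ M}
    (ha : IsAct H a) (hH : ∀ g, g ∈ H ↔ lv χ g = 0 ∧ w g = 1) {m : M}
    (hm : m ∈ AddSubgroup.closure {m | ∃ g ∈ H, ∃ m', m = a g m' - m'}) :
    del H a m ∈ Aug w (V0 χ H a) := by
  induction hm using AddSubgroup.closure_induction with
  | mem m hm =>
    obtain ⟨g, hg, m', rfl⟩ := hm
    refine Submodule.subset_span ⟨g⁻¹, del H a m', del_mem ha (fun x hx => ((hH x).1 hx).1) m', ?_⟩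
    rw [map_sub, dg_of, inv_inv, map_inv, ((hH g).1 hg).2, inv_one, Units.val_one, one_smul,
      rho_of]
    congr 1
    funext y
    rw [tr_apply, del_apply, del_apply, H.mul_mem_cancel_right hg]
    split_ifs with hy
    · rw [ha.2 y hy g hg]
      rfl
    · rfl
  | zero =>
    rw [map_zero]
    exact Submodule.zero_mem _
  | add x y _ _ hx hy =>
    rw [map_add]
    exact Submodule.add_mem _ hx hy
  | neg x _ hx =>
    rw [map_neg]
    exact Submodule.neg_mem _ hx

/-- Duality for the group `H`. -/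
theorem pd2 (hF : Full w e0 e1 e2 e3 d0 d1 d2)
    (hex2 : ∀ v, v ᵥ* e2 = v → v ᵥ* d1 = 0 → ∃ u, u ᵥ* d2 = v) {χ : G →* Multiplicative ℤ} {t : G}
    (ht : lv χ t = 1) (hK : χ.ker.FG) {H : Subgroup G}
    (hH : ∀ g, g ∈ H ↔ lv χ g = 0 ∧ w g = 1) :
    ∃ (τ : Z1 d1) (x : Z1 d1 →+ RR H),
      (∀ g (hg : g ∈ H), ∀ v, x (gof g • v) = gof (⟨g, hg⟩ : H) * x v) ∧ eps (x τ) = 1 ∧
      (∀ (M : Type) [AddCommGroup M] (a : G → Module.End ℤ M), IsAct H a →
        ∀ φ : Z1 d1 →+ M, (∀ g ∈ H, ∀ v, φ (gof g • v) = a g (φ v)) →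
        φ τ ∈ AddSubgroup.closure {m | ∃ g ∈ H, ∃ m', m = a g m' - m'} →
        ∃ ψ : (Fin n → RR G) →+ M, (∀ g ∈ H, ∀ v, ψ (gof g • v) = a g (ψ v)) ∧
          ∀ v : Z1 d1, ψ v = φ v) ∧
      (∀ ψ : (Fin n → RR G) →+ ℤ, (∀ g ∈ H, ∀ v, ψ (gof g • v) = ψ v) → ψ τ = 0) := by
  obtain ⟨cc, U, Y, hD⟩ := full_exists_dual hF
  have hH0 : ∀ g ∈ H, lv χ g = 0 := fun g hg => ((hH g).1 hg).1
  have hactZ : IsAct H (aZ d1) := ⟨map_one _, fun g _ g' _ => map_mul _ _ _⟩
  have hTmem : cls χ cc d2 (tc d1) ∈ V0 χ H (aZ d1) :=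
    cls_mem hH0 (fun i => tc_mem H d1 i) (tc_d2 hF)
  obtain ⟨τ, hτ⟩ := exists_del hactZ hH ht hTmem
  -- classes of maps
  have hcls : ∀ (M : Type) [AddCommGroup M] (a : G → Module.End ℤ M) (φ : Z1 d1 →+ M),
      (∀ g ∈ H, ∀ v, φ (gof g • v) = a g (φ v)) →
      cls χ cc d2 (fun j x => φ (tc d1 j x)) - del H a (φ τ) ∈ Aug w (V0 χ H a) := by
    intro M _ a φ hφ
    have h1 := Aug_nat φ (a' := a) (fun g hg m => hφ g hg m) hτ
    have h2 : (fun x => φ ((cls χ cc d2 (tc d1) - del H (aZ d1) τ) x)) =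
        cls χ cc d2 (fun j x => φ (tc d1 j x)) - del H a (φ τ) := by
      rw [cls_nat, ← del_nat φ (a := aZ d1) (a' := a) (fun g hg m => hφ g hg m)]
      funext x
      rw [Pi.sub_apply, Pi.sub_apply, map_sub]
    rwa [h2] at h1
  -- the generator
  obtain ⟨c, hc, he, hd, hcl⟩ := cls_surj hF hD ht hK hH0
    (del_mem (isAct_aM H (RR H)) hH0 (1 : RR H))
  obtain ⟨x, hx, hcx⟩ := exists_desc hF hex2 hc he hd
  refine ⟨τ, x, fun g hg v => ?_, ?_, ?_, ?_⟩
  · rw [hx g hg, aM_apply H (RR H) hg]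
    rfl
  · have h1 := hcls (RR H) (aM H (RR H)) x hx
    rw [← hcx] at h1
    have h2 := Submodule.sub_mem _ h1 hcl
    have h3 : cls χ cc d2 c - del H (aM H (RR H)) (x τ) -
        (cls χ cc d2 c - del H (aM H (RR H)) 1) = -(del H (aM H (RR H)) (x τ - 1)) := by
      rw [map_sub]
      abel
    rw [h3] at h2
    have h4 := Submodule.neg_mem _ h2
    rw [neg_neg] at h4
    have h5 := Aug_nat (eps (G := H)).toAddMonoidHom (a' := triv) (fun g hg m => by
      rw [aM_apply H (RR H) hg]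
      change eps (gof (⟨g, hg⟩ : H) * m) = eps m
      rw [map_mul, eps_of, one_mul]) h4
    rw [del_nat (eps (G := H)).toAddMonoidHom (a' := triv) (fun g hg m => by
      rw [aM_apply H (RR H) hg]
      change eps (gof (⟨g, hg⟩ : H) * m) = eps m
      rw [map_mul, eps_of, one_mul])] at h5
    have h6 := del_Aug hH h5
    change eps (x τ - 1) = 0 at h6
    rw [map_sub, map_one] at h6
    linarith
  · intro M _ a ha φ hφ hφτ
    have h1 := hcls M a φ hφ
    have h2 : cls χ cc d2 (fun j x => φ (tc d1 j x)) ∈ Aug w (V0 χ H a) := by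
      have h3 := Submodule.add_mem _ h1 (del_IM ha hH hφτ)
      rwa [sub_add_cancel] at h3
    obtain ⟨b, hb, hb'⟩ := cls_inj hF hD ht hK hH0 (fun j => comp_tc_mem hφ j)
      (by rw [mv_nat, tc_e2 hF]) (by
        rw [mv_nat, tc_d2 hF]
        funext i y
        exact map_zero φ) h2
    refine ⟨evb b, fun g hg v => evb_equiv hb hg v, ?_⟩
    rintro ⟨_, u, rfl⟩
    change evb b (u ᵥ* d1) = _
    rw [evb_vecMul, hb', evb_nat]
    congr 1
    apply Subtype.ext
    exact evb_tc d1 u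
  · intro ψ hψ
    let φ : Z1 d1 →+ ℤ := ψ.comp (Z1 d1).subtype.toAddMonoidHom
    have hφ : ∀ g ∈ H, ∀ v, φ (gof g • v) = triv g (φ v) := fun g hg v => hψ g hg v
    have h1 := hcls ℤ triv φ hφ
    let b0 : Fin n → (G → (Fin n → RR G)) := fun j x => gof x • Pi.single j 1
    have hb : ∀ j, (fun x => ψ (b0 j x)) ∈ EqS H triv := by
      intro j g hg x
      change ψ (gof (g * x) • Pi.single j 1) = ψ (gof x • Pi.single j 1)
      rw [gof_mul, mul_smul, hψ g hg]
    have hmv : mv d1 (fun j x => ψ (b0 j x)) = fun j x => φ (tc d1 j x) := by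
      rw [mv_nat]
      funext i x
      change ψ (mv d1 b0 i x) = ψ (gof x • d1 i)
      congr 1
      have h5 : ∀ (r : RR G) (j : Fin n) (x : G),
          rho (Fin n → RR G) r (b0 j) x = (gof x * r) • Pi.single j 1 := by
        intro r j x
        induction r using rr_ind with
        | h1 g =>
          rw [rho_of_apply, ← gof_mul]
        | h2 a b ha hb =>
          rw [map_add, LinearMap.add_apply, Pi.add_apply, ha, hb, mul_add, add_smul]
        | h3 a ha =>
          rw [map_neg, LinearMap.neg_apply, Pi.neg_apply, ha, mul_neg, neg_smul]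
      rw [mv_apply, Finset.sum_apply]
      simp only [h5, mul_smul]
      rw [← Finset.smul_sum]
      congr 1
      have h6 : d1 i = ∑ j, d1 i j • (Pi.single j (1 : RR G) : Fin n → RR G) := by
        funext k
        rw [Finset.sum_apply, Finset.sum_eq_single k]
        · simp
        · intro i _ hi
          rw [Pi.smul_apply, Pi.single_eq_of_ne (Ne.symm hi), smul_zero]
        · intro h
          exact absurd (Finset.mem_univ k) h
      exact h6.symm
    have h2 := cls_bound (χ := χ) hF hD hH0 hb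
    rw [hmv] at h2
    have h3 := Submodule.sub_mem _ h2 h1
    rw [sub_sub_cancel] at h3
    exact del_Aug hH h3

end

end Pool.Agent.H26.PD
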