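import Pool.Agent.H26.PD.Nov

/-!
The second cohomology of the kernel of a character of a `PD_3`-group, when the kernel is finitely
generated: `H²(N; M)` in terms of functions with support in finitely many levels.
-/

set_option autoImplicit false

namespace Pool.Agent.H26.PD

open Pool.Agent.Helper386.PD3
open scoped Classical Matrix

noncomputable section

variable {G : Type} [Group G] {M : Type} [AddCommGroup M]

/-- the augmentation twisted by `w` -/
def ew (w : G →* ℤˣ) : RR G →+* ℤ := liftR ((Units.coeHom ℤ).comp w)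

theorem ew_of (w : G →* ℤˣ) (g : G) : ew w (gof g) = ((w g : ℤˣ) : ℤ) := liftR_of _ _

theorem eps_dg (w : G →* ℤˣ) (r : RR G) : eps (dg w r) = ew w r := by
  induction r using rr_ind with
  | h1 g => rw [dg_of, map_zsmul, eps_of, ew_of, smul_eq_mul, mul_one]
  | h2 x y hx hy => rw [dg_add, map_add, hx, hy, map_add]
  | h3 x hx => rw [dg_neg, map_neg, hx, map_neg]

theorem ew_dg (w : G →* ℤˣ) (r : RR G) : ew w (dg w r) = eps r := by
  rw [← eps_dg, dg_dg]

theorem full_d2e2 {n : ℕ} {w : G →* ℤˣ} {e0 e1 e2 e3 d0 d1 d2 : MR G n}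
    (h : Full w e0 e1 e2 e3 d0 d1 d2) : d2 * e2 = d2 := by
  apply dgM_inj w
  rw [dgM_mul]
  exact h.colow.e1d0

theorem full_e3d2 {n : ℕ} {w : G →* ℤˣ} {e0 e1 e2 e3 d0 d1 d2 : MR G n}
    (h : Full w e0 e1 e2 e3 d0 d1 d2) : e3 * d2 = d2 := by
  apply dgM_inj w
  rw [dgM_mul]
  exact h.colow.d0e0

theorem full_ee3 {n : ℕ} {w : G →* ℤˣ} {e0 e1 e2 e3 d0 d1 d2 : MR G n}
    (h : Full w e0 e1 e2 e3 d0 d1 d2) : e3 * e3 = e3 := by
  apply dgM_inj w
  rw [dgM_mul]
  exact h.colow.ee0

theorem full_dd2 {n : ℕ} {w : G →* ℤˣ} {e0 e1 e2 e3 d0 d1 d2 : MR G n}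
    (h : Full w e0 e1 e2 e3 d0 d1 d2) : d2 * d1 = 0 := by
  apply dgM_inj w
  rw [dgM_mul, dgM_zero]
  exact h.colow.dd

/-- the data expressing that the top homology of the dual complex is `ℤ` -/
structure DualData {n : ℕ} (w : G →* ℤˣ) (e3 d2 : MR G n) (c : Fin n → ℤ) (U : Fin n → RR G)
    (Y : MR G n) : Prop where
  cd : ∀ k, ∑ i, c i * ew w (d2 i k) = 0
  cU : ∑ i, c i * ew w (U i) = 1
  dec : ∀ j i, e3 j i = U j * (c i : RR G) + ∑ k, d2 j k * Y k i
  gU : ∀ g : G, ∃ y : Fin n → RR G, ∀ j, U j * (dg w (gof g) - 1) = ∑ k, d2 j k * y k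
  eU : ∀ j, ∑ i, e3 j i * U i = U j

theorem full_exists_dual {n : ℕ} {w : G →* ℤˣ} {e0 e1 e2 e3 d0 d1 d2 : MR G n}
    (h : Full w e0 e1 e2 e3 d0 d1 d2) : ∃ c U Y, DualData w e3 d2 c U Y := by
  obtain ⟨ε, hε, ⟨u0, hu0, hεu0⟩, hεd, hεex⟩ := h.colow.aug
  let γ : Fin n → ℤ := fun i => ε (Pi.single i 1)
  have hεc : ∀ v, ε v = ∑ i, eps (v i) * γ i := by
    intro v
    have h1 : v = ∑ i, v i • (Pi.single i (1 : RR G) : Fin n → RR G) := by
      funext k
      rw [Finset.sum_apply, Finset.sum_eq_single k]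
      · simp
      · intro i _ hi
        rw [Pi.smul_apply, Pi.single_eq_of_ne (Ne.symm hi), smul_zero]
      · intro h
        exact absurd (Finset.mem_univ k) h
    conv_lhs => rw [h1, map_sum]
    exact Finset.sum_congr rfl fun i _ => eps_eq hε _ _
  let c : Fin n → ℤ := fun i => ε (dgM w e3 i)
  have hc : ∀ i, c i = ∑ j, ew w (e3 j i) * γ j := by
    intro i
    change ε (dgM w e3 i) = _
    rw [hεc]
    refine Finset.sum_congr rfl fun j _ => ?_
    change eps (dg w (e3 j i)) * γ j = _
    rw [eps_dg]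
  have hrow : ∀ i, (dgM w e3 i) ᵥ* dgM w e3 = dgM w e3 i := by
    intro i
    funext j
    exact congrFun (congrFun h.colow.ee0 i) j
  have hy : ∀ i, ∃ v, v ᵥ* dgM w d2 = dgM w e3 i - c i • u0 := by
    intro i
    refine hεex _ ?_ ?_
    · rw [Matrix.sub_vecMul, hrow]
      have : (c i • u0) ᵥ* dgM w e3 = c i • (u0 ᵥ* dgM w e3) := Matrix.smul_vecMul _ _ _
      rw [this, hu0]
    · rw [map_sub, map_zsmul, hεu0, smul_eq_mul, mul_one, sub_self]
  choose y hy using hy
  refine ⟨c, fun j => dg w (u0 j), fun k i => dg w (y i k), ?_, ?_, ?_, ?_, ?_⟩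
  · intro k
    have h1 : ∑ j, γ j * ew w (d2 j k) = 0 := by
      have h2 := hεd (Pi.single k 1)
      rw [Matrix.single_one_vecMul, hεc] at h2
      rw [← h2]
      refine Finset.sum_congr rfl fun j _ => ?_
      change γ j * ew w (d2 j k) = eps (dg w (d2 j k)) * γ j
      rw [eps_dg, mul_comm]
    calc ∑ i, c i * ew w (d2 i k)
        = ∑ i, ∑ j, γ j * (ew w (e3 j i) * ew w (d2 i k)) := by
          refine Finset.sum_congr rfl fun i _ => ?_
          rw [hc, Finset.sum_mul]
          exact Finset.sum_congr rfl fun j _ => by ring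
      _ = ∑ j, γ j * ew w (d2 j k) := by
          rw [Finset.sum_comm]
          refine Finset.sum_congr rfl fun j _ => ?_
          rw [← Finset.mul_sum]
          congr 1
          conv_rhs => rw [← full_e3d2 h]
          rw [Matrix.mul_apply, map_sum]
          exact Finset.sum_congr rfl fun i _ => (map_mul _ _ _).symm
      _ = 0 := h1
  · calc ∑ i, c i * ew w (dg w (u0 i))
        = ∑ i, ∑ j, γ j * (eps (u0 i) * eps (dg w (e3 j i))) := by
          refine Finset.sum_congr rfl fun i _ => ?_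
          rw [hc, Finset.sum_mul, ew_dg]
          exact Finset.sum_congr rfl fun j _ => by rw [eps_dg]; ring
      _ = ∑ j, eps (u0 j) * γ j := by
          rw [Finset.sum_comm]
          refine Finset.sum_congr rfl fun j _ => ?_
          rw [← Finset.mul_sum, mul_comm]
          congr 1
          conv_rhs => rw [← hu0]
          change _ = eps (∑ i, u0 i * dg w (e3 j i))
          rw [map_sum]
          exact Finset.sum_congr rfl fun i _ => (map_mul _ _ _).symm
      _ = 1 := by rw [← hεc, hεu0]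
  · intro j i
    have h1 := congrFun (hy i) j
    change (∑ k, y i k * dg w (d2 j k)) = dg w (e3 j i) - c i • u0 j at h1
    have h2 : dg w (e3 j i) = c i • u0 j + ∑ k, y i k * dg w (d2 j k) := by
      rw [h1]
      abel
    have h3 := congrArg (dg w) h2
    rw [dg_dg, dg_add, dg_zsmul, dg_sum] at h3
    rw [h3, zsmul_eq_mul, (Int.cast_commute (c i) (dg w (u0 j))).eq]
    congr 1
    exact Finset.sum_congr rfl fun k _ => by rw [dg_mul, dg_dg]
  · intro g
    obtain ⟨v, hv⟩ := hεex (gof g • u0 - u0)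
      (by rw [Matrix.sub_vecMul, Matrix.smul_vecMul, hu0]) (by rw [map_sub, hε, sub_self])
    refine ⟨fun k => dg w (v k), fun j => ?_⟩
    have h1 := congrFun hv j
    change (∑ k, v k * dg w (d2 j k)) = gof g * u0 j - u0 j at h1
    have h2 := congrArg (dg w) h1
    rw [dg_sum, dg_sub, dg_mul] at h2
    rw [mul_sub, mul_one, ← h2]
    exact Finset.sum_congr rfl fun k _ => by rw [dg_mul, dg_dg]
  · intro j
    have h1 := congrFun hu0 j
    change (∑ i, u0 i * dg w (e3 j i)) = u0 j at h1
    have h2 := congrArg (dg w) h1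
    rw [dg_sum] at h2
    rw [← h2]
    exact Finset.sum_congr rfl fun i _ => by rw [dg_mul, dg_dg]

/-- the submodule with quotient the twisted coinvariants -/
def Aug (w : G →* ℤˣ) (W : Submodule ℤ (G → M)) : Submodule ℤ (G → M) :=
  Submodule.span ℤ {f | ∃ g : G, ∃ v ∈ W, f = rho M (dg w (gof g)) v - v}

theorem sub_mem_Aug {w : G →* ℤˣ} {W : Submodule ℤ (G → M)} (r : RR G) {v : G → M} (hv : v ∈ W) :
    rho M r v - ew w r • v ∈ Aug w W := by
  induction r using rr_ind with
  | h1 g =>
    have h1 : rho M (gof g) v - ew w (gof g) • v =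
        ((w g : ℤˣ) : ℤ) • (rho M (dg w (gof g⁻¹)) v - v) := by
      rw [ew_of, dg_of, inv_inv, map_inv, Int.units_inv_eq_self, map_zsmul, smul_sub,
        LinearMap.smul_apply, smul_smul, ← Units.val_mul, ← sq, Int.units_sq, Units.val_one,
        one_smul]
    rw [h1]
    exact Submodule.smul_mem _ _ (Submodule.subset_span ⟨g⁻¹, v, hv, rfl⟩)
  | h2 x y hx hy =>
    have h1 : rho M (x + y) v - ew w (x + y) • v =
        (rho M x v - ew w x • v) + (rho M y v - ew w y • v) := by
      rw [map_add, map_add, LinearMap.add_apply, add_smul]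
      abel
    rw [h1]
    exact Submodule.add_mem _ hx hy
  | h3 x hx =>
    have h1 : rho M (-x) v - ew w (-x) • v = -(rho M x v - ew w x • v) := by
      rw [map_neg, map_neg, LinearMap.neg_apply, neg_smul]
      abel
    rw [h1]
    exact Submodule.neg_mem _ hx

/-- the linear form on tuples -/
def bet {n : ℕ} (c : Fin n → ℤ) (z : Fin n → (G → M)) : G → M := ∑ j, c j • z j

omit [Group G] in
theorem bet_sub {n : ℕ} (c : Fin n → ℤ) (z z' : Fin n → (G → M)) :
    bet c (z - z') = bet c z - bet c z' := by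
  simp only [bet, Pi.sub_apply, smul_sub, Finset.sum_sub_distrib]

omit [Group G] in
theorem bet_add {n : ℕ} (c : Fin n → ℤ) (z z' : Fin n → (G → M)) :
    bet c (z + z') = bet c z + bet c z' := by
  simp only [bet, Pi.add_apply, smul_add, Finset.sum_add_distrib]

section dual

variable {n : ℕ} {w : G →* ℤˣ} {e3 d2 : MR G n} {c : Fin n → ℤ} {U : Fin n → RR G} {Y : MR G n}

theorem DualData.bound (hD : DualData w e3 d2 c U Y) {W : Submodule ℤ (G → M)}
    {b : Fin n → (G → M)} (hb : ∀ i, b i ∈ W) : bet c (mv d2 b) ∈ Aug w W := by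
  have h1 : bet c (mv d2 b) = ∑ i, ∑ k, c i • (rho M (d2 i k) (b k) - ew w (d2 i k) • b k) := by
    have h2 : ∑ i, ∑ k, (c i * ew w (d2 i k)) • b k = 0 := by
      rw [Finset.sum_comm]
      refine Finset.sum_eq_zero fun k _ => ?_
      rw [← Finset.sum_smul, hD.cd, zero_smul]
    rw [← sub_zero (bet c (mv d2 b)), ← h2, ← sub_eq_zero]
    simp only [bet, mv_apply, Finset.smul_sum, smul_sub, Finset.sum_sub_distrib, smul_smul]
    abel
  rw [h1]
  exact Submodule.sum_mem _ fun i _ => Submodule.sum_mem _ fun k _ =>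
    Submodule.smul_mem _ _ (sub_mem_Aug _ (hb k))

theorem DualData.point (hD : DualData w e3 d2 c U Y) {W : Submodule ℤ (G → M)} {v : G → M}
    (hv : v ∈ W) :
    mv e3 (fun j => rho M (U j) v) = (fun j => rho M (U j) v) ∧
      bet c (fun j => rho M (U j) v) - v ∈ Aug w W := by
  constructor
  · funext j
    rw [mv_apply]
    have h1 : ∀ i, rho M (e3 j i) (rho M (U i) v) = rho M (e3 j i * U i) v := by
      intro i
      rw [map_mul]
      rfl
    simp only [h1]
    rw [← hD.eU j, map_sum, LinearMap.sum_apply]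
  · have h1 : bet c (fun j => rho M (U j) v) - v =
        ∑ j, c j • (rho M (U j) v - ew w (U j) • v) := by
      have h2 : ∑ j, (c j * ew w (U j)) • v = v := by
        rw [← Finset.sum_smul, hD.cU, one_smul]
      have h3 : bet c (fun j => rho M (U j) v) - v =
          bet c (fun j => rho M (U j) v) - ∑ j, (c j * ew w (U j)) • v := by rw [h2]
      rw [h3]
      simp only [bet, smul_sub, Finset.sum_sub_distrib, smul_smul]
    rw [h1]
    exact Submodule.sum_mem _ fun i _ => Submodule.smul_mem _ _ (sub_mem_Aug _ hv)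

theorem DualData.lift (hD : DualData w e3 d2 c U Y) {W : Submodule ℤ (G → M)} (hW : Stable W)
    {z : Fin n → (G → M)} (hz : ∀ i, z i ∈ W) (hez : mv e3 z = z) (hβ : bet c z ∈ Aug w W) :
    ∃ b : Fin n → (G → M), (∀ i, b i ∈ W) ∧ mv d2 b = z := by
  have h1 : ∀ v ∈ Aug w W, ∃ b : Fin n → (G → M), (∀ i, b i ∈ W) ∧
      mv d2 b = fun j => rho M (U j) v := by
    intro v hv
    induction hv using Submodule.span_induction with
    | mem v hv =>
      obtain ⟨g, v, hv, rfl⟩ := hv
      obtain ⟨y, hy⟩ := hD.gU g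
      refine ⟨fun k => rho M (y k) v, fun k => hW.rho _ _ hv, ?_⟩
      funext j
      rw [mv_apply]
      have h2 : ∀ k, rho M (d2 j k) (rho M (y k) v) = rho M (d2 j k * y k) v := by
        intro k
        rw [map_mul]
        rfl
      simp only [h2]
      rw [← LinearMap.sum_apply, ← map_sum, ← hy j, map_mul, map_sub, map_one]
      rfl
    | zero =>
      refine ⟨0, fun i => W.zero_mem, ?_⟩
      rw [mv_zero]
      funext j
      rw [map_zero]
      rfl
    | add x y _ _ hx hy =>
      obtain ⟨b, hb, hb'⟩ := hx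
      obtain ⟨b2, hb2, hb2'⟩ := hy
      refine ⟨b + b2, fun i => W.add_mem (hb i) (hb2 i), ?_⟩
      rw [mv_add, hb', hb2']
      funext j
      rw [map_add]
      rfl
    | smul k x _ hx =>
      obtain ⟨b, hb, hb'⟩ := hx
      refine ⟨k • b, fun i => W.smul_mem _ (hb i), ?_⟩
      funext j
      rw [map_zsmul, ← congrFun hb' j, mv_apply, mv_apply, Finset.smul_sum]
      exact Finset.sum_congr rfl fun i _ => map_zsmul _ _ _
  obtain ⟨b, hb, hb'⟩ := h1 _ hβ
  refine ⟨b + mv Y z, fun i => W.add_mem (hb i) (hW.mv _ hz i), ?_⟩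
  rw [mv_add, hb']
  funext j
  conv_rhs => rw [← hez]
  rw [mv_apply]
  have h2 : ∀ i, rho M (e3 j i) (z i) =
      rho M (U j) (c i • z i) + ∑ k, rho M (d2 j k) (rho M (Y k i) (z i)) := by
    intro i
    rw [hD.dec j i, map_add, map_mul, map_sum, LinearMap.add_apply, LinearMap.sum_apply]
    congr 1
    · rw [map_intCast, map_zsmul]
      change rho M (U j) ((c i : Module.End ℤ (G → M)) (z i)) = _
      rw [← map_zsmul]
      congr 1
    · exact Finset.sum_congr rfl fun k _ => by rw [map_mul]; rfl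
  simp only [h2]
  rw [Finset.sum_add_distrib, ← map_sum]
  change rho M (U j) (bet c z) + mv d2 (mv Y z) j = _
  congr 1
  rw [Finset.sum_comm, mv_apply]
  exact Finset.sum_congr rfl fun k _ => by rw [mv_apply, map_sum]

end dual

end

end Pool.Agent.H26.PD
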