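import Mathlib

/-!
A finitely generated group with an almost invariant set which is infinite with infinite complement
contains a free group of rank two or has an infinite cyclic subgroup of finite index.
-/

set_option autoImplicit false

namespace Pool.Agent.H26.PD

open scoped Classical Pointwise

/-- A separation of the left Cayley graph by a finite set. -/
structure Dat (L : Type) [Group L] where
  S : Set L
  len : L → ℕ
  Ω : Set L
  A : Set L
  B : Set L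
  fin : Ω.Finite
  one : (1 : L) ∈ Ω
  desc : ∀ x, x ≠ 1 → ∃ s ∈ S, len (s * x) < len x ∧ (x ∈ Ω → s * x ∈ Ω)
  cover : ∀ x, x ∈ A ∨ x ∈ B ∨ x ∈ Ω
  AB : ∀ x, x ∈ A → x ∉ B
  AO : ∀ x, x ∈ A → x ∉ Ω
  BO : ∀ x, x ∈ B → x ∉ Ω
  clA : ∀ x ∈ A, ∀ s ∈ S, s * x ∈ A ∨ s * x ∈ Ω
  clB : ∀ x ∈ B, ∀ s ∈ S, s * x ∈ B ∨ s * x ∈ Ω
  infA : A.Infinite
  infB : B.Infinite

namespace Dat

variable {L : Type} [Group L]

/-- exchange the two sides -/
def swap (D : Dat L) : Dat L where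
  S := D.S
  len := D.len
  Ω := D.Ω
  A := D.B
  B := D.A
  fin := D.fin
  one := D.one
  desc := D.desc
  cover x := by
    rcases D.cover x with h | h | h
    · exact Or.inr (Or.inl h)
    · exact Or.inl h
    · exact Or.inr (Or.inr h)
  AB x h h' := D.AB x h' h
  AO := D.BO
  BO := D.AO
  clA := D.clB
  clB := D.clA
  infA := D.infB
  infB := D.infA

variable (D : Dat L)

/-- the translate of the separating set is disjoint from it -/
def Far (h : L) : Prop := ∀ u ∈ D.Ω, u * h ∉ D.Ω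

theorem Far.inv {D : Dat L} {h : L} (hh : D.Far h) : D.Far h⁻¹ := by
  intro u hu hu'
  apply hh _ hu'
  rwa [inv_mul_cancel_right]

theorem not_far_finite : {h : L | ¬ D.Far h}.Finite := by
  refine (Set.Finite.mul D.fin.inv D.fin).subset ?_
  intro h hh
  rw [Set.mem_ofPred_eq, Far] at hh
  push Not at hh
  obtain ⟨u, hu, hu'⟩ := hh
  exact ⟨u⁻¹, by simpa using hu, u * h, hu', by simp⟩

theorem exists_far {X : Set L} (hX : X.Infinite) : ∃ h ∈ X, D.Far h := by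
  by_contra hc
  push Not at hc
  exact hX (D.not_far_finite.subset fun h hh => hc h hh)

theorem descend {h : L} (hh : D.Far h) :
    ∀ (n : ℕ) (u : L), D.len u = n → u ∈ D.Ω → u * h ∈ D.A → h ∈ D.A := by
  intro n
  induction n using Nat.strong_induction_on with
  | _ n ih =>
    intro u hn hu hA
    by_cases h1 : u = 1
    · rwa [h1, one_mul] at hA
    · obtain ⟨s, hs, hl, hO⟩ := D.desc u h1
      have h2 : s * u * h ∈ D.A := by
        rw [mul_assoc]
        rcases D.clA _ hA s hs with h3 | h3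
        · exact h3
        · rw [← mul_assoc] at h3
          exact absurd h3 (hh _ (hO hu))
      exact ih _ (hn ▸ hl) _ rfl (hO hu) h2

theorem ball_A {h : L} (hh : D.Far h) (hA : h ∈ D.A) {u : L} (hu : u ∈ D.Ω) : u * h ∈ D.A := by
  rcases D.cover (u * h) with h1 | h1 | h1
  · exact h1
  · exact absurd (D.swap.descend hh _ u rfl hu h1) (D.AB _ hA)
  · exact absurd h1 (hh u hu)

theorem ball_B {h : L} (hh : D.Far h) (hB : h ∈ D.B) {u : L} (hu : u ∈ D.Ω) : u * h ∈ D.B :=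
  D.swap.ball_A hh hB hu

/-- walking in the complement of `A` -/
theorem walk {h : L} (hh : D.Far h) (hA : h ∈ D.A) :
    ∀ (n : ℕ) (x : L), D.len x = n → x ∉ D.A → x * h⁻¹ ∈ D.A → h⁻¹ ∈ D.A := by
  intro n
  induction n using Nat.strong_induction_on with
  | _ n ih =>
    intro x hn hx hxA
    by_cases h1 : x = 1
    · rwa [h1, one_mul] at hxA
    · obtain ⟨s, hs, hl, hO⟩ := D.desc x h1
      have h2 : s * x ∉ D.A := by
        rcases D.cover x with h3 | h3 | h3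
        · exact absurd h3 hx
        · rcases D.clB _ h3 s hs with h4 | h4
          · exact fun h5 => D.AB _ h5 h4
          · exact fun h5 => D.AO _ h5 h4
        · exact fun h5 => D.AO _ h5 (hO h3)
      refine ih _ (hn ▸ hl) _ rfl h2 ?_
      rw [mul_assoc]
      rcases D.clA _ hxA s hs with h3 | h3
      · exact h3
      · exfalso
        apply h2
        have := D.ball_A hh hA h3
        rwa [mul_assoc, inv_mul_cancel_right] at this

theorem walk' {h : L} (hh : D.Far h) (hA : h ∈ D.A) :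
    ∀ (n : ℕ) (x : L), D.len x = n → x ∉ D.A → x * h⁻¹ ∈ D.B → h⁻¹ ∈ D.B := by
  intro n
  induction n using Nat.strong_induction_on with
  | _ n ih =>
    intro x hn hx hxA
    by_cases h1 : x = 1
    · rwa [h1, one_mul] at hxA
    · obtain ⟨s, hs, hl, hO⟩ := D.desc x h1
      have h2 : s * x ∉ D.A := by
        rcases D.cover x with h3 | h3 | h3
        · exact absurd h3 hx
        · rcases D.clB _ h3 s hs with h4 | h4
          · exact fun h5 => D.AB _ h5 h4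
          · exact fun h5 => D.AO _ h5 h4
        · exact fun h5 => D.AO _ h5 (hO h3)
      refine ih _ (hn ▸ hl) _ rfl h2 ?_
      rw [mul_assoc]
      rcases D.clB _ hxA s hs with h3 | h3
      · exact h3
      · exfalso
        apply h2
        have := D.ball_A hh hA h3
        rwa [mul_assoc, inv_mul_cancel_right] at this

/-- `(A ∪ Ω) h ⊆ A` for `h ∈ A`, `h⁻¹ ∈ B` -/
theorem push_AB {h : L} (hh : D.Far h) (hA : h ∈ D.A) (hB : h⁻¹ ∈ D.B) {x : L} (hx : x ∉ D.B) :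
    x * h ∈ D.A := by
  by_contra hc
  rcases D.cover x with h1 | h1 | h1
  · refine D.AB _ (D.walk hh hA _ (x * h) rfl hc ?_) hB
    rwa [mul_inv_cancel_right]
  · exact hx h1
  · exact hc (D.ball_A hh hA h1)

/-- `(B ∪ Ω) h ⊆ A` for `h ∈ A`, `h⁻¹ ∈ A` -/
theorem push_AA {h : L} (hh : D.Far h) (hA : h ∈ D.A) (hB : h⁻¹ ∈ D.A) {x : L} (hx : x ∉ D.A) :
    x * h ∈ D.A := by
  by_contra hc
  rcases D.cover x with h1 | h1 | h1
  · exact hx h1
  · refine D.AB _ hB (D.walk' hh hA _ (x * h) rfl hc ?_)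
    rwa [mul_inv_cancel_right]
  · exact hc (D.ball_A hh hA h1)

theorem push_BA {h : L} (hh : D.Far h) (hA : h ∈ D.B) (hB : h⁻¹ ∈ D.A) {x : L} (hx : x ∉ D.A) :
    x * h ∈ D.B := D.swap.push_AB hh hA hB hx

theorem push_BB {h : L} (hh : D.Far h) (hA : h ∈ D.B) (hB : h⁻¹ ∈ D.B) {x : L} (hx : x ∉ D.B) :
    x * h ∈ D.B := D.swap.push_AA hh hA hB hx

/-- hyperbolic elements -/
structure Hyp (h : L) : Prop where
  far : D.Far h
  hA : h ∈ D.A
  hB : h⁻¹ ∈ D.B

theorem Hyp.swap {D : Dat L} {h : L} (hh : D.Hyp h) : D.swap.Hyp h⁻¹ :=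
  ⟨hh.far.inv, hh.hB, by rw [inv_inv]; exact hh.hA⟩

theorem exists_hyp : ∃ h, D.Hyp h := by
  obtain ⟨a, haA, haF⟩ := D.exists_far D.infA
  obtain ⟨b, hbB, hbF⟩ := D.exists_far D.infB
  rcases D.cover a⁻¹ with h1 | h1 | h1
  · rcases D.cover b⁻¹ with h2 | h2 | h2
    · exact ⟨b⁻¹, hbF.inv, h2, by rwa [inv_inv]⟩
    · -- `h = b * a`
      have h3 : b * a ∈ D.A := D.push_AA haF haA h1 fun h => D.AB _ h hbB
      have h4 : (b * a)⁻¹ ∈ D.B := by
        rw [mul_inv_rev]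
        refine D.push_BB hbF.inv h2 (by rwa [inv_inv]) fun h => D.AB _ h1 h
      refine ⟨b * a, fun u hu hu' => ?_, h3, h4⟩
      rw [← mul_assoc] at hu'
      refine D.AO _ (D.push_AA haF haA h1 fun h => ?_) hu'
      exact D.AB _ h (D.ball_B hbF hbB hu)
    · exact absurd h2 (by simpa using hbF.inv 1 D.one)
  · exact ⟨a, haF, haA, h1⟩
  · exact absurd h1 (by simpa using haF.inv 1 D.one)

variable {D} {h : L}

theorem Hyp.right (hh : D.Hyp h) {x : L} (hx : x ∉ D.B) : x * h ∈ D.A :=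
  D.push_AB hh.far hh.hA hh.hB hx

theorem Hyp.left (hh : D.Hyp h) {x : L} (hx : x ∉ D.A) : x * h⁻¹ ∈ D.B :=
  hh.swap.right hx

theorem Hyp.pow_right (hh : D.Hyp h) {x : L} (hx : x ∉ D.B) (k : ℕ) : x * h ^ (k + 1) ∈ D.A := by
  induction k with
  | zero => simpa using hh.right hx
  | succ k ih =>
    rw [pow_succ, ← mul_assoc]
    exact hh.right fun h => D.AB _ ih h

theorem Hyp.pow_left (hh : D.Hyp h) {x : L} (hx : x ∉ D.A) (k : ℕ) : x * h⁻¹ ^ (k + 1) ∈ D.B :=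
  hh.swap.pow_right hx k

theorem Hyp.mono (hh : D.Hyp h) {x : L} {k k' : ℕ} (hk : k ≤ k') (hx : x * h ^ k ∈ D.A) :
    x * h ^ k' ∈ D.A := by
  obtain ⟨j, rfl⟩ := Nat.exists_eq_add_of_le hk
  rcases Nat.eq_zero_or_pos j with h0 | h0
  · rwa [h0, add_zero]
  · obtain ⟨i, rfl⟩ := Nat.exists_eq_succ_of_ne_zero h0.ne'
    rw [pow_add, ← mul_assoc]
    exact hh.pow_right (fun h => D.AB _ hx h) i

/-- leaving `A h ^ k` -/
theorem Hyp.exit (hh : D.Hyp h) (k : ℕ) :
    ∀ (n : ℕ) (x : L), D.len x = n → x * h⁻¹ ^ k ∈ D.A →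
      ∃ y, D.len y < n ∧ y * h⁻¹ ^ k ∈ D.Ω := by
  intro n
  induction n using Nat.strong_induction_on with
  | _ n ih =>
    intro x hn hx
    by_cases h1 : x = 1
    · exfalso
      rw [h1, one_mul] at hx
      rcases k with _ | k
      · rw [pow_zero] at hx
        exact D.AO _ hx D.one
      · have := hh.pow_left (x := 1) (fun h => D.AO _ h D.one) k
        rw [one_mul] at this
        exact D.AB _ hx this
    · obtain ⟨s, hs, hl, -⟩ := D.desc x h1
      rcases D.clA _ hx s hs with h3 | h3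
      · rw [← mul_assoc] at h3
        obtain ⟨y, hy, hy'⟩ := ih _ (hn ▸ hl) _ rfl h3
        exact ⟨y, by omega, hy'⟩
      · rw [← mul_assoc] at h3
        exact ⟨s * x, by omega, h3⟩

theorem Hyp.len_lt (hh : D.Hyp h) (k : ℕ) : ∀ x, x * h⁻¹ ^ k ∈ D.A → k < D.len x := by
  induction k with
  | zero =>
    intro x hx
    obtain ⟨y, hy, -⟩ := hh.exit 0 _ x rfl hx
    omega
  | succ k ih =>
    intro x hx
    obtain ⟨y, hy, hy'⟩ := hh.exit (k + 1) _ x rfl hx
    have h1 : y * h⁻¹ ^ k ∈ D.A := by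
      have := hh.right (x := y * h⁻¹ ^ (k + 1)) fun h => D.BO _ h hy'
      rwa [pow_succ, mul_assoc, mul_assoc, inv_mul_cancel, mul_one] at this
    have := ih y h1
    omega

theorem Hyp.eventually_B (hh : D.Hyp h) (x : L) {k : ℕ} (hk : D.len x < k) :
    x * h⁻¹ ^ k ∈ D.B := by
  obtain ⟨j, rfl⟩ := Nat.exists_eq_succ_of_ne_zero (by omega : k ≠ 0)
  have h1 : x * h⁻¹ ^ j ∉ D.A := fun h1 => by
    have := hh.len_lt j x h1
    omega
  have := hh.left h1
  rwa [mul_assoc, ← pow_succ] at this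

theorem Hyp.eventually_A (hh : D.Hyp h) (x : L) {k : ℕ} (hk : D.len x < k) :
    x * h ^ k ∈ D.A := by
  have := hh.swap.eventually_B x hk
  rwa [inv_inv] at this

theorem Hyp.pow_mem (hh : D.Hyp h) (k : ℕ) : h ^ (k + 1) ∈ D.A := by
  simpa using hh.pow_right (x := 1) (fun h => D.BO _ h D.one) k

theorem Hyp.pow_ne (hh : D.Hyp h) {k : ℕ} (hk : k ≠ 0) : h ^ k ≠ 1 := by
  obtain ⟨j, rfl⟩ := Nat.exists_eq_succ_of_ne_zero hk
  intro h1
  have := hh.pow_mem j
  rw [h1] at this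
  exact D.AO _ this D.one

theorem Hyp.zpow_ne (hh : D.Hyp h) {k : ℤ} (hk : k ≠ 0) : h ^ k ≠ 1 := by
  intro h1
  have h2 : h ^ k.natAbs = 1 := by
    rcases Int.natAbs_eq k with h3 | h3
    · rwa [h3, zpow_natCast] at h1
    · rw [h3, zpow_neg, zpow_natCast, inv_eq_one] at h1
      exact h1
  exact hh.pow_ne (Int.natAbs_ne_zero.2 hk) h2

/-- crossing a path from `y` to `x * y` -/
theorem path (D : Dat L) : ∀ (n : ℕ) (x : L), D.len x = n → ∃ P : Set L, P.Finite ∧ ∀ y,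
    (y ∈ D.A ∧ x * y ∈ D.B) ∨ (y ∈ D.B ∧ x * y ∈ D.A) → ∃ u ∈ P, u * y ∈ D.Ω := by
  intro n
  induction n using Nat.strong_induction_on with
  | _ n ih =>
    intro x hn
    by_cases h1 : x = 1
    · refine ⟨∅, Set.finite_empty, ?_⟩
      rintro y (⟨h2, h3⟩ | ⟨h2, h3⟩)
      · rw [h1, one_mul] at h3
        exact absurd h3 (D.AB _ h2)
      · rw [h1, one_mul] at h3
        exact absurd h2 (D.AB _ h3)
    · obtain ⟨s, hs, hl, -⟩ := D.desc x h1
      obtain ⟨P, hP, hP'⟩ := ih _ (hn ▸ hl) _ rfl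
      refine ⟨insert (s * x) P, hP.insert _, ?_⟩
      rintro y (⟨h2, h3⟩ | ⟨h2, h3⟩)
      · rcases D.clB _ h3 s hs with h4 | h4
        · rw [← mul_assoc] at h4
          obtain ⟨u, hu, hu'⟩ := hP' y (Or.inl ⟨h2, h4⟩)
          exact ⟨u, Set.mem_insert_of_mem _ hu, hu'⟩
        · rw [← mul_assoc] at h4
          exact ⟨s * x, Set.mem_insert _ _, h4⟩
      · rcases D.clA _ h3 s hs with h4 | h4
        · rw [← mul_assoc] at h4
          obtain ⟨u, hu, hu'⟩ := hP' y (Or.inr ⟨h2, h4⟩)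
          exact ⟨u, Set.mem_insert_of_mem _ hu, hu'⟩
        · rw [← mul_assoc] at h4
          exact ⟨s * x, Set.mem_insert _ _, h4⟩

/-- a finite set meeting every orbit of `h` which changes sides -/
theorem exists_cross (D : Dat L) (h : L) : ∃ R : Set L, R.Finite ∧ ∀ g : L,
    (∀ k : ℤ, h ^ k * g ∉ R) →
      (∀ k : ℤ, h ^ k * g ∈ D.A) ∨ (∀ k : ℤ, h ^ k * g ∈ D.B) := by
  obtain ⟨P, hP, hP'⟩ := D.path _ h rfl
  refine ⟨D.Ω ∪ P⁻¹ * D.Ω, D.fin.union (hP.inv.mul D.fin), fun g hg => ?_⟩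
  have h1 : ∀ k : ℤ, h ^ k * g ∉ D.Ω := fun k hk => hg k (Or.inl hk)
  have h2 : ∀ k : ℤ, ∀ u ∈ P, u * (h ^ k * g) ∉ D.Ω := fun k u hu hk =>
    hg k (Or.inr ⟨u⁻¹, by simpa using hu, _, hk, by simp⟩)
  have h3 : ∀ k : ℤ, (h ^ k * g ∈ D.A ↔ h ^ (k + 1) * g ∈ D.A) := by
    intro k
    have h4 : h ^ (k + 1) * g = h * (h ^ k * g) := by
      rw [add_comm, zpow_add, zpow_one, mul_assoc]
    constructor
    · intro h5
      rcases D.cover (h ^ (k + 1) * g) with h6 | h6 | h6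
      · exact h6
      · rw [h4] at h6
        obtain ⟨u, hu, hu'⟩ := hP' _ (Or.inl ⟨h5, h6⟩)
        exact absurd hu' (h2 k u hu)
      · exact absurd h6 (h1 _)
    · intro h5
      rcases D.cover (h ^ k * g) with h6 | h6 | h6
      · exact h6
      · rw [h4] at h5
        obtain ⟨u, hu, hu'⟩ := hP' _ (Or.inr ⟨h6, h5⟩)
        exact absurd hu' (h2 k u hu)
      · exact absurd h6 (h1 _)
  have h4 : ∀ k : ℤ, (h ^ k * g ∈ D.A ↔ h ^ (0 : ℤ) * g ∈ D.A) := by
    intro k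
    induction k using Int.induction_on with
    | zero => rfl
    | succ i hi => rw [← h3]; exact hi
    | pred i hi => rw [h3, sub_add_cancel]; exact hi
  by_cases h5 : h ^ (0 : ℤ) * g ∈ D.A
  · exact Or.inl fun k => (h4 k).2 h5
  · refine Or.inr fun k => ?_
    rcases D.cover (h ^ k * g) with h6 | h6 | h6
    · exact absurd ((h4 k).1 h6) h5
    · exact h6
    · exact absurd h6 (h1 _)

theorem Hyp.pow_mul_injective (hh : D.Hyp h) (g : L) :
    Function.Injective fun k : ℕ => h ^ k * g := by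
  intro k k' hk
  have h1 : h ^ k = h ^ k' := mul_right_cancel hk
  by_contra hne
  rcases Nat.lt_or_gt_of_ne hne with h2 | h2
  · refine hh.pow_ne (k := k' - k) (by omega) ?_
    have h3 : h ^ k * h ^ (k' - k) = h ^ k * 1 := by
      rw [← pow_add, mul_one, h1]
      congr 1
      omega
    exact mul_left_cancel h3
  · refine hh.pow_ne (k := k - k') (by omega) ?_
    have h3 : h ^ k' * h ^ (k - k') = h ^ k' * 1 := by
      rw [← pow_add, mul_one, ← h1]
      congr 1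
      omega
    exact mul_left_cancel h3

theorem Hyp.far_large (hh : D.Hyp h) (g : L) :
    ∃ K : ℕ, ∀ k, K ≤ k → D.Far (h ^ k * g) ∧ h ^ k * g ∉ D.Ω := by
  have hfin : {k : ℕ | ¬ D.Far (h ^ k * g) ∨ h ^ k * g ∈ D.Ω}.Finite := by
    have := Set.Finite.preimage (f := fun k : ℕ => h ^ k * g) (hh.pow_mul_injective g).injOn
      (D.not_far_finite.union D.fin)
    exact this
  obtain ⟨b, hb⟩ := hfin.bddAbove
  refine ⟨b + 1, fun k hk => ⟨?_, ?_⟩⟩
  · by_contra hc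
    have := hb (Or.inl hc)
    omega
  · intro hc
    have := hb (Or.inr hc)
    omega

theorem Hyp.far_large' (hh : D.Hyp h) (g : L) :
    ∃ K : ℕ, ∀ k, K ≤ k → D.Far (h⁻¹ ^ k * g) ∧ h⁻¹ ^ k * g ∉ D.Ω :=
  hh.swap.far_large g

/-- the side of `h ^ k * g` is eventually constant -/
theorem Hyp.stab (hh : D.Hyp h) (g : L) :
    ∃ K : ℕ, (∀ k, K ≤ k → h ^ k * g ∈ D.A) ∨ (∀ k, K ≤ k → h ^ k * g ∈ D.B) := by
  obtain ⟨b, hb⟩ := hh.far_large g
  let K := max b (D.len g⁻¹ + 1)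
  have hfar : ∀ k, K ≤ k → D.Far (h ^ k * g) := fun k hk => (hb k ((le_max_left _ _).trans hk)).1
  have hout : ∀ k, K ≤ k → h ^ k * g ∉ D.Ω := fun k hk => (hb k ((le_max_left _ _).trans hk)).2
  have hinv : ∀ k, K ≤ k → (h ^ k * g)⁻¹ ∈ D.B := by
    intro k hk
    rw [mul_inv_rev, ← inv_pow]
    apply hh.eventually_B
    have : D.len g⁻¹ + 1 ≤ K := le_max_right _ _
    omega
  have hstep : ∀ k, h ^ (k + 1) * g = h * (h ^ k * g) := fun k => by
    rw [pow_succ', mul_assoc]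
  refine ⟨K, ?_⟩
  rcases D.cover (h ^ K * g) with h1 | h1 | h1
  · left
    intro k hk
    induction k, hk using Nat.le_induction with
    | base => exact h1
    | succ k hk ih =>
      rw [hstep]
      exact D.push_AB (hfar k hk) ih (hinv k hk) fun h => D.AB _ hh.hA h
  · right
    intro k hk
    induction k, hk using Nat.le_induction with
    | base => exact h1
    | succ k hk ih =>
      rw [hstep]
      exact D.push_BB (hfar k hk) ih (hinv k hk) fun h => D.AB _ hh.hA h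
  · exact absurd h1 (hout K le_rfl)

theorem Hyp.stab' (hh : D.Hyp h) (g : L) :
    ∃ K : ℕ, (∀ k, K ≤ k → h⁻¹ ^ k * g ∈ D.A) ∨ (∀ k, K ≤ k → h⁻¹ ^ k * g ∈ D.B) := by
  obtain ⟨K, h1 | h1⟩ := hh.swap.stab g
  · exact ⟨K, Or.inr h1⟩
  · exact ⟨K, Or.inl h1⟩

/-- the parabolic case leads to a free group -/
theorem Hyp.free (hh : D.Hyp h) {g : L} {K : ℕ} (hp : ∀ k, K ≤ k → h ^ k * g ∈ D.B)
    (hm : ∀ k, K ≤ k → h⁻¹ ^ k * g ∈ D.B) :
    ∃ F : FreeGroup (Fin 2) →* L, Function.Injective F := by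
  -- no common powers
  have hpz : ∀ k : ℤ, (K : ℤ) ≤ |k| → h ^ k * g ∈ D.B := by
    intro k hk
    rcases Int.natAbs_eq k with h3 | h3
    · rw [h3, zpow_natCast]
      apply hp
      rw [Int.abs_eq_natAbs] at hk
      exact_mod_cast hk
    · rw [h3, zpow_neg, zpow_natCast, ← inv_pow]
      apply hm
      rw [Int.abs_eq_natAbs] at hk
      exact_mod_cast hk
  have hnp : ∀ a b : ℤ, h ^ b * g = g * h ^ a → b = 0 := by
    intro a b hab
    by_contra hb
    have h1 : ∀ j : ℤ, h ^ (b * j) * g = g * h ^ (a * j) := by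
      intro j
      have h2 : g⁻¹ * h ^ b * g = h ^ a := by rw [mul_assoc, hab, inv_mul_cancel_left]
      have h3 : g⁻¹ * h ^ (b * j) * g = h ^ (a * j) := by
        rw [zpow_mul, zpow_mul, ← h2]
        have := (MulAut.conj g⁻¹).toMonoidHom.map_zpow (h ^ b) j
        simpa using this
      rw [← h3, mul_assoc, mul_inv_cancel_left]
    have ha : a ≠ 0 := by
      rintro rfl
      have h2 := h1 1
      rw [zero_mul, zpow_zero, mul_one, mul_one] at h2
      exact hh.zpow_ne hb (mul_eq_right.1 h2)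
    -- choose `j`
    let j : ℤ := a.sign * (K + D.len g + 1)
    have hj : a * j = |a| * (K + D.len g + 1) := by
      change a * (a.sign * _) = _
      rw [← mul_assoc, Int.mul_sign_self, ← Int.natCast_natAbs]
    have ha1 : 1 ≤ |a| := Int.one_le_abs ha
    have hb1 : 1 ≤ |b| := Int.one_le_abs hb
    have h2 : g * h ^ (a * j) ∈ D.A := by
      have h3 : (D.len g : ℤ) < a * j := by
        rw [hj]
        nlinarith [Int.natCast_nonneg K, Int.natCast_nonneg (D.len g)]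
      obtain ⟨i, hi⟩ := Int.eq_ofNat_of_zero_le (by omega : 0 ≤ a * j)
      rw [hi] at h3 ⊢
      rw [zpow_natCast]
      exact hh.eventually_A g (by exact_mod_cast h3)
    rw [← h1] at h2
    refine D.AB _ h2 (hpz _ ?_)
    rw [abs_mul, show j = a.sign * (K + D.len g + 1) from rfl, abs_mul, Int.abs_sign_of_ne_zero ha,
      one_mul, abs_of_nonneg (by positivity : (0 : ℤ) ≤ K + D.len g + 1)]
    nlinarith [Int.natCast_nonneg K, Int.natCast_nonneg (D.len g)]
  -- for large `m` the orbit stays in `A`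
  obtain ⟨R, hR, hR'⟩ := D.exists_cross h
  have hinj : Function.Injective fun p : ℤ × ℤ => h ^ p.1 * (g * h ^ p.2) := by
    rintro ⟨k, m⟩ ⟨k', m'⟩ hk
    change h ^ k * (g * h ^ m) = h ^ k' * (g * h ^ m') at hk
    have h1 : h ^ (k - k') * g = g * h ^ (m' - m) := by
      rw [zpow_sub, zpow_sub]
      have h2 : h ^ k * g = h ^ k' * g * h ^ m' * (h ^ m)⁻¹ := by
        rw [eq_mul_inv_iff_mul_eq, mul_assoc, hk, mul_assoc]
      have h3 : h ^ k * (h ^ k')⁻¹ = (h ^ k')⁻¹ * h ^ k := by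
        rw [← zpow_neg, ← zpow_add, ← zpow_add, add_comm]
      rw [h3, mul_assoc, h2]
      group
    have h2 : k - k' = 0 := hnp _ _ h1
    have h3 : m' - m = 0 := by
      by_contra hne
      rw [h2, zpow_zero, one_mul] at h1
      exact hh.zpow_ne hne (mul_eq_left.1 h1.symm)
    exact Prod.ext (by change k = k'; omega) (by change m = m'; omega)
  have hfin := Set.Finite.preimage (f := fun p : ℤ × ℤ => h ^ p.1 * (g * h ^ p.2)) hinj.injOn hR
  obtain ⟨m1, hm1⟩ : ∃ m1 : ℕ, ∀ m : ℕ, m1 ≤ m → ∀ k : ℤ, h ^ k * (g * h ^ m) ∈ D.A := by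
    have h1 := hfin.image Prod.snd
    obtain ⟨b, hb⟩ := h1.bddAbove
    refine ⟨max (b.toNat + 1) (D.len g + 1), fun m hm => ?_⟩
    have h2 : ∀ k : ℤ, h ^ k * (g * h ^ m) ∉ R := by
      intro k hk
      have h3 : (m : ℤ) ≤ b := hb ⟨(k, (m : ℤ)), by
        change h ^ k * (g * h ^ (m : ℤ)) ∈ R
        rwa [zpow_natCast], rfl⟩
      have := le_max_left (b.toNat + 1) (D.len g + 1)
      omega
    rcases hR' _ h2 with h3 | h3
    · exact h3
    · exfalso
      have h4 := h3 0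
      rw [zpow_zero, one_mul] at h4
      have := le_max_right (b.toNat + 1) (D.len g + 1)
      exact D.AB _ (hh.eventually_A g (by omega)) h4
  -- choose the exponents
  let M : ℕ := max m1 (max K 1)
  have hMm : m1 ≤ M := le_max_left _ _
  have hMK : K ≤ M := (le_max_left _ _).trans (le_max_right _ _)
  have hM1 : 1 ≤ M := (le_max_right _ _).trans (le_max_right _ _)
  obtain ⟨K1, hK1⟩ := hh.far_large (g * h ^ M)
  obtain ⟨K2, hK2⟩ := hh.far_large (g * h⁻¹ ^ M)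
  obtain ⟨K3, hK3⟩ := hh.far_large' (g * h ^ M)
  obtain ⟨K4, hK4⟩ := hh.far_large' (g * h⁻¹ ^ M)
  obtain ⟨M', hM'⟩ : ∃ M' : ℕ, K1 ≤ M' ∧ K2 ≤ M' ∧ K3 ≤ M' ∧ K4 ≤ M' ∧ M ≤ M' ∧
      D.len (h ^ M * g⁻¹) < M' ∧ D.len (h⁻¹ ^ M * g⁻¹) < M' :=
    ⟨K1 + K2 + K3 + K4 + M + D.len (h ^ M * g⁻¹) + D.len (h⁻¹ ^ M * g⁻¹) + 1, by omega⟩
  obtain ⟨hM1', hM2', hM3', hM4', hMM', hl1, hl2⟩ := hM'
  have hpush : ∀ (c : L) (k N : ℕ), 2 * k + 1 ≤ N → ∀ x, x * c⁻¹ * h ^ k ∉ D.B →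
      x * (c⁻¹ * h ^ N * c) * c⁻¹ * h⁻¹ ^ k ∈ D.A := by
    intro c k N hN x hx
    obtain ⟨j, rfl⟩ := Nat.exists_eq_add_of_le hN
    have h1 := hh.pow_right hx j
    convert h1 using 1
    have h2 : h ^ (2 * k + 1 + j) = h ^ k * h ^ (j + 1) * h ^ k := by
      rw [← pow_add, ← pow_add]
      congr 1
      omega
    rw [h2]
    group
  have hpush' : ∀ (c : L) (k N : ℕ), 2 * k + 1 ≤ N → ∀ x, x * c⁻¹ * h⁻¹ ^ k ∉ D.A →
      x * (c⁻¹ * h⁻¹ ^ N * c) * c⁻¹ * h ^ k ∈ D.B := by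
    intro c k N hN x hx
    obtain ⟨j, rfl⟩ := Nat.exists_eq_add_of_le hN
    have h1 := hh.pow_left hx j
    convert h1 using 1
    have h2 : h⁻¹ ^ (2 * k + 1 + j) = h⁻¹ ^ k * h⁻¹ ^ (j + 1) * h⁻¹ ^ k := by
      rw [← pow_add, ← pow_add]
      congr 1
      omega
    rw [h2]
    group
  -- disjointness
  have hd0 : ∀ (k : ℕ) (x : L), x * h⁻¹ ^ k ∈ D.A → x * h ^ k ∈ D.B → False := by
    intro k x hx hx'
    have h1 : x * h ^ k ∈ D.A := by
      have h2 := hh.mono (x := x * h⁻¹ ^ k) (k := 0) (k' := 2 * k) (Nat.zero_le _)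
        (by rwa [pow_zero, mul_one])
      convert h2 using 1
      rw [two_mul, pow_add, inv_pow]
      group
    exact D.AB _ h1 hx'
  have hyA : ∀ k, M' ≤ k → h ^ k * g ∈ D.B := fun k hk => hp k (by omega)
  have hyB : ∀ k, M' ≤ k → h⁻¹ ^ k * g ∈ D.B := fun k hk => hm k (by omega)
  obtain ⟨M0, hM0⟩ := Nat.exists_eq_succ_of_ne_zero (by omega : M ≠ 0)
  have h1f : ∀ x, x * h⁻¹ ^ M ∈ D.A → x * g⁻¹ * h⁻¹ ^ M' ∈ D.A → False := by
    intro x hx hx'
    have hy : h ^ M' * (g * h⁻¹ ^ M) ∈ D.B := by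
      rw [← mul_assoc, hM0]
      exact hh.pow_left (fun h => D.AB _ h (hyA M' le_rfl)) M0
    have hy' : (h ^ M' * (g * h⁻¹ ^ M))⁻¹ ∈ D.B := by
      have h2 := hh.eventually_B (h ^ M * g⁻¹) hl1
      convert h2 using 1
      rw [inv_pow, inv_pow]
      group
    have h3 := D.push_BB (hK2 M' hM2').1 hy hy' (fun h => D.AB _ hx' h)
    have h4 : x * g⁻¹ * h⁻¹ ^ M' * (h ^ M' * (g * h⁻¹ ^ M)) = x * h⁻¹ ^ M := by
      rw [inv_pow, inv_pow]
      group
    rw [h4] at h3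
    exact D.AB _ hx h3
  have h2f : ∀ x, x * h ^ M ∈ D.B → x * g⁻¹ * h ^ M' ∈ D.B → False := by
    intro x hx hx'
    have hy : h⁻¹ ^ M' * (g * h ^ M) ∈ D.A := by
      have := hm1 M hMm (-(M' : ℤ))
      rwa [zpow_neg, zpow_natCast, ← inv_pow] at this
    have hy' : (h⁻¹ ^ M' * (g * h ^ M))⁻¹ ∈ D.A := by
      have h2 := hh.eventually_A (h⁻¹ ^ M * g⁻¹) hl2
      convert h2 using 1
      rw [inv_pow, inv_pow]
      group
    have h3 := D.push_AA (hK3 M' hM3').1 hy hy' (fun h => D.AB _ h hx')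
    have h4 : x * g⁻¹ * h ^ M' * (h⁻¹ ^ M' * (g * h ^ M)) = x * h ^ M := by
      rw [inv_pow]
      group
    rw [h4] at h3
    exact D.AB _ h3 hx
  have h3f : ∀ x, x * h⁻¹ ^ M ∈ D.A → x * g⁻¹ * h ^ M' ∈ D.B → False := by
    intro x hx hx'
    have hy : h⁻¹ ^ M' * (g * h⁻¹ ^ M) ∈ D.B := by
      rw [← mul_assoc, hM0]
      exact hh.pow_left (fun h => D.AB _ h (hyB M' le_rfl)) M0
    have hy' : (h⁻¹ ^ M' * (g * h⁻¹ ^ M))⁻¹ ∈ D.A := by
      have h2 := hh.eventually_A (h ^ M * g⁻¹) hl1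
      convert h2 using 1
      rw [inv_pow, inv_pow]
      group
    have h3 := D.push_BA (hK4 M' hM4').1 hy hy' (fun h => D.AB _ h hx')
    have h4 : x * g⁻¹ * h ^ M' * (h⁻¹ ^ M' * (g * h⁻¹ ^ M)) = x * h⁻¹ ^ M := by
      rw [inv_pow, inv_pow]
      group
    rw [h4] at h3
    exact D.AB _ hx h3
  have h4f : ∀ x, x * h ^ M ∈ D.B → x * g⁻¹ * h⁻¹ ^ M' ∈ D.A → False := by
    intro x hx hx'
    have hy : h ^ M' * (g * h ^ M) ∈ D.A := by
      have := hm1 M hMm (M' : ℤ)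
      rwa [zpow_natCast] at this
    have hy' : (h ^ M' * (g * h ^ M))⁻¹ ∈ D.B := by
      have h2 := hh.eventually_B (h⁻¹ ^ M * g⁻¹) hl2
      convert h2 using 1
      rw [inv_pow, inv_pow]
      group
    have h3 := D.push_AB (hK1 M' hM1').1 hy hy' (fun h => D.AB _ hx' h)
    have h4 : x * g⁻¹ * h⁻¹ ^ M' * (h ^ M' * (g * h ^ M)) = x * h ^ M := by
      rw [inv_pow]
      group
    rw [h4] at h3
    exact D.AB _ h3 hx
  -- ping-pong
  let c : Fin 2 → L := ![1, g]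
  let m : Fin 2 → ℕ := ![M, M']
  let N : ℕ := 2 * M' + 1
  have hmN : ∀ i, 2 * m i + 1 ≤ N := by
    intro i
    fin_cases i
    · change 2 * M + 1 ≤ 2 * M' + 1
      omega
    · exact le_rfl
  let a : Fin 2 → L := fun i => (c i)⁻¹ * h⁻¹ ^ N * c i
  have hainv : ∀ i, (a i)⁻¹ = (c i)⁻¹ * h ^ N * c i := by
    intro i
    change ((c i)⁻¹ * h⁻¹ ^ N * c i)⁻¹ = _
    rw [inv_pow]
    group
  let X : Fin 2 → Set L := fun i => {x | x⁻¹ * (c i)⁻¹ * h⁻¹ ^ m i ∈ D.A}
  let Y : Fin 2 → Set L := fun i => {x | x⁻¹ * (c i)⁻¹ * h ^ m i ∈ D.B}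
  refine ⟨FreeGroup.lift a, FreeGroup.injective_lift_of_ping_pong a X Y ?_ ?_ ?_ ?_ ?_ ?_⟩
  · intro i
    refine ⟨(h ^ (m i + 1) * c i)⁻¹, ?_⟩
    change (h ^ (m i + 1) * c i)⁻¹⁻¹ * (c i)⁻¹ * h⁻¹ ^ m i ∈ D.A
    have h5 : (h ^ (m i + 1) * c i)⁻¹⁻¹ * (c i)⁻¹ * h⁻¹ ^ m i = h := by
      rw [pow_succ', inv_pow]
      group
    rw [h5]
    exact hh.hA
  · intro i j hij
    change Disjoint (X i) (X j)
    rw [Set.disjoint_left]
    intro x hx hx'
    change x⁻¹ * (c i)⁻¹ * h⁻¹ ^ m i ∈ D.A at hx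
    change x⁻¹ * (c j)⁻¹ * h⁻¹ ^ m j ∈ D.A at hx'
    fin_cases i <;> fin_cases j
    · exact hij rfl
    · exact h1f x⁻¹ (by simpa [c, m] using hx) hx'
    · exact h1f x⁻¹ (by simpa [c, m] using hx') hx
    · exact hij rfl
  · intro i j hij
    change Disjoint (Y i) (Y j)
    rw [Set.disjoint_left]
    intro x hx hx'
    change x⁻¹ * (c i)⁻¹ * h ^ m i ∈ D.B at hx
    change x⁻¹ * (c j)⁻¹ * h ^ m j ∈ D.B at hx'
    fin_cases i <;> fin_cases j
    · exact hij rfl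
    · exact h2f x⁻¹ (by simpa [c, m] using hx) hx'
    · exact h2f x⁻¹ (by simpa [c, m] using hx') hx
    · exact hij rfl
  · intro i j
    rw [Set.disjoint_left]
    intro x hx hx'
    change x⁻¹ * (c i)⁻¹ * h⁻¹ ^ m i ∈ D.A at hx
    change x⁻¹ * (c j)⁻¹ * h ^ m j ∈ D.B at hx'
    fin_cases i <;> fin_cases j
    · exact hd0 M (x⁻¹ * 1⁻¹) hx hx'
    · exact h3f x⁻¹ (by simpa [c, m] using hx) hx'
    · exact h4f x⁻¹ (by simpa [c, m] using hx') hx
    · exact hd0 M' (x⁻¹ * g⁻¹) hx hx'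
  · rintro i _ ⟨x, hx, rfl⟩
    change (a i * x)⁻¹ * (c i)⁻¹ * h⁻¹ ^ m i ∈ D.A
    have h5 : x⁻¹ * (c i)⁻¹ * h ^ m i ∉ D.B := hx
    have h6 := hpush (c i) (m i) N (hmN i) _ h5
    rw [mul_inv_rev, hainv]
    exact h6
  · rintro i _ ⟨x, hx, rfl⟩
    change ((a i)⁻¹ * x)⁻¹ * (c i)⁻¹ * h ^ m i ∈ D.B
    have h5 : x⁻¹ * (c i)⁻¹ * h⁻¹ ^ m i ∉ D.A := hx
    have h6 := hpush' (c i) (m i) N (hmN i) _ h5
    rw [mul_inv_rev, inv_inv]
    exact h6

theorem dichotomy (D : Dat L) : (∃ F : FreeGroup (Fin 2) →* L, Function.Injective F) ∨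
    ∃ h : L, (∀ k : ℤ, k ≠ 0 → h ^ k ≠ 1) ∧
      ∃ T : Set L, T.Finite ∧ ∀ g, ∃ k : ℤ, h ^ k * g ∈ T := by
  obtain ⟨h, hh⟩ := D.exists_hyp
  by_cases hc : ∃ F : FreeGroup (Fin 2) →* L, Function.Injective F
  · exact Or.inl hc
  · right
    refine ⟨h, fun k hk => hh.zpow_ne hk, ?_⟩
    obtain ⟨R, hR, hR'⟩ := D.exists_cross h
    refine ⟨R, hR, fun g => ?_⟩
    by_contra hk
    push Not at hk
    obtain ⟨K, hK⟩ := hh.stab g
    obtain ⟨K', hK'⟩ := hh.stab' g
    rcases hR' g hk with h1 | h1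
    · have h2 : ∀ k : ℕ, h ^ k * g ∈ D.A := fun k => by
        have := h1 k
        rwa [zpow_natCast] at this
      have h3 : ∀ k : ℕ, h⁻¹ ^ k * g ∈ D.A := fun k => by
        have := h1 (-(k : ℤ))
        rwa [zpow_neg, zpow_natCast, ← inv_pow] at this
      refine hc (hh.swap.free (g := g) (K := 0) (fun k _ => h3 k) fun k _ => ?_)
      rw [inv_inv]
      exact h2 k
    · have h2 : ∀ k : ℕ, h ^ k * g ∈ D.B := fun k => by
        have := h1 k
        rwa [zpow_natCast] at this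
      have h3 : ∀ k : ℕ, h⁻¹ ^ k * g ∈ D.B := fun k => by
        have := h1 (-(k : ℤ))
        rwa [zpow_neg, zpow_natCast, ← inv_pow] at this
      exact hc (hh.free (g := g) (K := 0) (fun k _ => h2 k) fun k _ => h3 k)

end Dat

theorem exists_dat {L : Type} [Group L] (hL : Group.FG L) {V : Type} (F : L → V)
    (hF : ∀ s, {x | F (s * x) ≠ F x}.Finite) (hF' : ∀ v, {x | F x ≠ v}.Infinite) :
    Nonempty (Dat L) := by
  obtain ⟨S0, hS0, hfin⟩ := Group.fg_iff.1 hL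
  let S : Set L := insert 1 (S0 ∪ S0⁻¹)
  have hSfin : S.Finite := (hfin.union hfin.inv).insert _
  have h1S : (1 : L) ∈ S := Set.mem_insert _ _
  have hSinv : S⁻¹ = S := by
    ext x
    simp only [S, Set.mem_inv, Set.mem_insert_iff, Set.mem_union, inv_eq_one, inv_inv]
    tauto
  have hex : ∀ x : L, ∃ n : ℕ, x ∈ S ^ n := by
    intro x
    have hx : x ∈ Subgroup.closure S0 := by rw [hS0]; trivial
    induction hx using Subgroup.closure_induction with
    | mem x hx => exact ⟨1, by rw [pow_one]; exact Or.inr (Or.inl hx)⟩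
    | one => exact ⟨0, by simp⟩
    | mul x y _ _ hx hy =>
      obtain ⟨n, hn⟩ := hx
      obtain ⟨m, hm⟩ := hy
      exact ⟨n + m, by rw [pow_add]; exact Set.mul_mem_mul hn hm⟩
    | inv x _ hx =>
      obtain ⟨n, hn⟩ := hx
      refine ⟨n, ?_⟩
      rw [← hSinv, inv_pow]
      simpa using hn
  let len : L → ℕ := fun x => Nat.find (hex x)
  have hlen : ∀ x, x ∈ S ^ len x := fun x => Nat.find_spec (hex x)
  have hlen' : ∀ x n, x ∈ S ^ n → len x ≤ n := fun x n h => Nat.find_min' (hex x) h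
  have hdesc : ∀ x, x ≠ 1 → ∃ s ∈ S, len (s * x) < len x := by
    intro x hx
    have h1 : len x ≠ 0 := by
      intro h0
      have := hlen x
      rw [h0, pow_zero] at this
      exact hx (Set.mem_one.1 this)
    obtain ⟨n, hn⟩ := Nat.exists_eq_succ_of_ne_zero h1
    have h2 := hlen x
    rw [hn, pow_succ'] at h2
    obtain ⟨s, hs, y, hy, hxy⟩ := h2
    refine ⟨s⁻¹, by rw [← hSinv]; simpa using hs, ?_⟩
    rw [← hxy, inv_mul_cancel_left, hxy, hn]
    exact Nat.lt_succ_of_le (hlen' y n hy)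
  have hball : ∀ n, {x | len x ≤ n}.Finite := by
    intro n
    have h1 : (S ^ n).Finite := by
      clear hSinv
      induction n with
      | zero => rw [pow_zero]; exact Set.finite_one
      | succ n ih => rw [pow_succ]; exact ih.mul hSfin
    refine h1.subset fun x (hx : len x ≤ n) => ?_
    exact Set.pow_subset_pow_right h1S hx (hlen x)
  have h1len : len 1 = 0 := Nat.le_zero.1 (hlen' 1 0 (by simp))
  obtain ⟨n, hn⟩ : ∃ n, ∀ s ∈ S, ∀ x, F (s * x) ≠ F x → len x ≤ n := by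
    have h1 : (⋃ s ∈ S, {x | F (s * x) ≠ F x}).Finite := hSfin.biUnion fun s _ => hF s
    obtain ⟨n, hn⟩ := (h1.image len).bddAbove
    exact ⟨n, fun s hs x hx => hn ⟨x, Set.mem_biUnion hs hx, rfl⟩⟩
  let Ω : Set L := {x | len x ≤ n}
  have hstep : ∀ s ∈ S, ∀ x, x ∉ Ω → F (s * x) = F x := by
    intro s hs x hx
    by_contra hc
    exact hx (hn s hs x hc)
  have hval : ∀ (m : ℕ) (x : L), len x = m → F x ∈ F '' Ω := by
    intro m
    induction m using Nat.strong_induction_on with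
    | _ m ih =>
      intro x hm
      by_cases hx : x ∈ Ω
      · exact ⟨x, hx, rfl⟩
      · have hx1 : x ≠ 1 := by
          rintro rfl
          exact hx (by change len 1 ≤ n; omega)
        obtain ⟨s, hs, hl⟩ := hdesc x hx1
        rw [← hstep s hs x hx]
        exact ih _ (hm ▸ hl) _ rfl
  have hinf : ∃ a, {x | F x = a}.Infinite := by
    by_contra hc
    push Not at hc
    have h1 : (⋃ a ∈ F '' Ω, {x | F x = a}).Finite :=
      ((hball n).image F).biUnion fun a _ => hc a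
    have h2 : (Set.univ : Set L).Finite := h1.subset fun x _ =>
      Set.mem_biUnion (hval _ x rfl) rfl
    exact hF' (F 1) (h2.subset (Set.subset_univ _))
  obtain ⟨a, ha⟩ := hinf
  exact ⟨{
    S := S
    len := len
    Ω := Ω
    A := {x | x ∉ Ω ∧ F x = a}
    B := {x | x ∉ Ω ∧ F x ≠ a}
    fin := hball n
    one := by change len 1 ≤ n; omega
    desc := fun x hx => by
      obtain ⟨s, hs, hl⟩ := hdesc x hx
      exact ⟨s, hs, hl, fun (h : len x ≤ n) => by change len (s * x) ≤ n; omega⟩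
    cover := fun x => by
      by_cases h1 : x ∈ Ω
      · exact Or.inr (Or.inr h1)
      · by_cases h2 : F x = a
        · exact Or.inl ⟨h1, h2⟩
        · exact Or.inr (Or.inl ⟨h1, h2⟩)
    AB := fun x h h' => h'.2 h.2
    AO := fun x h h' => h.1 h'
    BO := fun x h h' => h.1 h'
    clA := fun x hx s hs => by
      by_cases h1 : s * x ∈ Ω
      · exact Or.inr h1
      · exact Or.inl ⟨h1, by rw [hstep s hs x hx.1]; exact hx.2⟩
    clB := fun x hx s hs => by
      by_cases h1 : s * x ∈ Ω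
      · exact Or.inr h1
      · exact Or.inl ⟨h1, by rw [hstep s hs x hx.1]; exact hx.2⟩
    infA := by
      have : {x | x ∉ Ω ∧ F x = a} = {x | F x = a} \ Ω := by
        ext x
        exact and_comm
      rw [this]
      exact ha.sdiff (hball n)
    infB := by
      have : {x | x ∉ Ω ∧ F x ≠ a} = {x | F x ≠ a} \ Ω := by
        ext x
        exact and_comm
      rw [this]
      exact (hF' a).sdiff (hball n) }⟩

/-- **Ends dichotomy.** -/
theorem ends_dichotomy {L : Type} [Group L] (hL : Group.FG L) {V : Type} (F : L → V)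
    (hF : ∀ s, {x | F (s * x) ≠ F x}.Finite) (hF' : ∀ v, {x | F x ≠ v}.Infinite) :
    (∃ F : FreeGroup (Fin 2) →* L, Function.Injective F) ∨
    ∃ h : L, (∀ k : ℤ, k ≠ 0 → h ^ k ≠ 1) ∧
      ∃ T : Set L, T.Finite ∧ ∀ g, ∃ k : ℤ, h ^ k * g ∈ T := by
  obtain ⟨D⟩ := exists_dat hL F hF hF'
  exact D.dichotomy

end Pool.Agent.H26.PD
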