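import Pool.Graph.R_seed8.Helper386.PD3.Data

/-!
From a `PD_3`-group to matrices, with exactness in degree two (the construction of
`Pool.Graph.R_seed8.Helper386.PD3.Data`).
-/

namespace Pool.Agent.H26.PD

set_option linter.unusedSectionVars false

open scoped Classical Matrix
open Pool.Agent.Helper158
open Pool.Agent.Helper386.PD3

noncomputable section

variable {G : Type} [Group G]

variable {P : ℕ → Type} [∀ i, AddCommGroup (P i)]
  [∀ i, Module (MonoidAlgebra ℤ G) (P i)] {d : ∀ i, P (i + 1) →ₗ[MonoidAlgebra ℤ G] P i}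
  {ε : P 0 →+ ℤ}

/-- From a `PD_3`-group to matrices. -/
theorem exists_fullx (hR : Reso P d ε) (m : ℕ) (hm : ∀ i, m < i → Subsingleton (P i))
    [∀ i, Module.Finite (MonoidAlgebra ℤ G) (P i)]
    [∀ i, Module.Projective (MonoidAlgebra ℤ G) (P i)]
    (hcoh : ∀ i, i ≠ 3 → Subsingleton (groupCohomology (Rep.leftRegular ℤ G) i))
    (htop : Nonempty (groupCohomology (Rep.leftRegular ℤ G) 3 ≃+ ℤ)) :
    ∃ (w : G →* ℤˣ) (n : ℕ) (e0 e1 e2 e3 d0 d1 d2 : MR G n), Full w e0 e1 e2 e3 d0 d1 d2 ∧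
      ∀ v, v ᵥ* e2 = v → v ᵥ* d1 = 0 → ∃ u, u ᵥ* d2 = v := by
  -- vanishing cohomology
  have hcob : ∀ j, j + 1 ≠ 3 → ∀ f : P (j + 1) →ₗ[RR G] RR G, f ∘ₗ d (j + 1) = 0 →
      ∃ g : P j →ₗ[RR G] RR G, g ∘ₗ d j = f := by
    intro j hj f hf
    obtain ⟨π, h1, h2⟩ := hR.coh (j + 1)
    have := hcoh (j + 1) hj
    exact (h2 ⟨f, hf⟩).1 (Subsingleton.elim _ _)
  obtain ⟨r, hr⟩ := exists_r hR m hm (fun j hj => hcob j (by omega)) m 3 le_rfl (by omega)
  -- the top class
  obtain ⟨π0, hπ1, hπ2⟩ := hR.coh 3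
  obtain ⟨iso⟩ := htop
  let π : cocyc d 3 →+ ℤ := iso.toAddMonoidHom.comp π0
  have hπs : Function.Surjective π := iso.surjective.comp hπ1
  have hπk : ∀ x : cocyc d 3, π x = 0 ↔ ∃ g : P 2 →ₗ[RR G] RR G, g ∘ₗ d 2 = x.1 := by
    intro x
    have h1 : π x = 0 ↔ π0 x = 0 := AddEquiv.map_eq_zero_iff iso (x := π0 x)
    rw [h1]
    exact hπ2 x
  have hcocr : ∀ (φ : cocyc d 3) (s : RR G), rmul φ.1 s ∈ cocyc d 3 := by
    intro φ s
    rw [mem_cocyc]
    refine LinearMap.ext fun x => ?_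
    have h1 : φ.1 (d 3 x) = 0 := LinearMap.congr_fun (mem_cocyc.1 φ.2) x
    change φ.1 (d 3 x) * s = 0
    rw [h1, zero_mul]
  let rc : cocyc d 3 → RR G → cocyc d 3 := fun φ s => ⟨rmul φ.1 s, hcocr φ s⟩
  have hrc_add : ∀ φ ψ s, rc (φ + ψ) s = rc φ s + rc ψ s := by
    intro φ ψ s
    apply Subtype.ext
    refine LinearMap.ext fun x => ?_
    exact add_mul _ _ _
  have hrc_mul : ∀ φ s s', rc (rc φ s) s' = rc φ (s * s') := by
    intro φ s s'
    apply Subtype.ext
    refine LinearMap.ext fun x => ?_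
    exact mul_assoc _ _ _
  have hrc_one : ∀ φ, rc φ 1 = φ := by
    intro φ
    apply Subtype.ext
    refine LinearMap.ext fun x => ?_
    exact mul_one _
  have hrc_zsmul : ∀ φ (k : ℤ) s, rc φ (k • s) = k • rc φ s := by
    intro φ k s
    apply Subtype.ext
    refine LinearMap.ext fun x => ?_
    change φ.1 x * (k • s) = k • (φ.1 x * s)
    rw [mul_smul_comm]
  have hrc_zsmul' : ∀ φ (k : ℤ) s, rc (k • φ) s = k • rc φ s := by
    intro φ k s
    apply Subtype.ext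
    refine LinearMap.ext fun x => ?_
    change (k • φ.1 x) * s = k • (φ.1 x * s)
    rw [smul_mul_assoc]
  have hrc_ker : ∀ φ s, π φ = 0 → π (rc φ s) = 0 := by
    intro φ s h
    obtain ⟨g, hg⟩ := (hπk φ).1 h
    refine (hπk _).2 ⟨rmul g s, ?_⟩
    refine LinearMap.ext fun x => ?_
    have h1 : g (d 2 x) = φ.1 x := LinearMap.congr_fun hg x
    change g (d 2 x) * s = φ.1 x * s
    rw [h1]
  obtain ⟨φ1, hφ1⟩ := hπs 1
  have hw : ∀ φ s, π (rc φ s) = π φ * π (rc φ1 s) := by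
    intro φ s
    have h1 : π (φ - π φ • φ1) = 0 := by
      rw [map_sub, map_zsmul, hφ1, smul_eq_mul, mul_one, sub_self]
    have h2 := hrc_ker _ s h1
    have h3 : rc φ s = rc (φ - π φ • φ1) s + π φ • rc φ1 s := by
      rw [← hrc_zsmul', ← hrc_add, sub_add_cancel]
    rw [h3, map_add, h2, zero_add, map_zsmul, smul_eq_mul]
  let w0 : G →* ℤ :=
    { toFun := fun g => π (rc φ1 (gof g))
      map_one' := by rw [gof_one, hrc_one, hφ1]
      map_mul' := fun g h => by rw [gof_mul, ← hrc_mul, hw] }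
  let w : G →* ℤˣ := w0.toHomUnits
  have hww : ∀ g, ((w g : ℤˣ) : ℤ) = π (rc φ1 (gof g)) := fun g => rfl
  -- retracts
  obtain ⟨n0, h0⟩ := exists_retract (G := G) (P 0)
  obtain ⟨n1, h1⟩ := exists_retract (G := G) (P 1)
  obtain ⟨n2, h2⟩ := exists_retract (G := G) (P 2)
  obtain ⟨n3, h3⟩ := exists_retract (G := G) (P 3)
  obtain ⟨n, hn0, hn1, hn2, hn3⟩ : ∃ n, n0 ≤ n ∧ n1 ≤ n ∧ n2 ≤ n ∧ n3 ≤ n :=
    ⟨n0 + n1 + n2 + n3, by omega, by omega, by omega, by omega⟩
  obtain ⟨a0, b0, hab0'⟩ := h0 n hn0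
  obtain ⟨a1, b1, hab1'⟩ := h1 n hn1
  obtain ⟨a2, b2, hab2'⟩ := h2 n hn2
  obtain ⟨a3, b3, hab3'⟩ := h3 n hn3
  have hab0 : ∀ x, b0 (a0 x) = x := fun x => LinearMap.congr_fun hab0' x
  have hab1 : ∀ x, b1 (a1 x) = x := fun x => LinearMap.congr_fun hab1' x
  have hab2 : ∀ x, b2 (a2 x) = x := fun x => LinearMap.congr_fun hab2' x
  have hab3 : ∀ x, b3 (a3 x) = x := fun x => LinearMap.congr_fun hab3' x
  let p : P 3 →ₗ[RR G] P 3 := LinearMap.id - d 3 ∘ₗ r
  have hp : ∀ x, p x = x - d 3 (r x) := fun x => rfl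
  have hpd : ∀ x, p (d 3 x) = 0 := fun x => by rw [hp, hr, sub_self]
  have hpp : ∀ x, p (p x) = p x := fun x => by
    conv_lhs => rw [hp x, map_sub, hpd, sub_zero]
  have hdp : ∀ x, d 2 (p x) = d 2 x := fun x => by rw [hp, map_sub, hR.dd, sub_zero]
  let E0 := mat (a0 ∘ₗ b0)
  let E1 := mat (a1 ∘ₗ b1)
  let E2 := mat (a2 ∘ₗ b2)
  let E3 := mat (a3 ∘ₗ p ∘ₗ b3)
  let D0 := mat (a0 ∘ₗ d 0 ∘ₗ b1)
  let D1 := mat (a1 ∘ₗ d 1 ∘ₗ b2)
  let D2 := mat (a2 ∘ₗ d 2 ∘ₗ b3)
  have ee0 : E0 * E0 = E0 := by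
    change mat _ * mat _ = mat _
    rw [mat_mul]
    congr 1
    refine LinearMap.ext fun x => ?_
    change a0 (b0 (a0 (b0 x))) = a0 (b0 x)
    rw [hab0]
  have ee1 : E1 * E1 = E1 := by
    change mat _ * mat _ = mat _
    rw [mat_mul]
    congr 1
    refine LinearMap.ext fun x => ?_
    change a1 (b1 (a1 (b1 x))) = a1 (b1 x)
    rw [hab1]
  have ee2 : E2 * E2 = E2 := by
    change mat _ * mat _ = mat _
    rw [mat_mul]
    congr 1
    refine LinearMap.ext fun x => ?_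
    change a2 (b2 (a2 (b2 x))) = a2 (b2 x)
    rw [hab2]
  have ee3 : E3 * E3 = E3 := by
    change mat _ * mat _ = mat _
    rw [mat_mul]
    congr 1
    refine LinearMap.ext fun x => ?_
    change a3 (p (b3 (a3 (p (b3 x))))) = a3 (p (b3 x))
    rw [hab3, hpp]
  have e1d0 : E1 * D0 = D0 := by
    change mat _ * mat _ = mat _
    rw [mat_mul]
    congr 1
    refine LinearMap.ext fun x => ?_
    change a0 (d 0 (b1 (a1 (b1 x)))) = a0 (d 0 (b1 x))
    rw [hab1]
  have d0e0 : D0 * E0 = D0 := by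
    change mat _ * mat _ = mat _
    rw [mat_mul]
    congr 1
    refine LinearMap.ext fun x => ?_
    change a0 (b0 (a0 (d 0 (b1 x)))) = a0 (d 0 (b1 x))
    rw [hab0]
  have e2d1 : E2 * D1 = D1 := by
    change mat _ * mat _ = mat _
    rw [mat_mul]
    congr 1
    refine LinearMap.ext fun x => ?_
    change a1 (d 1 (b2 (a2 (b2 x)))) = a1 (d 1 (b2 x))
    rw [hab2]
  have d1e1 : D1 * E1 = D1 := by
    change mat _ * mat _ = mat _
    rw [mat_mul]
    congr 1
    refine LinearMap.ext fun x => ?_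
    change a1 (b1 (a1 (d 1 (b2 x)))) = a1 (d 1 (b2 x))
    rw [hab1]
  have e3d2 : E3 * D2 = D2 := by
    change mat _ * mat _ = mat _
    rw [mat_mul]
    congr 1
    refine LinearMap.ext fun x => ?_
    change a2 (d 2 (b3 (a3 (p (b3 x))))) = a2 (d 2 (b3 x))
    rw [hab3, hdp]
  have d2e2 : D2 * E2 = D2 := by
    change mat _ * mat _ = mat _
    rw [mat_mul]
    congr 1
    refine LinearMap.ext fun x => ?_
    change a2 (b2 (a2 (d 2 (b3 x)))) = a2 (d 2 (b3 x))
    rw [hab2]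
  have mat0 : mat (0 : FR G n →ₗ[RR G] FR G n) = 0 := rfl
  have dd : D1 * D0 = 0 := by
    change mat _ * mat _ = 0
    rw [mat_mul, ← mat0]
    congr 1
    refine LinearMap.ext fun x => ?_
    change a0 (d 0 (b1 (a1 (d 1 (b2 x))))) = 0
    rw [hab1, hR.dd, map_zero]
  have dd' : D2 * D1 = 0 := by
    change mat _ * mat _ = 0
    rw [mat_mul, ← mat0]
    congr 1
    refine LinearMap.ext fun x => ?_
    change a1 (d 1 (b2 (a2 (d 2 (b3 x))))) = 0
    rw [hab2, hR.dd, map_zero]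
  have hE0 : ∀ v, v ᵥ* E0 = a0 (b0 v) := fun v => vecMul_mat _ _
  have hE1 : ∀ v, v ᵥ* E1 = a1 (b1 v) := fun v => vecMul_mat _ _
  have hD0 : ∀ v, v ᵥ* D0 = a0 (d 0 (b1 v)) := fun v => vecMul_mat _ _
  have hD1 : ∀ v, v ᵥ* D1 = a1 (d 1 (b2 v)) := fun v => vecMul_mat _ _
  have hlow : Low E0 E1 E2 D0 D1 :=
    { ee0 := ee0
      ee1 := ee1
      ee2 := ee2
      e1d0 := e1d0
      d0e0 := d0e0
      e2d1 := e2d1
      d1e1 := d1e1
      dd := dd
      aug := by
        refine ⟨ε.comp b0.toAddMonoidHom, fun g v => ?_, ?_, fun v => ?_, fun u hu hε => ?_⟩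
        · change ε (b0 (gof g • v)) = ε (b0 v)
          rw [map_smul]
          exact hR.equi g _
        · obtain ⟨x, hx⟩ := hR.surj 1
          refine ⟨a0 x, ?_, ?_⟩
          · rw [hE0, hab0]
          · change ε (b0 (a0 x)) = 1
            rw [hab0, hx]
        · change ε (b0 (v ᵥ* D0)) = 0
          rw [hD0, hab0]
          exact (hR.ex0 _).2 ⟨_, rfl⟩
        · obtain ⟨y, hy⟩ := (hR.ex0 (b0 u)).1 hε
          refine ⟨a1 y, ?_⟩
          rw [hD0, hab1, hy, ← hE0, hu]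
      ex1 := by
        intro v hv hv0
        rw [hD0] at hv0
        have h1 : d 0 (b1 v) = 0 := by
          have := congrArg b0 hv0
          rwa [hab0, map_zero] at this
        obtain ⟨y, hy⟩ := (hR.ex 0 _).1 h1
        refine ⟨a2 y, ?_⟩
        rw [hD1, hab2, hy, ← hE1, hv] }
  have hcoc : ∀ u : FR G n, fn w u ∘ₗ a3 ∘ₗ p ∈ cocyc d 3 := by
    intro u
    rw [mem_cocyc]
    refine LinearMap.ext fun x => ?_
    change fn w u (a3 (p (d 3 x))) = 0
    rw [hpd, map_zero, map_zero]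
  let cc : FR G n → cocyc d 3 := fun u => ⟨fn w u ∘ₗ a3 ∘ₗ p, hcoc u⟩
  have hcolow : Low (dgM w E3) (dgM w E2) (dgM w E1) (dgM w D2) (dgM w D1) :=
    { ee0 := by rw [← dgM_mul, ee3]
      ee1 := by rw [← dgM_mul, ee2]
      ee2 := by rw [← dgM_mul, ee1]
      e1d0 := by rw [← dgM_mul, d2e2]
      d0e0 := by rw [← dgM_mul, e3d2]
      e2d1 := by rw [← dgM_mul, d1e1]
      d1e1 := by rw [← dgM_mul, e2d1]
      dd := by rw [← dgM_mul, dd', dgM_zero]
      aug := by
        refine ⟨AddMonoidHom.mk' (fun u => π (cc u)) (fun u v => ?_), fun g v => ?_, ?_,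
          fun v => ?_, fun u hu hε => ?_⟩
        · rw [← map_add]
          congr 1
          apply Subtype.ext
          change fn w (u + v) ∘ₗ a3 ∘ₗ p = fn w u ∘ₗ a3 ∘ₗ p + fn w v ∘ₗ a3 ∘ₗ p
          rw [fn_add]
          rfl
        · change π (cc (gof g • v)) = π (cc v)
          have h1 : cc (gof g • v) = ((w g : ℤˣ) : ℤ) • rc (cc v) (gof g⁻¹) := by
            rw [← hrc_zsmul, ← dg_of]
            apply Subtype.ext
            change fn w (gof g • v) ∘ₗ a3 ∘ₗ p = rmul (fn w v ∘ₗ a3 ∘ₗ p) _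
            rw [fn_smul]
            rfl
          rw [h1, map_zsmul, hw, ← hww, smul_eq_mul, mul_comm (π _), ← mul_assoc,
            ← Units.val_mul, ← map_mul, mul_inv_cancel, map_one, Units.val_one, one_mul]
        · refine ⟨vec w (φ1.1 ∘ₗ b3), ?_, ?_⟩
          · apply fn_inj w
            change fn w (_ ᵥ* dgM w (mat _)) = _
            rw [fn_vecMul, fn_vec]
            refine LinearMap.ext fun x => ?_
            change φ1.1 (b3 (a3 (p (b3 x)))) = φ1.1 (b3 x)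
            have h1 : φ1.1 (d 3 (r (b3 x))) = 0 := LinearMap.congr_fun (mem_cocyc.1 φ1.2) _
            rw [hab3, hp, map_sub, h1, sub_zero]
          · change π (cc (vec w (φ1.1 ∘ₗ b3))) = 1
            rw [← hφ1]
            congr 1
            apply Subtype.ext
            change fn w (vec w (φ1.1 ∘ₗ b3)) ∘ₗ a3 ∘ₗ p = φ1.1
            rw [fn_vec]
            refine LinearMap.ext fun x => ?_
            change φ1.1 (b3 (a3 (p x))) = φ1.1 x
            have h1 : φ1.1 (d 3 (r x)) = 0 := LinearMap.congr_fun (mem_cocyc.1 φ1.2) _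
            rw [hab3, hp, map_sub, h1, sub_zero]
        · change π (cc (v ᵥ* dgM w D2)) = 0
          refine (hπk _).2 ⟨fn w v ∘ₗ a2, ?_⟩
          change _ = fn w (v ᵥ* dgM w (mat _)) ∘ₗ a3 ∘ₗ p
          rw [fn_vecMul]
          refine LinearMap.ext fun x => ?_
          change fn w v (a2 (d 2 x)) = fn w v (a2 (d 2 (b3 (a3 (p x)))))
          rw [hab3, hdp]
        · change π (cc u) = 0 at hε
          obtain ⟨g, hg⟩ := (hπk _).1 hε
          refine ⟨vec w (g ∘ₗ b2), ?_⟩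
          apply fn_inj w
          have h1 : fn w u ∘ₗ (a3 ∘ₗ p ∘ₗ b3) = fn w u := by
            rw [← fn_vecMul]
            exact congrArg (fn w) hu
          rw [← h1]
          change fn w (_ ᵥ* dgM w (mat _)) = _
          rw [fn_vecMul, fn_vec]
          refine LinearMap.ext fun x => ?_
          change g (b2 (a2 (d 2 (b3 x)))) = fn w u (a3 (p (b3 x)))
          rw [hab2]
          exact LinearMap.congr_fun hg (b3 x)
      ex1 := by
        intro v hv hv0
        have h1 : fn w v ∘ₗ (a2 ∘ₗ b2) = fn w v := by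
          rw [← fn_vecMul]
          exact congrArg (fn w) hv
        have h2 : fn w v ∘ₗ (a2 ∘ₗ d 2 ∘ₗ b3) = 0 := by
          rw [← fn_vecMul]
          change fn w (v ᵥ* dgM w D2) = 0
          rw [hv0]
          refine LinearMap.ext fun x => ?_
          change ∑ k, x k * dg w 0 = 0
          simp [dg_zero]
        obtain ⟨g, hg⟩ := hcob 1 (by norm_num) (fn w v ∘ₗ a2) (by
          refine LinearMap.ext fun x => ?_
          have h3 := LinearMap.congr_fun h2 (a3 x)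
          change fn w v (a2 (d 2 (b3 (a3 x)))) = 0 at h3
          rw [hab3] at h3
          exact h3)
        refine ⟨vec w (g ∘ₗ b1), ?_⟩
        apply fn_inj w
        rw [← h1]
        change fn w (_ ᵥ* dgM w (mat _)) = _
        rw [fn_vecMul, fn_vec]
        refine LinearMap.ext fun x => ?_
        change g (b1 (a1 (d 1 (b2 x)))) = fn w v (a2 (b2 x))
        rw [hab1]
        exact LinearMap.congr_fun hg (b2 x) }
  refine ⟨w, n, E0, E1, E2, E3, D0, D1, D2, ⟨hlow, hcolow⟩, ?_⟩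
  intro v hv hv0
  have hE2 : ∀ v, v ᵥ* E2 = a2 (b2 v) := fun v => vecMul_mat _ _
  have hD2 : ∀ v, v ᵥ* D2 = a2 (d 2 (b3 v)) := fun v => vecMul_mat _ _
  rw [hD1] at hv0
  have h1 : d 1 (b2 v) = 0 := by
    have := congrArg b1 hv0
    rwa [hab1, map_zero] at this
  obtain ⟨y, hy⟩ := (hR.ex 1 _).1 h1
  refine ⟨a3 y, ?_⟩
  rw [hD2, hab3, hy, ← hE2, hv]

end

end Pool.Agent.H26.PD
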