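import Pool.Agent.H26.PD.B1
import Pool.Agent.H26.PD.FullX

/-!
Restriction of a resolution to a subgroup of finite index.
-/

set_option autoImplicit false

namespace Pool.Agent.H26.PD

set_option linter.unusedSectionVars false
set_option linter.unusedTactic false

open Pool.Agent.Helper386.PD3 Pool.Agent.Helper158
open scoped Classical

noncomputable section

variable {G : Type} [Group G]

/-- a module over the group ring, seen as a module over the group ring of a subgroup -/
def Rs (_H : Subgroup G) (M : Type) : Type := M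

variable (H : Subgroup G)

instance {M : Type} [AddCommGroup M] : AddCommGroup (Rs H M) := inferInstanceAs (AddCommGroup M)

instance instRs {M : Type} [AddCommGroup M] [Module (MonoidAlgebra ℤ G) M] :
    Module (MonoidAlgebra ℤ H) (Rs H M) :=
  Module.compHom M (inc H)

/-- the elements of `M` -/
def toRs {M : Type} [AddCommGroup M] : M ≃+ Rs H M := AddEquiv.refl M

theorem smul_rs {M : Type} [AddCommGroup M] [Module (MonoidAlgebra ℤ G) M] (a : RR H) (x : M) :
    a • toRs H x = toRs H (inc H a • x) := rfl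

/-- restricting linear maps -/
def rsMap {M N : Type} [AddCommGroup M] [Module (MonoidAlgebra ℤ G) M] [AddCommGroup N]
    [Module (MonoidAlgebra ℤ G) N] (f : M →ₗ[MonoidAlgebra ℤ G] N) :
    Rs H M →ₗ[MonoidAlgebra ℤ H] Rs H N where
  toFun x := f x
  map_add' x y := f.map_add x y
  map_smul' a x := f.map_smul (inc H a) x

/-- the part of an element of the group ring supported on the subgroup -/
def prH : RR G →+ RR H where
  toFun r := ⟨r.coeff.comapDomain Subtype.val Subtype.val_injective.injOn⟩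
  map_zero' := by
    apply MonoidAlgebra.coeff_injective
    ext x
    rfl
  map_add' a b := by
    apply MonoidAlgebra.coeff_injective
    ext x
    rfl

theorem prH_coeff (r : RR G) (h : H) : (prH H r).coeff h = r.coeff h := rfl

theorem coeff_gof_mul {G : Type} [Group G] (g : G) (r : RR G) (x : G) :
    (gof g * r).coeff x = r.coeff (g⁻¹ * x) := by
  change (MonoidAlgebra.single g (1 : ℤ) * r).coeff x = _
  rw [MonoidAlgebra.coeff_single_mul_apply, one_mul]

theorem prH_gof_mul (h : H) (r : RR G) : prH H (gof (h : G) * r) = gof h * prH H r := by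
  apply MonoidAlgebra.coeff_injective
  ext x
  rw [coeff_gof_mul, prH_coeff, prH_coeff, coeff_gof_mul]
  rfl

theorem prH_inc_mul (a : RR H) (r : RR G) : prH H (inc H a * r) = a * prH H r := by
  induction a using rr_ind with
  | h1 g => rw [inc_of, prH_gof_mul]
  | h2 a b ha hb => rw [map_add, add_mul, map_add, ha, hb, add_mul]
  | h3 a ha => rw [map_neg, neg_mul, map_neg, ha, neg_mul]

theorem prH_gof_mem (h : H) : prH H (gof (h : G)) = gof h := by
  have := prH_gof_mul H h 1
  rw [mul_one] at this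
  rw [this]
  have h1 : prH H (1 : RR G) = 1 := by
    apply MonoidAlgebra.coeff_injective
    ext x
    rw [prH_coeff]
    change (MonoidAlgebra.single (1 : G) (1 : ℤ)).coeff (x : G) =
      (MonoidAlgebra.single (1 : H) (1 : ℤ)).coeff x
    rw [MonoidAlgebra.coeff_single, MonoidAlgebra.coeff_single]
    by_cases hx : x = 1
    · rw [hx]
      simp
    · rw [Finsupp.single_apply, Finsupp.single_apply, if_neg (fun h => hx (Subtype.ext h.symm)),
        if_neg (fun h => hx h.symm)]
  rw [h1, mul_one]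

theorem prH_gof_notMem {g : G} (hg : g ∉ H) : prH H (gof g) = 0 := by
  apply MonoidAlgebra.coeff_injective
  ext x
  rw [prH_coeff]
  change (MonoidAlgebra.single g (1 : ℤ)).coeff (x : G) = 0
  rw [MonoidAlgebra.coeff_single, Finsupp.single_apply, if_neg]
  rintro rfl
  exact hg x.2

theorem prH_gof_mul_inc {g : G} (hg : g ∉ H) (a : RR H) : prH H (gof g * inc H a) = 0 := by
  induction a using rr_ind with
  | h1 h =>
    rw [inc_of, ← gof_mul]
    exact prH_gof_notMem H fun h1 => hg ((H.mul_mem_cancel_right h.2).1 h1)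
  | h2 a b ha hb => rw [map_add, mul_add, map_add, ha, hb, add_zero]
  | h3 a ha => rw [map_neg, mul_neg, map_neg, ha, neg_zero]

theorem prH_inc (a : RR H) : prH H (inc H a) = a := by
  have := prH_inc_mul H a 1
  rw [mul_one] at this
  rw [this]
  have h1 : prH H (1 : RR G) = 1 := prH_gof_mem H 1
  rw [h1, mul_one]

variable [H.FiniteIndex]

instance : Fintype (G ⧸ H) := Fintype.ofFinite _

theorem out_mem (g : G) : (((g : G ⧸ H).out)⁻¹ * g : G) ∈ H := by
  rw [← QuotientGroup.eq]
  exact Quotient.out_eq _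

/-- reconstruction of an element from its parts on left cosets -/
theorem sum_out (r : RR G) :
    ∑ q : G ⧸ H, gof q.out * inc H (prH H (gof (q.out)⁻¹ * r)) = r := by
  induction r using rr_ind with
  | h1 g =>
    rw [Finset.sum_eq_single (g : G ⧸ H)]
    · rw [← gof_mul]
      have h1 := prH_gof_mem H ⟨_, out_mem H g⟩
      change prH H (gof ((g : G ⧸ H).out⁻¹ * g)) = _ at h1
      rw [h1, inc_of, ← gof_mul, mul_inv_cancel_left]
    · intro q _ hq
      rw [← gof_mul, prH_gof_notMem, map_zero, mul_zero]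
      intro h1
      apply hq
      rw [← QuotientGroup.eq] at h1
      rw [← h1]
      exact (Quotient.out_eq _).symm
    · intro h
      exact absurd (Finset.mem_univ _) h
  | h2 a b ha hb =>
    simp only [mul_add, map_add, Finset.sum_add_distrib]
    rw [ha, hb]
  | h3 a ha =>
    simp only [mul_neg, map_neg, Finset.sum_neg_distrib]
    rw [ha]

theorem out_mem' (g : G) : (g * (((g⁻¹ : G) : G ⧸ H).out) : G) ∈ H := by
  have := H.inv_mem (out_mem H g⁻¹)
  rwa [mul_inv_rev, inv_inv, inv_inv] at this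

/-- reconstruction of an element from its parts on right cosets -/
theorem sum_out' (r : RR G) :
    ∑ q : G ⧸ H, inc H (prH H (r * gof q.out)) * gof (q.out)⁻¹ = r := by
  induction r using rr_ind with
  | h1 g =>
    rw [Finset.sum_eq_single ((g⁻¹ : G) : G ⧸ H)]
    · rw [← gof_mul]
      have h1 := prH_gof_mem H ⟨_, out_mem' H g⟩
      change prH H (gof (g * ((g⁻¹ : G) : G ⧸ H).out)) = _ at h1
      rw [h1, inc_of, ← gof_mul, mul_inv_cancel_right]
    · intro q _ hq
      rw [← gof_mul, prH_gof_notMem, map_zero, zero_mul]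
      intro h1
      apply hq
      have h2 : (g⁻¹)⁻¹ * q.out ∈ H := by rwa [inv_inv]
      rw [← QuotientGroup.eq] at h2
      rw [h2]
      exact (Quotient.out_eq _).symm
    · intro h
      exact absurd (Finset.mem_univ _) h
  | h2 a b ha hb =>
    simp only [add_mul, map_add, Finset.sum_add_distrib]
    rw [ha, hb]
  | h3 a ha =>
    simp only [neg_mul, map_neg, Finset.sum_neg_distrib]
    rw [ha]

/-- the group ring is free over the group ring of the subgroup -/
def rsEquiv : Rs H (RR G) ≃ₗ[RR H] ((G ⧸ H) → RR H) where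
  toFun r := fun q => prH H ((toRs H).symm r * gof q.out)
  map_add' a b := by
    funext q
    change prH H ((toRs H).symm (a + b) * gof q.out) = _
    rw [map_add, add_mul, map_add]
    rfl
  map_smul' a r := by
    funext q
    change prH H (inc H a * (toRs H).symm r * gof q.out) = a * prH H ((toRs H).symm r * gof q.out)
    rw [mul_assoc, prH_inc_mul]
  invFun f := toRs H (∑ q : G ⧸ H, inc H (f q) * gof (q.out)⁻¹)
  left_inv r := sum_out' H _
  right_inv f := by
    funext q
    change prH H ((∑ q' : G ⧸ H, inc H (f q') * gof (q'.out)⁻¹) * gof q.out) = f q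
    rw [Finset.sum_mul, map_sum, Finset.sum_eq_single q]
    · rw [mul_assoc, ← gof_mul, inv_mul_cancel, gof_one, mul_one, prH_inc]
    · intro q' _ hq
      rw [mul_assoc, ← gof_mul, prH_inc_mul, prH_gof_notMem, mul_zero]
      intro h1
      apply hq
      rw [← QuotientGroup.eq] at h1
      rw [← Quotient.out_eq q', ← Quotient.out_eq q]
      exact h1
    · intro h
      exact absurd (Finset.mem_univ _) h

/-- free modules -/
def rsEquivN (n : ℕ) : Rs H (Fin n → RR G) ≃ₗ[RR H] (Fin n → (G ⧸ H) → RR H) where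
  toFun r := fun i => rsEquiv H (toRs H ((toRs H).symm r i))
  map_add' a b := by
    funext i
    exact (rsEquiv H).map_add (toRs H ((toRs H).symm a i)) (toRs H ((toRs H).symm b i))
  map_smul' a r := by
    funext i
    exact (rsEquiv H).map_smul a (toRs H ((toRs H).symm r i))
  invFun f := toRs H fun i => (toRs H).symm ((rsEquiv H).symm (f i))
  left_inv r := by
    apply (toRs H).symm.injective
    funext i
    exact (rsEquiv H).left_inv (toRs H ((toRs H).symm r i))
  right_inv f := by
    funext i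
    exact (rsEquiv H).right_inv (f i)

instance rs_proj {M : Type} [AddCommGroup M] [Module (MonoidAlgebra ℤ G) M]
    [Module.Finite (MonoidAlgebra ℤ G) M] [Module.Projective (MonoidAlgebra ℤ G) M] :
    Module.Projective (MonoidAlgebra ℤ H) (Rs H M) := by
  obtain ⟨n, f, g, -, -, hfg⟩ := Module.Finite.exists_comp_eq_id_of_projective (MonoidAlgebra ℤ G) M
  have h1 : Module.Projective (MonoidAlgebra ℤ H) (Rs H (Fin n → RR G)) :=
    Module.Projective.of_equiv (rsEquivN H n).symm
  refine Module.Projective.of_split (rsMap H g) (rsMap H f) ?_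
  refine LinearMap.ext fun x => ?_
  exact LinearMap.congr_fun hfg ((toRs H).symm x)

instance rs_finite {M : Type} [AddCommGroup M] [Module (MonoidAlgebra ℤ G) M]
    [Module.Finite (MonoidAlgebra ℤ G) M] :
    Module.Finite (MonoidAlgebra ℤ H) (Rs H M) := by
  obtain ⟨n, f, hf⟩ := Module.Finite.exists_fin' (MonoidAlgebra ℤ G) M
  have h1 : Module.Finite (MonoidAlgebra ℤ H) (Rs H (Fin n → RR G)) :=
    Module.Finite.equiv (rsEquivN H n).symm
  exact Module.Finite.of_surjective (rsMap H f) hf

/-! ### duals -/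

section dual

variable {M : Type} [AddCommGroup M] [Module (MonoidAlgebra ℤ G) M]

/-- from `Hom_G(M, ℤ[G])` to `Hom_H(M, ℤ[H])` -/
def toH (F : M →ₗ[MonoidAlgebra ℤ G] MonoidAlgebra ℤ G) :
    Rs H M →ₗ[MonoidAlgebra ℤ H] MonoidAlgebra ℤ H where
  toFun x := prH H (F ((toRs H).symm x))
  map_add' x y := by rw [map_add, map_add, map_add]
  map_smul' a x := by
    change prH H (F (inc H a • (toRs H).symm x)) = a * prH H (F ((toRs H).symm x))
    rw [map_smul, smul_eq_mul, prH_inc_mul]

theorem toH_apply (F : M →ₗ[MonoidAlgebra ℤ G] MonoidAlgebra ℤ G) (x : M) :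
    toH H F (toRs H x) = prH H (F x) := rfl

/-- one term -/
def tm (f : Rs H M →ₗ[MonoidAlgebra ℤ H] MonoidAlgebra ℤ H) (x : M) (g : G) : RR G :=
  gof g * inc H (f (toRs H (gof g⁻¹ • x)))

theorem tm_mul (f : Rs H M →ₗ[MonoidAlgebra ℤ H] MonoidAlgebra ℤ H) (x : M) (g : G) (h : H) :
    tm H f x (g * h) = tm H f x g := by
  have h1 : toRs H (gof (g * h)⁻¹ • x) = gof (h⁻¹ : H) • toRs H (gof g⁻¹ • x) := by
    rw [smul_rs, inc_of, smul_smul, ← gof_mul, mul_inv_rev]
    rfl
  have h2 : g * (h : G) * ((h⁻¹ : H) : G) = g := by rw [Subgroup.coe_inv, mul_inv_cancel_right]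
  rw [tm, h1, map_smul, smul_eq_mul, map_mul, inc_of, ← mul_assoc, ← gof_mul, h2, tm]

theorem tm_out (f : Rs H M →ₗ[MonoidAlgebra ℤ H] MonoidAlgebra ℤ H) (x : M) (g : G) :
    tm H f x (g : G ⧸ H).out = tm H f x g := by
  have h1 := out_mem H g
  have h2 := tm_mul H f x (g : G ⧸ H).out ⟨_, h1⟩
  rw [← h2]
  congr 1
  exact mul_inv_cancel_left _ _

theorem tm_smul (f : Rs H M →ₗ[MonoidAlgebra ℤ H] MonoidAlgebra ℤ H) (x : M) (k g : G) :
    tm H f (gof k • x) g = gof k * tm H f x (k⁻¹ * g) := by
  rw [tm, tm, ← mul_assoc, ← gof_mul, mul_inv_cancel_left, smul_smul, ← gof_mul, mul_inv_rev,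
    inv_inv]

/-- from `Hom_H(M, ℤ[H])` to `Hom_G(M, ℤ[G])` -/
def toG (f : Rs H M →ₗ[MonoidAlgebra ℤ H] MonoidAlgebra ℤ H) :
    M →ₗ[MonoidAlgebra ℤ G] MonoidAlgebra ℤ G where
  toFun x := ∑ q : G ⧸ H, tm H f x q.out
  map_add' x y := by
    rw [← Finset.sum_add_distrib]
    refine Finset.sum_congr rfl fun q _ => ?_
    rw [tm, smul_add, map_add, map_add, map_add, mul_add]
    rfl
  map_smul' a x := by
    rw [RingHom.id_apply, smul_eq_mul]
    induction a using rr_ind with
    | h1 k =>
      rw [Finset.mul_sum]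
      rw [← Equiv.sum_comp (MulAction.toPerm k : Equiv.Perm (G ⧸ H))
        (fun q : G ⧸ H => tm H f (gof k • x) q.out)]
      refine Finset.sum_congr rfl fun q _ => ?_
      rw [tm_smul]
      congr 1
      have h1 : (MulAction.toPerm k : Equiv.Perm (G ⧸ H)) q = ((k * q.out : G) : G ⧸ H) := by
        change k • q = _
        conv_lhs => rw [← Quotient.out_eq q]
        rfl
      have h2 := tm_out H f (gof k • x) (k * q.out)
      rw [tm_smul, tm_smul, inv_mul_cancel_left] at h2
      rw [h1]
      have h3 : IsUnit (gof k : RR G) := by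
        refine ⟨⟨gof k, gof k⁻¹, ?_, ?_⟩, rfl⟩
        · rw [← gof_mul, mul_inv_cancel, gof_one]
        · rw [← gof_mul, inv_mul_cancel, gof_one]
      exact h3.mul_left_cancel h2
    | h2 a b ha hb =>
      rw [add_mul, ← ha, ← hb, ← Finset.sum_add_distrib]
      refine Finset.sum_congr rfl fun q _ => ?_
      rw [tm, add_smul, smul_add, map_add, map_add, map_add, mul_add]
      rfl
    | h3 a ha =>
      rw [neg_mul, ← ha, ← Finset.sum_neg_distrib]
      refine Finset.sum_congr rfl fun q _ => ?_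
      rw [tm, neg_smul, smul_neg, map_neg, map_neg, map_neg, mul_neg]
      rfl

theorem toH_toG (f : Rs H M →ₗ[MonoidAlgebra ℤ H] MonoidAlgebra ℤ H) : toH H (toG H f) = f := by
  refine LinearMap.ext fun x => ?_
  obtain ⟨x, rfl⟩ := (toRs H).surjective x
  rw [toH_apply]
  change prH H (∑ q : G ⧸ H, tm H f x q.out) = _
  rw [map_sum, Finset.sum_eq_single ((1 : G) : G ⧸ H)]
  · rw [tm_out, tm, inv_one, gof_one, one_smul, one_mul, prH_inc]
  · intro q _ hq
    rw [tm, prH_gof_mul_inc]
    intro h1
    apply hq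
    have h2 : (1 : G)⁻¹ * q.out ∈ H := by rwa [inv_one, one_mul]
    rw [← QuotientGroup.eq] at h2
    rw [h2]
    exact (Quotient.out_eq _).symm
  · intro h
    exact absurd (Finset.mem_univ _) h

theorem toG_toH (F : M →ₗ[MonoidAlgebra ℤ G] MonoidAlgebra ℤ G) : toG H (toH H F) = F := by
  refine LinearMap.ext fun x => ?_
  change ∑ q : G ⧸ H, tm H (toH H F) x q.out = _
  have h1 : ∀ q : G ⧸ H, tm H (toH H F) x q.out =
      gof q.out * inc H (prH H (gof (q.out)⁻¹ * F x)) := by
    intro q
    rw [tm, toH_apply, map_smul, smul_eq_mul]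
  simp only [h1]
  exact sum_out H (F x)

theorem toH_add (F F' : M →ₗ[MonoidAlgebra ℤ G] MonoidAlgebra ℤ G) :
    toH H (F + F') = toH H F + toH H F' := by
  refine LinearMap.ext fun x => ?_
  exact map_add (prH H) (F ((toRs H).symm x)) (F' ((toRs H).symm x))

theorem toH_zero : toH H (0 : M →ₗ[MonoidAlgebra ℤ G] MonoidAlgebra ℤ G) = 0 := by
  refine LinearMap.ext fun x => ?_
  exact map_zero (prH H)

theorem toH_comp {N : Type} [AddCommGroup N] [Module (MonoidAlgebra ℤ G) N]
    (F : M →ₗ[MonoidAlgebra ℤ G] MonoidAlgebra ℤ G) (e : N →ₗ[MonoidAlgebra ℤ G] M) :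
    toH H (F ∘ₗ e) = toH H F ∘ₗ rsMap H e := rfl

theorem toH_inj {F F' : M →ₗ[MonoidAlgebra ℤ G] MonoidAlgebra ℤ G} (h : toH H F = toH H F') :
    F = F' := by rw [← toG_toH H F, h, toG_toH]

end dual

section reso

variable {P : ℕ → Type} [∀ i, AddCommGroup (P i)]
  [∀ i, Module (MonoidAlgebra ℤ G) (P i)] {d : ∀ i, P (i + 1) →ₗ[MonoidAlgebra ℤ G] P i}
  {ε : P 0 →+ ℤ}

/-- the augmentation of the restricted resolution -/
def rsε (ε : P 0 →+ ℤ) : Rs H (P 0) →+ ℤ := ε.comp (toRs H).symm.toAddMonoidHom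

theorem reso_rs (hR : Reso P d ε) :
    Reso (G := H) (fun i => Rs H (P i)) (fun i => rsMap H (d i)) (rsε H ε) where
  surj := hR.surj
  equi g x := by
    have h1 : (MonoidAlgebra.of ℤ H g • x : Rs H (P 0)) =
        toRs H (MonoidAlgebra.of ℤ G (g : G) • (toRs H).symm x) := by
      obtain ⟨x, rfl⟩ := (toRs H).surjective x
      change gof g • toRs H x = _
      rw [smul_rs, inc_of]
      rfl
    rw [h1]
    exact hR.equi (g : G) ((toRs H).symm x)
  ex0 x := (hR.ex0 ((toRs H).symm x)).trans (by
    constructor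
    · rintro ⟨y, hy⟩
      exact ⟨toRs H y, hy⟩
    · rintro ⟨y, hy⟩
      exact ⟨(toRs H).symm y, hy⟩)
  ex i x := (hR.ex i ((toRs H).symm x)).trans (by
    constructor
    · rintro ⟨y, hy⟩
      exact ⟨toRs H y, hy⟩
    · rintro ⟨y, hy⟩
      exact ⟨(toRs H).symm y, hy⟩)

theorem mem_cocyc_toH {n : ℕ} (F : P n →ₗ[MonoidAlgebra ℤ G] MonoidAlgebra ℤ G) :
    toH H F ∈ cocyc (G := H) (P := fun i => Rs H (P i)) (fun i => rsMap H (d i)) n ↔
      F ∈ cocyc d n := by
  rw [mem_cocyc, mem_cocyc]
  change toH H F ∘ₗ rsMap H (d n) = 0 ↔ _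
  rw [← toH_comp]
  constructor
  · intro h
    apply toH_inj H
    rw [h, toH_zero]
  · intro h
    rw [h, toH_zero]

theorem isCob_toH {n : ℕ} (F : P n →ₗ[MonoidAlgebra ℤ G] MonoidAlgebra ℤ G) :
    IsCob (G := H) (P := fun i => Rs H (P i)) (fun i => rsMap H (d i)) n (toH H F) ↔
      IsCob d n F := by
  cases n with
  | zero =>
    constructor
    · intro h
      apply toH_inj H
      rw [toH_zero]
      exact h
    · intro h
      have h1 : F = 0 := h
      change toH H F = 0
      rw [h1, toH_zero]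
  | succ n =>
    constructor
    · rintro ⟨g, hg⟩
      refine ⟨toG H g, ?_⟩
      apply toH_inj H
      rw [toH_comp, toH_toG]
      exact hg
    · rintro ⟨g, hg⟩
      refine ⟨toH H g, ?_⟩
      change toH H g ∘ₗ rsMap H (d n) = _
      rw [← toH_comp, hg]

theorem coh_rs (hR : Reso P d ε) [∀ i, Module.Finite (MonoidAlgebra ℤ G) (P i)]
    [∀ i, Module.Projective (MonoidAlgebra ℤ G) (P i)] (n : ℕ) :
    Nonempty (groupCohomology (Rep.leftRegular ℤ H) n ≃+
      groupCohomology (Rep.leftRegular ℤ G) n) := by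
  obtain ⟨πG, sG, kG⟩ := hR.coh n
  have hproj : ∀ i, Module.Projective (MonoidAlgebra ℤ H) (Rs H (P i)) := fun i => inferInstance
  obtain ⟨πH, sH, kH⟩ := (reso_rs H hR).coh n
  let A : cocyc d n →+ cocyc (G := H) (P := fun i => Rs H (P i)) (fun i => rsMap H (d i)) n :=
    { toFun := fun F => ⟨toH H F.1, (mem_cocyc_toH H F.1).2 F.2⟩
      map_zero' := Subtype.ext (toH_zero H)
      map_add' := fun F F' => Subtype.ext (toH_add H F.1 F'.1) }
  have hA : Function.Surjective A := by
    rintro ⟨f, hf⟩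
    have h1 : toH H (toG H f) = f := toH_toG H f
    refine ⟨⟨toG H f, (mem_cocyc_toH H _).1 (by rw [h1]; exact hf)⟩, Subtype.ext h1⟩
  let φ : cocyc d n →+ groupCohomology (Rep.leftRegular ℤ H) n := πH.comp A
  have hφ : Function.Surjective φ := sH.comp hA
  have hk : φ.ker = πG.ker := by
    ext F
    rw [AddMonoidHom.mem_ker, AddMonoidHom.mem_ker, kG]
    change πH (A F) = 0 ↔ _
    rw [kH]
    exact isCob_toH H F.1
  exact ⟨(QuotientAddGroup.quotientKerEquivOfSurjective φ hφ).symm.trans
    ((QuotientAddGroup.quotientAddEquivOfEq hk).trans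
      (QuotientAddGroup.quotientKerEquivOfSurjective πG sG))⟩

end reso

end

end Pool.Agent.H26.PD
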