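import Pool.Agent.H26.PD.Hirsch

/-!
Groups which are virtually (flat surface group)-by-`ℤ` act on `ℝ³`.
-/

set_option autoImplicit false

namespace Pool.Agent.H26.PD

open Module
open scoped IsMulCommutative

theorem rk_of_equiv {G X : Type} [Group G] [CommGroup X] [Module.Finite ℤ (Additive X)]
    {A : Subgroup G} (e : A ≃* X) : Rk A (finrank ℤ (Additive X)) := by
  classical
  obtain ⟨j, hs, hf⟩ := exists_lattice (Additive X)
  refine ⟨fun g => if h : g ∈ A then j (Additive.ofMul (e ⟨g, h⟩)) else 0, ?_, ?_, ?_⟩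
  · intro a ha a' ha'
    simp only [ha, ha', A.mul_mem ha ha', dif_pos]
    rw [← map_add, ← ofMul_mul, ← map_mul]
    rfl
  · intro z
    obtain ⟨x, hx⟩ := hs z
    refine ⟨e.symm x.toMul, (e.symm x.toMul).2, ?_⟩
    simp only [SetLike.coe_mem, dif_pos, Subtype.coe_eta, MulEquiv.apply_symm_apply]
    exact hx
  · refine (hf.image fun x => ((e.symm x.toMul : A) : G)).subset ?_
    rintro a ⟨ha, ha'⟩
    refine ⟨Additive.ofMul (e ⟨a, ha⟩), ?_, ?_⟩
    · simp only [ha, dif_pos] at ha'
      exact ha'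
    · simp only [toMul_ofMul, MulEquiv.symm_apply_apply]

/-- finite groups act on the point -/
theorem pc_finite {F : Type} [Group F] [Finite F] : PC F (Fin 0 → ℝ) (fun _ w => w) where
  cont _ := continuous_id
  one _ := rfl
  mul _ _ _ := rfl
  proper _ _ := Set.toFinite _
  cocpt := ⟨Set.univ, isCompact_univ, fun _ => ⟨1, trivial⟩⟩

/-- The action on `ℝ^(r+s)`. -/
theorem pc_of_ranks {G : Type} [Group G] (T : Subgroup G) [T.Normal] [T.FiniteIndex]
    [IsMulCommutative (commutator T)] [Module.Finite ℤ (Additive (commutator T))]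
    [Module.Finite ℤ (Additive (Abelianization T))]
    (h3 : finrank ℤ (Additive (commutator T)) + finrank ℤ (Additive (Abelianization T)) = 3) :
    ∃ α, PC G (Fin 3 → ℝ) α := by
  have hA : (commutator T).map T.subtype = ⁅T, T⁆ := Subgroup.map_subtype_commutator T
  have hN : ((commutator T).map T.subtype).Normal := by rw [hA]; infer_instance
  set A := (commutator T).map T.subtype with hAdef
  have hRA : Rk A (finrank ℤ (Additive (commutator T))) :=
    rk_of_equiv ((commutator T).equivMapOfInjective T.subtype T.subtype_injective).symm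
  have hcA : ∀ a ∈ A, ∀ a' ∈ A, a * a' = a' * a := by
    rintro _ ⟨a, ha, rfl⟩ _ ⟨a', ha', rfl⟩
    have h1 : (⟨a, ha⟩ : commutator T) * ⟨a', ha'⟩ = ⟨a', ha'⟩ * ⟨a, ha⟩ := mul_comm _ _
    exact congrArg (fun x : commutator T => ((x : T) : G)) h1
  let κ : T →* G ⧸ A := (QuotientGroup.mk' A).comp T.subtype
  have hκ : κ.ker = commutator T := by
    ext x
    rw [MonoidHom.mem_ker]
    change ((x : G) : G ⧸ A) = 1 ↔ _
    rw [QuotientGroup.eq_one_iff]
    constructor
    · rintro ⟨y, hy, hyx⟩
      have : y = x := Subtype.ext hyx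
      rwa [← this]
    · intro hx
      exact ⟨x, hx, rfl⟩
  have e : κ.range ≃* Abelianization T :=
    (QuotientGroup.quotientKerEquivRange κ).symm.trans (QuotientGroup.quotientMulEquivOfEq hκ)
  have hR2 : Rk κ.range (finrank ℤ (Additive (Abelianization T))) := rk_of_equiv e
  have hc2 : ∀ a ∈ κ.range, ∀ a' ∈ κ.range, a * a' = a' * a := by
    intro a ha a' ha'
    have h1 : (⟨a, ha⟩ : κ.range) * ⟨a', ha'⟩ = ⟨a', ha'⟩ * ⟨a, ha⟩ := by
      apply e.injective
      rw [map_mul, map_mul, mul_comm]
    exact congrArg (Subtype.val : κ.range → G ⧸ A) h1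
  have hrange : κ.range = T.map (QuotientGroup.mk' A) := by
    rw [MonoidHom.range_comp, Subgroup.range_subtype]
  have hN2 : κ.range.Normal := by
    rw [hrange]
    exact Subgroup.Normal.map inferInstance _ (QuotientGroup.mk'_surjective A)
  have hfi : κ.range.FiniteIndex := by
    refine ⟨fun h0 => ?_⟩
    rw [hrange] at h0
    have h1 := Subgroup.index_map_dvd T (QuotientGroup.mk'_surjective A)
    rw [h0, zero_dvd_iff] at h1
    exact Subgroup.FiniteIndex.index_ne_zero h1
  obtain ⟨b, hb⟩ := seifert_rk hc2 hR2 (pc_finite (F := (G ⧸ A) ⧸ κ.range))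
  have hα := seifert_rk hcA hRA hb
  rwa [add_zero, h3] at hα

end Pool.Agent.H26.PD
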