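import Pool.Agent.H26.PD.Flat

/-!
Groups with a finite-index subgroup which is (flat surface group)-by-`ℤ`.
-/

set_option autoImplicit false

namespace Pool.Agent.H26.PD

open Module
open scoped IsMulCommutative

theorem aut_sq (ψ : MulAut (Multiplicative ℤ)) : ψ * ψ = 1 := by
  have h1 := Int.addEquiv_eq_refl_or_neg (MulEquiv.toAdditive ψ : ℤ ≃+ ℤ)
  have h2 : ∀ z : ℤ, (ψ (Multiplicative.ofAdd z)).toAdd = (MulEquiv.toAdditive ψ : ℤ ≃+ ℤ) z :=
    fun z => rfl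
  apply MulEquiv.ext
  intro z
  apply Multiplicative.toAdd.injective
  change (ψ (Multiplicative.ofAdd (ψ (Multiplicative.ofAdd z.toAdd)).toAdd)).toAdd = z.toAdd
  rw [h2, h2]
  rcases h1 with h1 | h1
  · rw [h1]
    rfl
  · rw [h1]
    change -(-(z.toAdd)) = z.toAdd
    rw [neg_neg]

/-- squares of elements of `K` -/
def Sq {H : Type} [Group H] (K : Subgroup H) : Subgroup H :=
  Subgroup.closure {x | ∃ k ∈ K, x = k * k}

theorem mem_Sq {H : Type} [Group H] {K : Subgroup H} {k : H} (hk : k ∈ K) : k * k ∈ Sq K :=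
  Subgroup.subset_closure ⟨k, hk, rfl⟩

instance Sq_normal {H : Type} [Group H] (K : Subgroup H) [K.Normal] : (Sq K).Normal where
  conj_mem x hx g := by
    induction hx using Subgroup.closure_induction with
    | mem x hx =>
      obtain ⟨k, hk, rfl⟩ := hx
      have h1 : g * (k * k) * g⁻¹ = (g * k * g⁻¹) * (g * k * g⁻¹) := by group
      rw [h1]
      exact mem_Sq (Subgroup.Normal.conj_mem inferInstance k hk g)
    | one => rw [mul_one, mul_inv_cancel]; exact (Sq K).one_mem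
    | mul x y _ _ hx hy =>
      have h1 : g * (x * y) * g⁻¹ = (g * x * g⁻¹) * (g * y * g⁻¹) := by group
      rw [h1]
      exact (Sq K).mul_mem hx hy
    | inv x _ hx =>
      have h1 : g * x⁻¹ * g⁻¹ = (g * x * g⁻¹)⁻¹ := by group
      rw [h1]
      exact (Sq K).inv_mem hx

variable {H : Type} [Group H] {K : Subgroup H} {φ : Multiplicative ℤ →* MulAut (Multiplicative ℤ)}

theorem Sq_sub (e : K ≃* Multiplicative ℤ ⋊[φ] Multiplicative ℤ) {x : H} (hx : x ∈ Sq K) :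
    ∃ h : x ∈ K, φ (e ⟨x, h⟩).right = 1 := by
  induction hx using Subgroup.closure_induction with
  | mem x hx =>
    obtain ⟨k, hk, rfl⟩ := hx
    refine ⟨K.mul_mem hk hk, ?_⟩
    have h1 : e ⟨k * k, K.mul_mem hk hk⟩ = e ⟨k, hk⟩ * e ⟨k, hk⟩ := by
      rw [← map_mul]
      rfl
    rw [h1, SemidirectProduct.mul_right, map_mul, aut_sq]
  | one =>
    refine ⟨K.one_mem, ?_⟩
    have h1 : e ⟨1, K.one_mem⟩ = 1 := map_one e
    rw [h1, SemidirectProduct.one_right, map_one]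
  | mul x y _ _ hx hy =>
    obtain ⟨hx, hx'⟩ := hx
    obtain ⟨hy, hy'⟩ := hy
    refine ⟨K.mul_mem hx hy, ?_⟩
    have h1 : e ⟨x * y, K.mul_mem hx hy⟩ = e ⟨x, hx⟩ * e ⟨y, hy⟩ := by
      rw [← map_mul]
      rfl
    rw [h1, SemidirectProduct.mul_right, map_mul, hx', hy', mul_one]
  | inv x _ hx =>
    obtain ⟨hx, hx'⟩ := hx
    refine ⟨K.inv_mem hx, ?_⟩
    have h1 : e ⟨x⁻¹, K.inv_mem hx⟩ = (e ⟨x, hx⟩)⁻¹ := by
      rw [← map_inv]
      rfl
    rw [h1, SemidirectProduct.inv_right, map_inv, hx', inv_one]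

theorem Sq_comm (e : K ≃* Multiplicative ℤ ⋊[φ] Multiplicative ℤ) {x y : H} (hx : x ∈ Sq K)
    (hy : y ∈ Sq K) : x * y = y * x := by
  obtain ⟨hx, hx'⟩ := Sq_sub e hx
  obtain ⟨hy, hy'⟩ := Sq_sub e hy
  have h1 : (⟨x, hx⟩ : K) * ⟨y, hy⟩ = ⟨y, hy⟩ * ⟨x, hx⟩ := by
    apply e.injective
    rw [map_mul, map_mul]
    apply SemidirectProduct.ext
    · rw [SemidirectProduct.mul_left, SemidirectProduct.mul_left, hx', hy', MulAut.one_apply,
        MulAut.one_apply, mul_comm]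
    · rw [SemidirectProduct.mul_right, SemidirectProduct.mul_right, mul_comm]
  exact congrArg (Subtype.val : K → H) h1

theorem pow_two_reduce {Q : Type} [Group Q] {a : Q} (ha : a * a = 1) (n : ℤ) :
    a ^ n = a ^ (n % 2) := by
  conv_lhs => rw [← Int.emod_add_mul_ediv n 2, zpow_add, zpow_mul, zpow_ofNat, pow_two, ha, one_zpow,
    mul_one]

/-- the squares together with `t` generate a subgroup of finite index -/
theorem Sq_sup_finiteIndex (χ : H →* Multiplicative ℤ)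
    (e : χ.ker ≃* Multiplicative ℤ ⋊[φ] Multiplicative ℤ) {t : H}
    (ht : χ t = Multiplicative.ofAdd 1) : (Sq χ.ker ⊔ Subgroup.zpowers t).FiniteIndex := by
  let x : H := (e.symm (SemidirectProduct.inl (Multiplicative.ofAdd 1)) : χ.ker)
  let y : H := (e.symm (SemidirectProduct.inr (Multiplicative.ofAdd 1)) : χ.ker)
  have hx : x ∈ χ.ker := SetLike.coe_mem _
  have hy : y ∈ χ.ker := SetLike.coe_mem _
  have hz : ∀ z : Multiplicative ℤ, (Multiplicative.ofAdd (1 : ℤ)) ^ (z.toAdd) = z := by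
    intro z
    rw [← Int.ofAdd_mul, one_mul, ofAdd_toAdd]
  have hinl : ∀ n : ℤ, (SemidirectProduct.inl (Multiplicative.ofAdd (1 : ℤ)) :
      Multiplicative ℤ ⋊[φ] Multiplicative ℤ) ^ n =
      SemidirectProduct.inl ((Multiplicative.ofAdd (1 : ℤ)) ^ n) := fun n => (map_zpow _ _ _).symm
  have hinr : ∀ n : ℤ, (SemidirectProduct.inr (Multiplicative.ofAdd (1 : ℤ)) :
      Multiplicative ℤ ⋊[φ] Multiplicative ℤ) ^ n =
      SemidirectProduct.inr ((Multiplicative.ofAdd (1 : ℤ)) ^ n) := fun n => (map_zpow _ _ _).symm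
  have hk : ∀ k ∈ χ.ker, ∃ a b : ℤ, k = x ^ a * y ^ b := by
    intro k hk
    refine ⟨(e ⟨k, hk⟩).left.toAdd, (e ⟨k, hk⟩).right.toAdd, ?_⟩
    have h1 : (⟨k, hk⟩ : χ.ker) =
        (e.symm (SemidirectProduct.inl (Multiplicative.ofAdd 1))) ^ (e ⟨k, hk⟩).left.toAdd *
        (e.symm (SemidirectProduct.inr (Multiplicative.ofAdd 1))) ^ (e ⟨k, hk⟩).right.toAdd := by
      apply e.injective
      rw [map_mul, map_zpow, map_zpow, MulEquiv.apply_symm_apply, MulEquiv.apply_symm_apply,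
        hinl, hinr, hz, hz, SemidirectProduct.inl_left_mul_inr_right]
    exact congrArg (Subtype.val : χ.ker → H) h1
  have hfin : Finite (H ⧸ (Sq χ.ker ⊔ Subgroup.zpowers t)) := by
    refine Finite.of_surjective (fun p : Fin 2 × Fin 2 =>
      ((x ^ (p.1 : ℕ) * y ^ (p.2 : ℕ) : H) : H ⧸ (Sq χ.ker ⊔ Subgroup.zpowers t))) ?_
    intro q
    obtain ⟨h, rfl⟩ := QuotientGroup.mk_surjective q
    obtain ⟨a, b, hab⟩ := hk (h * t ^ (-(χ h).toAdd)) (by
      rw [MonoidHom.mem_ker, map_mul, map_zpow, ht, ← Int.ofAdd_mul, one_mul, ofAdd_neg,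
        ofAdd_toAdd, mul_inv_cancel])
    have hmod : ∀ n : ℤ, ∃ i : Fin 2, n % 2 = ((i : ℕ) : ℤ) := by
      intro n
      rcases Int.emod_two_eq_zero_or_one n with h0 | h0
      · exact ⟨0, h0⟩
      · exact ⟨1, h0⟩
    obtain ⟨i, hi⟩ := hmod a
    obtain ⟨j, hj⟩ := hmod b
    refine ⟨(i, j), ?_⟩
    rw [QuotientGroup.eq]
    have h1 : (x ^ (i : ℕ) * y ^ (j : ℕ))⁻¹ * (h * t ^ (-(χ h).toAdd)) ∈ Sq χ.ker := by
      rw [hab, ← QuotientGroup.eq_one_iff, QuotientGroup.mk_mul, QuotientGroup.mk_inv,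
        inv_mul_eq_one, QuotientGroup.mk_mul, QuotientGroup.mk_mul, QuotientGroup.mk_zpow,
        QuotientGroup.mk_zpow, QuotientGroup.mk_pow, QuotientGroup.mk_pow]
      have h2 : ((x : H) : H ⧸ Sq χ.ker) * x = 1 := by
        rw [← QuotientGroup.mk_mul, QuotientGroup.eq_one_iff]
        exact mem_Sq hx
      have h3 : ((y : H) : H ⧸ Sq χ.ker) * y = 1 := by
        rw [← QuotientGroup.mk_mul, QuotientGroup.eq_one_iff]
        exact mem_Sq hy
      rw [pow_two_reduce h2 a, pow_two_reduce h3 b, hi, hj, zpow_natCast, zpow_natCast]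
    have h4 : (x ^ (i : ℕ) * y ^ (j : ℕ))⁻¹ * h =
        (x ^ (i : ℕ) * y ^ (j : ℕ))⁻¹ * (h * t ^ (-(χ h).toAdd)) * t ^ ((χ h).toAdd) := by group
    change (x ^ (i : ℕ) * y ^ (j : ℕ))⁻¹ * h ∈ _
    rw [h4]
    exact Subgroup.mul_mem _ ((le_sup_left : Sq χ.ker ≤ _) h1)
      ((le_sup_right : Subgroup.zpowers t ≤ _) ⟨_, rfl⟩)
  exact Subgroup.finiteIndex_of_finite_quotient

/-- The action on `ℝ³`. -/
theorem pc_of_flat {G : Type} [Group G] (H : Subgroup G) [H.FiniteIndex]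
    (χ : H →* Multiplicative ℤ) (hχ : Function.Surjective χ)
    (e : χ.ker ≃* Multiplicative ℤ ⋊[φ] Multiplicative ℤ) : ∃ α, PC G (Fin 3 → ℝ) α := by
  obtain ⟨t, ht⟩ := hχ (Multiplicative.ofAdd 1)
  have hfi := Sq_sup_finiteIndex χ e ht
  set H1 : Subgroup H := Sq χ.ker ⊔ Subgroup.zpowers t with hH1
  have hmem : ∀ h ∈ H1, χ h = 1 → h ∈ Sq χ.ker := by
    intro h hh hh1
    have h1 : h ∈ (↑(Sq χ.ker ⊔ Subgroup.zpowers t) : Set H) := hh
    rw [Subgroup.normal_mul] at h1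
    obtain ⟨v, hv, z, ⟨n, rfl⟩, rfl⟩ := h1
    obtain ⟨hvK, -⟩ := Sq_sub e hv
    simp only at hh1
    rw [map_mul, MonoidHom.mem_ker.1 hvK, one_mul, map_zpow, ht, ← Int.ofAdd_mul, one_mul] at hh1
    have h2 : n = 0 := hh1
    subst h2
    simpa using hv
  have hfi2 : (H1.map H.subtype).FiniteIndex := by
    refine ⟨?_⟩
    rw [Subgroup.index_map_subtype]
    exact mul_ne_zero Subgroup.FiniteIndex.index_ne_zero Subgroup.FiniteIndex.index_ne_zero
  set T : Subgroup G := (H1.map H.subtype).normalCore with hT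
  have hTle' : T ≤ H1.map H.subtype := Subgroup.normalCore_le _
  have hTle : T ≤ H := hTle'.trans (Subgroup.map_subtype_le H1)
  have hTH1 : ∀ u : T, Subgroup.inclusion hTle u ∈ H1 := by
    intro u
    obtain ⟨v, hv, hvu⟩ := hTle' u.2
    have h1 : v = Subgroup.inclusion hTle u := Subtype.ext hvu
    rwa [← h1]
  let χ' : T →* Multiplicative ℤ := χ.comp (Subgroup.inclusion hTle)
  have hcomm : IsMulCommutative χ'.ker := by
    refine ⟨⟨fun a b => ?_⟩⟩
    have ha : Subgroup.inclusion hTle a ∈ Sq χ.ker := hmem _ (hTH1 a) a.2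
    have hb : Subgroup.inclusion hTle b ∈ Sq χ.ker := hmem _ (hTH1 b) b.2
    have h1 := Sq_comm e ha hb
    apply Subtype.ext
    apply Subtype.ext
    exact congrArg (Subtype.val : H → G) h1
  let i : χ'.ker →* χ.ker :=
    ((Subgroup.inclusion hTle).comp χ'.ker.subtype).codRestrict χ.ker (fun a => a.2)
  have hi : Function.Injective i := by
    intro a b hab
    apply Subtype.ext
    apply Subtype.ext
    exact congrArg (fun u : χ.ker => ((u : H) : G)) hab
  have hi' : ∀ a : χ'.ker, (((i a : χ.ker) : H) : G) = ((a : T) : G) := fun a => rfl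
  have hpow : ∀ g : G, ∃ n : ℕ, 0 < n ∧ g ^ n ∈ T := by
    intro g
    obtain ⟨n, hn, -, h⟩ := Subgroup.exists_pow_mem_of_index_ne_zero
      (H := T) Subgroup.FiniteIndex.index_ne_zero g
    exact ⟨n, hn, h⟩
  -- elements of the kernel
  have hel : ∀ k : χ.ker, ∃ (n : ℕ) (a : χ'.ker), 0 < n ∧ i a = k ^ n := by
    intro k
    obtain ⟨n, hn, h⟩ := hpow ((k : H) : G)
    have h1 : χ' ⟨_, h⟩ = 1 := by
      change χ (⟨((k : H) : G) ^ n, _⟩ : H) = 1
      have h2 : (⟨((k : H) : G) ^ n, hTle h⟩ : H) = (k : H) ^ n := rfl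
      rw [h2, map_pow, MonoidHom.mem_ker.1 k.2, one_pow]
    exact ⟨n, ⟨⟨_, h⟩, h1⟩, hn, rfl⟩
  obtain ⟨m, x, hm, hx⟩ := hel (e.symm (SemidirectProduct.inl (Multiplicative.ofAdd 1)))
  obtain ⟨n, y, hn, hy⟩ := hel (e.symm (SemidirectProduct.inr (Multiplicative.ofAdd 1)))
  obtain ⟨l, hl, htl⟩ := hpow (t : G)
  have hex : (e.toMonoidHom.comp i) x = SemidirectProduct.inl (Multiplicative.ofAdd (m : ℤ)) := by
    change e (i x) = _
    rw [hx, map_pow, MulEquiv.apply_symm_apply, ← map_pow, ← ofAdd_nsmul]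
    simp
  have hey : (e.toMonoidHom.comp i) y = SemidirectProduct.inr (Multiplicative.ofAdd (n : ℤ)) := by
    change e (i y) = _
    rw [hy, map_pow, MulEquiv.apply_symm_apply, ← map_pow, ← ofAdd_nsmul]
    simp
  have hne : ∀ k : ℕ, 0 < k → Multiplicative.ofAdd (k : ℤ) ≠ 1 := by
    intro k hk h0
    have h1 : (k : ℤ) = 0 := h0
    omega
  have ht' : χ' ⟨(t : G) ^ l, htl⟩ ≠ 1 := by
    change χ (⟨(t : G) ^ l, _⟩ : H) ≠ 1
    have h2 : (⟨(t : G) ^ l, hTle htl⟩ : H) = t ^ l := rfl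
    rw [h2, map_pow, ht, ← ofAdd_nsmul, nsmul_eq_mul, mul_one]
    exact hne l hl
  have hx1 : ((e.toMonoidHom.comp i) x).right = 1 := by
    rw [hex, SemidirectProduct.right_inl]
  have hx2 : ((e.toMonoidHom.comp i) x).left ≠ 1 := by
    rw [hex, SemidirectProduct.left_inl]
    exact hne m hm
  have hy1 : ((e.toMonoidHom.comp i) y).right ≠ 1 := by
    rw [hey, SemidirectProduct.right_inr]
    exact hne n hn
  obtain ⟨h1, h2, h3, h4⟩ := ranks χ' (e.toMonoidHom.comp i) (e.injective.comp hi) ht' hx1 hx2 hy1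
  exact pc_of_ranks T h4

end Pool.Agent.H26.PD
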