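import Pool.Graph.R_seed8.Helper386.PD3.Core

/-!
Modules of functions on a group, with supports bounded below for a character (Novikov type
modules); a Neumann series.
-/

set_option autoImplicit false

namespace Pool.Agent.H26.PD

open Pool.Agent.Helper386.PD3
open scoped Classical

noncomputable section

section mat

variable {S : Type*} [Ring S] {X : Type*} [AddCommGroup X] [Module S X] {n : ℕ}

/-- matrices acting on tuples -/
def ac (A : Matrix (Fin n) (Fin n) S) (c : Fin n → X) : Fin n → X := fun i => ∑ j, A i j • c j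

theorem ac_mul (A B : Matrix (Fin n) (Fin n) S) (c : Fin n → X) : ac (A * B) c = ac A (ac B c) := by
  funext i
  simp only [ac, Matrix.mul_apply, Finset.sum_smul, Finset.smul_sum, mul_smul]
  exact Finset.sum_comm

theorem ac_add (A : Matrix (Fin n) (Fin n) S) (c c' : Fin n → X) :
    ac A (c + c') = ac A c + ac A c' := by
  funext i
  simp only [ac, Pi.add_apply, smul_add, Finset.sum_add_distrib]

theorem ac_zero (A : Matrix (Fin n) (Fin n) S) : ac A (0 : Fin n → X) = 0 := by
  funext i
  simp [ac]

theorem ac_neg (A : Matrix (Fin n) (Fin n) S) (c : Fin n → X) : ac A (-c) = -ac A c := by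
  funext i
  simp only [ac, Pi.neg_apply, smul_neg, Finset.sum_neg_distrib]

theorem ac_sub (A : Matrix (Fin n) (Fin n) S) (c c' : Fin n → X) :
    ac A (c - c') = ac A c - ac A c' := by
  rw [sub_eq_add_neg, ac_add, ac_neg, ← sub_eq_add_neg]

theorem add_ac (A B : Matrix (Fin n) (Fin n) S) (c : Fin n → X) :
    ac (A + B) c = ac A c + ac B c := by
  funext i
  simp only [ac, Pi.add_apply, Matrix.add_apply, add_smul, Finset.sum_add_distrib]

end mat

variable {G : Type} [Group G] {M : Type} [AddCommGroup M]

variable (M) in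
/-- right translation of functions -/
def tr : G →* Module.End ℤ (G → M) where
  toFun g :=
    { toFun := fun f x => f (x * g)
      map_add' := fun _ _ => rfl
      map_smul' := fun _ _ => rfl }
  map_one' := by
    refine LinearMap.ext fun f => ?_
    funext x
    change f (x * 1) = f x
    rw [mul_one]
  map_mul' g h := by
    refine LinearMap.ext fun f => ?_
    funext x
    change f (x * (g * h)) = f (x * g * h)
    rw [mul_assoc]

theorem tr_apply (g : G) (f : G → M) (x : G) : tr M g f x = f (x * g) := rfl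

variable (M) in
/-- the group ring acting on functions -/
def rho : RR G →+* Module.End ℤ (G → M) := liftR (tr M)

variable (M) in
theorem rho_of (g : G) : rho M (gof g) = tr M g := liftR_of _ _

theorem rho_of_apply (g : G) (f : G → M) (x : G) : rho M (gof g) f x = f (x * g) := by
  rw [rho_of]
  rfl

/-- matrices over the group ring acting on tuples of functions -/
def mv {n : ℕ} (A : MR G n) (c : Fin n → (G → M)) : Fin n → (G → M) := ac (A.map (rho M)) c

theorem mv_mul {n : ℕ} (A B : MR G n) (c : Fin n → (G → M)) : mv (A * B) c = mv A (mv B c) := by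
  rw [mv, map_mulM, ac_mul]
  rfl

theorem mv_apply {n : ℕ} (A : MR G n) (c : Fin n → (G → M)) (i : Fin n) :
    mv A c i = ∑ j, rho M (A i j) (c j) := rfl

theorem mv_zero_left {n : ℕ} (c : Fin n → (G → M)) : mv (0 : MR G n) c = 0 := by
  funext i
  rw [mv_apply]
  simp

theorem mv_add {n : ℕ} (A : MR G n) (c c' : Fin n → (G → M)) :
    mv A (c + c') = mv A c + mv A c' := ac_add _ _ _

theorem mv_sub {n : ℕ} (A : MR G n) (c c' : Fin n → (G → M)) :
    mv A (c - c') = mv A c - mv A c' := ac_sub _ _ _

theorem mv_neg {n : ℕ} (A : MR G n) (c : Fin n → (G → M)) : mv A (-c) = -mv A c := ac_neg _ _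

theorem mv_zero {n : ℕ} (A : MR G n) : mv A (0 : Fin n → (G → M)) = 0 := ac_zero _

/-- submodules stable under translation -/
def Stable (W : Submodule ℤ (G → M)) : Prop := ∀ g, ∀ f ∈ W, tr M g f ∈ W

theorem Stable.rho {W : Submodule ℤ (G → M)} (hW : Stable W) (r : RR G) :
    ∀ f ∈ W, rho M r f ∈ W := by
  induction r using rr_ind with
  | h1 g =>
    intro f hf
    rw [rho_of]
    exact hW g f hf
  | h2 x y hx hy =>
    intro f hf
    rw [map_add]
    exact W.add_mem (hx f hf) (hy f hf)
  | h3 x hx =>
    intro f hf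
    rw [map_neg]
    exact W.neg_mem (hx f hf)

theorem Stable.mv {n : ℕ} {W : Submodule ℤ (G → M)} (hW : Stable W) (A : MR G n)
    {c : Fin n → (G → M)} (hc : ∀ i, c i ∈ W) (i : Fin n) : mv A c i ∈ W := by
  rw [mv_apply]
  exact W.sum_mem fun j _ => hW.rho _ _ (hc j)

/-- the action on a stable submodule -/
def resW {W : Submodule ℤ (G → M)} (hW : Stable W) : RR G →+* Module.End ℤ W :=
  liftR
    { toFun := fun g => (tr M g).restrict (hW g)
      map_one' := by
        refine LinearMap.ext fun f => ?_
        apply Subtype.ext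
        change tr M 1 f.1 = f.1
        rw [map_one]
        rfl
      map_mul' := fun g h => by
        refine LinearMap.ext fun f => ?_
        apply Subtype.ext
        change tr M (g * h) f.1 = tr M g (tr M h f.1)
        rw [map_mul]
        rfl }

theorem resW_of {W : Submodule ℤ (G → M)} (hW : Stable W) (g : G) (f : W) :
    ((resW hW (gof g) f : W) : G → M) = tr M g f.1 := by
  rw [resW, liftR_of]
  rfl

theorem resW_coe {W : Submodule ℤ (G → M)} (hW : Stable W) (r : RR G) (f : W) :
    ((resW hW r f : W) : G → M) = rho M r f.1 := by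
  induction r using rr_ind with
  | h1 g => rw [resW_of, rho_of]
  | h2 x y hx hy =>
    rw [map_add, map_add, LinearMap.add_apply, LinearMap.add_apply, Submodule.coe_add, hx, hy]
  | h3 x hx =>
    rw [map_neg, map_neg, LinearMap.neg_apply, LinearMap.neg_apply, Submodule.coe_neg, hx]

theorem ac_resW {n : ℕ} {W : Submodule ℤ (G → M)} (hW : Stable W) (A : MR G n) (c : Fin n → W)
    (i : Fin n) : ((ac (A.map (resW hW)) c i : W) : G → M) = mv A (fun j => (c j).1) i := by
  rw [mv_apply]
  change ((∑ j, resW hW (A i j) (c j) : W) : G → M) = _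
  rw [Submodule.coe_sum]
  exact Finset.sum_congr rfl fun j _ => resW_coe hW _ _

section level

variable (χ : G →* Multiplicative ℤ)

/-- the level -/
def lv (x : G) : ℤ := (χ x).toAdd

theorem lv_mul (x y : G) : lv χ (x * y) = lv χ x + lv χ y := by
  rw [lv, map_mul, toAdd_mul]
  rfl

theorem lv_inv (x : G) : lv χ x⁻¹ = -lv χ x := by
  rw [lv, map_inv, toAdd_inv]
  rfl

theorem lv_one : lv χ 1 = 0 := by
  rw [lv, map_one]
  rfl

/-- the function vanishes below level `m` -/
def LB (m : ℤ) (f : G → M) : Prop := ∀ x, lv χ x < m → f x = 0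

variable {χ}

theorem LB.mono {m m' : ℤ} {f : G → M} (h : LB χ m f) (hm : m' ≤ m) : LB χ m' f :=
  fun x hx => h x (lt_of_lt_of_le hx hm)

theorem LB.add {m : ℤ} {f f' : G → M} (h : LB χ m f) (h' : LB χ m f') : LB χ m (f + f') := by
  intro x hx
  rw [Pi.add_apply, h x hx, h' x hx, add_zero]

theorem LB.neg {m : ℤ} {f : G → M} (h : LB χ m f) : LB χ m (-f) := by
  intro x hx
  rw [Pi.neg_apply, h x hx, neg_zero]

theorem LB.sub {m : ℤ} {f f' : G → M} (h : LB χ m f) (h' : LB χ m f') : LB χ m (f - f') := by
  rw [sub_eq_add_neg]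
  exact h.add h'.neg

theorem LB.smul {m : ℤ} {f : G → M} (h : LB χ m f) (k : ℤ) : LB χ m (k • f) := by
  intro x hx
  rw [Pi.smul_apply, h x hx, smul_zero]

theorem LB.sum {m : ℤ} {ι : Type*} (s : Finset ι) {f : ι → G → M} (h : ∀ i ∈ s, LB χ m (f i)) :
    LB χ m (∑ i ∈ s, f i) := by
  intro x hx
  rw [Finset.sum_apply]
  exact Finset.sum_eq_zero fun i hi => h i hi x hx

theorem LB.tr {m : ℤ} {f : G → M} (h : LB χ m f) (g : G) : LB χ (m - lv χ g) (tr M g f) := by
  intro x hx
  rw [tr_apply]
  apply h
  rw [lv_mul]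
  linarith

end level

/-- equivariant functions with support bounded below; `a` is an action of the elements of `N` -/
def Wp (χ : G →* Multiplicative ℤ) (N : Subgroup G) (a : G → Module.End ℤ M) :
    Submodule ℤ (G → M) where
  carrier := {f | (∀ g ∈ N, ∀ x, f (g * x) = a g (f x)) ∧ ∃ m, LB χ m f}
  add_mem' := by
    rintro f f' ⟨h1, m, h2⟩ ⟨h1', m', h2'⟩
    refine ⟨fun g hg x => ?_, min m m', (h2.mono (min_le_left _ _)).add
      (h2'.mono (min_le_right _ _))⟩
    rw [Pi.add_apply, Pi.add_apply, h1 g hg, h1' g hg, map_add]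
  zero_mem' := ⟨fun g _ x => by simp, 0, fun x _ => rfl⟩
  smul_mem' := by
    rintro k f ⟨h1, m, h2⟩
    refine ⟨fun g hg x => ?_, m, h2.smul k⟩
    rw [Pi.smul_apply, Pi.smul_apply, h1 g hg, map_zsmul]

theorem stable_Wp (χ : G →* Multiplicative ℤ) (N : Subgroup G) (a : G → Module.End ℤ M) :
    Stable (Wp χ N a) := by
  rintro g f ⟨h1, m, h2⟩
  refine ⟨fun k hk x => ?_, m - lv χ g, h2.tr g⟩
  rw [tr_apply, tr_apply, mul_assoc, h1 k hk]

section neumann

variable {χ : G →* Multiplicative ℤ} {N : Subgroup G} {a : G → Module.End ℤ M}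

/-- The Neumann series. -/
theorem isUnit_one_sub {d : ℕ} (hN : ∀ g ∈ N, lv χ g = 0)
    (q : Module.End ℤ (Fin d → Wp χ N a))
    (hq : ∀ (m : ℤ) (c : Fin d → Wp χ N a), (∀ i, LB χ m (c i).1) → ∀ i, LB χ (m + 1) (q c i).1) :
    IsUnit (1 - q) := by
  have hqk : ∀ (k : ℕ) (m : ℤ) (c : Fin d → Wp χ N a), (∀ i, LB χ m (c i).1) →
      ∀ i, LB χ (m + k) ((q ^ k) c i).1 := by
    intro k
    induction k with
    | zero =>
      intro m c hc i
      simpa using hc i
    | succ k ih =>
      intro m c hc i
      rw [pow_succ', Nat.cast_succ, ← add_assoc]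
      exact hq _ _ (ih m c hc) i
  have hcommon : ∀ c : Fin d → Wp χ N a, ∃ m, ∀ i, LB χ m (c i).1 := by
    intro c
    choose m hm using fun i => (c i).2.2
    obtain ⟨b, hb⟩ := (Set.finite_range m).bddBelow
    exact ⟨b, fun i => (hm i).mono (hb ⟨i, rfl⟩)⟩
  rw [Module.End.isUnit_iff]
  constructor
  · rw [← LinearMap.ker_eq_bot, LinearMap.ker_eq_bot']
    intro c hc
    have hc' : c = q c := by
      rw [LinearMap.sub_apply, Module.End.one_apply] at hc
      exact sub_eq_zero.1 hc
    have hck : ∀ k : ℕ, c = (q ^ k) c := by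
      intro k
      induction k with
      | zero => simp
      | succ k ih =>
        rw [pow_succ']
        change c = q ((q ^ k) c)
        rw [← ih, ← hc']
    obtain ⟨m, hm⟩ := hcommon c
    funext i
    apply Subtype.ext
    funext x
    have h1 := hqk (lv χ x - m + 1).toNat m c hm i x
      (by have := Int.self_le_toNat (lv χ x - m + 1); linarith)
    rw [← hck] at h1
    exact h1
  · intro g
    obtain ⟨m, hm⟩ := hcommon g
    let K : G → ℕ := fun x => (lv χ x - m + 1).toNat
    have hzero : ∀ (k : ℕ) (x : G), K x ≤ k → ∀ i, ((q ^ k) g i).1 x = 0 := by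
      intro k x hk i
      apply hqk k m g hm i x
      have := Int.self_le_toNat (lv χ x - m + 1)
      have h2 : ((lv χ x - m + 1).toNat : ℤ) ≤ k := by exact_mod_cast hk
      linarith
    let c0 : Fin d → G → M := fun i x => ∑ k ∈ Finset.range (K x), ((q ^ k) g i).1 x
    have hc0 : ∀ (i : Fin d) (x : G) (L : ℕ), K x ≤ L →
        c0 i x = ∑ k ∈ Finset.range L, ((q ^ k) g i).1 x := by
      intro i x L hL
      refine Finset.sum_subset (Finset.range_mono hL) fun k _ hk => ?_
      exact hzero k x (by simpa using hk) i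
    let c : Fin d → Wp χ N a := fun i => ⟨c0 i, by
      refine ⟨fun k hk x => ?_, m, fun x hx => ?_⟩
      · have hK : K (k * x) = K x := by
          change (lv χ (k * x) - m + 1).toNat = (lv χ x - m + 1).toNat
          rw [lv_mul, hN k hk, zero_add]
        change ∑ j ∈ Finset.range (K (k * x)), ((q ^ j) g i).1 (k * x) =
          a k (∑ j ∈ Finset.range (K x), ((q ^ j) g i).1 x)
        rw [hK, map_sum]
        exact Finset.sum_congr rfl fun j _ => ((q ^ j) g i).2.1 k hk x
      · have hK : K x = 0 := by
          change (lv χ x - m + 1).toNat = 0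
          rw [Int.toNat_eq_zero]
          linarith
        change ∑ j ∈ Finset.range (K x), ((q ^ j) g i).1 x = 0
        rw [hK, Finset.range_zero, Finset.sum_empty]⟩
    refine ⟨c, ?_⟩
    funext i
    apply Subtype.ext
    funext x
    let L : ℕ := K x
    let s : Fin d → Wp χ N a := ∑ k ∈ Finset.range L, (q ^ k) g
    have hs : ∀ i y, (s i).1 y = ∑ k ∈ Finset.range L, ((q ^ k) g i).1 y := by
      intro i y
      change ((∑ k ∈ Finset.range L, (q ^ k) g) i).1 y = _
      rw [Finset.sum_apply, Submodule.coe_sum, Finset.sum_apply]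
    have hKL : ∀ y, lv χ y < m + L → K y ≤ L := by
      intro y hy
      change (lv χ y - m + 1).toNat ≤ L
      rw [Int.toNat_le]
      linarith
    have h1 : ∀ i, LB χ (m + L) ((c - s) i).1 := by
      intro i y hy
      change c0 i y - (s i).1 y = 0
      rw [hc0 i y L (hKL y hy), hs, sub_self]
    have h2 := hq _ _ h1
    have h3 : (1 - q) s = g - (q ^ L) g := by
      have h4 : (1 - q) * ∑ k ∈ Finset.range L, q ^ k = 1 - q ^ L := mul_neg_geom_sum q L
      have h5 := congrArg (fun e : Module.End ℤ (Fin d → Wp χ N a) => e g) h4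
      simp only [Module.End.mul_apply, LinearMap.sum_apply, LinearMap.sub_apply,
        Module.End.one_apply] at h5
      rw [LinearMap.sub_apply, Module.End.one_apply]
      exact h5
    have h6 : (1 - q) c - g = (c - s) - q (c - s) - (q ^ L) g := by
      have h7 : (1 - q) c = (1 - q) (c - s) + (1 - q) s := by rw [← map_add, sub_add_cancel]
      rw [h7, h3, LinearMap.sub_apply, Module.End.one_apply]
      abel
    have hx : lv χ x < m + L := by
      have := Int.self_le_toNat (lv χ x - m + 1)
      change lv χ x < m + ((lv χ x - m + 1).toNat : ℤ)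
      linarith
    have h8 : (((1 - q) c - g) i).1 x = 0 := by
      rw [h6]
      change ((c - s) i).1 x - (q (c - s) i).1 x - ((q ^ L) g i).1 x = 0
      rw [h1 i x hx, h2 i x (by linarith), hqk L m g hm i x hx]
      simp
    exact sub_eq_zero.1 h8

end neumann

end

end Pool.Agent.H26.PD
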