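import Pool.Agent.H26.PD.Dual

/-!
The second cohomology of subgroups of the kernel of a character.
-/

set_option autoImplicit false

namespace Pool.Agent.H26.PD

open Pool.Agent.Helper386.PD3
open scoped Classical Matrix

noncomputable section

variable {G : Type} [Group G] {M : Type} [AddCommGroup M]

/-- equivariant functions -/
def EqS (N : Subgroup G) (a : G → Module.End ℤ M) : Submodule ℤ (G → M) where
  carrier := {f | ∀ g ∈ N, ∀ x, f (g * x) = a g (f x)}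
  add_mem' := by
    intro f f' h1 h1' g hg x
    rw [Pi.add_apply, Pi.add_apply, h1 g hg, h1' g hg, map_add]
  zero_mem' := fun g _ x => by simp
  smul_mem' := by
    intro k f h1 g hg x
    rw [Pi.smul_apply, Pi.smul_apply, h1 g hg, map_zsmul]

theorem stable_EqS (N : Subgroup G) (a : G → Module.End ℤ M) : Stable (EqS N a) := by
  intro g f h1 k hk x
  rw [tr_apply, tr_apply, mul_assoc, h1 k hk]

/-- equivariant functions supported in finitely many levels -/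
def V0 (χ : G →* Multiplicative ℤ) (N : Subgroup G) (a : G → Module.End ℤ M) :
    Submodule ℤ (G → M) := Wp χ N a ⊓ Wp χ⁻¹ N a

theorem stable_V0 (χ : G →* Multiplicative ℤ) (N : Subgroup G) (a : G → Module.End ℤ M) :
    Stable (V0 χ N a) := fun g f hf => ⟨stable_Wp _ _ _ g f hf.1, stable_Wp _ _ _ g f hf.2⟩

theorem lv_chi_inv (χ : G →* Multiplicative ℤ) (x : G) : lv χ⁻¹ x = -lv χ x := by
  rw [lv, MonoidHom.inv_apply, toAdd_inv]
  rfl

theorem ker_chi_inv (χ : G →* Multiplicative ℤ) : (χ⁻¹).ker = χ.ker := by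
  ext x
  rw [MonoidHom.mem_ker, MonoidHom.mem_ker, MonoidHom.inv_apply, inv_eq_one]

variable (M) in
/-- truncation -/
def cut (χ : G →* Multiplicative ℤ) : Module.End ℤ (G → M) where
  toFun f x := if 0 ≤ lv χ x then f x else 0
  map_add' f g := by
    funext x
    change (if 0 ≤ lv χ x then f x + g x else 0) = (if 0 ≤ lv χ x then f x else 0) +
      (if 0 ≤ lv χ x then g x else 0)
    split_ifs
    · rfl
    · rw [add_zero]
  map_smul' k f := by
    funext x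
    change (if 0 ≤ lv χ x then k • f x else 0) = k • (if 0 ≤ lv χ x then f x else 0)
    split_ifs
    · rfl
    · rw [smul_zero]

theorem cut_apply (χ : G →* Multiplicative ℤ) (f : G → M) (x : G) :
    cut M χ f x = if 0 ≤ lv χ x then f x else 0 := rfl

variable {χ : G →* Multiplicative ℤ} {N : Subgroup G} {a : G → Module.End ℤ M}

theorem cut_mem (hN : ∀ g ∈ N, lv χ g = 0) {f : G → M} (hf : f ∈ EqS N a) :
    cut M χ f ∈ Wp χ N a := by
  refine ⟨fun g hg x => ?_, 0, fun x hx => ?_⟩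
  · rw [cut_apply, cut_apply, lv_mul, hN g hg, zero_add]
    split_ifs
    · exact hf g hg x
    · rw [map_zero]
  · rw [cut_apply, if_neg (not_le.2 hx)]

theorem sub_cut_mem (hN : ∀ g ∈ N, lv χ g = 0) {f : G → M} (hf : f ∈ EqS N a) :
    f - cut M χ f ∈ Wp χ⁻¹ N a := by
  refine ⟨fun g hg x => ?_, 0, fun x hx => ?_⟩
  · rw [Pi.sub_apply, Pi.sub_apply, hf g hg, (cut_mem hN hf).1 g hg, map_sub]
  · rw [lv_chi_inv] at hx
    rw [Pi.sub_apply, cut_apply, if_pos (by linarith), sub_self]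

theorem Wp_le_EqS : Wp χ N a ≤ EqS N a := fun _ hf => hf.1

section main

variable {n : ℕ} {w : G →* ℤˣ} {e0 e1 e2 e3 d0 d1 d2 : MR G n} {cc : Fin n → ℤ}
  {U : Fin n → RR G} {Y : MR G n}

/-- the class of a cocycle -/
def cls (χ : G →* Multiplicative ℤ) (cc : Fin n → ℤ) (d2 : MR G n) (c : Fin n → (G → M)) :
    G → M := bet cc (mv d2 (fun i => cut M χ (c i)))

theorem cls_sub (c c' : Fin n → (G → M)) : cls χ cc d2 (c - c') = cls χ cc d2 c - cls χ cc d2 c' := by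
  rw [cls, cls, cls, ← bet_sub, ← mv_sub]
  congr 2
  funext i
  exact map_sub _ _ _

theorem cls_inj (hF : Full w e0 e1 e2 e3 d0 d1 d2) (hD : DualData w e3 d2 cc U Y) {t : G}
    (ht : lv χ t = 1) (hK : χ.ker.FG) (hN : ∀ g ∈ N, lv χ g = 0) {c : Fin n → (G → M)}
    (hc : ∀ i, c i ∈ EqS N a) (he : mv e2 c = c) (hd : mv d2 c = 0)
    (hβ : cls χ cc d2 c ∈ Aug w (V0 χ N a)) :
    ∃ b : Fin n → (G → M), (∀ i, b i ∈ EqS N a) ∧ mv d1 b = c := by
  have hN' : ∀ g ∈ N, lv χ⁻¹ g = 0 := fun g hg => by rw [lv_chi_inv, hN g hg, neg_zero]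
  obtain ⟨-, Hp⟩ := novikov (a := a) hF ht hK hN
  obtain ⟨-, Hm⟩ := novikov (a := a) (χ := χ⁻¹) (t := t⁻¹) hF
    (by rw [lv_chi_inv, lv_inv, ht, neg_neg]) (by rw [ker_chi_inv]; exact hK) hN'
  let cp : Fin n → (G → M) := fun i => cut M χ (c i)
  let cm : Fin n → (G → M) := c - cp
  have hcp : ∀ i, cp i ∈ Wp χ N a := fun i => cut_mem hN (hc i)
  have hcm : ∀ i, cm i ∈ Wp χ⁻¹ N a := fun i => sub_cut_mem hN (hc i)
  have hcpm : cp + cm = c := add_sub_cancel _ _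
  have hz1 : mv d2 cp = -mv d2 cm := by
    rw [eq_neg_iff_add_eq_zero, ← mv_add, hcpm, hd]
  have hz : ∀ i, mv d2 cp i ∈ V0 χ N a := by
    intro i
    refine ⟨(stable_Wp _ _ _).mv _ hcp i, ?_⟩
    rw [hz1]
    exact Submodule.neg_mem _ ((stable_Wp _ _ _).mv _ hcm i)
  obtain ⟨b0, hb0, hb0'⟩ := hD.lift (stable_V0 χ N a) hz (by rw [← mv_mul, full_e3d2 hF]) hβ
  obtain ⟨bp, hbp, hbp'⟩ := Hp (mv e2 (cp - b0))
    (fun i => (stable_Wp _ _ _).mv _ (fun j => Submodule.sub_mem _ (hcp j) (hb0 j).1) i)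
    (by rw [← mv_mul, hF.low.ee2])
    (by rw [← mv_mul, full_d2e2 hF, mv_sub, hb0', sub_self])
  obtain ⟨bm, hbm, hbm'⟩ := Hm (mv e2 (cm + b0))
    (fun i => (stable_Wp _ _ _).mv _ (fun j => Submodule.add_mem _ (hcm j) (hb0 j).2) i)
    (by rw [← mv_mul, hF.low.ee2])
    (by rw [← mv_mul, full_d2e2 hF, mv_add, hb0', hz1, add_neg_cancel])
  refine ⟨bp + bm, fun i => Submodule.add_mem _ (Wp_le_EqS (hbp i)) (Wp_le_EqS (hbm i)), ?_⟩
  rw [mv_add, hbp', hbm', ← mv_add, sub_add_add_cancel, hcpm, he]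

theorem cls_surj (hF : Full w e0 e1 e2 e3 d0 d1 d2) (hD : DualData w e3 d2 cc U Y) {t : G}
    (ht : lv χ t = 1) (hK : χ.ker.FG) (hN : ∀ g ∈ N, lv χ g = 0) {v : G → M}
    (hv : v ∈ V0 χ N a) :
    ∃ c : Fin n → (G → M), (∀ i, c i ∈ EqS N a) ∧ mv e2 c = c ∧ mv d2 c = 0 ∧
      cls χ cc d2 c - v ∈ Aug w (V0 χ N a) := by
  have hN' : ∀ g ∈ N, lv χ⁻¹ g = 0 := fun g hg => by rw [lv_chi_inv, hN g hg, neg_zero]
  obtain ⟨Hp, -⟩ := novikov (a := a) hF ht hK hN
  obtain ⟨Hm, -⟩ := novikov (a := a) (χ := χ⁻¹) (t := t⁻¹) hF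
    (by rw [lv_chi_inv, lv_inv, ht, neg_neg]) (by rw [ker_chi_inv]; exact hK) hN'
  obtain ⟨hz1, hz2⟩ := hD.point hv
  have hz0 : ∀ j, rho M (U j) v ∈ V0 χ N a := fun j => (stable_V0 χ N a).rho _ _ hv
  obtain ⟨bp, hbp, hbp'⟩ := Hp _ (fun j => (hz0 j).1) hz1
  obtain ⟨bm, hbm, hbm'⟩ := Hm _ (fun j => (hz0 j).2) hz1
  have hp : ∀ i, mv e2 bp i ∈ Wp χ N a := (stable_Wp _ _ _).mv _ hbp
  have hm : ∀ i, mv e2 bm i ∈ Wp χ⁻¹ N a := (stable_Wp _ _ _).mv _ hbm
  have hc : ∀ i, (mv e2 bp - mv e2 bm) i ∈ EqS N a := fun i =>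
    Submodule.sub_mem _ (Wp_le_EqS (hp i)) (Wp_le_EqS (hm i))
  refine ⟨mv e2 bp - mv e2 bm, hc, ?_, ?_, ?_⟩
  · rw [mv_sub, ← mv_mul, ← mv_mul, hF.low.ee2]
  · rw [mv_sub, ← mv_mul, ← mv_mul, full_d2e2 hF, hbp', hbm', sub_self]
  · let q : Fin n → (G → M) := fun i => cut M χ ((mv e2 bp - mv e2 bm) i) - mv e2 bp i
    have hq : ∀ i, q i ∈ V0 χ N a := by
      intro i
      refine ⟨Submodule.sub_mem _ (cut_mem hN (hc i)) (hp i), ?_⟩
      have h1 : q i = -((mv e2 bp - mv e2 bm) i - cut M χ ((mv e2 bp - mv e2 bm) i)) -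
          mv e2 bm i := by
        change cut M χ ((mv e2 bp - mv e2 bm) i) - mv e2 bp i = _
        rw [Pi.sub_apply]
        abel
      rw [h1]
      exact Submodule.sub_mem _ (Submodule.neg_mem _ (sub_cut_mem hN (hc i))) (hm i)
    have h2 : (fun i => cut M χ ((mv e2 bp - mv e2 bm) i)) = mv e2 bp + q := by
      funext i
      change _ = mv e2 bp i + (cut M χ ((mv e2 bp - mv e2 bm) i) - mv e2 bp i)
      rw [add_sub_cancel]
    have h3 : cls χ cc d2 (mv e2 bp - mv e2 bm) - v =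
        (bet cc (fun j => rho M (U j) v) - v) + bet cc (mv d2 q) := by
      rw [cls, h2, mv_add, ← mv_mul, full_d2e2 hF, hbp', bet_add]
      abel
    rw [h3]
    exact Submodule.add_mem _ hz2 (hD.bound hq)

theorem cls_bound (hF : Full w e0 e1 e2 e3 d0 d1 d2) (hD : DualData w e3 d2 cc U Y)
    (hN : ∀ g ∈ N, lv χ g = 0) {b : Fin n → (G → M)} (hb : ∀ i, b i ∈ EqS N a) :
    cls χ cc d2 (mv d1 b) ∈ Aug w (V0 χ N a) := by
  let bp : Fin n → (G → M) := fun i => cut M χ (b i)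
  let bm : Fin n → (G → M) := b - bp
  have hbp : ∀ i, bp i ∈ Wp χ N a := fun i => cut_mem hN (hb i)
  have hbm : ∀ i, bm i ∈ Wp χ⁻¹ N a := fun i => sub_cut_mem hN (hb i)
  have hc : ∀ i, mv d1 b i ∈ EqS N a := (stable_EqS N a).mv _ hb
  have hsum : mv d1 b = mv d1 bp + mv d1 bm := by rw [← mv_add, add_sub_cancel]
  let q : Fin n → (G → M) := fun i => cut M χ (mv d1 b i) - mv d1 bp i
  have hq : ∀ i, q i ∈ V0 χ N a := by
    intro i
    refine ⟨Submodule.sub_mem _ (cut_mem hN (hc i)) ((stable_Wp _ _ _).mv _ hbp i), ?_⟩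
    have h1 : q i = mv d1 bm i - (mv d1 b i - cut M χ (mv d1 b i)) := by
      change cut M χ (mv d1 b i) - mv d1 bp i = _
      have h2 : mv d1 b i = mv d1 bp i + mv d1 bm i := congrFun hsum i
      have h3 : mv d1 bm i = mv d1 b i - mv d1 bp i := by rw [h2]; abel
      rw [h3]
      abel
    rw [h1]
    exact Submodule.sub_mem _ ((stable_Wp _ _ _).mv _ hbm i) (sub_cut_mem hN (hc i))
  have h2 : (fun i => cut M χ (mv d1 b i)) = mv d1 bp + q := by
    funext i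
    change _ = mv d1 bp i + (cut M χ (mv d1 b i) - mv d1 bp i)
    rw [add_sub_cancel]
  rw [cls, h2, mv_add, ← mv_mul, full_dd2 hF, mv_zero_left, zero_add]
  exact hD.bound hq

end main

end

end Pool.Agent.H26.PD
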