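import Pool.Agent.H26.PD.Rank

/-!
The ranks of the commutator subgroup and of the abelianization of a group of Hirsch length three.
-/

set_option autoImplicit false

namespace Pool.Agent.H26.PD

open Module
open scoped IsMulCommutative

/-- a finitely generated abelian group maps onto a lattice with finite kernel -/
theorem exists_lattice (M : Type) [AddCommGroup M] [Module.Finite ℤ M] :
    ∃ j : M →+ (Fin (finrank ℤ M) → ℤ), Function.Surjective j ∧ {a | j a = 0}.Finite := by
  have h1 : finrank ℤ (M ⧸ Submodule.torsion ℤ M) = finrank ℤ M :=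
    finrank_quotient_eq_of_le_torsion le_rfl
  have : Module.Free ℤ (M ⧸ Submodule.torsion ℤ M) := inferInstance
  let e : (M ⧸ Submodule.torsion ℤ M) ≃ₗ[ℤ] (Fin (finrank ℤ M) → ℤ) :=
    LinearEquiv.ofFinrankEq _ _ (by rw [h1, Module.finrank_fin_fun])
  refine ⟨(e.toLinearMap.comp (Submodule.mkQ _)).toAddMonoidHom, ?_, ?_⟩
  · exact e.surjective.comp (Submodule.mkQ_surjective _)
  · have h2 : Finite (Submodule.torsion ℤ M) :=
      Module.finite_of_fg_torsion _ (Submodule.torsion_isTorsion)
    refine (Set.toFinite ((Submodule.torsion ℤ M : Set M))).subset ?_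
    intro a ha
    have h3 : e (Submodule.mkQ _ a) = 0 := ha
    have h4 : Submodule.mkQ (Submodule.torsion ℤ M) a = 0 := by
      rwa [EmbeddingLike.map_eq_zero_iff] at h3
    rwa [Submodule.mkQ_apply, Submodule.Quotient.mk_eq_zero] at h4

theorem finrank_range_int {M : Type} [AddCommGroup M] (p : M →ₗ[ℤ] ℤ) {x : M} (hx : p x ≠ 0) :
    finrank ℤ (LinearMap.range p) = 1 := by
  apply le_antisymm
  · exact (Submodule.finrank_le _).trans (by rw [Module.finrank_self])
  · have : Nontrivial (LinearMap.range p) :=
      ⟨⟨⟨p x, x, rfl⟩, 0, fun h => hx (congrArg Subtype.val h)⟩⟩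
    exact Module.finrank_pos

theorem finite_of_ker {M N : Type} [AddCommGroup M] [AddCommGroup N] (p : M →ₗ[ℤ] N)
    (h1 : (LinearMap.range p).FG) (h2 : (LinearMap.ker p).FG) : Module.Finite ℤ M := by
  refine ⟨Submodule.fg_of_fg_map_of_fg_inf_ker p ?_ ?_⟩
  · rwa [Submodule.map_top]
  · rwa [top_inf_eq]

/-- additive version of a homomorphism to `ℤ` -/
def addHom {X : Type} [CommGroup X] (f : X →* Multiplicative ℤ) : Additive X →ₗ[ℤ] ℤ :=
  AddMonoidHom.toIntLinearMap
    { toFun := fun x => (f x.toMul).toAdd
      map_zero' := by rw [toMul_zero, map_one]; rfl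
      map_add' := fun x y => by rw [toMul_add, map_mul]; rfl }

theorem addHom_apply {X : Type} [CommGroup X] (f : X →* Multiplicative ℤ) (x : X) :
    addHom f (Additive.ofMul x) = (f x).toAdd := rfl

/-- additive version of a homomorphism -/
def addHom' {X Y : Type} [CommGroup X] [CommGroup Y] (f : X →* Y) : Additive X →ₗ[ℤ] Additive Y :=
  AddMonoidHom.toIntLinearMap (MonoidHom.toAdditive f)

theorem addHom'_apply {X Y : Type} [CommGroup X] [CommGroup Y] (f : X →* Y) (x : X) :
    addHom' f (Additive.ofMul x) = Additive.ofMul (f x) := rfl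

/-- The count of ranks. -/
theorem ranks {T : Type} [Group T] (χ : T →* Multiplicative ℤ) {φ : Multiplicative ℤ →*
    MulAut (Multiplicative ℤ)} [IsMulCommutative χ.ker] (e : χ.ker →* Multiplicative ℤ ⋊[φ] Multiplicative ℤ)
    (he : Function.Injective e) {t : T} (ht : χ t ≠ 1) {x y : χ.ker} (hx : (e x).right = 1)
    (hx' : (e x).left ≠ 1) (hy : (e y).right ≠ 1) :
    ∃ _ : IsMulCommutative (commutator T), Module.Finite ℤ (Additive (commutator T)) ∧
      Module.Finite ℤ (Additive (Abelianization T)) ∧
      finrank ℤ (Additive (commutator T)) + finrank ℤ (Additive (Abelianization T)) = 3 := by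
  have hle : commutator T ≤ χ.ker := Abelianization.commutator_subset_ker χ
  have hA : IsMulCommutative (commutator T) := by
    refine ⟨⟨fun a b => ?_⟩⟩
    have h1 : (⟨a, hle a.2⟩ : χ.ker) * ⟨b, hle b.2⟩ = ⟨b, hle b.2⟩ * ⟨a, hle a.2⟩ := mul_comm _ _
    exact Subtype.ext (congrArg (Subtype.val : χ.ker → T) h1)
  refine ⟨hA, ?_⟩
  -- the second coordinate
  let p : Additive χ.ker →ₗ[ℤ] ℤ := addHom (SemidirectProduct.rightHom.comp e)
  have hp : ∀ k : χ.ker, p (Additive.ofMul k) = ((e k).right).toAdd := fun k => rfl
  have hker : ∀ z : LinearMap.ker p, (e (z : Additive χ.ker).toMul).right = 1 := by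
    intro z
    have h1 : p (z : Additive χ.ker) = 0 := z.2
    rw [← ofMul_toMul (z : Additive χ.ker), hp] at h1
    exact h1
  -- the first coordinate
  let q : LinearMap.ker p →ₗ[ℤ] ℤ := AddMonoidHom.toIntLinearMap
    { toFun := fun z => ((e (z : Additive χ.ker).toMul).left).toAdd
      map_zero' := by
        rw [Submodule.coe_zero, toMul_zero, map_one]
        rfl
      map_add' := fun z z' => by
        rw [Submodule.coe_add, toMul_add, map_mul, SemidirectProduct.mul_left, hker, map_one]
        rfl }
  have hq : ∀ z, q z = ((e (z : Additive χ.ker).toMul).left).toAdd := fun z => rfl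
  have hqi : Function.Injective q := by
    rw [injective_iff_map_eq_zero]
    intro z hz
    have h1 : e (z : Additive χ.ker).toMul = 1 := by
      apply SemidirectProduct.ext
      · exact hz
      · exact hker z
    have h2 : (z : Additive χ.ker).toMul = 1 := he (by rw [h1, map_one])
    exact Subtype.ext h2
  have h1 : finrank ℤ (LinearMap.range p) = 1 := finrank_range_int p (x := Additive.ofMul y) hy
  have hxk : Additive.ofMul x ∈ LinearMap.ker p := hx
  have h2 : finrank ℤ (LinearMap.ker p) = 1 := by
    rw [← LinearMap.finrank_range_of_inj hqi]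
    exact finrank_range_int q (x := ⟨Additive.ofMul x, hxk⟩) hx'
  have hfin : Module.Finite ℤ (Additive χ.ker) := by
    refine finite_of_ker p (IsNoetherian.noetherian _) ?_
    have h3 : Module.Finite ℤ (LinearMap.ker p) :=
      Module.Finite.of_injective q hqi
    exact Module.Finite.iff_fg.1 h3
  have h3 : finrank ℤ (Additive χ.ker) = 2 := by
    have h4 := Submodule.finrank_quotient_add_finrank (LinearMap.ker p)
    rw [LinearEquiv.finrank_eq p.quotKerEquivRange, h1, h2] at h4
    exact h4.symm
  -- the maps
  let f : Additive χ.ker →ₗ[ℤ] Additive (Abelianization T) :=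
    addHom' (Abelianization.of.comp χ.ker.subtype)
  let g : Additive (Abelianization T) →ₗ[ℤ] ℤ := addHom (Abelianization.lift χ)
  have hgf : LinearMap.ker g = LinearMap.range f := by
    ext z
    rw [LinearMap.mem_ker, LinearMap.mem_range]
    constructor
    · intro hz
      obtain ⟨u, hu⟩ : ∃ u : T, Abelianization.of u = z.toMul := QuotientGroup.mk_surjective _
      have h4 : χ u = 1 := by
        have h5 : (Abelianization.lift χ z.toMul).toAdd = 0 := hz
        rw [← hu, Abelianization.lift_apply_of] at h5
        exact h5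
      exact ⟨Additive.ofMul ⟨u, h4⟩, hu⟩
    · rintro ⟨u, rfl⟩
      change (Abelianization.lift χ (Abelianization.of ((u.toMul : χ.ker) : T))).toAdd = 0
      rw [Abelianization.lift_apply_of, u.toMul.2]
      rfl
  have h4 : finrank ℤ (LinearMap.range g) = 1 := by
    refine finrank_range_int g (x := Additive.ofMul (Abelianization.of t)) ?_
    intro h0
    apply ht
    change (Abelianization.lift χ (Abelianization.of t)).toAdd = 0 at h0
    rw [Abelianization.lift_apply_of] at h0
    exact h0
  have hfin2 : Module.Finite ℤ (Additive (Abelianization T)) := by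
    refine finite_of_ker g (IsNoetherian.noetherian _) ?_
    rw [hgf]
    exact Module.Finite.iff_fg.1 inferInstance
  let i : Additive (commutator T) →ₗ[ℤ] Additive χ.ker := addHom' (Subgroup.inclusion hle)
  have hi : Function.Injective i := Subgroup.inclusion_injective hle
  have hif : LinearMap.range i = LinearMap.ker f := by
    ext z
    rw [LinearMap.mem_ker, LinearMap.mem_range]
    constructor
    · rintro ⟨u, rfl⟩
      change Additive.ofMul (Abelianization.of ((u.toMul : commutator T) : T)) = 0
      have h5 : Abelianization.of ((u.toMul : commutator T) : T) = 1 :=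
        (QuotientGroup.eq_one_iff _).2 u.toMul.2
      rw [h5]
      rfl
    · intro hz
      have h5 : Abelianization.of ((z.toMul : χ.ker) : T) = 1 := hz
      have h6 : ((z.toMul : χ.ker) : T) ∈ commutator T := (QuotientGroup.eq_one_iff _).1 h5
      exact ⟨Additive.ofMul ⟨_, h6⟩, rfl⟩
  have hfin3 : Module.Finite ℤ (Additive (commutator T)) := Module.Finite.of_injective i hi
  refine ⟨hfin3, hfin2, ?_⟩
  have h5 := Submodule.finrank_quotient_add_finrank (LinearMap.ker f)
  rw [LinearEquiv.finrank_eq f.quotKerEquivRange, ← hif, LinearMap.finrank_range_of_inj hi, h3] at h5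
  have h6 := Submodule.finrank_quotient_add_finrank (LinearMap.ker g)
  rw [LinearEquiv.finrank_eq g.quotKerEquivRange, h4, hgf] at h6
  omega

end Pool.Agent.H26.PD
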