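import Pool.Agent.H26.PD.Dty
import Pool.Graph.R_seed8.H26R2.Bass.Padic

/-!
Idempotent matrices over integral group rings with full augmentation; a module which is a direct
summand in a too large free module.
-/

set_option autoImplicit false

namespace Pool.Agent.H26.PD

open Pool.Agent.Helper386.PD3
open scoped Classical Matrix
open Pool.Agent.H26R2.Bass (ind tf_zero_of_prime)
open Pool.Agent.H23R2.Cyc (ell ell_single ell_eq_sum tf tf_apply)

noncomputable section

variable {H : Type} [Group H]

theorem iota_inj {x : RR H} (h : iota (1 : H →* ℝ) x = 0) : x = 0 := by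
  apply MonoidAlgebra.coeff_injective
  ext g
  have h1 := τ_iota (1 : H →* ℝ) (gof g⁻¹ * x)
  rw [map_mul, h, mul_zero, τ_zero] at h1
  have h2 : (gof g⁻¹ * x).coeff 1 = x.coeff g := by
    change (MonoidAlgebra.single g⁻¹ (1 : ℤ) * x).coeff 1 = _
    rw [MonoidAlgebra.coeff_single_mul_apply, one_mul, inv_inv, mul_one]
  rw [h2] at h1
  have h3 : x.coeff g = 0 := by exact_mod_cast h1.symm
  rw [h3]
  rfl

theorem ell_one (x : RR H) : ell (fun _ : H => (1 : ℤ)) x = eps x := by
  induction x using rr_ind with
  | h1 g =>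
    rw [eps_of]
    change ell (fun _ : H => (1 : ℤ)) (MonoidAlgebra.single g 1) = 1
    rw [ell_single, one_mul]
  | h2 x y hx hy => rw [map_add, map_add, hx, hy]
  | h3 x hx => rw [map_neg, map_neg, hx]

theorem idem_one {m : ℕ} (A : Matrix (Fin m) (Fin m) (RR H)) (hA : A * A = A)
    (hconj : ∀ g : H, g ≠ 1 → ∀ j, 1 ≤ j → ¬ IsConj g (g ^ 2 ^ j))
    (htr : ∑ i, eps (A i i) = m) : A = 1 := by
  let S : Finset H := insert 1 (Finset.univ.biUnion fun i : Fin m => (A i i).coeff.support)
  have hS : ∀ i g, (A i i).coeff g ≠ 0 → g ∈ S := by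
    intro i g hg
    refine Finset.mem_insert_of_mem (Finset.mem_biUnion.2 ⟨i, Finset.mem_univ _, ?_⟩)
    exact Finsupp.mem_support_iff.2 hg
  let a : H → ℤ := fun g => ∑ i, (A i i).coeff g
  have htf : ∀ f : H → ℤ, tf f A = ∑ g ∈ S, a g * f g := by
    intro f
    rw [tf_apply]
    have h1 : ∀ i, ell f (A i i) = ∑ g ∈ S, (A i i).coeff g * f g := fun i =>
      ell_eq_sum f S (A i i) (hS i)
    simp only [h1]
    rw [Finset.sum_comm]
    exact Finset.sum_congr rfl fun g _ => (Finset.sum_mul _ _ _).symm
  have htot : ∑ g ∈ S, a g = m := by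
    rw [← htr]
    have h1 := htf fun _ => 1
    rw [tf_apply] at h1
    simp only [ell_one, mul_one] at h1
    exact h1.symm
  have hnu : ¬ IsUnit ((2 : ℕ) : ℤ) := by
    rw [Int.isUnit_iff]
    omega
  have hcls : ∑ g ∈ S, a g = a 1 := by
    rw [← Finset.sum_fiberwise_of_maps_to (t := S.image ConjClasses.mk) (g := ConjClasses.mk)
      (fun g hg => Finset.mem_image_of_mem _ hg)]
    rw [Finset.sum_eq_single (ConjClasses.mk 1)]
    · rw [Finset.sum_eq_single 1]
      · intro g hg hg1
        exfalso
        apply hg1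
        have h1 := (Finset.mem_filter.1 hg).2
        rw [ConjClasses.mk_eq_mk_iff_isConj, isConj_one_left] at h1
        exact h1
      · intro h
        refine absurd ?_ h
        rw [Finset.mem_filter]
        exact ⟨Finset.mem_insert_self _ _, rfl⟩
    · intro C hC hC1
      obtain ⟨g0, -, rfl⟩ := Finset.mem_image.1 hC
      have hg0 : g0 ≠ 1 := fun h => hC1 (by rw [h])
      have h1 := tf_zero_of_prime Nat.prime_two hnu A hA g0 (hconj g0 hg0)
      rw [htf] at h1
      rw [← h1, Finset.sum_filter]
      refine Finset.sum_congr rfl fun g _ => ?_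
      have hiff := ConjClasses.mk_eq_mk_iff_isConj (a := g) (b := g0)
      unfold ind
      by_cases hg : IsConj g g0
      · rw [if_pos hg, if_pos (hiff.2 hg), mul_one]
      · rw [if_neg hg, if_neg (fun h => hg (hiff.1 h)), mul_zero]
    · intro h
      exact absurd (Finset.mem_image_of_mem _ (Finset.mem_insert_self _ _)) h
  have ha1 : a 1 = m := by rw [← hcls, htot]
  let M : Matrix (Fin m) (Fin m) (OA H) := 1 - A.map (iota 1)
  have hM : M * M = M := by
    have h1 : A.map (iota (1 : H →* ℝ)) * A.map (iota (1 : H →* ℝ)) =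
        A.map (iota (1 : H →* ℝ)) := by rw [← map_mulM, hA]
    change (1 - A.map (iota 1)) * (1 - A.map (iota 1)) = 1 - A.map (iota 1)
    rw [mul_sub, sub_mul, sub_mul, h1, one_mul, one_mul, mul_one, sub_self, sub_zero]
  have hTr : Tr M = 0 := by
    have h1 : ∀ i, τ (M i i) = 1 - (((A i i).coeff 1 : ℤ) : ℝ) := by
      intro i
      change τ ((1 - A.map (iota 1)) i i) = _
      rw [Matrix.sub_apply, Matrix.one_apply_eq, Matrix.map_apply, τ_sub, τ_iota]
      congr 1
      have h2 := τ_iota (1 : H →* ℝ) 1
      rw [map_one] at h2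
      rw [h2]
      have h3 : (1 : RR H).coeff 1 = 1 := by
        rw [MonoidAlgebra.one_def, MonoidAlgebra.coeff_single, Finsupp.single_eq_same]
      rw [h3, Int.cast_one]
    rw [Tr]
    simp only [h1]
    rw [Finset.sum_sub_distrib, Finset.sum_const, Finset.card_univ, Fintype.card_fin, nsmul_one]
    have h2 : ∑ i, (((A i i).coeff 1 : ℤ) : ℝ) = ((a 1 : ℤ) : ℝ) := by
      change _ = ((∑ i, (A i i).coeff 1 : ℤ) : ℝ)
      push_cast
      rfl
    rw [h2, ha1]
    simp
  have hM0 := (idem_trace hM).2 hTr
  ext1 i j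
  rw [← sub_eq_zero]
  apply iota_inj
  have h1 : (1 - A.map (iota (1 : H →* ℝ))) i j = 0 := by
    have : M i j = 0 := by rw [hM0]; rfl
    exact this
  rw [Matrix.sub_apply, Matrix.map_apply] at h1
  rw [map_sub]
  have h2 : iota (1 : H →* ℝ) ((1 : Matrix (Fin m) (Fin m) (RR H)) i j) =
      (1 : Matrix (Fin m) (Fin m) (OA H)) i j := by
    by_cases hij : i = j
    · subst hij
      rw [Matrix.one_apply_eq, Matrix.one_apply_eq, map_one]
    · rw [Matrix.one_apply_ne hij, Matrix.one_apply_ne hij, map_zero]
  rw [h2, ← neg_sub, h1, neg_zero]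

section summand

variable {d : ℕ}

/-- the boundary map of the standard partial resolution -/
def bd (h : Fin d → H) : (Fin d → RR H) →ₗ[RR H] RR H where
  toFun z := ∑ k, z k * (gof (h k) - 1)
  map_add' z z' := by
    rw [← Finset.sum_add_distrib]
    exact Finset.sum_congr rfl fun k _ => add_mul _ _ _
  map_smul' r z := by
    rw [RingHom.id_apply, Finset.smul_sum]
    exact Finset.sum_congr rfl fun k _ => mul_assoc _ _ _

theorem bd_apply (h : Fin d → H) (z : Fin d → RR H) : bd h z = ∑ k, z k * (gof (h k) - 1) := rfl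

theorem bd_single (h : Fin d → H) (k : Fin d) : bd h (Pi.single k 1) = gof (h k) - 1 := by
  rw [bd_apply, Finset.sum_eq_single k]
  · rw [Pi.single_eq_same, one_mul]
  · intro j _ hj
    rw [Pi.single_eq_of_ne hj, zero_mul]
  · intro h
    exact absurd (Finset.mem_univ k) h

theorem bd_surj (h : Fin d → H) (hgen : Subgroup.closure (Set.range h) = ⊤) (r : RR H) :
    ∃ z, bd h z = r - (eps r : RR H) := by
  induction r using rr_ind with
  | h1 g =>
    obtain ⟨W, hW, -⟩ := exists_fox' h (x := g) (by rw [hgen]; trivial)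
    exact ⟨W, by rw [eps_of, Int.cast_one, hW]; rfl⟩
  | h2 x y hx hy =>
    obtain ⟨z, hz⟩ := hx
    obtain ⟨z', hz'⟩ := hy
    refine ⟨z + z', ?_⟩
    rw [map_add, hz, hz', map_add, Int.cast_add]
    abel
  | h3 x hx =>
    obtain ⟨z, hz⟩ := hx
    refine ⟨-z, ?_⟩
    rw [map_neg, hz, map_neg, Int.cast_neg]
    abel

theorem bd_surj' (h : Fin d → H) (hgen : Subgroup.closure (Set.range h) = ⊤) {r : RR H}
    (hr : eps r = 0) : ∃ z, bd h z = r := by
  obtain ⟨z, hz⟩ := bd_surj h hgen r
  exact ⟨z, by rw [hz, hr, Int.cast_zero, sub_zero]⟩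

/-- The final contradiction in the proof that the first Betti number is positive. -/
theorem no_summand (h : Fin d → H) (hgen : Subgroup.closure (Set.range h) = ⊤)
    (hconj : ∀ g : H, g ≠ 1 → ∀ j, 1 ≤ j → ¬ IsConj g (g ^ 2 ^ j))
    (hab : ∀ f : H →* Multiplicative ℤ, f = 1)
    (X : LinearMap.ker (bd h) →ₗ[RR H] RR H) (ω : LinearMap.ker (bd h))
    (ωk : Fin d → LinearMap.ker (bd h))
    (hz : ∀ z : LinearMap.ker (bd h), z = ∑ k, (z : Fin d → RR H) k • ωk k + X z • ω)
    (hX : eps (X ω) = 1)
    (hlam : ∀ p : Fin d → ℤ, ∑ j, eps ((ω : Fin d → RR H) j) * p j = 0) : False := by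
  -- the idempotent matrix
  let row : LinearMap.ker (bd h) → (Fin (d + 1) → RR H) := fun z => Fin.cons (X z) (z : Fin d → RR H)
  let A : Matrix (Fin (d + 1)) (Fin (d + 1)) (RR H) := Matrix.of
    (Fin.cons (row ω) fun k => row (ωk k))
  have hA0 : A 0 = row ω := rfl
  have hAs : ∀ k : Fin d, A k.succ = row (ωk k) := fun k => rfl
  have hrow_add : ∀ z z', row (z + z') = row z + row z' := by
    intro z z'
    funext i
    refine Fin.cases ?_ (fun k => ?_) i
    · change X (z + z') = X z + X z'
      rw [map_add]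
    · rfl
  have hrow_smul : ∀ (r : RR H) z, row (r • z) = r • row z := by
    intro r z
    funext i
    refine Fin.cases ?_ (fun k => ?_) i
    · change X (r • z) = r • X z
      rw [map_smul]
    · rfl
  have hrow_zero : row 0 = 0 := by
    have := hrow_smul 0 0
    rwa [zero_smul, zero_smul] at this
  have hrow_sum : ∀ (s : Finset (Fin d)) (f : Fin d → LinearMap.ker (bd h)),
      row (∑ k ∈ s, f k) = ∑ k ∈ s, row (f k) := by
    intro s f
    induction s using Finset.induction_on with
    | empty => rw [Finset.sum_empty, Finset.sum_empty, hrow_zero]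
    | insert a s ha ih => rw [Finset.sum_insert ha, Finset.sum_insert ha, hrow_add, ih]
  have hrA : ∀ z, row z ᵥ* A = row z := by
    intro z
    rw [Matrix.vecMul_eq_sum, Fin.sum_univ_succ]
    have h1 : row z = row (∑ k, (z : Fin d → RR H) k • ωk k + X z • ω) := congrArg row (hz z)
    conv_rhs => rw [h1]
    rw [hrow_add, hrow_sum, hrow_smul]
    refine (add_comm _ _).trans ?_
    congr 1
    exact Finset.sum_congr rfl fun k _ => (hrow_smul _ _).symm
  have hAA : A * A = A := by
    have h1 : ∀ i, ∃ z, A i = row z := by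
      intro i
      refine Fin.cases ⟨ω, rfl⟩ (fun k => ⟨ωk k, rfl⟩) i
    ext1 i j
    obtain ⟨z, hzi⟩ := h1 i
    have h2 : (A * A) i = (A i) ᵥ* A := rfl
    have h3 : (A * A) i = A i := by rw [h2, hzi, hrA]
    exact congrFun h3 j
  -- the augmented matrix
  have hker : ∀ p : Fin (d + 1) → ℤ, (A.map eps) *ᵥ p = 0 → p = 0 := by
    intro p hp
    have h1 : ∀ i, ∑ j, eps (A i j) * p j = 0 := fun i => congrFun hp i
    have h2 : p 0 = 0 := by
      have h3 := h1 0
      rw [Fin.sum_univ_succ, hA0] at h3
      change eps (X ω) * p 0 + ∑ j : Fin d, eps ((ω : Fin d → RR H) j) * p j.succ = 0 at h3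
      rw [hX, hlam, one_mul, add_zero] at h3
      exact h3
    let lam : (Fin d → RR H) → ℤ := fun z => ∑ j, eps (z j) * p j.succ
    have hlam_add : ∀ z z', lam (z + z') = lam z + lam z' := by
      intro z z'
      change ∑ j, eps (z j + z' j) * p j.succ = _
      rw [← Finset.sum_add_distrib]
      exact Finset.sum_congr rfl fun j _ => by rw [map_add, add_mul]
    have hlam_smul : ∀ (r : RR H) z, lam (r • z) = eps r * lam z := by
      intro r z
      change ∑ j, eps (r * z j) * p j.succ = _
      rw [Finset.mul_sum]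
      exact Finset.sum_congr rfl fun j _ => by rw [map_mul, mul_assoc]
    have hlam_sum : ∀ (s : Finset (Fin d)) (f : Fin d → (Fin d → RR H)),
        lam (∑ k ∈ s, f k) = ∑ k ∈ s, lam (f k) := by
      intro s f
      induction s using Finset.induction_on with
      | empty =>
        rw [Finset.sum_empty, Finset.sum_empty]
        change ∑ j : Fin d, eps (0 : RR H) * p j.succ = 0
        simp
      | insert a s ha ih => rw [Finset.sum_insert ha, Finset.sum_insert ha, hlam_add, ih]
    have hlam_k : ∀ k, lam (ωk k) = 0 := by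
      intro k
      have h3 := h1 k.succ
      rw [Fin.sum_univ_succ, hAs, h2, mul_zero, zero_add] at h3
      exact h3
    have hlam0 : ∀ z : LinearMap.ker (bd h), lam z = 0 := by
      intro z
      have h4 : (z : Fin d → RR H) = ∑ k, (z : Fin d → RR H) k • (ωk k : Fin d → RR H) +
          X z • (ω : Fin d → RR H) := by
        have h5 := congrArg (fun y : LinearMap.ker (bd h) => (y : Fin d → RR H)) (hz z)
        simp only [Submodule.coe_add, Submodule.coe_smul, Submodule.coe_sum] at h5
        exact h5
      rw [h4, hlam_add, hlam_sum, hlam_smul]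
      have h6 : lam (ω : Fin d → RR H) = 0 := hlam fun j : Fin d => p j.succ
      rw [h6, mul_zero, add_zero]
      refine Finset.sum_eq_zero fun k _ => ?_
      rw [hlam_smul, hlam_k, mul_zero]
    choose y hy using fun g : H => bd_surj' h hgen (r := gof g - 1)
      (by rw [map_sub, eps_of, map_one, sub_self])
    have hwd : ∀ z z', bd h z = bd h z' → lam z = lam z' := by
      intro z z' hzz
      have h5 : z - z' ∈ LinearMap.ker (bd h) := by
        rw [LinearMap.mem_ker, map_sub, hzz, sub_self]
      have h6 := hlam0 ⟨z - z', h5⟩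
      have h7 := hlam_add (z - z') z'
      rw [sub_add_cancel] at h7
      rw [h7]
      change lam (z - z') = 0 at h6
      rw [h6, zero_add]
    let D : H →* Multiplicative ℤ := MonoidHom.mk' (fun g => Multiplicative.ofAdd (lam (y g)))
      (fun g g' => by
        rw [← ofAdd_add]
        congr 1
        have h8 : lam (y g') = lam (gof g • y g') := by rw [hlam_smul, eps_of, one_mul]
        rw [h8, ← hlam_add]
        apply hwd
        rw [map_add, map_smul, hy, hy, hy, smul_eq_mul, mul_sub, mul_one, ← gof_mul]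
        abel)
    have hp' : ∀ k : Fin d, p k.succ = 0 := by
      intro k
      have h9 : lam (Pi.single k 1) = p k.succ := by
        change ∑ j, eps ((Pi.single k (1 : RR H) : Fin d → RR H) j) * p j.succ = _
        rw [Finset.sum_eq_single k]
        · rw [Pi.single_eq_same, map_one, one_mul]
        · intro j _ hj
          rw [Pi.single_eq_of_ne hj, map_zero, zero_mul]
        · intro h
          exact absurd (Finset.mem_univ k) h
      rw [← h9, ← hwd (y (h k)) _ (by rw [hy, bd_single])]
      have h10 := congrFun (congrArg DFunLike.coe (hab D)) (h k)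
      exact Multiplicative.ofAdd.injective h10
    funext i
    exact Fin.cases h2 hp' i
  have hBB : (A.map eps) * (A.map eps) = A.map eps := by
    rw [← Matrix.map_mul, hAA]
  have hB : A.map eps = 1 := by
    have h1 : (A.map eps) * (1 - A.map eps) = 0 := by rw [mul_sub, mul_one, hBB, sub_self]
    have h2 : (1 : Matrix (Fin (d + 1)) (Fin (d + 1)) ℤ) - A.map eps = 0 := by
      ext1 i j
      have h3 := hker (fun i => (1 - A.map eps : Matrix (Fin (d + 1)) (Fin (d + 1)) ℤ) i j) (by
        funext i
        exact congrFun (congrFun h1 i) j)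
      exact congrFun h3 i
    exact (sub_eq_zero.1 h2).symm
  have htr : ∑ i, eps (A i i) = ((d + 1 : ℕ) : ℤ) := by
    have h1 : ∀ i, eps (A i i) = 1 := by
      intro i
      have h2 : (A.map eps) i i = (1 : Matrix (Fin (d + 1)) (Fin (d + 1)) ℤ) i i := by rw [hB]
      rwa [Matrix.one_apply_eq] at h2
    simp only [h1]
    simp
  have hA1 := idem_one A hAA hconj htr
  have h1 : (ω : Fin d → RR H) = 0 := by
    funext j
    have h2 : A 0 j.succ = (1 : Matrix (Fin (d + 1)) (Fin (d + 1)) (RR H)) 0 j.succ := by rw [hA1]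
    rw [Matrix.one_apply_ne (Fin.succ_ne_zero j).symm] at h2
    exact h2
  have h2 : ω = 0 := Subtype.ext h1
  rw [h2, map_zero, map_zero] at hX
  exact absurd hX (by norm_num)

end summand

end

end Pool.Agent.H26.PD
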