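import Pool.Graph.R_seed8.Helper386.PD3.PartA
import Pool.Agent.H26.PD.BS

/-!
Kernels of homomorphisms of `PD_3`-groups onto `ℤ`.
-/

set_option autoImplicit false

namespace Pool.Agent.H26.PD

open Pool.Agent.Helper158

/-- no properly ascending HNN structure with finitely generated base -/
def NoAsc (G : Type) [Group G] : Prop :=
  ∀ (H : Type) [Group H], Group.FG H → ∀ (φ : H →* H) (hφ : Function.Injective φ),
    Nonempty (G ≃* Helper386.PD3.AscHNN H φ hφ) → Function.Surjective φ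

theorem ker_fg_of_asc {G : Type} [Group G] (hG : NoAsc G) (χ : G →* Multiplicative ℤ) (t : G)
    (ht : χ t = Multiplicative.ofAdd 1) (B : Subgroup G) (hB : B.FG) (hle : B ≤ χ.ker)
    (h1 : ∀ x ∈ B, t * x * t⁻¹ ∈ B) (h2 : ∀ g, χ g = 1 → ∃ k : ℕ, t ^ k * g * (t ^ k)⁻¹ ∈ B) :
    χ.ker.FG := by
  have h3 : ∀ x ∈ B, t⁻¹ * x * t ∈ B := by
    by_contra hcon
    push Not at hcon
    obtain ⟨φ, hφ, hs, he⟩ := Helper386.PD3.exists_asc χ t ht B h1 (fun x hx => hle hx) h2 hcon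
    exact hs (hG B ((Group.fg_iff_subgroup_fg B).2 hB) φ hφ he)
  have h4 : ∀ (k : ℕ) (g : G), t ^ k * g * (t ^ k)⁻¹ ∈ B → g ∈ B := by
    intro k
    induction k with
    | zero => intro g hg; simpa using hg
    | succ k ih =>
      intro g hg
      apply ih
      have := h3 _ hg
      have e : t⁻¹ * (t ^ (k + 1) * g * (t ^ (k + 1))⁻¹) * t = t ^ k * g * (t ^ k)⁻¹ := by
        rw [pow_succ']
        group
      rwa [e] at this
  have h5 : B = χ.ker := by
    apply le_antisymm hle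
    intro g hg
    obtain ⟨k, hk⟩ := h2 g hg
    exact h4 k g hk
  rwa [← h5]

theorem ker_fg_or_free {G : Type} [Group G] [Group.IsFinitelyPresented G] (hG : NoAsc G)
    (χ : G →* Multiplicative ℤ) (hχ : Function.Surjective χ) :
    χ.ker.FG ∨ ∃ F : FreeGroup (Fin 2) →* χ.ker, Function.Injective F := by
  obtain ⟨t, ht⟩ := hχ (Multiplicative.ofAdd 1)
  rcases bs_cases χ t ht with h | ⟨B, hB, hle, ⟨h1, h2⟩ | ⟨h1, h2⟩⟩
  · exact Or.inr h
  · exact Or.inl (ker_fg_of_asc hG χ t ht B hB hle h1 h2)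
  · left
    have hk : χ⁻¹.ker = χ.ker := by
      ext x
      rw [MonoidHom.mem_ker, MonoidHom.mem_ker, MonoidHom.inv_apply, inv_eq_one]
    rw [← hk]
    refine ker_fg_of_asc hG χ⁻¹ t⁻¹ ?_ B hB (hk ▸ hle) (fun x hx => ?_) (fun g hg => ?_)
    · rw [MonoidHom.inv_apply, map_inv, inv_inv, ht]
    · rw [inv_inv]
      exact h1 x hx
    · obtain ⟨k, hk'⟩ := h2 g (by
        rw [MonoidHom.inv_apply, inv_eq_one] at hg
        exact hg)
      refine ⟨k, ?_⟩
      rwa [inv_pow, inv_inv]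

end Pool.Agent.H26.PD
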