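import Pool.Agent.H26.PD.Struct
import Pool.Agent.H26.PD.FullX
import Pool.Graph.R_pool_sql_team_seeded_2aa45f1a.Q138.PD.Tors

/-!
The kernel of a map of a `PD_3`-group onto `ℤ` contains a free group of rank two, or it is the
fundamental group of the torus or the Klein bottle.
-/

set_option autoImplicit false

namespace Pool.Agent.H26.PD

open Pool.Agent.Helper386.PD3
open scoped Classical Matrix

variable {G : Type} [Group G]

theorem exists_gens {H : Type} [Group H] (h : Group.FG H) :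
    ∃ (d : ℕ) (x : Fin d → H), Subgroup.closure (Set.range x) = ⊤ := by
  obtain ⟨S, hS⟩ := Group.fg_iff'.1 h
  obtain ⟨T, hT, hTc⟩ := hS
  refine ⟨T.card, fun i => (T.equivFin.symm i : H), ?_⟩
  rw [← hTc]
  congr 1
  ext z
  constructor
  · rintro ⟨i, rfl⟩
    exact (T.equivFin.symm i).2
  · intro hz
    exact ⟨T.equivFin ⟨z, hz⟩, by simp⟩

section

variable {n : ℕ} {w : G →* ℤˣ} {e0 e1 e2 e3 d0 d1 d2 : MR G n} {χ : G →* Multiplicative ℤ}

theorem structure_of_full (hF : Full w e0 e1 e2 e3 d0 d1 d2)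
    (hex2 : ∀ v, v ᵥ* e2 = v → v ᵥ* d1 = 0 → ∃ u, u ᵥ* d2 = v) {t : G}
    (ht : lv χ t = 1) (hK : χ.ker.FG) (htf : ∀ g : G, g ≠ 1 → ∀ k : ℤ, k ≠ 0 → g ^ k ≠ 1)
    (hno : ¬ ∃ F : FreeGroup (Fin 2) →* χ.ker, Function.Injective F) :
    ∃ φ : Multiplicative ℤ →* MulAut (Multiplicative ℤ),
      Nonempty (χ.ker ≃* Multiplicative ℤ ⋊[φ] Multiplicative ℤ) := by
  let H : Subgroup G := χ.ker ⊓ w.ker
  have hH : ∀ g, g ∈ H ↔ lv χ g = 0 ∧ w g = 1 := fun g => by
    rw [Subgroup.mem_inf, mem_ker_lv, MonoidHom.mem_ker]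
  -- `H` is finitely generated
  have hHfg : Group.FG H := by
    have h1 : Group.FG χ.ker := (Group.fg_iff_subgroup_fg _).2 hK
    let w' : χ.ker →* ℤˣ := w.comp χ.ker.subtype
    have h2 : Finite w'.range := inferInstance
    have h3 : w'.ker.index ≠ 0 := by
      rw [Subgroup.index_ker]
      exact Nat.card_pos.ne'
    have h4 : w'.ker.FiniteIndex := ⟨h3⟩
    have h5 : Group.FG w'.ker := inferInstance
    let f : w'.ker →* H :=
      { toFun := fun x => ⟨(x : χ.ker), Subgroup.mem_inf.2 ⟨(x : χ.ker).2, x.2⟩⟩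
        map_one' := rfl
        map_mul' := fun _ _ => rfl }
    refine Group.fg_of_surjective (f := f) ?_
    intro y
    exact ⟨⟨⟨y, (Subgroup.mem_inf.1 y.2).1⟩, (Subgroup.mem_inf.1 y.2).2⟩, rfl⟩
  obtain ⟨d, h, hgen⟩ := exists_gens hHfg
  -- a map to the integers
  obtain ⟨f, z0, hz0⟩ : ∃ (f : H →* Multiplicative ℤ) (z : H), f z ≠ 1 := by
    by_contra hcon
    push Not at hcon
    refine b1_pos hF hex2 ht hK hH h hgen ?_ fun f => MonoidHom.ext fun z => hcon f z
    intro g hg j hj hc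
    obtain ⟨x, hx⟩ := isConj_iff.1 hc
    refine no_bs hF ht hK (x := (x : G)) (g := (g : G)) (m := 2 ^ j) ((hH _).1 x.2).1
      ((hH _).1 g.2).1 (htf _ fun h1 => hg (Subtype.ext h1)) ?_ ?_
    · calc 2 = 2 ^ 1 := rfl
        _ ≤ 2 ^ j := Nat.pow_le_pow_right (by norm_num) hj
    · exact congrArg Subtype.val hx
  let P : G → ℤ := fun x => if hx : x ∈ H then (f ⟨x, hx⟩).toAdd else 0
  have hPx : ∀ x (hx : x ∈ H), P x = (f ⟨x, hx⟩).toAdd := fun x hx => dif_pos hx
  have hP : AddOn H P := by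
    intro x hx y hy
    rw [hPx x hx, hPx y hy, hPx _ (H.mul_mem hx hy)]
    have : (⟨x * y, H.mul_mem hx hy⟩ : H) = ⟨x, hx⟩ * ⟨y, hy⟩ := rfl
    rw [this, map_mul, toAdd_mul]
  have hPz : P z0 ≠ 0 := by
    rw [hPx _ z0.2]
    intro h0
    exact hz0 (Multiplicative.toAdd.injective h0)
  by_cases hori : ∀ g, lv χ g = 0 → w g = 1
  · have hKH : χ.ker = H := by
      ext g
      rw [mem_ker_lv, hH]
      exact ⟨fun h => ⟨h, hori g h⟩, fun h => h.1⟩
    refine plus_case hF hex2 ht hK htf hno hH (P := P) ?_ (z := z0) ?_ hPz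
    · rw [hKH]
      exact hP
    · rw [hKH]
      exact z0.2
  · push Not at hori
    obtain ⟨κ, hκ, hκ'⟩ := hori
    have hκw : w κ = -1 := (Int.units_eq_one_or (w κ)).resolve_left hκ'
    by_cases hanti : ∀ x ∈ H, P (κ * x * κ⁻¹) = -P x
    · exact minus_case hF hex2 ht hK htf hno hH hκ hκw hP hanti z0.2 hPz
    · push Not at hanti
      obtain ⟨z, hz, hPz'⟩ := hanti
      have hnH : ∀ x ∈ H, κ * x * κ⁻¹ ∈ H := by
        intro x hx
        rw [hH, lv_mul, lv_mul, lv_inv, ((hH x).1 hx).1, map_mul, map_mul, map_inv,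
          ((hH x).1 hx).2]
        exact ⟨by ring, by rw [mul_one, mul_inv_cancel]⟩
      have hlK : ∀ x ∈ H, lv χ x = 0 := fun x hx => ((hH x).1 hx).1
      have hwH : ∀ x ∈ H, w x = 1 := fun x hx => ((hH x).1 hx).2
      have hwo : ∀ x ∈ χ.ker, x ∉ H → w x = -1 := by
        intro x hx hxH
        rcases Int.units_eq_one_or (w x) with h1 | h1
        · exact absurd ((hH x).2 ⟨mem_ker_lv.1 hx, h1⟩) hxH
        · exact h1
      have hin : ∀ x, lv χ x = 0 → w x = 1 → x ∈ H := fun x h1 h2 => (hH x).2 ⟨h1, h2⟩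
      have hnin : ∀ x, w x = -1 → x ∉ H := by
        intro x hx hxH
        rw [hwH x hxH] at hx
        exact absurd hx (by decide)
      let V : G → ℤ := fun x => if x ∈ H then P x + P (κ * x * κ⁻¹) else P (x * κ⁻¹) + P (κ * x)
      have hV1 : ∀ x ∈ H, V x = P x + P (κ * x * κ⁻¹) := fun x hx => if_pos hx
      have hV2 : ∀ x, x ∉ H → V x = P (x * κ⁻¹) + P (κ * x) := fun x hx => if_neg hx
      have hmm : (-1 : ℤˣ) * -1 = 1 := by decide
      have hkl : ∀ x ∈ χ.ker, x ∉ H → κ * x ∈ H := fun x hx hxH => hin _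
        (by rw [lv_mul, hκ, mem_ker_lv.1 hx]; rfl) (by rw [map_mul, hκw, hwo x hx hxH, hmm])
      have hkr : ∀ x ∈ χ.ker, x ∉ H → x * κ⁻¹ ∈ H := fun x hx hxH => hin _
        (by rw [lv_mul, lv_inv, hκ, mem_ker_lv.1 hx]; rfl)
        (by rw [map_mul, map_inv, hκw, hwo x hx hxH]; decide)
      have hVadd : AddOn χ.ker V := by
        intro x hx y hy
        by_cases hxH : x ∈ H
        · by_cases hyH : y ∈ H
          · rw [hV1 x hxH, hV1 y hyH, hV1 _ (H.mul_mem hxH hyH), hP x hxH y hyH]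
            have h1 : κ * (x * y) * κ⁻¹ = (κ * x * κ⁻¹) * (κ * y * κ⁻¹) := by group
            rw [h1, hP _ (hnH x hxH) _ (hnH y hyH)]
            ring
          · have hxy : x * y ∉ H := hnin _ (by rw [map_mul, hwH x hxH, hwo y hy hyH]; rfl)
            rw [hV1 x hxH, hV2 y hyH, hV2 _ hxy]
            have h1 : x * y * κ⁻¹ = x * (y * κ⁻¹) := mul_assoc _ _ _
            have h2 : κ * (x * y) = (κ * x * κ⁻¹) * (κ * y) := by group
            rw [h1, h2, hP x hxH _ (hkr y hy hyH), hP _ (hnH x hxH) _ (hkl y hy hyH)]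
            ring
        · by_cases hyH : y ∈ H
          · have hxy : x * y ∉ H := hnin _ (by rw [map_mul, hwo x hx hxH, hwH y hyH]; rfl)
            rw [hV2 x hxH, hV1 y hyH, hV2 _ hxy]
            have h1 : x * y * κ⁻¹ = (x * κ⁻¹) * (κ * y * κ⁻¹) := by group
            have h2 : κ * (x * y) = (κ * x) * y := (mul_assoc _ _ _).symm
            rw [h1, h2, hP _ (hkr x hx hxH) _ (hnH y hyH), hP _ (hkl x hx hxH) y hyH]
            ring
          · have hxy : x * y ∈ H := hin _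
              (by rw [lv_mul, mem_ker_lv.1 hx, mem_ker_lv.1 hy]; rfl)
              (by rw [map_mul, hwo x hx hxH, hwo y hy hyH, hmm])
            rw [hV2 x hxH, hV2 y hyH, hV1 _ hxy]
            have h1 : x * y = (x * κ⁻¹) * (κ * y) := by group
            have h2 : κ * (x * y) * κ⁻¹ = (κ * x) * (y * κ⁻¹) := by group
            rw [h2, hP _ (hkl x hx hxH) _ (hkr y hy hyH)]
            rw [h1, hP _ (hkr x hx hxH) _ (hkl y hy hyH)]
            ring
      refine plus_case hF hex2 ht hK htf hno hH (P := V) hVadd (z := z)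
        (mem_ker_lv.2 (hlK z hz)) ?_
      rw [hV1 z hz]
      omega

end

variable {P : ℕ → Type} [∀ i, AddCommGroup (P i)]
  [∀ i, Module (MonoidAlgebra ℤ G) (P i)] {d : ∀ i, P (i + 1) →ₗ[MonoidAlgebra ℤ G] P i}
  {ε : P 0 →+ ℤ}

theorem kernel_structure (hR : Pool.Agent.Helper158.Reso P d ε) (m : ℕ) (hm : ∀ i, m < i → Subsingleton (P i))
    [∀ i, Module.Finite (MonoidAlgebra ℤ G) (P i)]
    [∀ i, Module.Projective (MonoidAlgebra ℤ G) (P i)]
    (hcoh : ∀ i, i ≠ 3 → Subsingleton (groupCohomology (Rep.leftRegular ℤ G) i))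
    (htop : Nonempty (groupCohomology (Rep.leftRegular ℤ G) 3 ≃+ ℤ))
    {χ : G →* Multiplicative ℤ} (hχ : Function.Surjective χ) (hK : χ.ker.FG)
    (hno : ¬ ∃ F : FreeGroup (Fin 2) →* χ.ker, Function.Injective F) :
    ∃ φ : Multiplicative ℤ →* MulAut (Multiplicative ℤ),
      Nonempty (χ.ker ≃* Multiplicative ℤ ⋊[φ] Multiplicative ℤ) := by
  obtain ⟨w, n, e0, e1, e2, e3, d0, d1, d2, hF, hex2⟩ := exists_fullx hR m hm hcoh htop
  obtain ⟨t, ht⟩ := hχ (Multiplicative.ofAdd 1)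
  have ht' : lv χ t = 1 := by
    change (χ t).toAdd = 1
    rw [ht]
    rfl
  refine structure_of_full hF hex2 ht' hK (fun g hg k hk hgk => hg ?_) hno
  refine Pool.Agent.Q138.PD.torsion_free d ε m inferInstance hm hR.surj hR.equi hR.ex0
    (fun i => ?_) g (isOfFinOrder_iff_zpow_eq_one.2 ⟨k, hk, hgk⟩)
  ext x
  rw [LinearMap.mem_ker]
  exact hR.ex i x

end Pool.Agent.H26.PD
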