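import Pool.Agent.H26.PD.Fun

/-!
Vanishing of the cohomology in degrees two and three of a `PD_3`-group with coefficients in modules
of Novikov type, when the kernel of the character is finitely generated.
-/

set_option autoImplicit false

namespace Pool.Agent.H26.PD

open Pool.Agent.Helper386.PD3
open scoped Classical

noncomputable section

variable {G : Type} [Group G] {M : Type} [AddCommGroup M]

theorem exists_fox' {d : ℕ} (h : Fin d → G) {x : G} (hx : x ∈ Subgroup.closure (Set.range h)) :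
    ∃ W : Fin d → RR G, gof x - 1 = ∑ j, W j * (gof (h j) - 1) ∧
      ∀ j, W j ∈ Subring.closure (gof '' (Subgroup.closure (Set.range h) : Set G)) := by
  have hof : ∀ {y : G}, y ∈ Subgroup.closure (Set.range h) →
      gof y ∈ Subring.closure (gof '' (Subgroup.closure (Set.range h) : Set G)) :=
    fun {y} hy => Subring.subset_closure ⟨y, hy, rfl⟩
  induction hx using Subgroup.closure_induction with
  | mem x hx =>
    obtain ⟨i, rfl⟩ := hx
    refine ⟨Pi.single i 1, ?_, ?_⟩
    · rw [Finset.sum_eq_single i]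
      · rw [Pi.single_eq_same, one_mul]
      · intro j _ hj
        rw [Pi.single_eq_of_ne hj, zero_mul]
      · intro h
        exact absurd (Finset.mem_univ i) h
    · intro j
      by_cases hj : j = i
      · subst hj
        rw [Pi.single_eq_same]
        exact one_mem _
      · rw [Pi.single_eq_of_ne hj]
        exact zero_mem _
  | one =>
    refine ⟨0, ?_, fun j => zero_mem _⟩
    rw [gof_one, sub_self]
    simp
  | mul x y hx hy ihx ihy =>
    obtain ⟨Wx, h1, h2⟩ := ihx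
    obtain ⟨Wy, h3, h4⟩ := ihy
    refine ⟨fun j => gof x * Wy j + Wx j, ?_, fun j =>
      add_mem (mul_mem (hof hx) (h4 j)) (h2 j)⟩
    have e : gof (x * y) - 1 = gof x * (gof y - 1) + (gof x - 1) := by
      rw [gof_mul, mul_sub, mul_one]
      abel
    rw [e, h3, h1, Finset.mul_sum, ← Finset.sum_add_distrib]
    exact Finset.sum_congr rfl fun j _ => by rw [add_mul, mul_assoc]
  | inv x hx ihx =>
    obtain ⟨Wx, h1, h2⟩ := ihx
    refine ⟨fun j => -(gof x⁻¹ * Wx j), ?_, fun j =>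
      neg_mem (mul_mem (hof (inv_mem hx)) (h2 j))⟩
    have e : gof x⁻¹ - 1 = -(gof x⁻¹ * (gof x - 1)) := by
      rw [mul_sub, mul_one, ← gof_mul, inv_mul_cancel, gof_one]
      abel
    rw [e, h1, Finset.mul_sum, ← Finset.sum_neg_distrib]
    exact Finset.sum_congr rfl fun j _ => by rw [neg_mul, mul_assoc]

theorem exists_fin_gen {H : Subgroup G} (hH : H.FG) :
    ∃ (d : ℕ) (h : Fin d → G), Subgroup.closure (Set.range h) = H := by
  obtain ⟨S, hS⟩ := hH
  refine ⟨S.card, fun i => (S.equivFin.symm i : G), ?_⟩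
  rw [← hS]
  congr 1
  ext x
  constructor
  · rintro ⟨i, rfl⟩
    exact (S.equivFin.symm i).2
  · intro hx
    exact ⟨S.equivFin ⟨x, hx⟩, by simp⟩

theorem LB_of_closure {χ : G →* Multiplicative ℤ} (w : G →* ℤˣ) {r : RR G} {H : Subgroup G}
    (hH : ∀ g ∈ H, lv χ g = 0) (hr : r ∈ Subring.closure (gof '' (H : Set G))) {m : ℤ} :
    ∀ {f : G → M}, LB χ m f → LB χ m (rho M (dg w r) f) := by
  induction hr using Subring.closure_induction with
  | mem x hx =>
    obtain ⟨g, hg, rfl⟩ := hx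
    intro f hf
    rw [dg_of, map_zsmul, rho_of]
    have h1 := hf.tr g⁻¹
    rw [lv_inv, hH g hg, neg_zero, sub_zero] at h1
    exact h1.smul _
  | zero =>
    intro f hf
    rw [dg_zero, map_zero]
    exact fun x _ => rfl
  | one =>
    intro f hf
    rw [dg_one, map_one]
    exact hf
  | add x y _ _ hx hy =>
    intro f hf
    rw [dg_add, map_add]
    exact (hx hf).add (hy hf)
  | neg x _ hx =>
    intro f hf
    rw [dg_neg, map_neg]
    exact (hx hf).neg
  | mul x y _ _ hx hy =>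
    intro f hf
    rw [dg_mul, map_mul]
    exact hy (hx hf)

variable {χ : G →* Multiplicative ℤ} {N : Subgroup G} {a : G → Module.End ℤ M}

theorem isUnit_mat {d : ℕ} (hN : ∀ g ∈ N, lv χ g = 0)
    (T : Matrix (Fin d) (Fin d) (Module.End ℤ (Wp χ N a)))
    (hT : ∀ i j (m : ℤ) (f : Wp χ N a), LB χ m f.1 → LB χ (m + 1) (T i j f).1) :
    IsUnit (1 - T) := by
  let e := endVecRingEquivMatrixEnd (Fin d) ℤ (Wp χ N a)
  have h1 : IsUnit (1 - e.symm T) := by
    refine isUnit_one_sub hN _ fun m c hc i => ?_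
    have h2 : (e.symm T c i).1 = ∑ j, (T i j (c j)).1 := by
      change ((∑ j, T i j (c j) : Wp χ N a) : G → M) = _
      rw [Submodule.coe_sum]
    rw [h2]
    exact LB.sum _ fun j _ => hT i j m _ (hc j)
  have h2 := h1.map e
  rwa [map_sub, map_one, RingEquiv.apply_symm_apply] at h2

/-- the scalar version -/
theorem isUnit_scalar (hN : ∀ g ∈ N, lv χ g = 0) (T : Module.End ℤ (Wp χ N a))
    (hT : ∀ (m : ℤ) (f : Wp χ N a), LB χ m f.1 → LB χ (m + 1) (T f).1) : IsUnit (1 - T) := by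
  obtain ⟨u, hu⟩ := isUnit_mat (d := 1) hN (Matrix.of fun _ _ => T) (fun _ _ => hT)
  have h00 : ((1 : Matrix (Fin 1) (Fin 1) (Module.End ℤ (Wp χ N a))) -
      (Matrix.of fun _ _ => T) : Matrix (Fin 1) (Fin 1) (Module.End ℤ (Wp χ N a))) 0 0 =
        1 - T := by
    rw [Matrix.sub_apply, Matrix.one_apply_eq]
    rfl
  refine isUnit_iff_exists.2 ⟨(u⁻¹).1 0 0, ?_, ?_⟩
  · have h1 := congrFun (congrFun u.mul_inv 0) 0
    rw [Matrix.mul_apply, Fin.sum_univ_one, hu, h00, Matrix.one_apply_eq] at h1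
    exact h1
  · have h1 := congrFun (congrFun u.inv_mul 0) 0
    rw [Matrix.mul_apply, Fin.sum_univ_one, hu, h00, Matrix.one_apply_eq] at h1
    exact h1

/-- the dual action -/
def iop (w : G →* ℤˣ) {A : Type} [Ring A] (ι : RR G →+* A) : RR G →+* Aᵐᵒᵖ :=
  (RingHom.op ι).comp (dagHom w)

theorem iop_apply (w : G →* ℤˣ) {A : Type} [Ring A] (ι : RR G →+* A) (x : RR G) :
    iop w ι x = MulOpposite.op (ι (dg w x)) := rfl

theorem allInner_iop (w : G →* ℤˣ) {t : G} (ht : lv χ t = 1) (hK : χ.ker.FG)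
    (hN : ∀ g ∈ N, lv χ g = 0) :
    IsUnit (iop w (resW (stable_Wp χ N a)) (gof t⁻¹) - 1) ∧
    AllInner (iop w (resW (stable_Wp χ N a))) := by
  obtain ⟨d, h, hcl⟩ := exists_fin_gen hK
  have hker : ∀ g ∈ χ.ker, lv χ g = 0 := by
    intro g hg
    rw [lv, MonoidHom.mem_ker.1 hg]
    rfl
  have hmem : ∀ i, h i ∈ χ.ker := fun i => by
    rw [← hcl]
    exact Subgroup.subset_closure ⟨i, rfl⟩
  have hfox : ∀ i, ∃ W : Fin d → RR G,
      gof (t⁻¹ * h i * t⁻¹⁻¹) - 1 = ∑ j, W j * (gof (h j) - 1) ∧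
      ∀ j, W j ∈ Subring.closure (gof '' (χ.ker : Set G)) := by
    intro i
    have := exists_fox' h (x := t⁻¹ * h i * t⁻¹⁻¹)
      (by rw [hcl]; exact (inferInstance : χ.ker.Normal).conj_mem _ (hmem i) _)
    rwa [hcl] at this
  choose W hW1 hW2 using hfox
  let ι := resW (stable_Wp χ N a)
  -- the raising operator
  have hraise : ∀ (m : ℤ) (f : Wp χ N a), LB χ m f.1 → LB χ (m + 1) (ι (dg w (gof t)) f).1 := by
    intro m f hf
    rw [resW_coe, dg_of, map_zsmul, rho_of]
    have h1 := hf.tr t⁻¹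
    rw [lv_inv, ht, sub_neg_eq_add] at h1
    exact h1.smul _
  have hinv1 : iop w ι (gof t) * iop w ι (gof t⁻¹) = 1 := by
    rw [← map_mul, ← gof_mul, mul_inv_cancel, gof_one, map_one]
  have hinv2 : iop w ι (gof t⁻¹) * iop w ι (gof t) = 1 := by
    rw [← map_mul, ← gof_mul, inv_mul_cancel, gof_one, map_one]
  -- the unit
  have hunit : IsUnit (iop w ι (gof t⁻¹) - 1) := by
    have h1 : iop w ι (gof t⁻¹) - 1 = iop w ι (gof t⁻¹) * (1 - iop w ι (gof t)) := by
      rw [mul_sub, mul_one, hinv2]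
    rw [h1]
    refine (isUnit_iff_exists.2 ⟨_, hinv2, hinv1⟩).mul ?_
    have h2 := isUnit_scalar hN (ι (dg w (gof t))) hraise
    exact h2.op
  refine ⟨hunit, ?_⟩
  let T : Matrix (Fin d) (Fin d) (Module.End ℤ (Wp χ N a)) := fun j i =>
    ι (dg w (W i j)) * ι (dg w (gof t))
  obtain ⟨u, hu⟩ := isUnit_mat hN T (by
    intro j i m f hf
    change LB χ (m + 1) (ι (dg w (W i j)) (ι (dg w (gof t)) f)).1
    rw [resW_coe]
    exact LB_of_closure w hker (hW2 i j) (hraise m f hf))
  let S0 : Matrix (Fin d) (Fin d) (Module.End ℤ (Wp χ N a))ᵐᵒᵖ := fun i j =>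
    MulOpposite.op ((u⁻¹).1 j i)
  let Q : Matrix (Fin d) (Fin d) (Module.End ℤ (Wp χ N a))ᵐᵒᵖ :=
    Matrix.diagonal (fun _ => iop w ι (gof t)) * (Matrix.of W).map (iop w ι)
  have hQ : ∀ i j, Q i j = MulOpposite.op (T j i) := by
    intro i j
    exact Matrix.diagonal_mul _ _ _ _
  have hS0 : S0 * (1 - Q) = 1 := by
    ext1 i j
    have h1 := congrFun (congrFun u.mul_inv j) i
    rw [Matrix.mul_apply] at h1
    rw [Matrix.mul_apply]
    have h2 : ∀ k, S0 i k * (1 - Q) k j = MulOpposite.op (u.1 j k * (u⁻¹).1 k i) := by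
      intro k
      have h3 : (1 - Q) k j = MulOpposite.op (u.1 j k) := by
        rw [Matrix.sub_apply, hQ, hu, Matrix.sub_apply, MulOpposite.op_sub]
        congr 1
        by_cases hkj : k = j
        · subst hkj
          rw [Matrix.one_apply_eq, Matrix.one_apply_eq]
          rfl
        · rw [Matrix.one_apply_ne hkj, Matrix.one_apply_ne (Ne.symm hkj)]
          rfl
      rw [h3, MulOpposite.op_mul]
    simp only [h2]
    rw [← Finset.op_sum, h1]
    by_cases hij : i = j
    · subst hij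
      rw [Matrix.one_apply_eq, Matrix.one_apply_eq]
      rfl
    · rw [Matrix.one_apply_ne hij, Matrix.one_apply_ne (Ne.symm hij)]
      rfl
  have hgen : Subgroup.closure (Set.range h ∪ {t⁻¹}) = ⊤ := by
    rw [eq_top_iff]
    intro x _
    have h1 : x = (x * t ^ (-lv χ x)) * (t⁻¹ : G) ^ (-lv χ x) := by group
    have hin : ∀ y ∈ χ.ker, y ∈ Subgroup.closure (Set.range h ∪ {t⁻¹}) := fun y hy =>
      Subgroup.closure_mono Set.subset_union_left (by rw [hcl]; exact hy)
    have htin : t⁻¹ ∈ Subgroup.closure (Set.range h ∪ {t⁻¹}) :=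
      Subgroup.subset_closure (Set.mem_union_right _ (Set.mem_singleton _))
    rw [h1]
    refine mul_mem (hin _ ?_) (zpow_mem htin _)
    rw [MonoidHom.mem_ker, map_mul, map_zpow]
    have h2 : χ t = Multiplicative.ofAdd 1 := by
      rw [← ht]
      rfl
    rw [h2]
    apply Multiplicative.toAdd.injective
    rw [toAdd_mul, toAdd_zpow, toAdd_ofAdd, toAdd_one, smul_eq_mul, mul_one]
    change lv χ x + -lv χ x = 0
    ring
  refine allInner_of h t⁻¹ hgen (Matrix.of W) hW1 hunit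
    (Matrix.diagonal (fun _ => iop w ι (gof t⁻¹)) - (Matrix.of W).map (iop w ι))
    (S0 * Matrix.diagonal (fun _ => iop w ι (gof t))) rfl ?_
  rw [mul_assoc, mul_sub, Matrix.diagonal_mul_diagonal]
  have e1 : (Matrix.diagonal fun _ : Fin d => iop w ι (gof t) * iop w ι (gof t⁻¹)) = 1 := by
    rw [hinv1]
    exact Matrix.diagonal_one
  rw [e1]
  exact hS0

/-- Contractions in the two top degrees. -/
theorem novikov_op {n : ℕ} {w : G →* ℤˣ} {e0 e1 e2 e3 d0 d1 d2 : MR G n}
    (hF : Full w e0 e1 e2 e3 d0 d1 d2) {t : G} (ht : lv χ t = 1) (hK : χ.ker.FG)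
    (hN : ∀ g ∈ N, lv χ g = 0) :
    ∃ Y0 Y1 : Matrix (Fin n) (Fin n) (Module.End ℤ (Wp χ N a)),
      e3.map (resW (stable_Wp χ N a)) = d2.map (resW (stable_Wp χ N a)) * Y0 ∧
      e2.map (resW (stable_Wp χ N a)) = Y0 * d2.map (resW (stable_Wp χ N a)) +
        d1.map (resW (stable_Wp χ N a)) * Y1 := by
  let ι := resW (stable_Wp χ N a)
  obtain ⟨hu, hin⟩ := allInner_iop (a := a) (N := N) w ht hK hN
  obtain ⟨X0, X1, h1, h2, -⟩ := exists_contr (iop w ι) hF.colow hin t⁻¹ hu
  refine ⟨Matrix.of fun i j => (X0 j i).unop, Matrix.of fun i j => (X1 j i).unop, ?_, ?_⟩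
  · ext1 i j
    have h3 := congrArg MulOpposite.unop (congrFun (congrFun h1 j) i)
    rw [Matrix.mul_apply, Finset.unop_sum] at h3
    rw [Matrix.mul_apply]
    have h4 : MulOpposite.unop ((dgM w e3).map (iop w ι) j i) = ι (e3 i j) := by
      change ι (dg w (dg w (e3 i j))) = _
      rw [dg_dg]
    rw [h4] at h3
    refine h3.symm.trans (Finset.sum_congr rfl fun k _ => ?_)
    change ι (dg w (dg w (d2 i k))) * (X0 j k).unop = ι (d2 i k) * (X0 j k).unop
    rw [dg_dg]
  · ext1 i j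
    have h3 := congrArg MulOpposite.unop (congrFun (congrFun h2 j) i)
    rw [Matrix.add_apply, Matrix.mul_apply, Matrix.mul_apply, MulOpposite.unop_add,
      Finset.unop_sum, Finset.unop_sum] at h3
    rw [Matrix.add_apply, Matrix.mul_apply, Matrix.mul_apply]
    have h4 : MulOpposite.unop ((dgM w e2).map (iop w ι) j i) = ι (e2 i j) := by
      change ι (dg w (dg w (e2 i j))) = _
      rw [dg_dg]
    rw [h4] at h3
    refine h3.trans ?_
    congr 1
    · refine Finset.sum_congr rfl fun k _ => ?_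
      change (X0 k i).unop * ι (dg w (dg w (d2 k j))) = (X0 k i).unop * ι (d2 k j)
      rw [dg_dg]
    · refine Finset.sum_congr rfl fun k _ => ?_
      change ι (dg w (dg w (d1 i k))) * (X1 j k).unop = ι (d1 i k) * (X1 j k).unop
      rw [dg_dg]

/-- the cohomology in degrees three and two -/
theorem novikov {n : ℕ} {w : G →* ℤˣ} {e0 e1 e2 e3 d0 d1 d2 : MR G n}
    (hF : Full w e0 e1 e2 e3 d0 d1 d2) {t : G} (ht : lv χ t = 1) (hK : χ.ker.FG)
    (hN : ∀ g ∈ N, lv χ g = 0) :
    (∀ c : Fin n → (G → M), (∀ i, c i ∈ Wp χ N a) → mv e3 c = c →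
      ∃ b : Fin n → (G → M), (∀ i, b i ∈ Wp χ N a) ∧ mv d2 b = c) ∧
    (∀ c : Fin n → (G → M), (∀ i, c i ∈ Wp χ N a) → mv e2 c = c → mv d2 c = 0 →
      ∃ b : Fin n → (G → M), (∀ i, b i ∈ Wp χ N a) ∧ mv d1 b = c) := by
  obtain ⟨Y0, Y1, h1, h2⟩ := novikov_op (a := a) (N := N) hF ht hK hN
  have hcoe : ∀ (A : MR G n) (b : Fin n → Wp χ N a) (i : Fin n),
      ((ac (A.map (resW (stable_Wp χ N a))) b i : Wp χ N a) : G → M) =
        mv A (fun j => (b j).1) i := fun A b i => ac_resW _ A b i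
  constructor
  · intro c hc hec
    let c' : Fin n → Wp χ N a := fun i => ⟨c i, hc i⟩
    refine ⟨fun i => (ac Y0 c' i).1, fun i => (ac Y0 c' i).2, ?_⟩
    funext i
    rw [← hcoe, ← ac_mul, ← h1, hcoe]
    exact congrFun hec i
  · intro c hc hec hdc
    let c' : Fin n → Wp χ N a := fun i => ⟨c i, hc i⟩
    refine ⟨fun i => (ac Y1 c' i).1, fun i => (ac Y1 c' i).2, ?_⟩
    have h3 : ac (d2.map (resW (stable_Wp χ N a))) c' = 0 := by
      funext i
      apply Subtype.ext
      rw [hcoe]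
      exact congrFun hdc i
    have h4 : ac (e2.map (resW (stable_Wp χ N a))) c' =
        ac (d1.map (resW (stable_Wp χ N a))) (ac Y1 c') := by
      rw [h2, add_ac, ac_mul, h3, ac_zero, zero_add, ac_mul]
    funext i
    rw [← hcoe, ← h4, hcoe]
    exact congrFun hec i

end

end Pool.Agent.H26.PD
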