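import Pool.Agent.H26.PD.LC

/-!
Duality for the orientable part `H` of the kernel of the character.
-/

set_option autoImplicit false

namespace Pool.Agent.H26.PD

open Pool.Agent.Helper386.PD3
open scoped Classical Matrix

noncomputable section

variable {G : Type} [Group G] {M : Type} [AddCommGroup M]

/-- `a` is an action of the subgroup `H` -/
def IsAct (H : Subgroup G) (a : G → Module.End ℤ M) : Prop :=
  a 1 = 1 ∧ ∀ g ∈ H, ∀ g' ∈ H, a (g * g') = a g * a g'

/-- the induced functions concentrated on `H` -/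
def del (H : Subgroup G) (a : G → Module.End ℤ M) : M →ₗ[ℤ] (G → M) where
  toFun m y := if y ∈ H then a y m else 0
  map_add' m m' := by
    funext y
    change (if y ∈ H then a y (m + m') else 0) = (if y ∈ H then a y m else 0) +
      (if y ∈ H then a y m' else 0)
    split_ifs
    · rw [map_add]
    · rw [add_zero]
  map_smul' k m := by
    funext y
    change (if y ∈ H then a y (k • m) else 0) = k • (if y ∈ H then a y m else 0)
    split_ifs
    · rw [map_zsmul]
    · rw [smul_zero]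

theorem del_apply (H : Subgroup G) (a : G → Module.End ℤ M) (m : M) (y : G) :
    del H a m y = if y ∈ H then a y m else 0 := rfl

variable {H : Subgroup G} {χ : G →* Multiplicative ℤ} {w : G →* ℤˣ} {a : G → Module.End ℤ M}

theorem del_mem (ha : IsAct H a) (hH : ∀ g ∈ H, lv χ g = 0) (m : M) : del H a m ∈ V0 χ H a := by
  have hE : ∀ g ∈ H, ∀ x, del H a m (g * x) = a g (del H a m x) := by
    intro g hg x
    rw [del_apply, del_apply, H.mul_mem_cancel_left hg]
    split_ifs with hx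
    · rw [ha.2 g hg x hx]
      rfl
    · rw [map_zero]
  have h0 : ∀ x, lv χ x ≠ 0 → del H a m x = 0 := fun x hx => if_neg fun h => hx (hH x h)
  exact Submodule.mem_inf.2 ⟨⟨hE, 0, fun x hx => h0 x (by omega)⟩,
    ⟨hE, 0, fun x hx => h0 x (by rw [lv_chi_inv] at hx; omega)⟩⟩

theorem eq_del {f : G → M} (hf : f ∈ EqS H a) (h0 : ∀ y, y ∉ H → f y = 0) :
    f = del H a (f 1) := by
  funext y
  rw [del_apply]
  split_ifs with hy
  · have := hf y hy 1
    rwa [mul_one] at this
  · exact h0 y hy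

theorem V0_le_EqS : V0 χ H a ≤ EqS H a := fun _ hf => (Submodule.mem_inf.1 hf).1.1

/-- Every element of `V0` is congruent to a function concentrated on `H`. -/
theorem exists_del (ha : IsAct H a) (hH : ∀ g, g ∈ H ↔ lv χ g = 0 ∧ w g = 1) {t : G}
    (ht : lv χ t = 1) {f : G → M} (hf : f ∈ V0 χ H a) :
    ∃ m, f - del H a m ∈ Aug w (V0 χ H a) := by
  have hH0 : ∀ g ∈ H, lv χ g = 0 := fun g hg => ((hH g).1 hg).1
  have key : V0 χ H a ≤ Aug w (V0 χ H a) ⊔ LinearMap.range (del H a) := by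
    have hdel : ∀ m, del H a m ∈ Aug w (V0 χ H a) ⊔ LinearMap.range (del H a) := fun m =>
      Submodule.mem_sup_right ⟨m, rfl⟩
    refine level_red hH0 ht _ le_sup_left fun f hf hf0 => ?_
    by_cases hκ : ∃ κ, lv χ κ = 0 ∧ w κ ≠ 1
    · obtain ⟨κ, hκ0, hκ1⟩ := hκ
      have h1 : del H a (f 1) ∈ V0 χ H a := del_mem ha hH0 _
      have h2 : f - del H a (f 1) ∈ V0 χ H a := Submodule.sub_mem _ hf h1
      have h3 : ∀ y, y ∈ H → (f - del H a (f 1)) y = 0 := by
        intro y hy
        have := V0_le_EqS hf y hy 1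
        rw [mul_one] at this
        rw [Pi.sub_apply, del_apply, if_pos hy, this, sub_self]
      have h4 : ∀ y, lv χ y ≠ 0 → (f - del H a (f 1)) y = 0 := by
        intro y hy
        rw [Pi.sub_apply, del_apply, if_neg (fun h => hy (hH0 y h)), hf0 y hy, sub_self]
      have h5 : rho M (dg w (gof κ⁻¹)) (f - del H a (f 1)) ∈ V0 χ H a :=
        (stable_V0 χ H a).rho _ _ h2
      have h6 := eq_del (V0_le_EqS h5) (by
        intro y hy
        rw [dg_of, inv_inv, map_zsmul, LinearMap.smul_apply, Pi.smul_apply, rho_of_apply]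
        have h7 : (f - del H a (f 1)) (y * κ) = 0 := by
          by_cases hy0 : lv χ y = 0
          · apply h3
            rw [hH, lv_mul, hy0, hκ0, add_zero, map_mul]
            refine ⟨rfl, ?_⟩
            have h8 : w y ≠ 1 := fun h => hy ((hH y).2 ⟨hy0, h⟩)
            rw [(Int.units_eq_one_or (w y)).resolve_left h8,
              (Int.units_eq_one_or (w κ)).resolve_left hκ1]
            rfl
          · apply h4
            rw [lv_mul, hκ0, add_zero]
            exact hy0
        rw [h7, smul_zero])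
      have h9 : rho M (dg w (gof κ⁻¹)) (f - del H a (f 1)) - (f - del H a (f 1)) ∈
          Aug w (V0 χ H a) := Submodule.subset_span ⟨_, _, h2, rfl⟩
      have h10 : f = del H a (f 1) + (rho M (dg w (gof κ⁻¹)) (f - del H a (f 1)) -
          (rho M (dg w (gof κ⁻¹)) (f - del H a (f 1)) - (f - del H a (f 1)))) := by abel
      rw [h10]
      refine Submodule.add_mem _ (hdel _) (Submodule.sub_mem _ ?_ (Submodule.mem_sup_left h9))
      rw [h6]
      exact hdel _
    · push Not at hκ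
      rw [eq_del (V0_le_EqS hf) fun y hy => hf0 y fun h => hy ((hH y).2 ⟨h, hκ y h⟩)]
      exact hdel _
  obtain ⟨u, hu, _, ⟨m, rfl⟩, huv⟩ := Submodule.mem_sup.1 (key hf)
  exact ⟨m, by rw [← huv, add_sub_cancel_right]; exact hu⟩

section nat

variable {M' : Type} [AddCommGroup M'] (φ : M →+ M')

theorem rho_nat (r : RR G) (f : G → M) : rho M' r (fun x => φ (f x)) = fun x => φ (rho M r f x) := by
  induction r using rr_ind with
  | h1 g =>
    funext x
    rw [rho_of_apply, rho_of_apply]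
  | h2 x y hx hy =>
    rw [map_add, LinearMap.add_apply, hx, hy]
    funext z
    rw [map_add, LinearMap.add_apply, Pi.add_apply, Pi.add_apply, map_add]
  | h3 x hx =>
    rw [map_neg, LinearMap.neg_apply, hx]
    funext z
    rw [map_neg, LinearMap.neg_apply, Pi.neg_apply, Pi.neg_apply, map_neg]

theorem mv_nat {n : ℕ} (A : MR G n) (c : Fin n → (G → M)) :
    mv A (fun j x => φ (c j x)) = fun i x => φ (mv A c i x) := by
  funext i x
  rw [mv_apply, mv_apply, Finset.sum_apply, Finset.sum_apply, map_sum]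
  exact Finset.sum_congr rfl fun j _ => congrFun (rho_nat φ _ _) x

theorem cut_nat (f : G → M) : cut M' χ (fun x => φ (f x)) = fun x => φ (cut M χ f x) := by
  funext x
  rw [cut_apply, cut_apply]
  split_ifs
  · rfl
  · rw [map_zero]

theorem cls_nat {n : ℕ} (cc : Fin n → ℤ) (d2 : MR G n) (c : Fin n → (G → M)) :
    cls χ cc d2 (fun j x => φ (c j x)) = fun x => φ (cls χ cc d2 c x) := by
  rw [cls, cls]
  have h1 : (fun i => cut M' χ ((fun j x => φ (c j x)) i)) =
      fun i x => φ (cut M χ (c i) x) := by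
    funext i
    exact cut_nat φ _
  rw [h1, mv_nat]
  funext x
  rw [bet, bet, Finset.sum_apply, Finset.sum_apply, map_sum]
  refine Finset.sum_congr rfl fun j _ => ?_
  rw [Pi.smul_apply, Pi.smul_apply, map_zsmul]

theorem V0_nat {a' : G → Module.End ℤ M'} (hφ : ∀ g ∈ H, ∀ m, φ (a g m) = a' g (φ m))
    {f : G → M} (hf : f ∈ V0 χ H a) : (fun x => φ (f x)) ∈ V0 χ H a' := by
  obtain ⟨⟨hE, m, hm⟩, ⟨-, m', hm'⟩⟩ := Submodule.mem_inf.1 hf
  have hE' : ∀ g ∈ H, ∀ x, φ (f (g * x)) = a' g (φ (f x)) := by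
    intro g hg x
    rw [hE g hg, hφ g hg]
  exact Submodule.mem_inf.2 ⟨⟨hE', m, fun x hx => by
    change φ (f x) = 0
    rw [hm x hx, map_zero]⟩, ⟨hE', m', fun x hx => by
    change φ (f x) = 0
    rw [hm' x hx, map_zero]⟩⟩

theorem Aug_nat {a' : G → Module.End ℤ M'} (hφ : ∀ g ∈ H, ∀ m, φ (a g m) = a' g (φ m))
    {f : G → M} (hf : f ∈ Aug w (V0 χ H a)) : (fun x => φ (f x)) ∈ Aug w (V0 χ H a') := by
  induction hf using Submodule.span_induction with
  | mem f hf =>
    obtain ⟨g, v, hv, rfl⟩ := hf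
    refine Submodule.subset_span ⟨g, fun x => φ (v x), V0_nat φ hφ hv, ?_⟩
    rw [rho_nat]
    funext x
    rw [Pi.sub_apply, Pi.sub_apply, map_sub]
  | zero =>
    have : (fun x : G => φ ((0 : G → M) x)) = 0 := by
      funext x
      exact map_zero φ
    rw [this]
    exact Submodule.zero_mem _
  | add f f' _ _ hf hf' =>
    have : (fun x : G => φ ((f + f') x)) = (fun x => φ (f x)) + fun x => φ (f' x) := by
      funext x
      exact map_add φ _ _
    rw [this]
    exact Submodule.add_mem _ hf hf'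
  | smul k f _ hf =>
    have : (fun x : G => φ ((k • f) x)) = k • fun x => φ (f x) := by
      funext x
      exact map_zsmul φ _ _
    rw [this]
    exact Submodule.smul_mem _ _ hf

theorem del_nat {a' : G → Module.End ℤ M'} (hφ : ∀ g ∈ H, ∀ m, φ (a g m) = a' g (φ m)) (m : M) :
    (fun x => φ (del H a m x)) = del H a' (φ m) := by
  funext x
  rw [del_apply, del_apply]
  split_ifs with hx
  · exact hφ x hx m
  · exact map_zero φ

end nat

/-- the trivial action on `ℤ` -/
abbrev triv : G → Module.End ℤ ℤ := fun _ => 1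

theorem finite_supp (hH : ∀ g, g ∈ H ↔ lv χ g = 0 ∧ w g = 1) {f : G → ℤ}
    (hf : f ∈ V0 χ H triv) :
    (Function.support fun q : G ⧸ H => ((w q.out : ℤˣ) : ℤ) * f q.out).Finite := by
  obtain ⟨⟨-, m, hm⟩, ⟨-, m', hm'⟩⟩ := Submodule.mem_inf.1 hf
  have h1 : ((Set.Icc m (-m')) ×ˢ (Set.univ : Set ℤˣ)).Finite :=
    (Set.finite_Icc _ _).prod Set.finite_univ
  refine Set.Finite.of_finite_image (f := fun q : G ⧸ H => (lv χ q.out, w q.out)) (h1.subset ?_) ?_
  · rintro _ ⟨q, hq, rfl⟩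
    refine ⟨⟨?_, ?_⟩, trivial⟩
    · by_contra hlt
      apply hq
      change _ * f q.out = 0
      rw [hm _ (not_le.1 hlt), mul_zero]
    · by_contra hlt
      apply hq
      change _ * f q.out = 0
      rw [hm' _ (by rw [lv_chi_inv]; change ¬ lv χ q.out ≤ -m' at hlt; omega), mul_zero]
  · intro q _ q' _ h
    have h2 : lv χ q.out = lv χ q'.out := congrArg Prod.fst h
    have h3 : w q.out = w q'.out := congrArg Prod.snd h
    have h4 : (QuotientGroup.mk q.out : G ⧸ H) = QuotientGroup.mk q'.out := by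
      rw [QuotientGroup.eq, hH, lv_mul, lv_inv, h2, map_mul, map_inv, h3]
      exact ⟨by ring, inv_mul_cancel _⟩
    rwa [QuotientGroup.out_eq', QuotientGroup.out_eq'] at h4

/-- the integral -/
def Ef (w : G →* ℤˣ) (H : Subgroup G) (f : G → ℤ) : ℤ :=
  ∑ᶠ q : G ⧸ H, ((w q.out : ℤˣ) : ℤ) * f q.out

theorem Ef_tr (hH : ∀ g, g ∈ H ↔ lv χ g = 0 ∧ w g = 1) {f : G → ℤ}
    (hf : f ∈ V0 χ H triv) (g : G) : Ef w H (tr ℤ g f) = ((w g : ℤˣ) : ℤ) * Ef w H f := by
  have hnorm : H.Normal := by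
    refine ⟨fun x hx g => ?_⟩
    rw [hH] at hx ⊢
    rw [lv_mul, lv_mul, lv_inv, hx.1, map_mul, map_mul, hx.2, map_inv]
    exact ⟨by ring, by rw [mul_one, mul_inv_cancel]⟩
  have hinv : ∀ x, ∀ h ∈ H, f (x * h) = f x := by
    intro x h hh
    have h1 := V0_le_EqS hf (x * h * x⁻¹) (hnorm.conj_mem h hh x) x
    rw [inv_mul_cancel_right] at h1
    exact h1
  have hout : ∀ x : G, ∃ h ∈ H, (QuotientGroup.mk x : G ⧸ H).out = x * h := by
    intro x
    obtain ⟨h, hh⟩ := QuotientGroup.mk_out_eq_mul H x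
    exact ⟨h, h.2, hh⟩
  rw [Ef, Ef, ← smul_eq_mul, smul_finsum]
  conv_rhs => rw [← finsum_comp_equiv (Equiv.mulRight (QuotientGroup.mk g : G ⧸ H))]
  refine finsum_congr fun q => ?_
  have h1 : q * (QuotientGroup.mk g : G ⧸ H) = QuotientGroup.mk (q.out * g) := by
    rw [QuotientGroup.mk_mul]
    congr 1
    exact (QuotientGroup.out_eq' q).symm
  obtain ⟨h, hh, h2⟩ := hout (q.out * g)
  simp only [Equiv.coe_mulRight]
  rw [h1, h2, map_mul, map_mul, ((hH h).1 hh).2, hinv _ h hh, tr_apply,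
    mul_one, Units.val_mul, smul_eq_mul]
  have h3 : ((w g : ℤˣ) : ℤ) * ((w g : ℤˣ) : ℤ) = 1 := by
    rw [← Units.val_mul, Int.units_mul_self, Units.val_one]
  calc ((w q.out : ℤˣ) : ℤ) * f (q.out * g)
      = ((w q.out : ℤˣ) : ℤ) * f (q.out * g) * (((w g : ℤˣ) : ℤ) * ((w g : ℤˣ) : ℤ)) := by
        rw [h3, mul_one]
    _ = _ := by ring

theorem Ef_Aug (hH : ∀ g, g ∈ H ↔ lv χ g = 0 ∧ w g = 1) {f : G → ℤ}
    (hf : f ∈ Aug w (V0 χ H triv)) : f ∈ V0 χ H triv ∧ Ef w H f = 0 := by
  induction hf using Submodule.span_induction with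
  | mem f hf =>
    obtain ⟨g, v, hv, rfl⟩ := hf
    have h1 : rho ℤ (dg w (gof g)) v = ((w g : ℤˣ) : ℤ) • tr ℤ g⁻¹ v := by
      rw [dg_of, map_zsmul, rho_of]
      rfl
    have h2 : tr ℤ g⁻¹ v ∈ V0 χ H triv := stable_V0 χ H triv g⁻¹ v hv
    have h3 : rho ℤ (dg w (gof g)) v ∈ V0 χ H triv := by
      rw [h1]
      exact Submodule.smul_mem _ _ h2
    refine ⟨Submodule.sub_mem _ h3 hv, ?_⟩
    have h4 : Ef w H (rho ℤ (dg w (gof g)) v - v) = Ef w H (rho ℤ (dg w (gof g)) v) - Ef w H v := by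
      rw [Ef, Ef, Ef, ← finsum_sub_distrib (finite_supp hH h3) (finite_supp hH hv)]
      exact finsum_congr fun q => by rw [Pi.sub_apply, mul_sub]
    have h5 : Ef w H (rho ℤ (dg w (gof g)) v) = ((w g : ℤˣ) : ℤ) * Ef w H (tr ℤ g⁻¹ v) := by
      rw [h1, Ef, Ef, ← smul_eq_mul, smul_finsum]
      exact finsum_congr fun q => by
        rw [Pi.smul_apply, smul_eq_mul, smul_eq_mul]
        ring
    have h6 : ((w g : ℤˣ) : ℤ) * ((w g⁻¹ : ℤˣ) : ℤ) = 1 := by
      rw [← Units.val_mul, ← map_mul, mul_inv_cancel, map_one, Units.val_one]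
    rw [h4, h5, Ef_tr hH hv, ← mul_assoc, h6, one_mul, sub_self]
  | zero => exact ⟨Submodule.zero_mem _, by rw [Ef]; simp⟩
  | add f f' _ _ hf hf' =>
    refine ⟨Submodule.add_mem _ hf.1 hf'.1, ?_⟩
    have h4 : Ef w H (f + f') = Ef w H f + Ef w H f' := by
      rw [Ef, Ef, Ef, ← finsum_add_distrib (finite_supp hH hf.1) (finite_supp hH hf'.1)]
      exact finsum_congr fun q => by rw [Pi.add_apply, mul_add]
    rw [h4, hf.2, hf'.2, add_zero]
  | smul k f _ hf =>
    refine ⟨Submodule.smul_mem _ _ hf.1, ?_⟩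
    have h5 : Ef w H (k • f) = k * Ef w H f := by
      rw [Ef, Ef, ← smul_eq_mul, smul_finsum]
      exact finsum_congr fun q => by
        rw [Pi.smul_apply, smul_eq_mul, smul_eq_mul]
        ring
    rw [h5, hf.2, mul_zero]

theorem del_Aug (hH : ∀ g, g ∈ H ↔ lv χ g = 0 ∧ w g = 1) {k : ℤ}
    (hk : del H triv k ∈ Aug w (V0 χ H triv)) : k = 0 := by
  have h1 := (Ef_Aug hH hk).2
  have h2 : (QuotientGroup.mk (1 : G) : G ⧸ H).out ∈ H := by
    obtain ⟨h, hh⟩ := QuotientGroup.mk_out_eq_mul H (1 : G)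
    rw [hh, one_mul]
    exact h.2
  rw [Ef, finsum_eq_single _ (QuotientGroup.mk (1 : G) : G ⧸ H)] at h1
  · rw [del_apply, if_pos h2, ((hH _).1 h2).2, Units.val_one, one_mul] at h1
    exact h1
  · intro q hq
    rw [del_apply, if_neg, mul_zero]
    intro hcon
    apply hq
    have h4 : (QuotientGroup.mk q.out : G ⧸ H) = QuotientGroup.mk 1 := by
      rw [QuotientGroup.eq]
      exact H.mul_mem (H.inv_mem hcon) H.one_mem
    rwa [QuotientGroup.out_eq'] at h4

end

end Pool.Agent.H26.PD
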