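import Pool.Agent.H26.PD.Seifert

/-!
Finitely generated abelian normal subgroups and the Seifert construction.
-/

set_option autoImplicit false

namespace Pool.Agent.H26.PD

variable {G : Type} [Group G] {A : Subgroup G} {r s : ℕ}

/-- `A` maps onto `ℤ^r` with finite kernel -/
def Rk (A : Subgroup G) (r : ℕ) : Prop :=
  ∃ j : G → (Fin r → ℤ), (∀ a ∈ A, ∀ a' ∈ A, j (a * a') = j a + j a') ∧
    (∀ z, ∃ a ∈ A, j a = z) ∧ {a | a ∈ A ∧ j a = 0}.Finite

theorem int_pts {C : Set (Fin r → ℝ)} (hC : IsCompact C) :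
    {z : Fin r → ℤ | (fun i => (z i : ℝ)) ∈ C}.Finite := by
  obtain ⟨R, hR⟩ := hC.isBounded.exists_norm_le
  refine (Set.finite_Icc (fun _ : Fin r => (-⌈R⌉ : ℤ)) (fun _ => ⌈R⌉)).subset ?_
  intro z hz
  have h1 := hR _ hz
  have h2 : ∀ i, |(z i : ℝ)| ≤ ⌈R⌉ := by
    intro i
    have h3 := (norm_le_pi_norm (fun i => (z i : ℝ)) i).trans (h1.trans (Int.le_ceil R))
    rwa [Real.norm_eq_abs] at h3
  rw [Set.mem_Icc, Pi.le_def, Pi.le_def]
  constructor
  · intro i
    have h3 := (abs_le.1 (h2 i)).1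
    exact_mod_cast h3
  · intro i
    have h3 := (abs_le.1 (h2 i)).2
    exact_mod_cast h3

theorem Rk.lin [A.Normal] (hcomm : ∀ a ∈ A, ∀ a' ∈ A, a * a' = a' * a) (hR : Rk A r) :
    ∃ (ι : G → (Fin r → ℝ)) (θ : G → (Fin r → ℝ) →ₗ[ℝ] (Fin r → ℝ)), Lin A ι θ := by
  obtain ⟨j, hadd, hsurj, hfin⟩ := hR
  have hj1 : j 1 = 0 := by
    have := hadd 1 A.one_mem 1 A.one_mem
    rw [mul_one] at this
    have h2 : j 1 + 0 = j 1 + j 1 := by rw [add_zero]; exact this
    exact (add_left_cancel h2).symm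
  have hpow : ∀ a ∈ A, ∀ n : ℕ, j (a ^ n) = n • j a := by
    intro a ha n
    induction n with
    | zero => rw [pow_zero, hj1, zero_smul]
    | succ n ih => rw [pow_succ, hadd _ (A.pow_mem ha n) _ ha, ih, succ_nsmul]
  have hinv : ∀ a ∈ A, j a⁻¹ = -j a := by
    intro a ha
    rw [eq_neg_iff_add_eq_zero, ← hadd _ (A.inv_mem ha) _ ha, inv_mul_cancel, hj1]
  have htors : ∀ a ∈ A, (j a = 0 ↔ IsOfFinOrder a) := by
    intro a ha
    constructor
    · intro h0
      rw [← not_not (a := IsOfFinOrder a)]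
      intro h3
      refine Set.infinite_range_of_injective (injective_pow_iff_not_isOfFinOrder.2 h3)
        (hfin.subset ?_)
      rintro _ ⟨n, rfl⟩
      exact ⟨A.pow_mem ha n, by rw [hpow a ha, h0, smul_zero]⟩
    · intro h0
      obtain ⟨n, hn, h1⟩ := isOfFinOrder_iff_pow_eq_one.1 h0
      have h2 : n • j a = 0 := by rw [← hpow a ha, h1, hj1]
      exact (smul_eq_zero.1 h2).resolve_left hn.ne'
  have hconj : ∀ a ∈ A, ∀ g : G, g * a * g⁻¹ ∈ A := fun a ha g =>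
    Subgroup.Normal.conj_mem inferInstance a ha g
  have hwell : ∀ g : G, ∀ a ∈ A, ∀ a' ∈ A, j a = j a' → j (g * a * g⁻¹) = j (g * a' * g⁻¹) := by
    intro g a ha a' ha' h
    have h1 : j (a * a'⁻¹) = 0 := by rw [hadd a ha _ (A.inv_mem ha'), hinv a' ha', h, add_neg_cancel]
    have h2 : IsOfFinOrder (g * (a * a'⁻¹) * g⁻¹) := by
      have h3 := (htors _ (A.mul_mem ha (A.inv_mem ha'))).1 h1
      obtain ⟨n, hn, h4⟩ := isOfFinOrder_iff_pow_eq_one.1 h3
      refine isOfFinOrder_iff_pow_eq_one.2 ⟨n, hn, ?_⟩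
      rw [conj_pow, h4, mul_one, mul_inv_cancel]
    have h3 := (htors _ (hconj _ (A.mul_mem ha (A.inv_mem ha')) g)).2 h2
    have h4 : g * (a * a'⁻¹) * g⁻¹ = (g * a * g⁻¹) * (g * a' * g⁻¹)⁻¹ := by group
    rw [h4, hadd _ (hconj a ha g) _ (A.inv_mem (hconj a' ha' g)), hinv _ (hconj a' ha' g),
      ← sub_eq_add_neg, sub_eq_zero] at h3
    exact h3
  choose σ hσ hσj using hsurj
  -- the induced endomorphism
  let F : G → (Fin r → ℤ) →+ (Fin r → ℤ) := fun g =>
    { toFun := fun z => j (g * σ z * g⁻¹)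
      map_zero' := by
        rw [hwell g _ (hσ 0) 1 A.one_mem (by rw [hσj, hj1]), mul_one, mul_inv_cancel, hj1]
      map_add' := fun z z' => by
        rw [hwell g _ (hσ (z + z')) (σ z * σ z') (A.mul_mem (hσ z) (hσ z'))
          (by rw [hσj, hadd _ (hσ z) _ (hσ z'), hσj, hσj]),
          ← hadd _ (hconj _ (hσ z) g) _ (hconj _ (hσ z') g)]
        congr 1
        group }
  have hF : ∀ g, ∀ a ∈ A, F g (j a) = j (g * a * g⁻¹) := fun g a ha =>
    hwell g _ (hσ _) a ha (hσj _)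
  let c : Fin r → G := fun i => σ (Pi.single i 1)
  have hc : ∀ i, c i ∈ A := fun i => hσ _
  have hcj : ∀ i, j (c i) = Pi.single i 1 := fun i => hσj _
  let ι : G → (Fin r → ℝ) := fun a i => (j a i : ℝ)
  have hιc : ∀ i, ι (c i) = Pi.single i 1 := by
    intro i
    funext k
    change ((j (c i) k : ℤ) : ℝ) = _
    rw [hcj, Pi.single_apply, Pi.single_apply]
    split_ifs <;> simp
  let θ : G → (Fin r → ℝ) →ₗ[ℝ] (Fin r → ℝ) := fun g =>
    (Pi.basisFun ℝ (Fin r)).constr ℝ (fun i => ι (g * c i * g⁻¹))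
  have hθc : ∀ g i, θ g (Pi.single i 1) = ι (g * c i * g⁻¹) := by
    intro g i
    have := (Pi.basisFun ℝ (Fin r)).constr_basis ℝ (fun i => ι (g * c i * g⁻¹)) i
    rwa [Pi.basisFun_apply] at this
  have hequi : ∀ a ∈ A, ∀ g, ι (g * a * g⁻¹) = θ g (ι a) := by
    intro a ha g
    have h1 : j (g * a * g⁻¹) = ∑ i, j a i • j (g * c i * g⁻¹) := by
      rw [← hF g a ha]
      have h2 := LinearMap.pi_apply_eq_sum_univ (F g).toIntLinearMap (j a)
      change F g (j a) = _ at h2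
      rw [h2]
      refine Finset.sum_congr rfl fun i _ => ?_
      congr 1
      rw [← hF g (c i) (hc i), hcj]
      change F g _ = F g _
      congr 1
      funext k
      rw [Pi.single_apply]
      simp only [eq_comm]
    have h2 : ι a = ∑ i, ι a i • (Pi.single i (1 : ℝ) : Fin r → ℝ) := by
      funext k
      rw [Finset.sum_apply]
      simp [Pi.single_apply]
    rw [h2, map_sum]
    funext k
    rw [Finset.sum_apply]
    change ((j (g * a * g⁻¹) k : ℤ) : ℝ) = _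
    rw [h1, Finset.sum_apply, Int.cast_sum]
    refine Finset.sum_congr rfl fun i _ => ?_
    rw [map_smul, hθc, Pi.smul_apply, Pi.smul_apply, smul_eq_mul, smul_eq_mul, Int.cast_mul]
  have hext : ∀ (f f' : (Fin r → ℝ) →ₗ[ℝ] (Fin r → ℝ)), (∀ i, f (ι (c i)) = f' (ι (c i))) →
      f = f' := by
    intro f f' h
    refine (Pi.basisFun ℝ (Fin r)).ext fun i => ?_
    rw [Pi.basisFun_apply, ← hιc]
    exact h i
  refine ⟨ι, θ, ⟨?_, ?_, ?_, hequi, ?_, ?_⟩⟩
  · intro a ha a' ha'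
    funext i
    change ((j (a * a') i : ℤ) : ℝ) = (j a i : ℝ) + (j a' i : ℝ)
    rw [hadd a ha a' ha', Pi.add_apply, Int.cast_add]
  · intro a ha v
    have h1 : θ a = LinearMap.id := by
      refine hext _ _ fun i => ?_
      rw [← hequi _ (hc i), hcomm a ha _ (hc i), mul_inv_cancel_right]
      rfl
    rw [h1]
    rfl
  · intro g h v
    have h1 : θ (g * h) = (θ g).comp (θ h) := by
      refine hext _ _ fun i => ?_
      rw [LinearMap.comp_apply, ← hequi _ (hc i), ← hequi _ (hc i) h,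
        ← hequi _ (hconj _ (hc i) h) g]
      congr 1
      group
    rw [h1]
    rfl
  · intro C hC
    have h1 := int_pts hC
    refine (h1.biUnion fun z _ => (hfin.image fun a => a * σ z)).subset ?_
    rintro a ⟨ha, haC⟩
    rw [Set.mem_iUnion₂]
    refine ⟨j a, haC, a * (σ (j a))⁻¹, ⟨A.mul_mem ha (A.inv_mem (hσ _)), ?_⟩, by group⟩
    rw [hadd _ ha _ (A.inv_mem (hσ _)), hinv _ (hσ _), hσj, add_neg_cancel]
  · refine ⟨Set.Icc 0 1, isCompact_Icc, fun v => ?_⟩
    refine ⟨σ (fun i => -⌊v i⌋), hσ _, ?_⟩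
    have h1 : ∀ i, (ι (σ (fun i => -⌊v i⌋)) + v) i = Int.fract (v i) := by
      intro i
      change ((j (σ (fun i => -⌊v i⌋)) i : ℤ) : ℝ) + v i = _
      rw [hσj, Int.cast_neg, Int.fract]
      ring
    rw [Set.mem_Icc, Pi.le_def, Pi.le_def]
    refine ⟨fun i => ?_, fun i => ?_⟩
    · rw [h1]
      exact Int.fract_nonneg _
    · rw [h1]
      exact (Int.fract_lt_one _).le

/-- The Seifert construction for abelian normal subgroups. -/
theorem seifert_rk [A.Normal] (hcomm : ∀ a ∈ A, ∀ a' ∈ A, a * a' = a' * a) (hR : Rk A r)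
    {b : (G ⧸ A) → (Fin s → ℝ) → (Fin s → ℝ)} (hb : PC (G ⧸ A) (Fin s → ℝ) b) :
    ∃ α, PC G (Fin (r + s) → ℝ) α := by
  obtain ⟨ι, θ, hL⟩ := hR.lin hcomm
  obtain ⟨α, hα⟩ := seifert hL hb
  have e : ((Fin r → ℝ) × (Fin s → ℝ)) ≃L[ℝ] (Fin (r + s) → ℝ) :=
    ContinuousLinearEquiv.ofFinrankEq (by
      rw [Module.finrank_prod, Module.finrank_fin_fun, Module.finrank_fin_fun,
        Module.finrank_fin_fun])
  exact ⟨_, hα.congr e.toHomeomorph⟩

end Pool.Agent.H26.PD
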