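import Mathlib

/-!
The Seifert construction: extending properly discontinuous cocompact actions.
-/

set_option autoImplicit false

namespace Pool.Agent.H26.PD

open scoped Pointwise

/-- a properly discontinuous cocompact action by continuous maps -/
structure PC (G : Type) [Group G] (W : Type) [TopologicalSpace W] (a : G → W → W) : Prop where
  cont : ∀ g, Continuous (a g)
  one : ∀ w, a 1 w = w
  mul : ∀ g h w, a (g * h) w = a g (a h w)
  proper : ∀ C : Set W, IsCompact C → {g | ∃ x ∈ C, a g x ∈ C}.Finite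
  cocpt : ∃ D : Set W, IsCompact D ∧ ∀ w, ∃ g, a g w ∈ D

namespace PC

variable {G : Type} [Group G] {W : Type} [TopologicalSpace W] {a : G → W → W}

theorem inv_apply (h : PC G W a) (g : G) (w : W) : a g⁻¹ (a g w) = w := by
  rw [← h.mul, inv_mul_cancel, h.one]

theorem apply_inv (h : PC G W a) (g : G) (w : W) : a g (a g⁻¹ w) = w := by
  rw [← h.mul, mul_inv_cancel, h.one]

/-- transport -/
theorem congr (h : PC G W a) {W' : Type} [TopologicalSpace W'] (e : W ≃ₜ W') :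
    PC G W' (fun g w => e (a g (e.symm w))) where
  cont g := e.continuous.comp ((h.cont g).comp e.symm.continuous)
  one w := by rw [h.one, e.apply_symm_apply]
  mul g g' w := by rw [h.mul, e.symm_apply_apply]
  proper C hC := by
    refine (h.proper (e.symm '' C) (hC.image e.symm.continuous)).subset ?_
    rintro g ⟨x, hx, hx'⟩
    refine ⟨e.symm x, ⟨x, hx, rfl⟩, ⟨_, hx', ?_⟩⟩
    rw [e.symm_apply_apply]
  cocpt := by
    obtain ⟨D, hD, h1⟩ := h.cocpt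
    refine ⟨e '' D, hD.image e.continuous, fun w => ?_⟩
    obtain ⟨g, hg⟩ := h1 (e.symm w)
    exact ⟨g, ⟨_, hg, rfl⟩⟩

/-- a torsion-free group acts freely -/
theorem free (h : PC G W a) (htf : ∀ g : G, IsOfFinOrder g → g = 1) {g : G} {w : W}
    (hw : a g w = w) : g = 1 := by
  apply htf
  have h1 : ∀ n : ℕ, a (g ^ n) w = w := by
    intro n
    induction n with
    | zero => rw [pow_zero, h.one]
    | succ n ih => rw [pow_succ, h.mul, hw, ih]
  have h2 : (Set.range fun n : ℕ => g ^ n).Finite := by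
    refine (h.proper {w} isCompact_singleton).subset ?_
    rintro _ ⟨n, rfl⟩
    exact ⟨w, rfl, h1 n⟩
  rw [← not_not (a := IsOfFinOrder g)]
  intro h3
  exact Set.infinite_range_of_injective (injective_pow_iff_not_isOfFinOrder.2 h3) h2

end PC

/-! ## Equivariant averaging -/

section avg

variable {Q : Type} [Group Q] {s : ℕ} {b : Q → (Fin s → ℝ) → (Fin s → ℝ)}

/-- Near every point only finitely many translates of a compact set matter. -/
theorem locFin (hb : PC Q (Fin s → ℝ) b) {E : Type*} [Zero E] {f : (Fin s → ℝ) → ℝ} {R : ℝ}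
    (hf : ∀ w, f w ≠ 0 → ‖w‖ ≤ R) (u : Q → (Fin s → ℝ) → E)
    (hu : ∀ q w, u q w ≠ 0 → f (b q⁻¹ w) ≠ 0) : LocallyFinite fun q => Function.support (u q) := by
  intro w
  refine ⟨Metric.closedBall w 1, Metric.closedBall_mem_nhds _ one_pos, ?_⟩
  have h1 : IsCompact (Metric.closedBall w 1 ∪ Metric.closedBall (0 : Fin s → ℝ) R) :=
    (isCompact_closedBall _ _).union (isCompact_closedBall _ _)
  refine ((hb.proper _ h1).image (fun g => g⁻¹)).subset ?_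
  rintro q ⟨x, hx, hx'⟩
  refine ⟨q⁻¹, ⟨x, Or.inl hx', Or.inr ?_⟩, inv_inv q⟩
  rw [Metric.mem_closedBall, dist_zero_right]
  exact hf _ (hu q x hx)

/-- A finite set -/
theorem ptFin (hb : PC Q (Fin s → ℝ) b) {E : Type*} [Zero E] {f : (Fin s → ℝ) → ℝ} {R : ℝ}
    (hf : ∀ w, f w ≠ 0 → ‖w‖ ≤ R) (u : Q → (Fin s → ℝ) → E)
    (hu : ∀ q w, u q w ≠ 0 → f (b q⁻¹ w) ≠ 0) (w : Fin s → ℝ) :
    (Function.support fun q => u q w).Finite := by
  have h1 := (locFin hb hf u hu).point_finite w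
  exact h1

/-- a bump function -/
theorem exists_bump (hb : PC Q (Fin s → ℝ) b) : ∃ (f : (Fin s → ℝ) → ℝ) (R : ℝ), Continuous f ∧
    (∀ w, 0 ≤ f w) ∧ (∀ w, f w ≠ 0 → ‖w‖ ≤ R) ∧ ∀ w, ∃ q, 0 < f (b q w) := by
  obtain ⟨D, hD, h1⟩ := hb.cocpt
  obtain ⟨R, hR⟩ := hD.isBounded.exists_norm_le
  refine ⟨fun w => max 0 (R + 1 - ‖w‖), R + 1, by fun_prop, fun w => le_max_left _ _, ?_, ?_⟩
  · intro w hw
    by_contra h
    apply hw
    exact max_eq_left (by linarith [not_le.1 h])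
  · intro w
    obtain ⟨q, hq⟩ := h1 w
    refine ⟨q, lt_max_of_lt_right ?_⟩
    linarith [hR _ hq]

end avg

/-! ## The Seifert construction -/

section main

variable {G : Type} [Group G] {A : Subgroup G} {r s : ℕ} {ι : G → (Fin r → ℝ)}
  {θ : G → (Fin r → ℝ) →ₗ[ℝ] (Fin r → ℝ)}

/-- an equivariant map of `A` onto a lattice, with finite kernel -/
structure Lin (A : Subgroup G) (ι : G → (Fin r → ℝ))
    (θ : G → (Fin r → ℝ) →ₗ[ℝ] (Fin r → ℝ)) : Prop where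
  add : ∀ a ∈ A, ∀ a' ∈ A, ι (a * a') = ι a + ι a'
  th_one : ∀ a ∈ A, ∀ v, θ a v = v
  th_mul : ∀ g h v, θ (g * h) v = θ g (θ h v)
  equi : ∀ a ∈ A, ∀ g, ι (g * a * g⁻¹) = θ g (ι a)
  proper : ∀ C, IsCompact C → {a | a ∈ A ∧ ι a ∈ C}.Finite
  cocpt : ∃ E, IsCompact E ∧ ∀ v, ∃ a ∈ A, ι a + v ∈ E

/-- the section -/
noncomputable def sec (A : Subgroup G) (q : G ⧸ A) : G := q.out

theorem mk_sec (q : G ⧸ A) : ((sec A q : G) : G ⧸ A) = q := Quotient.out_eq' q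

theorem mk_mul_left [A.Normal] {a : G} (ha : a ∈ A) (g : G) : ((a * g : G) : G ⧸ A) = g := by
  rw [QuotientGroup.mk_mul, (QuotientGroup.eq_one_iff a).2 ha, one_mul]

theorem mul_sec_inv [A.Normal] (g : G) : g * (sec A (g : G ⧸ A))⁻¹ ∈ A := by
  rw [← QuotientGroup.eq_one_iff, QuotientGroup.mk_mul, QuotientGroup.mk_inv, mk_sec,
    mul_inv_cancel]

/-- the `A`-component -/
noncomputable def cc (A : Subgroup G) (ι : G → (Fin r → ℝ)) (g : G) : Fin r → ℝ :=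
  ι (g * (sec A (g : G ⧸ A))⁻¹)

theorem cc_mul [A.Normal] (h : Lin A ι θ) {a : G} (ha : a ∈ A) (g : G) :
    cc A ι (a * g) = ι a + cc A ι g := by
  unfold cc
  rw [mk_mul_left ha, mul_assoc, h.add a ha _ (mul_sec_inv g)]

/-- the cocycle depending on `x` -/
noncomputable def lam (A : Subgroup G) (ι : G → (Fin r → ℝ))
    (θ : G → (Fin r → ℝ) →ₗ[ℝ] (Fin r → ℝ)) (g x : G) : Fin r → ℝ :=
  cc A ι (g * x) - θ g (cc A ι x)

theorem lam_mul (h : Lin A ι θ) (g g' x : G) :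
    lam A ι θ (g * g') x = lam A ι θ g (g' * x) + θ g (lam A ι θ g' x) := by
  unfold lam
  rw [map_sub, h.th_mul, mul_assoc]
  abel

theorem lam_left [A.Normal] (h : Lin A ι θ) {a : G} (ha : a ∈ A) (g x : G) :
    lam A ι θ g (a * x) = lam A ι θ g x := by
  unfold lam
  have h1 : g * (a * x) = (g * a * g⁻¹) * (g * x) := by group
  rw [h1, cc_mul h (Subgroup.Normal.conj_mem inferInstance a ha g), cc_mul h ha, h.equi a ha,
    map_add]
  abel

theorem lam_A [A.Normal] (h : Lin A ι θ) {a : G} (ha : a ∈ A) (x : G) :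
    lam A ι θ a x = ι a := by
  unfold lam
  rw [cc_mul h ha, h.th_one a ha]
  abel

theorem lam_sec_mul [A.Normal] (h : Lin A ι θ) (g g' : G) (q : G ⧸ A) :
    lam A ι θ (g * g') (sec A q) =
      lam A ι θ g (sec A ((g' : G ⧸ A) * q)) + θ g (lam A ι θ g' (sec A q)) := by
  rw [lam_mul h]
  congr 1
  have h1 : g' * sec A q = (g' * sec A q * (sec A ((g' : G ⧸ A) * q))⁻¹) *
      sec A ((g' : G ⧸ A) * q) := by group
  rw [h1]
  apply lam_left h
  have h2 := mul_sec_inv (A := A) (g' * sec A q)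
  rwa [QuotientGroup.mk_mul, mk_sec] at h2

variable [A.Normal] {b : (G ⧸ A) → (Fin s → ℝ) → (Fin s → ℝ)} {f : (Fin s → ℝ) → ℝ} {R : ℝ}

/-- the normalizing factor -/
noncomputable def SS (b : (G ⧸ A) → (Fin s → ℝ) → (Fin s → ℝ)) (f : (Fin s → ℝ) → ℝ)
    (w : Fin s → ℝ) : ℝ := ∑ᶠ q : G ⧸ A, f (b q⁻¹ w)

/-- the average -/
noncomputable def NN (ι : G → (Fin r → ℝ)) (θ : G → (Fin r → ℝ) →ₗ[ℝ] (Fin r → ℝ))
    (b : (G ⧸ A) → (Fin s → ℝ) → (Fin s → ℝ)) (f : (Fin s → ℝ) → ℝ)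
    (g : G) (w : Fin s → ℝ) : Fin r → ℝ := ∑ᶠ q : G ⧸ A, f (b q⁻¹ w) • lam A ι θ g (sec A q)

theorem fin1 (hb : PC (G ⧸ A) (Fin s → ℝ) b) (hf : ∀ w, f w ≠ 0 → ‖w‖ ≤ R) (w : Fin s → ℝ) :
    (Function.support fun q : G ⧸ A => f (b q⁻¹ w)).Finite :=
  ptFin hb hf (fun q w => f (b q⁻¹ w)) (fun _ _ h => h) w

theorem fin2 (hb : PC (G ⧸ A) (Fin s → ℝ) b) (hf : ∀ w, f w ≠ 0 → ‖w‖ ≤ R)
    (u : G ⧸ A → Fin r → ℝ) (w : Fin s → ℝ) :
    (Function.support fun q : G ⧸ A => f (b q⁻¹ w) • u q).Finite :=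
  ptFin hb hf (fun q w => f (b q⁻¹ w) • u q) (fun _ _ h h0 => h (by rw [h0, zero_smul])) w

theorem SS_cont (hb : PC (G ⧸ A) (Fin s → ℝ) b) (hfc : Continuous f)
    (hf : ∀ w, f w ≠ 0 → ‖w‖ ≤ R) : Continuous (SS b f) :=
  continuous_finsum (fun q => hfc.comp (hb.cont q⁻¹))
    (locFin hb hf (fun q w => f (b q⁻¹ w)) (fun _ _ h => h))

theorem NN_cont (hb : PC (G ⧸ A) (Fin s → ℝ) b) (hfc : Continuous f)
    (hf : ∀ w, f w ≠ 0 → ‖w‖ ≤ R) (g : G) : Continuous (NN ι θ b f g) :=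
  continuous_finsum (fun q => (hfc.comp (hb.cont q⁻¹)).smul continuous_const)
    (locFin hb hf (fun q w => f (b q⁻¹ w) • lam A ι θ g (sec A q))
      (fun _ _ h h0 => h (by rw [h0, zero_smul])))

theorem SS_pos (hb : PC (G ⧸ A) (Fin s → ℝ) b) (hf : ∀ w, f w ≠ 0 → ‖w‖ ≤ R)
    (hf0 : ∀ w, 0 ≤ f w) (hfp : ∀ w, ∃ q, 0 < f (b q w)) (w : Fin s → ℝ) : 0 < SS b f w := by
  obtain ⟨q, hq⟩ := hfp w
  refine finsum_pos (fun q => hf0 _) ⟨q⁻¹, ?_⟩ (fin1 hb hf w)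
  rwa [inv_inv]

theorem SS_inv (hb : PC (G ⧸ A) (Fin s → ℝ) b) (p : G ⧸ A) (w : Fin s → ℝ) :
    SS b f (b p w) = SS b f w := by
  unfold SS
  rw [← finsum_comp_equiv (Equiv.mulLeft p)]
  refine finsum_congr fun q => ?_
  rw [Equiv.coe_mulLeft, mul_inv_rev, ← hb.mul, inv_mul_cancel_right]

theorem NN_mul (h : Lin A ι θ) (hb : PC (G ⧸ A) (Fin s → ℝ) b) (hf : ∀ w, f w ≠ 0 → ‖w‖ ≤ R)
    (g g' : G) (w : Fin s → ℝ) :
    NN ι θ b f (g * g') w = NN ι θ b f g (b g' w) + θ g (NN ι θ b f g' w) := by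
  unfold NN
  rw [map_finsum _ (fin2 hb hf _ w)]
  have h1 : ∀ q : G ⧸ A, f (b (Equiv.mulLeft ((g' : G) : G ⧸ A) q)⁻¹ (b g' w)) •
      lam A ι θ g (sec A (Equiv.mulLeft ((g' : G) : G ⧸ A) q)) =
      f (b q⁻¹ w) • lam A ι θ g (sec A ((g' : G ⧸ A) * q)) := by
    intro q
    rw [Equiv.coe_mulLeft, mul_inv_rev, ← hb.mul, inv_mul_cancel_right]
  have h2 : ∑ᶠ q : G ⧸ A, f (b q⁻¹ (b g' w)) • lam A ι θ g (sec A q) =
      ∑ᶠ q : G ⧸ A, f (b q⁻¹ w) • lam A ι θ g (sec A ((g' : G ⧸ A) * q)) := by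
    rw [← finsum_congr h1]
    exact (finsum_comp_equiv (Equiv.mulLeft ((g' : G) : G ⧸ A))
      (f := fun q => f (b q⁻¹ (b g' w)) • lam A ι θ g (sec A q))).symm
  rw [h2, ← finsum_add_distrib (fin2 hb hf _ w)]
  · refine finsum_congr fun q => ?_
    rw [lam_sec_mul h, map_smul, smul_add]
  · refine (fin2 hb hf (fun q => θ g (lam A ι θ g' (sec A q))) w).subset ?_
    intro q hq
    rw [Function.mem_support] at hq ⊢
    rwa [map_smul] at hq

theorem NN_A (h : Lin A ι θ) (hb : PC (G ⧸ A) (Fin s → ℝ) b) (hf : ∀ w, f w ≠ 0 → ‖w‖ ≤ R)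
    {a : G} (ha : a ∈ A) (w : Fin s → ℝ) : NN ι θ b f a w = SS b f w • ι a := by
  unfold NN SS
  rw [finsum_smul' (fin1 hb hf w)]
  exact finsum_congr fun q => by rw [lam_A h ha]

/-- the cocycle -/
noncomputable def xi (ι : G → (Fin r → ℝ)) (θ : G → (Fin r → ℝ) →ₗ[ℝ] (Fin r → ℝ))
    (b : (G ⧸ A) → (Fin s → ℝ) → (Fin s → ℝ)) (f : (Fin s → ℝ) → ℝ)
    (g : G) (w : Fin s → ℝ) : Fin r → ℝ := (SS b f w)⁻¹ • NN ι θ b f g w

/-- The Seifert construction -/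
theorem seifert (h : Lin A ι θ) (hb : PC (G ⧸ A) (Fin s → ℝ) b) :
    ∃ α, PC G ((Fin r → ℝ) × (Fin s → ℝ)) α := by
  obtain ⟨f, R, hfc, hf0, hf, hfp⟩ := exists_bump hb
  have hS : ∀ w, SS b f w ≠ 0 := fun w => (SS_pos hb hf hf0 hfp w).ne'
  have hxc : ∀ g, Continuous (xi ι θ b f g) := fun g =>
    ((SS_cont hb hfc hf).inv₀ hS).smul (NN_cont hb hfc hf g)
  have hxm : ∀ g g' w, xi ι θ b f (g * g') w =
      xi ι θ b f g (b g' w) + θ g (xi ι θ b f g' w) := by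
    intro g g' w
    unfold xi
    rw [NN_mul h hb hf, SS_inv hb, smul_add, map_smul]
  have hxA : ∀ a ∈ A, ∀ w, xi ι θ b f a w = ι a := by
    intro a ha w
    unfold xi
    rw [NN_A h hb hf ha, smul_smul, inv_mul_cancel₀ (hS w), one_smul]
  have hι1 : ι 1 = 0 := by
    have := h.add 1 A.one_mem 1 A.one_mem
    rw [mul_one] at this
    have h2 : ι 1 + 0 = ι 1 + ι 1 := by rw [add_zero]; exact this
    exact (add_left_cancel h2).symm
  have hθc : ∀ g, Continuous (θ g) := fun g => (θ g).continuous_of_finiteDimensional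
  let α : G → (Fin r → ℝ) × (Fin s → ℝ) → (Fin r → ℝ) × (Fin s → ℝ) := fun g x =>
    (θ g x.1 + xi ι θ b f g x.2, b g x.2)
  have hαm : ∀ g g' x, α (g * g') x = α g (α g' x) := by
    intro g g' x
    change (θ (g * g') x.1 + xi ι θ b f (g * g') x.2, b ((g * g' : G) : G ⧸ A) x.2) =
      (θ g (θ g' x.1 + xi ι θ b f g' x.2) + xi ι θ b f g (b g' x.2), b g (b g' x.2))
    rw [hxm, h.th_mul, map_add, QuotientGroup.mk_mul, hb.mul, add_assoc,
      add_comm (xi ι θ b f g (b g' x.2))]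
  have hαA : ∀ a ∈ A, ∀ x, α a x = (ι a + x.1, x.2) := by
    intro a ha x
    change (θ a x.1 + xi ι θ b f a x.2, b ((a : G) : G ⧸ A) x.2) = _
    rw [h.th_one a ha, hxA a ha, (QuotientGroup.eq_one_iff a).2 ha, hb.one, add_comm]
  have hαc : ∀ g, Continuous (α g) := by
    intro g
    exact (((hθc g).comp continuous_fst).add ((hxc g).comp continuous_snd)).prodMk
      ((hb.cont g).comp continuous_snd)
  refine ⟨α, hαc, fun x => ?_, hαm, fun C hC => ?_, ?_⟩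
  · rw [hαA 1 A.one_mem, hι1, zero_add]
  · have hD : IsCompact (Prod.snd '' C) := hC.image continuous_snd
    have hB : IsCompact (Prod.fst '' C) := hC.image continuous_fst
    have h1 := hb.proper _ hD
    have h2 : ∀ q : G ⧸ A, {a | a ∈ A ∧ ι a ∈ (fun x : (Fin r → ℝ) × ((Fin r → ℝ) × (Fin s → ℝ)) =>
        x.1 - (α (sec A q) x.2).1) '' ((Prod.fst '' C) ×ˢ C)}.Finite := by
      intro q
      apply h.proper
      refine (hB.prod hC).image ?_
      exact continuous_fst.sub (continuous_fst.comp ((hαc _).comp continuous_snd))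
    refine (h1.biUnion fun q _ => (h2 q).image fun a => a * sec A q).subset ?_
    rintro g ⟨x, hx, hx'⟩
    rw [Set.mem_iUnion₂]
    refine ⟨(g : G ⧸ A), ⟨x.2, ⟨x, hx, rfl⟩, ⟨_, hx', rfl⟩⟩,
      g * (sec A (g : G ⧸ A))⁻¹, ⟨mul_sec_inv g, ?_⟩, by group⟩
    refine ⟨((α g x).1, x), ⟨⟨_, hx', rfl⟩, hx⟩, ?_⟩
    have h3 : α g x = α (g * (sec A (g : G ⧸ A))⁻¹) (α (sec A (g : G ⧸ A)) x) := by
      rw [← hαm, inv_mul_cancel_right]
    rw [hαA _ (mul_sec_inv g)] at h3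
    change (α g x).1 - (α (sec A (g : G ⧸ A)) x).1 = _
    rw [h3]
    change _ + (α (sec A (g : G ⧸ A)) x).1 - (α (sec A (g : G ⧸ A)) x).1 = _
    rw [add_sub_cancel_right]
  · obtain ⟨D, hD, h1⟩ := hb.cocpt
    obtain ⟨E, hE, h2⟩ := h.cocpt
    refine ⟨E ×ˢ D, hE.prod hD, fun x => ?_⟩
    obtain ⟨q, hq⟩ := h1 x.2
    obtain ⟨a, ha, ha'⟩ := h2 (α (sec A q) x).1
    refine ⟨a * sec A q, ?_⟩
    rw [hαm, hαA a ha]
    refine ⟨ha', ?_⟩
    change b ((sec A q : G) : G ⧸ A) x.2 ∈ D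
    rwa [mk_sec]

end main

end Pool.Agent.H26.PD
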