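import Mathlib

/-!
Recognition of the fundamental groups of the torus and the Klein bottle.
-/

set_option autoImplicit false

namespace Pool.Agent.H26.PD

open scoped Classical

theorem semidirect_of {K : Type} [Group K] {x b : K}
    (hgen : ∀ y : K, ∃ i j : ℤ, y = x ^ i * b ^ j)
    (hfree : ∀ i j : ℤ, x ^ i * b ^ j = 1 → i = 0 ∧ j = 0)
    (hconj : b * x * b⁻¹ = x ∨ b * x * b⁻¹ = x⁻¹) :
    ∃ φ : Multiplicative ℤ →* MulAut (Multiplicative ℤ),
      Nonempty (K ≃* Multiplicative ℤ ⋊[φ] Multiplicative ℤ) := by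
  let f : Multiplicative ℤ →* K := zpowersHom K x
  have hf : ∀ m : ℤ, f (Multiplicative.ofAdd m) = x ^ m := fun m => rfl
  obtain ⟨α, hα⟩ : ∃ α : MulAut (Multiplicative ℤ), ∀ m, f (α m) = b * f m * b⁻¹ := by
    rcases hconj with h | h
    · refine ⟨1, fun m => ?_⟩
      obtain ⟨m, rfl⟩ := Multiplicative.ofAdd.surjective m
      rw [MulAut.one_apply, hf, ← conj_zpow, h]
    · refine ⟨MulEquiv.inv (Multiplicative ℤ), fun m => ?_⟩
      obtain ⟨m, rfl⟩ := Multiplicative.ofAdd.surjective m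
      change f (Multiplicative.ofAdd m)⁻¹ = _
      rw [map_inv, hf, ← conj_zpow, h, inv_zpow]
  have hα' : ∀ m, f (α⁻¹ m) = b⁻¹ * f m * b := by
    intro m
    have h1 := hα (α⁻¹ m)
    rw [MulAut.apply_inv_self] at h1
    rw [h1]
    group
  have hαj : ∀ (j : ℤ) m, f ((α ^ j) m) = b ^ j * f m * (b ^ j)⁻¹ := by
    intro j
    induction j using Int.induction_on with
    | zero => intro m; simp
    | succ i ih =>
      intro m
      rw [zpow_add_one, MulAut.mul_apply, ih, hα, zpow_add_one]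
      group
    | pred i ih =>
      intro m
      rw [zpow_sub_one, MulAut.mul_apply, ih, hα', zpow_sub_one]
      group
  let φ : Multiplicative ℤ →* MulAut (Multiplicative ℤ) := zpowersHom _ α
  have hφ : ∀ j : ℤ, φ (Multiplicative.ofAdd j) = α ^ j := fun j => rfl
  let g : Multiplicative ℤ →* K := zpowersHom K b
  have hg : ∀ m : ℤ, g (Multiplicative.ofAdd m) = b ^ m := fun m => rfl
  let F : Multiplicative ℤ ⋊[φ] Multiplicative ℤ →* K := SemidirectProduct.lift f g (by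
    intro j
    obtain ⟨j, rfl⟩ := Multiplicative.ofAdd.surjective j
    refine MonoidHom.ext fun m => ?_
    change f (φ (Multiplicative.ofAdd j) m) = g (Multiplicative.ofAdd j) * f m *
      (g (Multiplicative.ofAdd j))⁻¹
    rw [hφ, hαj, hg])
  have hF : ∀ p : Multiplicative ℤ ⋊[φ] Multiplicative ℤ,
      F p = x ^ (p.left.toAdd) * b ^ (p.right.toAdd) := by
    intro p
    have h1 : F p = f p.left * g p.right := by
      conv_lhs => rw [← SemidirectProduct.inl_left_mul_inr_right p]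
      rw [map_mul, SemidirectProduct.lift_inl, SemidirectProduct.lift_inr]
    rw [h1]
    exact congrArg₂ (· * ·) (hf _) (hg _)
  have hinj : Function.Injective F := by
    rw [injective_iff_map_eq_one]
    intro p hp
    rw [hF] at hp
    obtain ⟨h1, h2⟩ := hfree _ _ hp
    refine SemidirectProduct.ext ?_ ?_
    · exact h1
    · exact h2
  have hsurj : Function.Surjective F := by
    intro y
    obtain ⟨i, j, hy⟩ := hgen y
    refine ⟨⟨Multiplicative.ofAdd i, Multiplicative.ofAdd j⟩, ?_⟩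
    rw [hF, hy]
    rfl
  exact ⟨φ, ⟨(MulEquiv.ofBijective F ⟨hinj, hsurj⟩).symm⟩⟩

variable {G : Type} [Group G]

/-- additive on a subgroup -/
def AddOn (K : Subgroup G) (P : G → ℤ) : Prop := ∀ x ∈ K, ∀ y ∈ K, P (x * y) = P x + P y

variable {K : Subgroup G} {P : G → ℤ}

theorem AddOn.one (h : AddOn K P) : P 1 = 0 := by
  have := h 1 K.one_mem 1 K.one_mem
  rw [mul_one] at this
  omega

theorem AddOn.inv (h : AddOn K P) {x : G} (hx : x ∈ K) : P x⁻¹ = -P x := by
  have := h x hx x⁻¹ (K.inv_mem hx)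
  rw [mul_inv_cancel, h.one] at this
  omega

theorem AddOn.conj (h : AddOn K P) {x y : G} (hx : x ∈ K) (hy : y ∈ K) : P (y * x * y⁻¹) = P x := by
  rw [h _ (K.mul_mem hy hx) _ (K.inv_mem hy), h y hy x hx, h.inv hy]
  ring

theorem AddOn.zpow (h : AddOn K P) {x : G} (hx : x ∈ K) (i : ℤ) : P (x ^ i) = i * P x := by
  induction i using Int.induction_on with
  | zero => rw [zpow_zero, h.one, zero_mul]
  | succ i ih =>
    rw [zpow_add_one, h _ (K.zpow_mem hx _) x hx, ih]
    ring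
  | pred i ih =>
    rw [zpow_sub_one, h _ (K.zpow_mem hx _) _ (K.inv_mem hx), ih, h.inv hx]
    ring

/-- the kernel -/
def kerOn (h : AddOn K P) : Subgroup G where
  carrier := {x | x ∈ K ∧ P x = 0}
  one_mem' := ⟨K.one_mem, h.one⟩
  mul_mem' := fun {x y} hx hy => ⟨K.mul_mem hx.1 hy.1, by rw [h _ hx.1 _ hy.1, hx.2, hy.2, add_zero]⟩
  inv_mem' := fun {x} hx => ⟨K.inv_mem hx.1, by rw [h.inv hx.1, hx.2, neg_zero]⟩

theorem mem_kerOn {h : AddOn K P} {x : G} : x ∈ kerOn h ↔ x ∈ K ∧ P x = 0 := Iff.rfl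

/-- an element with the smallest positive value -/
theorem AddOn.exists_min (h : AddOn K P) {z : G} (hz : z ∈ K) (hPz : P z ≠ 0) :
    ∃ s ∈ K, P s ≠ 0 ∧ ∀ y ∈ K, ∃ q : ℤ, y * (s ^ q)⁻¹ ∈ kerOn h := by
  have hex : ∃ d : ℕ, d ≠ 0 ∧ ∃ s ∈ K, P s = d := by
    rcases lt_or_gt_of_ne hPz with h1 | h1
    · refine ⟨(P z⁻¹).toNat, ?_, z⁻¹, K.inv_mem hz, ?_⟩ <;> rw [h.inv hz] <;> omega
    · exact ⟨(P z).toNat, by omega, z, hz, by omega⟩
  obtain ⟨hd0, s, hs, hsd⟩ := Nat.find_spec hex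
  have hmin := fun m => Nat.find_min (H := hex) (m := m)
  set d := Nat.find hex with hd
  refine ⟨s, hs, by omega, fun y hy => ⟨P y / d, K.mul_mem hy (K.inv_mem (K.zpow_mem hs _)), ?_⟩⟩
  have h1 : P (y * (s ^ (P y / d))⁻¹) = P y % d := by
    rw [h y hy _ (K.inv_mem (K.zpow_mem hs _)), h.inv (K.zpow_mem hs _), h.zpow hs, hsd]
    have := Int.emod_add_mul_ediv (P y) d
    linarith
  rw [h1]
  by_contra hne
  have h2 : 0 ≤ P y % d := Int.emod_nonneg _ (by omega)
  have h3 : P y % d < d := Int.emod_lt_of_pos _ (by omega)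
  have h4 : y * (s ^ (P y / d))⁻¹ ∈ K := K.mul_mem hy (K.inv_mem (K.zpow_mem hs _))
  refine hmin (P y % d).toNat (by omega) ⟨by omega, _, h4, ?_⟩
  rw [h1]
  omega

end Pool.Agent.H26.PD
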