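import Pool.Agent.H26.PD.Thin

/-!
The shift argument: the twisted coinvariants of `V0` vanish for subgroups of infinite index.
-/

set_option autoImplicit false

namespace Pool.Agent.H26.PD

open Pool.Agent.Helper386.PD3
open scoped Classical Matrix

noncomputable section

variable {G : Type} [Group G] {M : Type} [AddCommGroup M]

omit [Group G] in
theorem exists_int_prim (h : ℤ → M) : ∃ P : ℤ → M, ∀ i, P (i + 1) = P i + h i := by
  refine ⟨fun i => (∑ j ∈ Finset.range i.toNat, h j) -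
    ∑ j ∈ Finset.range (-i).toNat, h (-((j : ℤ) + 1)), fun i => ?_⟩
  rcases lt_or_ge i 0 with hi | hi
  · obtain ⟨k, hk⟩ : ∃ k : ℕ, i = -((k : ℤ) + 1) := ⟨(-i - 1).toNat, by omega⟩
    have h1 : (i + 1).toNat = 0 := by omega
    have h2 : i.toNat = 0 := by omega
    have h3 : (-(i + 1)).toNat = k := by omega
    have h4 : (-i).toNat = k + 1 := by omega
    simp only [h1, h2, h3, h4, Finset.range_zero, Finset.sum_empty, Finset.sum_range_succ]
    rw [hk]
    abel
  · obtain ⟨k, hk⟩ : ∃ k : ℕ, i = (k : ℤ) := ⟨i.toNat, by omega⟩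
    have h1 : (i + 1).toNat = k + 1 := by omega
    have h2 : i.toNat = k := by omega
    have h3 : (-(i + 1)).toNat = 0 := by omega
    have h4 : (-i).toNat = 0 := by omega
    simp only [h1, h2, h3, h4, Finset.range_zero, Finset.sum_empty, Finset.sum_range_succ]
    rw [hk]
    abel

variable {χ : G →* Multiplicative ℤ} {N : Subgroup G}

theorem shift (hN : ∀ g ∈ N, lv χ g = 0) {a : G →* Module.End ℤ M} {z : G} (hz : lv χ z = 0)
    {X : Set G} (hXN : ∀ g ∈ N, ∀ y ∈ X, g * y ∈ X) (hXz : ∀ y, y * z ∈ X ↔ y ∈ X)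
    (hX : ∀ y ∈ X, lv χ y = 0 → ∀ i : ℤ, i ≠ 0 → y * z ^ i * y⁻¹ ∉ N)
    {f : G → M} (hf : f ∈ EqS N a) (hfX : ∀ y, f y ≠ 0 → y ∈ X ∧ lv χ y = 0) :
    ∃ F ∈ V0 χ N a, ∀ y, F (y * z) - F y = f y := by
  have hXzi : ∀ (i : ℤ) (y : G), y * z ^ i ∈ X ↔ y ∈ X := by
    intro i
    induction i using Int.induction_on with
    | zero => intro y; simp
    | succ k ih => intro y; rw [zpow_add_one, ← mul_assoc, hXz, ih]
    | pred k ih =>
      intro y
      rw [← hXz (y * z ^ (-(k : ℤ) - 1)), mul_assoc, ← zpow_add_one, sub_add_cancel, ih]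
  have hlz : ∀ i : ℤ, lv χ (z ^ i) = 0 := by
    intro i
    rw [lv, map_zpow, toAdd_zpow]
    change i • lv χ z = 0
    rw [hz, smul_zero]
  let r : Setoid G :=
    { r := fun y y' => ∃ g ∈ N, ∃ i : ℤ, y' = g * y * z ^ i
      iseqv :=
        { refl := fun y => ⟨1, N.one_mem, 0, by simp⟩
          symm := by
            rintro y _ ⟨g, hg, i, rfl⟩
            exact ⟨g⁻¹, N.inv_mem hg, -i, by group⟩
          trans := by
            rintro y _ _ ⟨g, hg, i, rfl⟩ ⟨g', hg', i', rfl⟩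
            exact ⟨g' * g, N.mul_mem hg' hg, i + i', by rw [zpow_add]; group⟩ } }
  let rep : G → G := fun y => (Quotient.mk r y).out
  have hrep : ∀ y, ∃ g ∈ N, ∃ i : ℤ, y = g * rep y * z ^ i := fun y =>
    Quotient.exact (Quotient.out_eq (Quotient.mk r y))
  have hreq : ∀ g ∈ N, ∀ (i : ℤ) (y : G), rep (g * y * z ^ i) = rep y := by
    intro g hg i y
    change (Quotient.mk r (g * y * z ^ i)).out = (Quotient.mk r y).out
    congr 1
    exact (Quotient.sound (s := r) ⟨g, hg, i, rfl⟩).symm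
  choose γ hγ ι hι using hrep
  have hrX : ∀ y ∈ X, rep y ∈ X := by
    intro y hy
    have h1 : rep y = (γ y)⁻¹ * y * z ^ (-ι y) := by
      have h2 : (γ y)⁻¹ * y = rep y * z ^ ι y := by
        rw [inv_mul_eq_iff_eq_mul, ← mul_assoc]
        exact hι y
      rw [h2, mul_assoc, ← zpow_add, add_neg_cancel, zpow_zero, mul_one]
    rw [h1, hXzi]
    exact hXN _ (N.inv_mem (hγ y)) _ hy
  have hr0 : ∀ y, lv χ (rep y) = lv χ y := by
    intro y
    conv_rhs => rw [hι y]
    rw [lv_mul, lv_mul, hN _ (hγ y), hlz, zero_add, add_zero]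
  have huniq : ∀ y ∈ X, lv χ y = 0 → ∀ g ∈ N, ∀ g' ∈ N, ∀ i i' : ℤ,
      g * y * z ^ i = g' * y * z ^ i' → g = g' ∧ i = i' := by
    intro y hy hy0 g hg g' hg' i i' h
    have h1 : y * z ^ (i' - i) * y⁻¹ = g'⁻¹ * g := by
      have h2 : g'⁻¹ * (g * y * z ^ i) * z ^ (-i) * y⁻¹ = g'⁻¹ * g := by group
      rw [← h2, h]
      group
    have h3 : i' - i = 0 := by
      by_contra hne
      apply hX y hy hy0 _ hne
      rw [h1]
      exact N.mul_mem (N.inv_mem hg') hg
    have h4 : i = i' := by linarith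
    subst h4
    exact ⟨by simpa using h, rfl⟩
  choose P hP using fun r0 : G => exists_int_prim (fun i : ℤ => f (r0 * z ^ i))
  let F : G → M := fun y => if y ∈ X ∧ lv χ y = 0 then a (γ y) (P (rep y) (ι y)) else 0
  have hF1 : ∀ y, (y ∈ X ∧ lv χ y = 0) → F y = a (γ y) (P (rep y) (ι y)) := fun y h => if_pos h
  have hF0 : ∀ y, ¬ (y ∈ X ∧ lv χ y = 0) → F y = 0 := fun y h => if_neg h
  have hFE : F ∈ EqS N a := by
    intro g hg y
    by_cases hy : y ∈ X ∧ lv χ y = 0
    · have hy' : g * y ∈ X ∧ lv χ (g * y) = 0 :=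
        ⟨hXN g hg y hy.1, by rw [lv_mul, hN g hg, hy.2, add_zero]⟩
      rw [hF1 _ hy, hF1 _ hy']
      have h1 : rep (g * y) = rep y := by simpa using hreq g hg 0 y
      have h2 : γ (g * y) * rep y * z ^ ι (g * y) = (g * γ y) * rep y * z ^ ι y := by
        rw [← h1, ← hι (g * y), h1, mul_assoc g, mul_assoc g, ← hι y]
      obtain ⟨h3, h4⟩ := huniq _ (hrX y hy.1) (by rw [hr0, hy.2]) _ (hγ _) _
        (N.mul_mem hg (hγ y)) _ _ h2
      rw [h1, h3, h4, map_mul]
      rfl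
    · have hy' : ¬ (g * y ∈ X ∧ lv χ (g * y) = 0) := by
        rintro ⟨h1, h2⟩
        apply hy
        refine ⟨?_, ?_⟩
        · have := hXN g⁻¹ (N.inv_mem hg) _ h1
          rwa [inv_mul_cancel_left] at this
        · rwa [lv_mul, hN g hg, zero_add] at h2
      rw [hF0 _ hy, hF0 _ hy', map_zero]
  have hFl : ∀ y, lv χ y ≠ 0 → F y = 0 := fun y hy => hF0 y fun h => hy h.2
  refine ⟨F, Submodule.mem_inf.2 ⟨⟨hFE, 0, fun x hx => hFl x (by omega)⟩,
    ⟨hFE, 0, fun x hx => hFl x (by rw [lv_chi_inv] at hx; omega)⟩⟩, fun y => ?_⟩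
  by_cases hy : y ∈ X ∧ lv χ y = 0
  · have hy' : y * z ∈ X ∧ lv χ (y * z) = 0 :=
      ⟨(hXz y).2 hy.1, by rw [lv_mul, hz, hy.2, add_zero]⟩
    rw [hF1 _ hy, hF1 _ hy']
    have h1 : rep (y * z) = rep y := by simpa using hreq 1 N.one_mem 1 y
    have h2 : γ (y * z) * rep y * z ^ ι (y * z) = γ y * rep y * z ^ (ι y + 1) := by
      rw [← h1, ← hι (y * z), h1, zpow_add_one, ← mul_assoc, ← hι y]
    obtain ⟨h3, h4⟩ := huniq _ (hrX y hy.1) (by rw [hr0, hy.2]) _ (hγ _) _ (hγ y) _ _ h2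
    rw [h1, h3, h4, hP, map_add, add_sub_cancel_left, ← hf _ (hγ y), ← mul_assoc, ← hι y]
  · have hy' : ¬ (y * z ∈ X ∧ lv χ (y * z) = 0) := by
      rintro ⟨h1, h2⟩
      exact hy ⟨(hXz y).1 h1, by rwa [lv_mul, hz, add_zero] at h2⟩
    rw [hF0 _ hy, hF0 _ hy', sub_self]
    by_contra hne
    exact hy (hfX y (Ne.symm hne))

/-- reduction to level zero -/
theorem level_red {w : G →* ℤˣ} {a : G → Module.End ℤ M} (hN : ∀ g ∈ N, lv χ g = 0) {t : G}
    (ht : lv χ t = 1) (Q : Submodule ℤ (G → M)) (hQ : Aug w (V0 χ N a) ≤ Q)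
    (h0 : ∀ f ∈ V0 χ N a, (∀ x, lv χ x ≠ 0 → f x = 0) → f ∈ Q) : V0 χ N a ≤ Q := by
  intro f hf
  obtain ⟨⟨hfE, m, hm⟩, ⟨-, m', hm'⟩⟩ := Submodule.mem_inf.1 hf
  let lev : ℤ → (G → M) := fun j x => if lv χ x = j then f x else 0
  have hlev : ∀ j, lev j ∈ V0 χ N a := by
    intro j
    have hE : ∀ g ∈ N, ∀ x, lev j (g * x) = a g (lev j x) := by
      intro g hg x
      change (if lv χ (g * x) = j then f (g * x) else 0) = a g (if lv χ x = j then f x else 0)
      rw [lv_mul, hN g hg, zero_add]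
      split_ifs
      · exact hfE g hg x
      · rw [map_zero]
    refine Submodule.mem_inf.2 ⟨⟨hE, j, fun x hx => if_neg (ne_of_lt hx)⟩,
      ⟨hE, -j, fun x hx => if_neg ?_⟩⟩
    rw [lv_chi_inv] at hx
    omega
  have hlevQ : ∀ j, lev j ∈ Q := by
    intro j
    have h1 : ∀ x, rho M (dg w (gof (t ^ (-j)))) (lev j) x =
        ((w (t ^ (-j)) : ℤˣ) : ℤ) • lev j (x * t ^ j) := by
      intro x
      rw [dg_of, ← zpow_neg, neg_neg, map_zsmul, LinearMap.smul_apply, Pi.smul_apply, rho_of_apply]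
    have h2 : rho M (dg w (gof (t ^ (-j)))) (lev j) ∈ Q := by
      refine h0 _ ((stable_V0 χ N a).rho _ _ (hlev j)) fun x hx => ?_
      rw [h1]
      have h3 : lev j (x * t ^ j) = 0 := by
        apply if_neg
        rw [lv_mul]
        have : lv χ (t ^ j) = j := by
          rw [lv, map_zpow, toAdd_zpow]
          change j • lv χ t = j
          rw [ht, smul_eq_mul, mul_one]
        rw [this]
        omega
      rw [h3, smul_zero]
    have h4 : rho M (dg w (gof (t ^ (-j)))) (lev j) - lev j ∈ Q :=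
      hQ (Submodule.subset_span ⟨_, _, hlev j, rfl⟩)
    have h5 := Submodule.sub_mem _ h2 h4
    rwa [sub_sub_cancel] at h5
  have hsum : f = ∑ j ∈ Finset.Icc m (-m'), lev j := by
    funext x
    rw [Finset.sum_apply]
    change f x = ∑ j ∈ Finset.Icc m (-m'), if lv χ x = j then f x else 0
    rw [Finset.sum_ite_eq]
    split_ifs with h
    · rfl
    · rw [Finset.mem_Icc, not_and_or, not_le, not_le] at h
      rcases h with h | h
      · exact hm x h
      · exact hm' x (by rw [lv_chi_inv]; omega)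
  rw [hsum]
  exact Submodule.sum_mem _ fun j _ => hlevQ j

/-- The criterion for thin subgroups. -/
theorem thin_of_shift {n : ℕ} {w : G →* ℤˣ} {e0 e1 e2 e3 d0 d1 d2 : MR G n}
    (hF : Full w e0 e1 e2 e3 d0 d1 d2) {t : G} (ht : lv χ t = 1) (hK : χ.ker.FG)
    (hN : ∀ g ∈ N, lv χ g = 0) {X : Set G} {z1 z2 : G} (hz1 : lv χ z1 = 0) (hz2 : lv χ z2 = 0)
    (hXN : ∀ g ∈ N, ∀ y ∈ X, g * y ∈ X) (hX1 : ∀ y, y * z1 ∈ X ↔ y ∈ X)
    (hX2 : ∀ y, y * z2 ∈ X ↔ y ∈ X)
    (h1 : ∀ y ∈ X, lv χ y = 0 → ∀ i : ℤ, i ≠ 0 → y * z1 ^ i * y⁻¹ ∉ N)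
    (h2 : ∀ y ∉ X, lv χ y = 0 → ∀ i : ℤ, i ≠ 0 → y * z2 ^ i * y⁻¹ ∉ N) : Thin N := by
  refine thin_of_aug hF ht hK hN (level_red hN ht _ le_rfl fun f hf hf0 => ?_)
  have hfE : f ∈ EqS N (aZ d1) := (Submodule.mem_inf.1 hf).1.1
  let res : Set G → G → Z1 d1 := fun X' x => if x ∈ X' then f x else 0
  -- one piece
  have key : ∀ (z : G) (X' : Set G), lv χ z = 0 → (∀ g ∈ N, ∀ y ∈ X', g * y ∈ X') →
      (∀ y, y * z ∈ X' ↔ y ∈ X') →
      (∀ y ∈ X', lv χ y = 0 → ∀ i : ℤ, i ≠ 0 → y * z ^ i * y⁻¹ ∉ N) →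
      res X' ∈ Aug w (V0 χ N (aZ d1)) := by
    intro z X' hz hXN' hXz hX'
    have hE : res X' ∈ EqS N (aZ d1) := by
      intro g hg x
      have h3 : g * x ∈ X' ↔ x ∈ X' := by
        refine ⟨fun h => ?_, hXN' g hg x⟩
        have := hXN' g⁻¹ (N.inv_mem hg) _ h
        rwa [inv_mul_cancel_left] at this
      change (if g * x ∈ X' then f (g * x) else 0) = aZ d1 g (if x ∈ X' then f x else 0)
      by_cases hx : x ∈ X'
      · rw [if_pos hx, if_pos (h3.2 hx)]
        exact hfE g hg x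
      · rw [if_neg hx, if_neg (fun h => hx (h3.1 h)), map_zero]
    obtain ⟨F, hFV, hF'⟩ := shift hN (a := aZ d1) (z := z * z) (X := X')
      (by rw [lv_mul, hz, add_zero]) hXN' (fun y => by rw [← mul_assoc, hXz, hXz])
      (fun y hy hy0 i hi => by
        have h3 : (z * z) ^ i = z ^ (2 * i) := by
          rw [← pow_two, ← zpow_natCast, ← zpow_mul]
          rfl
        rw [h3]
        exact hX' y hy hy0 _ (by omega)) hE
      (fun y hy => by
        have h3 : y ∈ X' := by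
          by_contra h4
          exact hy (if_neg h4)
        refine ⟨h3, ?_⟩
        by_contra h4
        apply hy
        change (if y ∈ X' then f y else 0) = 0
        rw [if_pos h3, hf0 y h4])
    refine Submodule.subset_span ⟨(z * z)⁻¹, F, hFV, ?_⟩
    funext y
    rw [← hF' y, Pi.sub_apply, dg_of, inv_inv, map_zsmul, LinearMap.smul_apply, Pi.smul_apply,
      rho_of_apply, map_inv, map_mul, Int.units_mul_self, inv_one, Units.val_one, one_smul]
  have h3 : f = res X + res Xᶜ := by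
    funext x
    change f x = res X x + res Xᶜ x
    by_cases hx : x ∈ X
    · have e1 : res X x = f x := if_pos hx
      have e2 : res Xᶜ x = 0 := if_neg (fun h => h hx)
      rw [e1, e2, add_zero]
    · have e1 : res X x = 0 := if_neg hx
      have e2 : res Xᶜ x = f x := if_pos hx
      rw [e1, e2, zero_add]
  rw [h3]
  refine Submodule.add_mem _ (key z1 X hz1 hXN hX1 h1) (key z2 Xᶜ hz2 ?_ ?_ ?_)
  · intro g hg y hy h
    apply hy
    have := hXN g⁻¹ (N.inv_mem hg) _ h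
    rwa [inv_mul_cancel_left] at this
  · intro y
    exact not_congr (hX2 y)
  · exact fun y hy => h2 y hy

end

end Pool.Agent.H26.PD
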