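import Pool.Agent.H26.PD.Cyc
import Pool.Agent.H26.PD.Semi
import Pool.Agent.H26.PD.B1
import Pool.Agent.H26.PD.Shift

/-!
The structure of the kernel of a character of a `PD_3`-group which contains no free group of
rank two.
-/

set_option autoImplicit false

namespace Pool.Agent.H26.PD

open Pool.Agent.Helper386.PD3
open scoped Classical Matrix

variable {G : Type} [Group G] {n : ℕ} {w : G →* ℤˣ} {e0 e1 e2 e3 d0 d1 d2 : MR G n}
  {χ : G →* Multiplicative ℤ}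

theorem mem_ker_lv {g : G} : g ∈ χ.ker ↔ lv χ g = 0 := by
  rw [MonoidHom.mem_ker]
  exact Iff.rfl

/-- a subgroup of a cyclic group is cyclic -/
theorem gen_of_le {H : Subgroup G} {s : G} (h : ∀ x ∈ H, ∃ k : ℤ, x = s ^ k) :
    ∃ g ∈ H, ∀ x ∈ H, ∃ k : ℤ, x = g ^ k := by
  have hle : H ≤ Subgroup.zpowers s := by
    intro x hx
    obtain ⟨k, hk⟩ := h x hx
    rw [hk]
    exact Subgroup.zpow_mem_zpowers s k
  have := isCyclic_of_injective (Subgroup.inclusion hle) (Subgroup.inclusion_injective hle)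
  obtain ⟨g, hg⟩ := IsCyclic.exists_generator (α := H)
  refine ⟨g, g.2, fun x hx => ?_⟩
  obtain ⟨k, hk⟩ := Subgroup.mem_zpowers_iff.1 (hg ⟨x, hx⟩)
  refine ⟨k, ?_⟩
  exact (congrArg Subtype.val hk).symm

theorem no_free_le {N K : Subgroup G} (hN : N ≤ K)
    (hno : ¬ ∃ F : FreeGroup (Fin 2) →* K, Function.Injective F) :
    ¬ ∃ F : FreeGroup (Fin 2) →* N, Function.Injective F := fun ⟨F, hF⟩ =>
  hno ⟨(Subgroup.inclusion hN).comp F, (Subgroup.inclusion_injective hN).comp hF⟩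

/-- conjugation by a normalizing element -/
theorem conj_pm (htf : ∀ g : G, g ≠ 1 → ∀ k : ℤ, k ≠ 0 → g ^ k ≠ 1) {c s : G} (hc : c ≠ 1)
    (h1 : ∃ k : ℤ, s * c * s⁻¹ = c ^ k) (h2 : ∃ k : ℤ, s⁻¹ * c * s = c ^ k) :
    s * c * s⁻¹ = c ∨ s * c * s⁻¹ = c⁻¹ := by
  obtain ⟨e, he⟩ := h1
  obtain ⟨e', he'⟩ := h2
  have h3 : c ^ (e * e') = c := by
    rw [zpow_mul, ← he, conj_zpow, ← he']
    group
  have h4 : e * e' = 1 := by
    by_contra hne
    apply htf c hc (e * e' - 1) (by omega)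
    rw [zpow_sub, h3, zpow_one, mul_inv_cancel]
  rcases Int.isUnit_iff.1 (IsUnit.of_mul_eq_one _ h4) with h5 | h5
  · left
    rw [he, h5, zpow_one]
  · right
    rw [he, h5, zpow_neg, zpow_one]

section main

variable (hF : Full w e0 e1 e2 e3 d0 d1 d2)
  (hex2 : ∀ v, v ᵥ* e2 = v → v ᵥ* d1 = 0 → ∃ u, u ᵥ* d2 = v) {t : G}
  (ht : lv χ t = 1) (hK : χ.ker.FG) (htf : ∀ g : G, g ≠ 1 → ∀ k : ℤ, k ≠ 0 → g ^ k ≠ 1)
  (hno : ¬ ∃ F : FreeGroup (Fin 2) →* χ.ker, Function.Injective F)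
  {H : Subgroup G} (hH : ∀ g, g ∈ H ↔ lv χ g = 0 ∧ w g = 1)

include hF hex2 ht hK htf hno hH

theorem plus_case {P : G → ℤ} (hP : AddOn χ.ker P) {z : G} (hz : z ∈ χ.ker) (hPz : P z ≠ 0) :
    ∃ φ : Multiplicative ℤ →* MulAut (Multiplicative ℤ),
      Nonempty (χ.ker ≃* Multiplicative ℤ ⋊[φ] Multiplicative ℤ) := by
  let N := kerOn hP
  have hNK : N ≤ χ.ker := fun x hx => hx.1
  have hthin : Thin N := by
    refine thin_of_shift hF ht hK (N := N) (fun g hg => mem_ker_lv.1 hg.1) (X := Set.univ)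
      (z1 := z) (z2 := z) (mem_ker_lv.1 hz) (mem_ker_lv.1 hz) (fun _ _ _ _ => trivial)
      (fun _ => Iff.rfl) (fun _ => Iff.rfl) ?_ (fun y hy => absurd trivial hy)
    intro y _ hy i hi h1
    have h2 : P (y * z ^ i * y⁻¹) = 0 := h1.2
    rw [hP.conj (χ.ker.zpow_mem hz i) (mem_ker_lv.2 hy), hP.zpow hz] at h2
    exact (mul_ne_zero hi hPz) h2
  obtain ⟨c, hc, hcN⟩ := hthin.cyclic (fun g _ hg => htf g hg) (no_free_le hNK hno)
  obtain ⟨s, hs, hPs, hsN⟩ := hP.exists_min hz hPz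
  have hgen : ∀ y ∈ χ.ker, ∃ i j : ℤ, y = c ^ i * s ^ j := by
    intro y hy
    obtain ⟨q, hq⟩ := hsN y hy
    obtain ⟨k, hk⟩ := hcN _ hq
    exact ⟨k, q, by rw [← hk, inv_mul_cancel_right]⟩
  have hc1 : c ≠ 1 := by
    rintro rfl
    obtain ⟨g, hg, hgH⟩ := gen_of_le (H := H) (s := s) fun x hx => by
      obtain ⟨i, j, hij⟩ := hgen x (mem_ker_lv.2 ((hH x).1 hx).1)
      exact ⟨j, by rw [hij, one_zpow, one_mul]⟩
    exact not_cyclic hF hex2 ht hK hH (fun g _ hg => htf g hg) hg hgH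
  have hnorm : ∀ y ∈ χ.ker, ∃ k : ℤ, y * c * y⁻¹ = c ^ k := by
    intro y hy
    apply hcN
    refine ⟨χ.ker.mul_mem (χ.ker.mul_mem hy hc.1) (χ.ker.inv_mem hy), ?_⟩
    rw [hP.conj hc.1 hy]
    exact hc.2
  have hpm := conj_pm htf hc1 (hnorm s hs) (by
    have := hnorm s⁻¹ (χ.ker.inv_mem hs)
    rwa [inv_inv] at this)
  refine semidirect_of (K := χ.ker) (x := ⟨c, hc.1⟩) (b := ⟨s, hs⟩) ?_ ?_ ?_
  · intro y
    obtain ⟨i, j, hij⟩ := hgen y y.2
    exact ⟨i, j, Subtype.ext hij⟩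
  · intro i j hij
    have h1 : c ^ i * s ^ j = 1 := congrArg Subtype.val hij
    have h2 : P (c ^ i * s ^ j) = 0 := by rw [h1, hP.one]
    have h3 : P c = 0 := hc.2
    rw [hP _ (χ.ker.zpow_mem hc.1 i) _ (χ.ker.zpow_mem hs j), hP.zpow hc.1, hP.zpow hs, h3,
      mul_zero, zero_add] at h2
    have h4 : j = 0 := (mul_eq_zero.1 h2).resolve_right hPs
    refine ⟨?_, h4⟩
    by_contra hne
    rw [h4, zpow_zero, mul_one] at h1
    exact htf c hc1 i hne h1
  · rcases hpm with h | h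
    · exact Or.inl (Subtype.ext h)
    · exact Or.inr (Subtype.ext h)

theorem minus_case {κ : G} (hκ : lv χ κ = 0) (hκw : w κ = -1) {P : G → ℤ} (hP : AddOn H P)
    (hanti : ∀ x ∈ H, P (κ * x * κ⁻¹) = -P x) {z : G} (hz : z ∈ H) (hPz : P z ≠ 0) :
    ∃ φ : Multiplicative ℤ →* MulAut (Multiplicative ℤ),
      Nonempty (χ.ker ≃* Multiplicative ℤ ⋊[φ] Multiplicative ℤ) := by
  -- bookkeeping
  have hHlv : ∀ g ∈ H, lv χ g = 0 := fun g hg => ((hH g).1 hg).1
  have hHK : H ≤ χ.ker := fun x hx => mem_ker_lv.2 (hHlv x hx)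
  have hoff : ∀ y, lv χ y = 0 → y ∉ H → w y = -1 := by
    intro y hy hyH
    rcases Int.units_eq_one_or (w y) with h1 | h1
    · exact absurd ((hH y).2 ⟨hy, h1⟩) hyH
    · exact h1
  have hoffH : ∀ y, w y = -1 → y ∉ H := by
    intro y hy hyH
    rw [((hH y).1 hyH).2] at hy
    exact absurd hy (by decide)
  have hprod : ∀ x y, lv χ x = 0 → lv χ y = 0 → w x = -1 → w y = -1 → x * y ∈ H := by
    intro x y hx hy hwx hwy
    rw [hH, lv_mul, hx, hy, add_zero, map_mul, hwx, hwy]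
    exact ⟨rfl, by decide⟩
  have hwinv : ∀ y, w y = -1 → w y⁻¹ = -1 := by
    intro y hy
    rw [map_inv, hy]
    decide
  have hnormH : ∀ y, lv χ y = 0 → ∀ x ∈ H, y * x * y⁻¹ ∈ H := by
    intro y hy x hx
    rw [hH, lv_mul, lv_mul, lv_inv, hHlv x hx, map_mul, map_mul, map_inv, ((hH x).1 hx).2]
    exact ⟨by ring, by rw [mul_one, mul_inv_cancel]⟩
  have hanti' : ∀ y, lv χ y = 0 → w y = -1 → ∀ x ∈ H, P (y * x * y⁻¹) = -P x := by
    intro y hy hyw x hx
    have h1 : y * κ⁻¹ ∈ H := hprod _ _ hy (by rw [lv_inv, hκ, neg_zero]) hyw (hwinv κ hκw)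
    have h2 : y * x * y⁻¹ = (y * κ⁻¹) * (κ * x * κ⁻¹) * (y * κ⁻¹)⁻¹ := by group
    rw [h2, hP.conj (hnormH κ hκ x hx) h1, hanti x hx]
  let N := kerOn hP
  have hNK : N ≤ χ.ker := fun x hx => hHK hx.1
  have hthin : Thin N := by
    refine thin_of_shift hF ht hK (N := N) (fun g hg => hHlv g hg.1) (X := Set.univ)
      (z1 := z) (z2 := z) (hHlv z hz) (hHlv z hz) (fun _ _ _ _ => trivial)
      (fun _ => Iff.rfl) (fun _ => Iff.rfl) ?_ (fun y hy => absurd trivial hy)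
    intro y _ hy i hi h1
    have h2 : P (y * z ^ i * y⁻¹) = 0 := h1.2
    by_cases hyH : y ∈ H
    · rw [hP.conj (H.zpow_mem hz i) hyH, hP.zpow hz] at h2
      exact (mul_ne_zero hi hPz) h2
    · rw [hanti' y hy (hoff y hy hyH) _ (H.zpow_mem hz i), hP.zpow hz, neg_eq_zero] at h2
      exact (mul_ne_zero hi hPz) h2
  obtain ⟨c, hc, hcN⟩ := hthin.cyclic (fun g _ hg => htf g hg) (no_free_le hNK hno)
  obtain ⟨s, hs, hPs, hsN⟩ := hP.exists_min hz hPz
  have hgen : ∀ y ∈ H, ∃ i j : ℤ, y = c ^ i * s ^ j := by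
    intro y hy
    obtain ⟨q, hq⟩ := hsN y hy
    obtain ⟨k, hk⟩ := hcN _ hq
    exact ⟨k, q, by rw [← hk, inv_mul_cancel_right]⟩
  have hc1 : c ≠ 1 := by
    rintro rfl
    obtain ⟨g, hg, hgH⟩ := gen_of_le (H := H) (s := s) fun x hx => by
      obtain ⟨i, j, hij⟩ := hgen x hx
      exact ⟨j, by rw [hij, one_zpow, one_mul]⟩
    exact not_cyclic hF hex2 ht hK hH (fun g _ hg => htf g hg) hg hgH
  have hnorm : ∀ y, lv χ y = 0 → ∃ k : ℤ, y * c * y⁻¹ = c ^ k := by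
    intro y hy
    apply hcN
    refine ⟨hnormH y hy c hc.1, ?_⟩
    have h3 : P c = 0 := hc.2
    by_cases hyH : y ∈ H
    · rw [hP.conj hc.1 hyH, h3]
    · rw [hanti' y hy (hoff y hy hyH) c hc.1, h3, neg_zero]
  -- elements outside `H`
  have hsq : ∀ y, lv χ y = 0 → w y = -1 → ∃ j : ℤ, y * y = c ^ j ∧ j ≠ 0 := by
    intro y hy hyw
    have h1 : y * y ∈ H := hprod y y hy hy hyw hyw
    have h2 : P (y * y) = 0 := by
      have h3 := hanti' y hy hyw (y * y) h1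
      rw [← mul_assoc, mul_inv_cancel_right] at h3
      omega
    obtain ⟨j, hj⟩ := hcN (y * y) ⟨h1, h2⟩
    refine ⟨j, hj, ?_⟩
    rintro rfl
    rw [zpow_zero] at hj
    have hy1 : y ≠ 1 := by
      rintro rfl
      rw [map_one] at hyw
      exact absurd hyw (by decide)
    apply htf y hy1 2 two_ne_zero
    rw [zpow_two, hj]
  have hcomm : ∀ y, lv χ y = 0 → w y = -1 → y * c = c * y := by
    intro y hy hyw
    obtain ⟨j, hj, hj0⟩ := hsq y hy hyw
    rcases conj_pm htf hc1 (hnorm y hy) (by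
      have := hnorm y⁻¹ (by rw [lv_inv, hy, neg_zero])
      rwa [inv_inv] at this) with h1 | h1
    · rw [mul_inv_eq_iff_eq_mul] at h1
      exact h1
    · exfalso
      have h2 : y * c ^ j * y⁻¹ = c ^ j := by rw [← hj]; group
      rw [← conj_zpow, h1, inv_zpow] at h2
      apply htf c hc1 (2 * j) (by omega)
      rw [two_mul, zpow_add]
      nth_rewrite 1 [← h2]
      rw [inv_mul_cancel]
  have hcen : ∀ y, lv χ y = 0 → Commute y c := by
    intro y hy
    by_cases hyH : y ∈ H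
    · have h1 : y = (y * κ) * κ⁻¹ := by rw [mul_inv_cancel_right]
      have h2 : w (y * κ) = -1 := by rw [map_mul, ((hH y).1 hyH).2, one_mul, hκw]
      have h3 : Commute (y * κ) c := hcomm _ (by rw [lv_mul, hy, hκ, add_zero]) h2
      have h4 : Commute κ⁻¹ c := (show Commute κ c from hcomm κ hκ hκw).inv_left
      rw [h1]
      exact h3.mul_left h4
    · exact hcomm y hy (hoff y hy hyH)
  -- square roots of the generator
  have hroot : ∀ y, lv χ y = 0 → w y = -1 → ∃ i : ℤ, (y * c ^ i) * (y * c ^ i) = c := by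
    intro y hy hyw
    obtain ⟨j, hj, hj0⟩ := hsq y hy hyw
    have hcy : ∀ i : ℤ, (y * c ^ i) * (y * c ^ i) = c ^ (j + 2 * i) := by
      intro i
      have h1 : Commute y (c ^ i) := (hcen y hy).zpow_right i
      calc (y * c ^ i) * (y * c ^ i) = y * (c ^ i * y) * c ^ i := by group
        _ = y * (y * c ^ i) * c ^ i := by rw [h1.eq]
        _ = (y * y) * (c ^ i * c ^ i) := by group
        _ = c ^ (j + 2 * i) := by rw [hj, ← zpow_add, ← zpow_add]; congr 1; ring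
    rcases Int.even_or_odd' j with ⟨k, hk | hk⟩
    · exfalso
      have h1 := hcy (-k)
      rw [hk, show 2 * k + 2 * -k = 0 by ring, zpow_zero, ← zpow_two] at h1
      refine htf (y * c ^ (-k)) ?_ 2 two_ne_zero h1
      intro h2
      have h3 : w (y * c ^ (-k)) = -1 := by
        rw [map_mul, hyw, ((hH _).1 (H.zpow_mem hc.1 _)).2, mul_one]
      rw [h2, map_one] at h3
      exact absurd h3 (by decide)
    · refine ⟨-k, ?_⟩
      rw [hcy, hk, show 2 * k + 1 + 2 * -k = 1 by ring, zpow_one]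
  have hwc : w c = 1 := ((hH c).1 hc.1).2
  have hlc : lv χ c = 0 := hHlv c hc.1
  have hlci : ∀ i : ℤ, lv χ (c ^ i) = 0 := fun i => hHlv _ (H.zpow_mem hc.1 i)
  have hwci : ∀ i : ℤ, w (c ^ i) = 1 := fun i => ((hH _).1 (H.zpow_mem hc.1 i)).2
  have hls : lv χ s = 0 := hHlv s hs
  have hws : w s = 1 := ((hH s).1 hs).2
  obtain ⟨i0, hi0⟩ := hroot κ hκ hκw
  obtain ⟨i1, hi1⟩ := hroot (κ * s) (by rw [lv_mul, hκ, hls, add_zero])
    (by rw [map_mul, hκw, hws, mul_one])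
  set b : G := κ * c ^ i0 with hb
  set a : G := κ * s * c ^ i1 with ha
  have hlb : lv χ b = 0 := by rw [hb, lv_mul, hκ, hlci, add_zero]
  have hwb : w b = -1 := by rw [hb, map_mul, hκw, hwci, mul_one]
  have hla : lv χ a = 0 := by rw [ha, lv_mul, lv_mul, hκ, hls, hlci]; rfl
  have hwa : w a = -1 := by rw [ha, map_mul, map_mul, hκw, hws, hwci, mul_one, mul_one]
  set x : G := a * b⁻¹ with hx
  have hbK : b ∈ χ.ker := mem_ker_lv.2 hlb
  have hxH : x ∈ H := hprod _ _ hla (by rw [lv_inv, hlb, neg_zero]) hwa (hwinv b hwb)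
  have hconj : b * x * b⁻¹ = x⁻¹ := by
    have h1 : b * x * b⁻¹ = b * a * (b * b)⁻¹ := by rw [hx]; group
    rw [h1, hi0, ← hi1, hx]
    group
  have hconj' : b⁻¹ * x * b = x⁻¹ := by
    have h1 : x = b * x⁻¹ * b⁻¹ := by
      have := congrArg (fun y => y⁻¹) hconj
      simp only [mul_inv_rev, inv_inv] at this
      rw [← mul_assoc] at this
      exact this.symm
    calc b⁻¹ * x * b = b⁻¹ * (b * x⁻¹ * b⁻¹) * b := by rw [← h1]
      _ = x⁻¹ := by group
  have hPx : P x ≠ 0 := by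
    have h1 : x = κ * (s * c ^ (i1 - i0)) * κ⁻¹ := by
      rw [hx, ha, hb, mul_inv_rev, zpow_sub]
      group
    have h2 : P c = 0 := hc.2
    rw [h1, hanti _ (H.mul_mem hs (H.zpow_mem hc.1 _)), hP s hs _ (H.zpow_mem hc.1 _),
      hP.zpow hc.1, h2, mul_zero, add_zero]
    omega
  have hs' : s = x⁻¹ * b ^ (2 * (i0 - i1)) := by
    have h1 : b ^ (2 * (i0 - i1)) = c ^ (i0 - i1) := by
      rw [zpow_mul, zpow_two, hi0]
    rw [h1, ← hconj', hx]
    have h2 : b⁻¹ * (a * b⁻¹) * b = b⁻¹ * a := by group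
    have h3 : b⁻¹ * a = c ^ (-i0) * (s * c ^ i1) := by
      rw [hb, ha, mul_inv_rev, ← zpow_neg]
      group
    have h4 : Commute s c := hcen s hls
    rw [h2, h3]
    have h5 : Commute (c ^ (-i0)) s := (h4.zpow_right _).symm
    calc s = s * (c ^ (-i0) * c ^ i1 * c ^ (i0 - i1)) := by
          rw [← zpow_add, ← zpow_add, show -i0 + i1 + (i0 - i1) = 0 by ring, zpow_zero, mul_one]
      _ = (s * c ^ (-i0)) * c ^ i1 * c ^ (i0 - i1) := by group
      _ = c ^ (-i0) * (s * c ^ i1) * c ^ (i0 - i1) := by rw [← h5.eq]; group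
  have hbc : c = b ^ (2 : ℤ) := by rw [zpow_two, hi0]
  -- products of powers
  have hxb2 : ∀ l : ℤ, Commute x (b ^ (2 * l)) := by
    intro l
    rw [zpow_mul, zpow_two, hi0]
    exact (hcen x (hHlv x hxH)).zpow_right l
  have hgenH : ∀ y ∈ H, ∃ i j : ℤ, y = x ^ i * b ^ j := by
    intro y hy
    obtain ⟨k, l, hkl⟩ := hgen y hy
    refine ⟨-l, 2 * (i0 - i1) * l + 2 * k, ?_⟩
    have h1 : s ^ l = x ^ (-l) * b ^ (2 * (i0 - i1) * l) := by
      have h2 : Commute x⁻¹ (b ^ (2 * (i0 - i1))) := (hxb2 _).inv_left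
      rw [hs', h2.mul_zpow, inv_zpow, ← zpow_neg, ← zpow_mul]
    have h2 : c ^ k = b ^ (2 * k) := by rw [hbc, ← zpow_mul]
    rw [hkl, h1, h2, zpow_add, ← mul_assoc, ← mul_assoc]
    have h3 : Commute (b ^ (2 * k)) (x ^ (-l)) := ((hxb2 k).zpow_left _).symm
    have h4 : Commute (b ^ (2 * k)) (b ^ (2 * (i0 - i1) * l)) :=
      (Commute.refl b).zpow_zpow _ _
    rw [h3.eq, mul_assoc, h4.eq, ← mul_assoc]
  refine semidirect_of (K := χ.ker) (x := ⟨x, hHK hxH⟩) (b := ⟨b, hbK⟩) ?_ ?_ ?_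
  · intro y
    have hy : lv χ (y : G) = 0 := mem_ker_lv.1 y.2
    by_cases hyH : (y : G) ∈ H
    · obtain ⟨i, j, hij⟩ := hgenH y hyH
      exact ⟨i, j, Subtype.ext hij⟩
    · have h1 : (y : G) * b⁻¹ ∈ H :=
        hprod _ _ hy (by rw [lv_inv, hlb, neg_zero]) (hoff _ hy hyH) (hwinv b hwb)
      obtain ⟨i, j, hij⟩ := hgenH _ h1
      refine ⟨i, j + 1, Subtype.ext ?_⟩
      change (y : G) = x ^ i * b ^ (j + 1)
      rw [zpow_add_one, ← mul_assoc, ← hij, inv_mul_cancel_right]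
  · intro i j hij
    have h1 : x ^ i * b ^ j = 1 := congrArg Subtype.val hij
    have h2 : x ^ (-i) * b ^ j = 1 := by
      have h3 : b * (x ^ i * b ^ j) * b⁻¹ = x ^ (-i) * b ^ j := by
        have h4 : b * x ^ i * b⁻¹ = x ^ (-i) := by
          rw [← conj_zpow, hconj, inv_zpow, zpow_neg]
        calc b * (x ^ i * b ^ j) * b⁻¹ = (b * x ^ i * b⁻¹) * b ^ j := by group
          _ = _ := by rw [h4]
      rw [← h3, h1]
      group
    have h3 : x ^ (2 * i) = 1 := by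
      have h4 : x ^ i = x ^ (-i) := mul_right_cancel (h1.trans h2.symm)
      rw [two_mul, zpow_add]
      nth_rewrite 1 [h4]
      rw [zpow_neg, inv_mul_cancel]
    have h4 : P (x ^ (2 * i)) = 0 := by rw [h3, hP.one]
    rw [hP.zpow hxH] at h4
    have h5 : i = 0 := by
      have := (mul_eq_zero.1 h4).resolve_right hPx
      omega
    refine ⟨h5, ?_⟩
    rw [h5, zpow_zero, one_mul] at h1
    by_contra hne
    refine htf b ?_ j hne h1
    intro h6
    rw [h6, map_one] at hwb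
    exact absurd hwb (by decide)
  · exact Or.inr (Subtype.ext hconj)

end main

end Pool.Agent.H26.PD
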