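import Pool.Agent.H26.PD.H2

/-!
Subgroups `N` of the kernel of a character with `H²(N; M) = 0` for all `M`: a derivation which is not
inner on any infinite subgroup.
-/

set_option autoImplicit false

namespace Pool.Agent.H26.PD

open Pool.Agent.Helper386.PD3
open scoped Classical Matrix

noncomputable section

variable {G : Type} [Group G] {M : Type} [AddCommGroup M]

/-- There is a derivation from `N` to a free module which is not inner on infinite subgroups. -/
def Thin (N : Subgroup G) : Prop :=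
  ∃ (n : ℕ) (δ : G → (Fin n → RR G)), (∀ g ∈ N, ∀ h ∈ N, δ (g * h) = δ g + gof g • δ h) ∧
    ∀ L : Subgroup G, L ≤ N → Infinite L → ∀ v : Fin n → RR G,
      ¬ ∀ g ∈ L, δ g = gof g • v - v

theorem Thin.mono {N N' : Subgroup G} (h : Thin N) (hN : N' ≤ N) : Thin N' := by
  obtain ⟨n, δ, h1, h2⟩ := h
  exact ⟨n, δ, fun g hg k hk => h1 g (hN hg) k (hN hk), fun L hL => h2 L (hL.trans hN)⟩

/-- an element of the group ring invariant under infinitely many elements vanishes -/
theorem eq_zero_of_inv {L : Subgroup G} (hL : Infinite L) {r : RR G}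
    (h : ∀ g ∈ L, gof g * r = r) : r = 0 := by
  by_contra hr
  have hr' : r.coeff ≠ 0 := fun h0 => hr (MonoidAlgebra.coeff_injective h0)
  obtain ⟨x, hx⟩ := Finsupp.ne_iff.1 hr'
  have h1 : ∀ g : L, r.coeff ((g : G) * x) = r.coeff x := by
    intro g
    have h2 := congrArg (fun y : RR G => y.coeff ((g : G) * x)) (h g g.2)
    change (gof (g : G) * r).coeff ((g : G) * x) = r.coeff ((g : G) * x) at h2
    rw [← h2]
    change (MonoidAlgebra.single (g : G) (1 : ℤ) * r).coeff ((g : G) * x) = _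
    rw [MonoidAlgebra.coeff_single_mul_apply, inv_mul_cancel_left, one_mul]
  have h2 : Set.InjOn (fun g : L => (g : G) * x) Set.univ := by
    intro g _ g' _ h
    exact Subtype.ext (mul_right_cancel h)
  have h3 : (Set.range fun g : L => (g : G) * x).Finite := by
    refine r.coeff.support.finite_toSet.subset ?_
    rintro _ ⟨g, rfl⟩
    rw [Finset.mem_coe, Finsupp.mem_support_iff]
    change r.coeff ((g : G) * x) ≠ 0
    rw [h1]
    exact hx
  have h4 : Function.Injective (fun g : L => (g : G) * x) := fun g g' h =>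
    Subtype.ext (mul_right_cancel h)
  exact (Set.infinite_range_of_injective h4) h3

section sec

variable {n : ℕ} {w : G →* ℤˣ} {e0 e1 e2 e3 d0 d1 d2 : MR G n}

/-- the cycles in degree one -/
def Z1 (d1 : MR G n) : Submodule (RR G) (Fin n → RR G) := LinearMap.range (Matrix.vecMulLinear d1)

theorem mem_Z1 {d1 : MR G n} {v : Fin n → RR G} : v ∈ Z1 d1 ↔ ∃ u, u ᵥ* d1 = v := Iff.rfl

/-- the action on the cycles -/
def aZ (d1 : MR G n) : G →* Module.End ℤ (Z1 d1) where
  toFun g :=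
    { toFun := fun v => gof g • v
      map_add' := fun _ _ => smul_add _ _ _
      map_smul' := fun k v => smul_comm _ _ _ }
  map_one' := by
    refine LinearMap.ext fun v => ?_
    change gof (1 : G) • v = v
    rw [gof_one, one_smul]
  map_mul' g h := by
    refine LinearMap.ext fun v => ?_
    change gof (g * h) • v = gof g • gof h • v
    rw [gof_mul, mul_smul]

/-- the tautological cocycle -/
def tc (d1 : MR G n) (j : Fin n) : G → Z1 d1 := fun x =>
  ⟨gof x • d1 j, gof x • Pi.single j 1, by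
    rw [Matrix.vecMulLinear_apply, Matrix.smul_vecMul, Matrix.single_one_vecMul]
    rfl⟩

theorem tc_mem (N : Subgroup G) (d1 : MR G n) (j : Fin n) : tc d1 j ∈ EqS N (aZ d1) := by
  intro g _ x
  apply Subtype.ext
  change gof (g * x) • d1 j = gof g • gof x • d1 j
  rw [gof_mul, mul_smul]

theorem rho_tc (d1 : MR G n) (r : RR G) (j : Fin n) (x : G) :
    ((rho (Z1 d1) r (tc d1 j) x : Z1 d1) : Fin n → RR G) = (gof x * r) • d1 j := by
  induction r using rr_ind with
  | h1 g =>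
    rw [rho_of_apply, ← gof_mul]
    rfl
  | h2 a b ha hb =>
    rw [map_add, LinearMap.add_apply, Pi.add_apply, Submodule.coe_add, ha, hb, mul_add, add_smul]
  | h3 a ha =>
    rw [map_neg, LinearMap.neg_apply, Pi.neg_apply, Submodule.coe_neg, ha, mul_neg, neg_smul]

theorem mv_tc (d1 A : MR G n) (i : Fin n) (x : G) :
    ((mv A (tc d1) i x : Z1 d1) : Fin n → RR G) = gof x • (A * d1) i := by
  rw [mv_apply, Finset.sum_apply, Submodule.coe_sum]
  have h1 : (A * d1) i = ∑ j, A i j • d1 j := by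
    have : (A * d1) i = (A i) ᵥ* d1 := rfl
    rw [this]
    exact Matrix.vecMul_eq_sum _ _
  rw [h1, Finset.smul_sum]
  exact Finset.sum_congr rfl fun j _ => by rw [rho_tc, mul_smul]

theorem thin_of_aug (hF : Full w e0 e1 e2 e3 d0 d1 d2) {χ : G →* Multiplicative ℤ} {t : G}
    (ht : lv χ t = 1) (hK : χ.ker.FG) {N : Subgroup G} (hN : ∀ g ∈ N, lv χ g = 0)
    (hA : V0 χ N (aZ d1) ≤ Aug w (V0 χ N (aZ d1))) : Thin N := by
  obtain ⟨cc, U, Y, hD⟩ := full_exists_dual hF
  have hc : ∀ i, tc d1 i ∈ EqS N (aZ d1) := tc_mem N d1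
  have he : mv e2 (tc d1) = tc d1 := by
    funext i x
    apply Subtype.ext
    rw [mv_tc, hF.low.e2d1]
    rfl
  have hd : mv d2 (tc d1) = 0 := by
    funext i x
    apply Subtype.ext
    rw [mv_tc, full_dd2 hF]
    change gof x • (0 : Fin n → RR G) = 0
    rw [smul_zero]
  -- the class lies in `V0`
  have hβ : cls χ cc d2 (tc d1) ∈ Aug w (V0 χ N (aZ d1)) := by
    apply hA
    have hp : ∀ i, cut (Z1 d1) χ (tc d1 i) ∈ Wp χ N (aZ d1) := fun i => cut_mem hN (hc i)
    have hm : ∀ i, tc d1 i - cut (Z1 d1) χ (tc d1 i) ∈ Wp χ⁻¹ N (aZ d1) := fun i =>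
      sub_cut_mem hN (hc i)
    have h1 : mv d2 (fun i => cut (Z1 d1) χ (tc d1 i)) =
        -mv d2 (fun i => tc d1 i - cut (Z1 d1) χ (tc d1 i)) := by
      rw [eq_neg_iff_add_eq_zero, ← mv_add, ← hd]
      congr 1
      funext i
      exact add_sub_cancel _ _
    rw [cls, bet]
    refine Submodule.sum_mem (V0 χ N (aZ d1)) fun j _ =>
      Submodule.smul_mem (V0 χ N (aZ d1)) _ (Submodule.mem_inf.2 ⟨?_, ?_⟩)
    · exact (stable_Wp _ _ _).mv _ hp j
    · rw [h1]
      exact Submodule.neg_mem _ ((stable_Wp _ _ _).mv _ hm j)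
  obtain ⟨b, hb, hb'⟩ := cls_inj hF hD ht hK hN hc he hd hβ
  -- the retraction
  let ev : (Fin n → RR G) →+ Z1 d1 :=
    { toFun := fun v => ∑ j, rho (Z1 d1) (v j) (b j) 1
      map_zero' := by simp
      map_add' := fun v v' => by
        rw [← Finset.sum_add_distrib]
        exact Finset.sum_congr rfl fun j _ => by
          rw [Pi.add_apply, map_add, LinearMap.add_apply, Pi.add_apply] }
  have hev : ∀ v, ev v = ∑ j, rho (Z1 d1) (v j) (b j) 1 := fun _ => rfl
  have hevg : ∀ g ∈ N, ∀ v, ((ev (gof g • v) : Z1 d1) : Fin n → RR G) =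
      gof g • ((ev v : Z1 d1) : Fin n → RR G) := by
    intro g hg v
    rw [hev, hev, Submodule.coe_sum, Submodule.coe_sum, Finset.smul_sum]
    refine Finset.sum_congr rfl fun j _ => ?_
    have h1 : rho (Z1 d1) ((gof g • v) j) (b j) 1 = rho (Z1 d1) (v j) (b j) (g * 1) := by
      rw [Pi.smul_apply, smul_eq_mul, map_mul]
      change rho (Z1 d1) (gof g) (rho (Z1 d1) (v j) (b j)) 1 = _
      rw [rho_of_apply, one_mul, mul_one]
    rw [h1, (stable_EqS N (aZ d1)).rho (v j) _ (hb j) g hg 1]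
    rfl
  have hevd : ∀ u, ((ev (u ᵥ* d1) : Z1 d1) : Fin n → RR G) = u ᵥ* d1 := by
    intro u
    have h1 : ev (u ᵥ* d1) = ∑ i, rho (Z1 d1) (u i) (tc d1 i) 1 := by
      rw [hev]
      have h2 : ∀ j, rho (Z1 d1) ((u ᵥ* d1) j) (b j) 1 =
          ∑ i, rho (Z1 d1) (u i) (rho (Z1 d1) (d1 i j) (b j)) 1 := by
        intro j
        change rho (Z1 d1) (∑ i, u i * d1 i j) (b j) 1 = _
        rw [map_sum, LinearMap.sum_apply, Finset.sum_apply]
        exact Finset.sum_congr rfl fun i _ => by rw [map_mul]; rfl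
      simp only [h2]
      rw [Finset.sum_comm]
      refine Finset.sum_congr rfl fun i _ => ?_
      rw [← Finset.sum_apply, ← map_sum, ← hb']
      rfl
    rw [h1, Submodule.coe_sum]
    have h3 : u ᵥ* d1 = ∑ i, u i • d1 i := Matrix.vecMul_eq_sum _ _
    rw [h3]
    exact Finset.sum_congr rfl fun i _ => by rw [rho_tc, gof_one, one_mul]
  have hZd : ∀ v : Z1 d1, (v : Fin n → RR G) ᵥ* d0 = 0 := by
    rintro ⟨_, u, rfl⟩
    change (u ᵥ* d1) ᵥ* d0 = 0
    rw [Matrix.vecMul_vecMul, hF.low.dd, Matrix.vecMul_zero]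
  obtain ⟨ε, hε, ⟨u0, hu0, hεu0⟩, hεd, hεex⟩ := hF.low.aug
  have hmem : ∀ g : G, ∃ v, v ᵥ* d0 = gof g • u0 - u0 := by
    intro g
    refine hεex _ ?_ ?_
    · rw [Matrix.sub_vecMul, Matrix.smul_vecMul, hu0]
    · rw [map_sub, hε, sub_self]
  choose y hy using hmem
  let s : (Fin n → RR G) → (Fin n → RR G) := fun v =>
    v ᵥ* e1 - ((ev (v ᵥ* e1) : Z1 d1) : Fin n → RR G)
  have hs : ∀ v v', v ᵥ* d0 = v' ᵥ* d0 → s v = s v' := by
    intro v v' h
    obtain ⟨u, hu⟩ := hF.low.ex1 ((v - v') ᵥ* e1) (by rw [Matrix.vecMul_vecMul, hF.low.ee1])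
      (by rw [Matrix.vecMul_vecMul, hF.low.e1d0, Matrix.sub_vecMul, h, sub_self])
    have h1 := hevd u
    rw [hu, Matrix.sub_vecMul, map_sub, Submodule.coe_sub] at h1
    change v ᵥ* e1 - _ = v' ᵥ* e1 - _
    rw [sub_eq_sub_iff_sub_eq_sub]
    exact h1.symm
  have hsd : ∀ v, s v ᵥ* d0 = v ᵥ* d0 := by
    intro v
    change (v ᵥ* e1 - _) ᵥ* d0 = _
    rw [Matrix.sub_vecMul, hZd, sub_zero, Matrix.vecMul_vecMul, hF.low.e1d0]
  have hsadd : ∀ v v', s (v + v') = s v + s v' := by
    intro v v'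
    change (v + v') ᵥ* e1 - _ = (v ᵥ* e1 - _) + (v' ᵥ* e1 - _)
    rw [Matrix.add_vecMul, map_add, Submodule.coe_add]
    abel
  have hsg : ∀ g ∈ N, ∀ v, s (gof g • v) = gof g • s v := by
    intro g hg v
    change (gof g • v) ᵥ* e1 - _ = gof g • (v ᵥ* e1 - _)
    rw [Matrix.smul_vecMul, hevg g hg, smul_sub]
  refine ⟨n, fun g => s (y g), fun g hg h _ => ?_, fun L _ hLi v hv => ?_⟩
  · rw [← hsg g hg, ← hsadd]
    apply hs
    rw [hy, Matrix.add_vecMul, Matrix.smul_vecMul, hy, hy, gof_mul, mul_smul, smul_sub]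
    abel
  · have h1 : ∀ g ∈ L, gof g • (u0 - v ᵥ* d0) = u0 - v ᵥ* d0 := by
      intro g hg
      have h2 : s (y g) = gof g • v - v := hv g hg
      have h3 := congrArg (fun x => x ᵥ* d0) h2
      simp only [hsd, hy, Matrix.sub_vecMul, Matrix.smul_vecMul] at h3
      rw [smul_sub]
      have h4 : gof g • u0 - gof g • (v ᵥ* d0) - (u0 - v ᵥ* d0) =
          (gof g • u0 - u0) - (gof g • v ᵥ* d0 - v ᵥ* d0) := by abel
      rw [← sub_eq_zero, h4, h3, sub_self]
    have h5 : u0 = v ᵥ* d0 := by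
      rw [← sub_eq_zero]
      funext i
      apply eq_zero_of_inv hLi
      intro g hg
      exact congrFun (h1 g hg) i
    rw [h5, hεd] at hεu0
    exact absurd hεu0 (by norm_num)

end sec

end

end Pool.Agent.H26.PD
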