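import Pool.Agent.H26.PD.Thin
import Pool.Agent.H26.PD.Ends

/-!
Finitely generated infinite subgroups of a thin subgroup contain a free group of rank two or are
virtually infinite cyclic.
-/

set_option autoImplicit false

namespace Pool.Agent.H26.PD

open Pool.Agent.Helper386.PD3
open scoped Classical Matrix

variable {G : Type} [Group G]

theorem coeff_gof_smul (g : G) (r : RR G) (x : G) : (gof g * r).coeff x = r.coeff (g⁻¹ * x) := by
  change (MonoidAlgebra.single g (1 : ℤ) * r).coeff x = _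
  rw [MonoidAlgebra.coeff_single_mul_apply, one_mul]

theorem Thin.exists_fun {N : Subgroup G} (h : Thin N) {L : Subgroup G} (hL : L ≤ N) (hfg : L.FG)
    (hinf : Infinite L) : ∃ F : L → ℤ, (∀ s, {x | F (s * x) ≠ F x}.Finite) ∧
      ∀ v, {x | F x ≠ v}.Infinite := by
  obtain ⟨n, δ, h1, h2⟩ := h
  let F : G → Fin n → L → ℤ := fun x i g => -(δ g i).coeff (g * x)
  have hcoc : ∀ g ∈ L, ∀ k ∈ L, ∀ i x, (δ (g * k) i).coeff x =
      (δ g i).coeff x + (δ k i).coeff (g⁻¹ * x) := by
    intro g hg k hk i x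
    rw [h1 g (hL hg) k (hL hk)]
    change (δ g i + gof g * δ k i).coeff x = _
    rw [← coeff_gof_smul]
    rfl
  have hF : ∀ x i s, {y | F x i (s * y) ≠ F x i y}.Finite := by
    intro x i s
    have h3 : {y : L | F x i (s * y) ≠ F x i y} ⊆
        (fun y : L => (s : G) * y * x) ⁻¹' ((δ s i).coeff.support : Set G) := by
      intro y hy
      rw [Set.mem_preimage, Finset.mem_coe, Finsupp.mem_support_iff]
      intro h0
      apply hy
      change -(δ ((s : G) * y) i).coeff ((s : G) * y * x) = -(δ y i).coeff (y * x)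
      rw [hcoc s s.2 y y.2, h0, zero_add, mul_assoc, inv_mul_cancel_left]
    refine Set.Finite.subset ?_ h3
    refine Set.Finite.preimage ?_ (Finset.finite_toSet _)
    intro y _ y' _ hyy
    exact Subtype.ext (mul_left_cancel (mul_right_cancel hyy))
  by_contra hc
  push Not at hc
  have hv : ∀ x i, ∃ v, {g | F x i g ≠ v}.Finite := fun x i => hc (F x i) (hF x i)
  choose V hV using hv
  have huniq : ∀ (f : L → ℤ) (v v' : ℤ), {g | f g ≠ v}.Finite → {g | f g ≠ v'}.Finite → v = v' := by
    intro f v v' hf hf'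
    by_contra hne
    have h3 : (Set.univ : Set L).Finite := (hf.union hf').subset fun g _ => by
      by_cases h4 : f g = v
      · right
        change f g ≠ v'
        rw [h4]
        exact hne
      · exact Or.inl h4
    exact (Set.infinite_univ_iff.2 hinf) h3
  have hδ1 : ∀ i, δ 1 i = 0 := by
    intro i
    have h3 := h1 1 N.one_mem 1 N.one_mem
    rw [mul_one, gof_one, one_smul] at h3
    have h4 : δ 1 = 0 := by
      have : δ 1 + 0 = δ 1 + δ 1 := by rw [add_zero]; exact h3
      exact (add_left_cancel this).symm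
    rw [h4]
    rfl
  have hinv : ∀ g ∈ L, ∀ i x, (δ g⁻¹ i).coeff x = -(δ g i).coeff (g * x) := by
    intro g hg i x
    have h3 := hcoc g hg g⁻¹ (L.inv_mem hg) i (g * x)
    rw [mul_inv_cancel, hδ1, inv_mul_cancel_left] at h3
    change (0 : ℤ) = _ at h3
    omega
  -- relation for `V`
  have hVrel : ∀ k ∈ L, ∀ i x, V (k⁻¹ * x) i = V x i - (δ k i).coeff x := by
    intro k hk i x
    refine huniq (F (k⁻¹ * x) i) _ _ (hV _ _) ?_
    have h3 : {g | F (k⁻¹ * x) i g ≠ V x i - (δ k i).coeff x} ⊆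
        (fun g : L => g * ⟨k, hk⟩⁻¹) ⁻¹' {g | F x i g ≠ V x i} := by
      intro g hg hg'
      apply hg
      change -(δ ((g : G) * k⁻¹) i).coeff ((g : G) * k⁻¹ * x) = V x i at hg'
      change -(δ g i).coeff ((g : G) * (k⁻¹ * x)) = _
      have h4 := hcoc (g * k⁻¹) (L.mul_mem g.2 (L.inv_mem hk)) k hk i (g * k⁻¹ * x)
      rw [inv_mul_cancel_right, inv_mul_cancel_left] at h4
      rw [← hg', ← mul_assoc, h4]
      ring
    refine Set.Finite.subset (Set.Finite.preimage ?_ (hV x i)) h3
    intro y _ y' _ hyy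
    exact mul_right_cancel hyy
  -- the supports
  obtain ⟨S, hS⟩ := hfg
  have hSL : ∀ s ∈ S, s ∈ L := fun s hs => by
    rw [← hS]
    exact Subgroup.subset_closure hs
  let T : Finset G := S.biUnion fun s => Finset.univ.biUnion fun i => (δ s i).coeff.support
  have hT : ∀ k ∈ L, ∀ i x, (δ k i).coeff x ≠ 0 → ∃ g ∈ L, ∃ y ∈ T, g * y = x := by
    intro k hk
    have hk' : k ∈ Subgroup.closure (S : Set G) := by rwa [hS]
    clear hk
    induction hk' using Subgroup.closure_induction with
    | mem s hs =>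
      intro i x hx
      refine ⟨1, L.one_mem, x, ?_, one_mul _⟩
      rw [Finset.mem_biUnion]
      refine ⟨s, hs, ?_⟩
      rw [Finset.mem_biUnion]
      exact ⟨i, Finset.mem_univ _, Finsupp.mem_support_iff.2 hx⟩
    | one =>
      intro i x hx
      rw [hδ1] at hx
      exact absurd rfl hx
    | mul g k hg hk ihg ihk =>
      intro i x hx
      rw [hS] at hg hk
      rw [hcoc g hg k hk] at hx
      by_cases h3 : (δ g i).coeff x = 0
      · rw [h3, zero_add] at hx
        obtain ⟨g', hg', y, hy, hyx⟩ := ihk i _ hx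
        exact ⟨g * g', L.mul_mem hg hg', y, hy, by rw [mul_assoc, hyx, mul_inv_cancel_left]⟩
      · exact ihg i x h3
    | inv g hg ih =>
      intro i x hx
      rw [hS] at hg
      rw [hinv g hg] at hx
      obtain ⟨g', hg', y, hy, hyx⟩ := ih i _ (by simpa using hx)
      exact ⟨g⁻¹ * g', L.mul_mem (L.inv_mem hg) hg', y, hy, by
        rw [mul_assoc, hyx, inv_mul_cancel_left]⟩
  have hVT : ∀ i x, V x i ≠ 0 → ∃ g ∈ L, ∃ y ∈ T, g * y = x := by
    intro i x hx
    by_contra hno
    push Not at hno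
    apply hx
    refine huniq (F x i) _ _ (hV _ _) ?_
    have : {g | F x i g ≠ 0} = ∅ := by
      rw [Set.eq_empty_iff_forall_notMem]
      intro g hg
      have hg' : (δ g i).coeff (g * x) ≠ 0 := fun h0 => hg (by
        change -(δ g i).coeff (g * x) = 0
        rw [h0, neg_zero])
      obtain ⟨g', hg', y, hy, hyx⟩ := hT g g.2 i _ hg'
      refine hno ((g : G)⁻¹ * g') (L.mul_mem (L.inv_mem g.2) hg') y hy ?_
      rw [mul_assoc, hyx, inv_mul_cancel_left]
    rw [this]
    exact Set.finite_empty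
  have hVfin : ∀ i, {x | V x i ≠ 0}.Finite := by
    intro i
    have h3 : {x | V x i ≠ 0} ⊆ ⋃ y ∈ T, (fun g : L => (g : G) * y) '' {g | F y i g ≠ V y i} := by
      intro x hx
      obtain ⟨g, hg, y, hy, rfl⟩ := hVT i x hx
      refine Set.mem_biUnion hy ⟨⟨g, hg⟩, ?_, rfl⟩
      intro h4
      apply hx
      change -(δ g i).coeff (g * y) = V y i at h4
      have h5 := hVrel g⁻¹ (L.inv_mem hg) i y
      rw [inv_inv, hinv g hg, h4] at h5
      rw [h5, sub_self]
    refine Set.Finite.subset (T.finite_toSet.biUnion fun y _ => ?_) h3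
    exact (hV y i).image _
  -- the derivation is inner
  let u : Fin n → RR G := fun i => ⟨Finsupp.ofSupportFinite (fun x => -V x i) (by
    refine (hVfin i).subset fun x hx => ?_
    intro h0
    apply hx
    change -V x i = 0
    rw [h0, neg_zero])⟩
  refine h2 L hL hinf u fun g hg => ?_
  funext i
  apply MonoidAlgebra.coeff_injective
  ext x
  have h3 : ((gof g • u - u) i).coeff x = (gof g * u i).coeff x - (u i).coeff x := rfl
  rw [h3, coeff_gof_smul]
  change (δ g i).coeff x = -V (g⁻¹ * x) i - -V x i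
  rw [hVrel g hg]
  ring

theorem Thin.ends {N : Subgroup G} (h : Thin N) {L : Subgroup G} (hL : L ≤ N) (hfg : L.FG)
    (hinf : Infinite L) : (∃ F : FreeGroup (Fin 2) →* L, Function.Injective F) ∨
      ∃ h : L, (∀ k : ℤ, k ≠ 0 → h ^ k ≠ 1) ∧ ∃ T : Set L, T.Finite ∧ ∀ g, ∃ k : ℤ, h ^ k * g ∈ T := by
  obtain ⟨F, h1, h2⟩ := h.exists_fun hL hfg hinf
  exact ends_dichotomy ((Group.fg_iff_subgroup_fg L).2 hfg) F h1 h2

end Pool.Agent.H26.PD
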